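import Pool.Agent.Lib.MP_7c15de_co.TH.Stm

/-!
# MP_7c15de_co, [TH dg]: basic facts on degrees
-/

set_option autoImplicit false

namespace Pool.Agent.Lib.MP_7c15de_co.TH

open Finset Pool.Agent.Lib.MP_7c15de_co

private theorem dg_eq_degree {V : Type} [Fintype V] (T : SimpleGraph V) [DecidableRel T.Adj]
    (x : V) : dg T x = T.degree x := by
  classical
  unfold dg
  rw [Set.ncard_eq_toFinset_card', ← SimpleGraph.card_neighborSet_eq_degree, Set.toFinset_card]

private theorem dg_one {V : Type} (T : SimpleGraph V) (x : V) (h : dg T x = 1) :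
    ∃ y, ∀ z, T.Adj x z ↔ z = y := by
  obtain ⟨y, hy⟩ := Set.ncard_eq_one.1 h
  refine ⟨y, fun z => ?_⟩
  rw [← SimpleGraph.mem_neighborSet, hy, Set.mem_singleton_iff]

theorem p_dg : S_dg := by
  intro V _ _ T
  classical
  refine ⟨?_, ?_, ?_, ?_, ?_, ?_⟩
  · intro _ x
    exact dg_eq_degree T x
  · intro hT h2 x
    haveI : Nontrivial V := Fintype.one_lt_card_iff_nontrivial.1 h2
    rw [dg_eq_degree]
    exact hT.1.preconnected.degree_pos_of_nontrivial x
  · intro hT X hX
    have h := sum_deg_class T hT X hX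
    rw [← h]
    congr 1
    exact Finset.sum_congr rfl fun x _ => dg_eq_degree T x
  · intro x s hs
    have : T.neighborSet x = (s : Set V) := by
      ext y
      rw [SimpleGraph.mem_neighborSet, hs, Finset.mem_coe]
    unfold dg
    rw [this, Set.ncard_coe_finset]
  · intro x h
    exact dg_one T x h
  · intro x y h hxy z
    obtain ⟨w, hw⟩ := dg_one T x h
    rw [hw, (hw y).1 hxy]

end Pool.Agent.Lib.MP_7c15de_co.TH
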