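import Pool.Agent.Lib.MP_7c15de_co.TH.Stm

set_option autoImplicit false

namespace Pool.Agent.Lib.MP_7c15de_co.TH

open Finset Pool.Agent.Lib.MP_7c15de_co

/-- small integers congruent mod `N` are equal -/
private theorem pA_small (N : ℕ) (s t : ℤ) (hst : |s - t| < N) (h : s ≡ t [ZMOD N]) : s = t := by
  have h1 : (N : ℤ) ∣ s - t := h.symm.dvd
  have := Int.eq_zero_of_abs_lt_dvd h1 hst
  omega

theorem p_A (hdg : S_dg) (hcrit : S_crit) (hcov : S_cov) (hlocF : S_locF) (henum : S_enum)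
    (hlocL : S_locL) (hgame : S_game) (hlab : S_lab) (hcovS : S_covS) : S_A := by
  classical
  intro C η hη
  obtain ⟨J, hJ⟩ := hgame C η hη
  refine ⟨J, ?_⟩
  intro M0 hM0 hdiv
  obtain ⟨K, Bf, hBf, hG⟩ := hJ M0 hM0 hdiv
  refine ⟨K, ?_⟩
  intro V _ _ T hT X hbip hXY hV m k hm hM0k N hN hcap
  have hne : Nonempty V := by
    rw [← Fintype.card_pos_iff]
    omega
  obtain ⟨hdg1, hdg2, hdg3, hdg4, hdg5, hdg6⟩ := hdg V T
  have hdeg : ∀ x, T.degree x = dg T x := fun x => (hdg1 _ x).symm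
  -- the plan
  set N' : V → ℕ := fun x => if C ≤ dg T x then N x else dg T x with hN'
  have hN'1 : ∀ x, C ≤ dg T x → N' x = N x := fun x hx => by simp only [hN', if_pos hx]
  have hN'2 : ∀ x, ¬ C ≤ dg T x → N' x = dg T x := fun x hx => by simp only [hN', if_neg hx]
  obtain ⟨Q, hQ⟩ := plan_exists T hT X hbip hXY hV N' (by
    intro x hx h2
    rw [hdeg x] at h2 ⊢
    by_cases hC : C ≤ dg T x
    · rw [hN'1 x hC]
      exact (hN x hx hC h2).2
    · rw [hN'2 x hC]
      omega)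
  have hQ2 : ∀ x ∈ Q.M, 2 ≤ dg T x := fun x hx => by
    rw [← hdeg x]
    exact hQ x hx
  have hleaf : ∀ x ∈ X, x ∉ Q.M → dg T x = 1 := by
    intro x hx hxM
    obtain ⟨y, hy⟩ := Q.leaf_ex x hx hxM
    have := hdg4 x {y} (fun z => by
      rw [mem_singleton]
      exact ⟨fun hz => Q.leaf_adj x hx hxM z y hz hy, fun hz => hz ▸ hy⟩)
    rw [this, card_singleton]
  have hM : ∀ x ∈ X, (x ∈ Q.M ↔ 2 ≤ dg T x) := by
    intro x hx
    refine ⟨hQ2 x, fun h => ?_⟩
    by_contra hxM
    have := hleaf x hx hxM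
    omega
  have hparch : ∀ x ∈ Q.M, Q.par x ∉ Q.ch x := by
    intro x hx hmem
    exact lt_irrefl _ (Q.μ_par x hx _ hmem)
  have hdgM : ∀ x ∈ Q.M, dg T x = (Q.ch x).card + 1 := by
    intro x hx
    rw [hdg4 x (insert (Q.par x) (Q.ch x)) (fun z => by
      rw [mem_insert]
      exact Q.adj_iff x hx z), card_insert_of_notMem (hparch x hx)]
  set ML : Finset V := Q.M.filter (fun x => C ≤ dg T x) with hML
  set MS : Finset V := Q.M.filter (fun x => dg T x < C) with hMS
  have memL : ∀ x, x ∈ ML ↔ x ∈ Q.M ∧ C ≤ dg T x := fun x => by rw [hML, mem_filter]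
  have memS : ∀ x, x ∈ MS ↔ x ∈ Q.M ∧ dg T x < C := fun x => by rw [hMS, mem_filter]
  have memU : ∀ x, x ∈ ML ∪ MS ↔ x ∈ Q.M := by
    intro x
    rw [mem_union, memL, memS]
    constructor
    · rintro (h | h) <;> exact h.1
    · intro h
      rcases le_or_gt C (dg T x) with h1 | h1
      · exact Or.inl ⟨h, h1⟩
      · exact Or.inr ⟨h, h1⟩
  have hdisj : Disjoint ML MS := by
    rw [disjoint_left]
    intro x h1 h2
    rw [memL] at h1
    rw [memS] at h2
    omega
  have hPM : ∀ x ∈ Q.M, ∀ r ∈ Q.P x, r ∈ X ∧ r ∉ Q.M ∧ ∀ y, T.Adj r y ↔ y = Q.par r := by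
    intro x hx r hr
    have h := Q.P_spec x hx r hr
    refine ⟨h.1, h.2.1, fun y => ⟨fun hy => Q.leaf_adj r h.1 h.2.1 y _ hy h.2.2, fun hy => ?_⟩⟩
    rw [hy]
    exact h.2.2
  -- the residues of the large mains
  have hρex : ∀ x, ∃ ρ : ℤ → (V → ℤ) → ℤ, x ∈ ML →
      (∀ (w : ℤ) (v v' : V → ℤ), (∀ r ∈ Q.P x, v r = v' r) → ρ w v = ρ w v') ∧
      (∀ (w : ℤ) (v : V → ℤ) (i : ℕ), i < (Q.ch x).card →
        ¬ ρ w v ≡ w + i [ZMOD (((Q.ch x).card + 1 + (Q.P x).card : ℕ) : ℤ)]) ∧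
      ∀ u : V → ℤ, u (Q.last x) ≡ ρ (u (Q.par x)) (fun r => u (Q.par r))
          [ZMOD (((Q.ch x).card + 1 + (Q.P x).card : ℕ) : ℤ)] →
        (∀ c ∈ Q.ch x, c ≠ Q.last x →
          u c ≡ u (Q.par x) + Q.num c [ZMOD (((Q.ch x).card + 1 + (Q.P x).card : ℕ) : ℤ)]) →
        Loc T k u (insert x (Q.P x)) := by
    intro x
    by_cases hx : x ∈ ML
    · have hxM := ((memL x).1 hx).1
      obtain ⟨ρ, hρ⟩ := hlocL V T k x (Q.par x) (Q.last x) (Q.ch x) (Q.P x) Q.num Q.par
        (hparch x hxM) (Q.adj_iff x hxM) (Q.last_mem x hxM) (Q.num_spec x hxM) (Q.num_inj x hxM)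
        (fun h => (hPM x hxM x h).2.1 hxM) (fun r hr => (hPM x hxM r hr).2.2)
        (Q.P_card x hxM).2 (by
          rw [← (Q.P_card x hxM).1, hN'1 x ((memL x).1 hx).2]
          exact (hN x (Q.M_sub hxM) ((memL x).1 hx).2 (hQ2 x hxM)).1)
      exact ⟨ρ, fun _ => hρ⟩
    · exact ⟨fun _ _ => 0, fun h => absurd h hx⟩
  choose ρρ hρρ using hρex
  set g : V → (V → ℤ) → V → ℤ := fun x w c =>
    if c = Q.last x then ρρ x (w (Q.par x)) (fun r => w (Q.par r)) else w (Q.par x) + Q.num c with hg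
  have hgl : ∀ x w, g x w (Q.last x) = ρρ x (w (Q.par x)) (fun r => w (Q.par r)) := fun x w => by
    simp only [hg, if_pos]
  have hgn : ∀ x w c, c ≠ Q.last x → g x w c = w (Q.par x) + Q.num c := fun x w c hc => by
    simp only [hg, if_neg hc]
  -- the order of the small mains
  obtain ⟨xs, hxs1, hxs2, hxs3, hxs4⟩ := henum V MS (fun x => Q.μ (Q.par x))
  set deg : ℕ → ℕ := fun s => dg T (xs s) with hdegdef
  have hdeg2 : ∀ s < MS.card, 2 ≤ deg s ∧ deg s < C := fun s hs => by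
    have h := (memS _).1 (hxs1 s hs)
    exact ⟨hQ2 _ h.1, h.2⟩
  obtain ⟨sc, lab, hgm⟩ := hG MS.card deg hdeg2
  have hsum : ∑ s ∈ range MS.card, (deg s - 1) = ∑ x ∈ MS, (dg T x - 1) := by
    have himg : (range MS.card).image xs = MS := by
      ext x
      rw [mem_image]
      constructor
      · rintro ⟨s, hs, rfl⟩
        exact hxs1 s (mem_range.1 hs)
      · intro hx
        obtain ⟨s, hs, hsx⟩ := hxs2 x hx
        exact ⟨s, mem_range.2 hs, hsx⟩
    calc ∑ s ∈ range MS.card, (deg s - 1) = ∑ x ∈ (range MS.card).image xs, (dg T x - 1) := by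
          rw [sum_image]
          intro s hs t ht h
          exact hxs3 s (mem_range.1 hs) t (mem_range.1 ht) h
      _ = ∑ x ∈ MS, (dg T x - 1) := by rw [himg]
  -- the numbering of the children
  let eV : V ≃ Fin (Fintype.card V) := Fintype.equivFin V
  set idx : V → ℕ := fun c => ((Q.ch (Q.par c)).filter (fun z => (eV z : ℕ) ≤ (eV c : ℕ))).card with hidx
  have eV_inj : ∀ (s : Finset V), ∀ a ∈ s, ∀ b ∈ s, (eV a : ℕ) = (eV b : ℕ) → a = b := by
    intro s a _ b _ h
    exact eV.injective (Fin.ext h)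
  have hidx1 : ∀ x ∈ Q.M, ∀ c ∈ Q.ch x, 1 ≤ idx c ∧ idx c ≤ (Q.ch x).card := by
    intro x hx c hc
    have hpc := (Q.ch_spec x hx c hc).2.2
    simp only [hidx, hpc]
    exact (rank_spec (Q.ch x) (fun z => (eV z : ℕ)) (eV_inj _)).1 c hc
  have hidx2 : ∀ x ∈ Q.M, ∀ c ∈ Q.ch x, ∀ c' ∈ Q.ch x, idx c = idx c' → c = c' := by
    intro x hx c hc c' hc' h
    have hpc := (Q.ch_spec x hx c hc).2.2
    have hpc' := (Q.ch_spec x hx c' hc').2.2
    simp only [hidx, hpc, hpc'] at h
    exact (rank_spec (Q.ch x) (fun z => (eV z : ℕ)) (eV_inj _)).2 c hc c' hc' h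
  have hNval : ∀ x ∈ Q.M, N' x = (Q.ch x).card + 1 + (Q.P x).card := fun x hx => (Q.P_card x hx).1
  -- the labelling
  obtain ⟨u, ρ, hu1, hu2, hu3, hu4, hu5⟩ := hlab V Q.μ Q.par ML MS Q.ch N' g {Q.y0}
    (fun _ => (k : ℤ) - 1) C J M0 (Bf (∑ s ∈ range MS.card, (deg s - 1))) deg sc lab xs idx
    hdisj
    (by
      intro x hx c hc
      rw [memU] at hx
      refine ⟨?_, Q.μ_par x hx c hc⟩
      rw [mem_singleton]
      exact (Q.ch_spec x hx c hc).2.1)
    (by
      intro x hx x' hx' c hc hc'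
      rw [memU] at hx hx'
      rw [← (Q.ch_spec x hx c hc).2.2, ← (Q.ch_spec x' hx' c hc').2.2])
    (by
      intro x hx
      rw [hNval x ((memL x).1 hx).1]
      omega)
    (by
      intro x hx c hc w w' hw
      have hxM := ((memL x).1 hx).1
      have h1 : w (Q.par x) = w' (Q.par x) := hw _ (Q.μ_par x hxM c hc)
      by_cases hcl : c = Q.last x
      · rw [hcl, hgl, hgl, h1]
        apply (hρρ x hx).1
        intro r hr
        apply hw
        rw [hcl]
        exact Q.μ_P x hxM r hr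
      · rw [hgn x w c hcl, hgn x w' c hcl, h1])
    (by
      intro x hx w c hc c' hc' h
      have hxM := ((memL x).1 hx).1
      rw [hNval x hxM] at h
      by_cases h1 : c = Q.last x <;> by_cases h2 : c' = Q.last x
      · rw [h1, h2]
      · exfalso
        rw [h1, hgl, hgn x w c' h2] at h
        have h3 := Q.num_spec x hxM c' hc' h2
        exact (hρρ x hx).2.1 _ _ (Q.num c') (by omega) h
      · exfalso
        rw [h2, hgl, hgn x w c h1] at h
        have h3 := Q.num_spec x hxM c hc h1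
        exact (hρρ x hx).2.1 _ _ (Q.num c) (by omega) h.symm
      · rw [hgn x w c h1, hgn x w c' h2] at h
        have h4 := Int.ModEq.add_left_cancel' _ h
        have b1 := Q.num_spec x hxM c hc h1
        have b2 := Q.num_spec x hxM c' hc' h2
        have h5 := pA_small _ _ _ (by rw [abs_lt]; constructor <;> omega) h4
        exact Q.num_inj x hxM c hc c' hc' h1 h2 (by exact_mod_cast h5))
    hgm
    (by
      intro s hs
      have h := (memS _).1 (hxs1 s hs)
      exact ⟨hxs1 s hs, hdgM _ h.1⟩)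
    hxs2 hxs3 hxs4
    (fun x hx => hidx1 x ((memS x).1 hx).1)
    (fun x hx => hidx2 x ((memS x).1 hx).1)
  -- the capacity
  have hMLX : ML = X.filter (fun x => C ≤ dg T x ∧ 2 ≤ dg T x) := by
    ext x
    rw [memL, mem_filter]
    constructor
    · rintro ⟨h1, h2⟩
      exact ⟨Q.M_sub h1, h2, hQ2 x h1⟩
    · rintro ⟨h1, h2, h3⟩
      exact ⟨(hM x h1).2 h3, h2⟩
  have hMSX : MS = X.filter (fun x => 2 ≤ dg T x ∧ dg T x < C) := by
    ext x
    rw [memS, mem_filter]
    constructor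
    · rintro ⟨h1, h2⟩
      exact ⟨Q.M_sub h1, hQ2 x h1, h2⟩
    · rintro ⟨h1, h2, h3⟩
      exact ⟨(hM x h1).2 h2, h3⟩
  have hcap' : ∑ z ∈ ML, N' z + M0 * Bf (∑ s ∈ range MS.card, (deg s - 1)) + 1 ≤ k := by
    have h1 := hBf (∑ s ∈ range MS.card, (deg s - 1))
    rw [hsum] at h1
    have h2 : ((∑ x ∈ MS, (dg T x - 1) : ℕ) : ℝ) =
        ∑ x ∈ X.filter (fun x => 2 ≤ dg T x ∧ dg T x < C), ((dg T x : ℝ) - 1) := by
      rw [← hMSX, Nat.cast_sum]
      apply sum_congr rfl
      intro x hx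
      have := hQ2 x ((memS x).1 hx).1
      rw [Nat.cast_sub (by omega)]
      simp
    have h3 : ((∑ z ∈ ML, N' z : ℕ) : ℝ) =
        ∑ x ∈ X.filter (fun x => C ≤ dg T x ∧ 2 ≤ dg T x), (N x : ℝ) := by
      rw [← hMLX, Nat.cast_sum]
      apply sum_congr rfl
      intro x hx
      rw [hN'1 x ((memL x).1 hx).2]
    rw [← h2, ← h3] at hcap
    rw [hsum]
    have h4 : (((∑ z ∈ ML, N' z + M0 * Bf (∑ x ∈ MS, (dg T x - 1)) + 1 : ℕ)) : ℝ) ≤ (k : ℝ) := by
      rw [Nat.cast_add, Nat.cast_add, Nat.cast_one]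
      linarith
    exact_mod_cast h4
  have hk : 0 < k := by omega
  have huy0 : u Q.y0 = (k : ℤ) - 1 := hu1 _ (mem_singleton_self _)
  have hub : ∀ y ∉ X, y ≠ Q.y0 → 0 ≤ u y ∧ u y < (k : ℤ) - 1 := by
    intro y hy h
    obtain ⟨h1, h2⟩ := Q.cover y hy h
    have h3 := hu4 (Q.par y) ((memU _).2 h1) y h2
    have h4 : (((∑ z ∈ ML, N' z + M0 * Bf (∑ s ∈ range MS.card, (deg s - 1)) : ℕ)) : ℤ) + 1 ≤ k := by
      exact_mod_cast hcap'
    omega
  have hub' : ∀ y ∉ X, 0 ≤ u y ∧ u y < k := by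
    intro y hy
    by_cases h : y = Q.y0
    · rw [h, huy0]
      omega
    · have := hub y hy h
      omega
  refine hcrit V T hT X hbip m k hm hk u ?_ ?_
  · intro y hy y' hy' h
    have e : u y = u y' := by
      have b1 := hub' y hy
      have b2 := hub' y' hy'
      have h1 : u y % (k : ℤ) = u y' % (k : ℤ) := h
      rwa [Int.emod_eq_of_lt b1.1 b1.2, Int.emod_eq_of_lt b2.1 b2.2] at h1
    by_cases h1 : y = Q.y0 <;> by_cases h2 : y' = Q.y0
    · rw [h1, h2]
    · have := hub y' hy' h2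
      rw [h1, huy0] at e
      omega
    · have := hub y hy h1
      rw [h2, huy0] at e
      omega
    · obtain ⟨h3, h4⟩ := Q.cover y hy h1
      obtain ⟨h3', h4'⟩ := Q.cover y' hy' h2
      exact hu5 _ ((memU _).2 h3) _ ((memU _).2 h3') y h4 y' h4' e
  · obtain ⟨hc1, hc2, hc3, hc4, hc5⟩ := hcov V T k u
    obtain ⟨hf1, hf2⟩ := hlocF V T k u
    set A1 : Finset V := ML.biUnion (fun x => insert x (Q.P x)) with hA1
    have memA1 : ∀ z, z ∈ A1 ↔ ∃ x ∈ ML, z = x ∨ z ∈ Q.P x := by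
      intro z
      rw [hA1, mem_biUnion]
      simp only [mem_insert]
    have hA1X : A1 ⊆ X := by
      intro z hz
      rw [memA1] at hz
      obtain ⟨x, hx, rfl | hz⟩ := hz
      · exact Q.M_sub ((memL _).1 hx).1
      · exact (hPM x ((memL x).1 hx).1 z hz).1
    have hMSX' : MS ⊆ X := fun x hx => Q.M_sub ((memS x).1 hx).1
    have hcovA1 : Cov T k u A1 := by
      apply hc4 V ML (fun x => insert x (Q.P x))
      · intro x hx
        have hxM := ((memL x).1 hx).1
        apply hc2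
        apply (hρρ x hx).2.2 u
        · have h := hu2 x hx _ (Q.last_mem x hxM)
          rw [hgl, hNval x hxM] at h
          exact h
        · intro c hc hne
          have h := hu2 x hx c hc
          rw [hgn x u c hne, hNval x hxM] at h
          exact h
      · intro x hx x' hx' z hz hz'
        have hxM := ((memL x).1 hx).1
        have hxM' := ((memL x').1 hx').1
        simp only [mem_insert] at hz hz'
        rcases hz with hz | hz <;> rcases hz' with hz' | hz'
        · rw [← hz, ← hz']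
        · rw [hz] at hz'
          exact absurd hxM (hPM x' hxM' x hz').2.1
        · rw [hz'] at hz
          exact absurd hxM' (hPM x hxM x' hz).2.1
        · exact Q.P_disj x hxM x' hxM' z hz hz'
    have hcovMS : Cov T k u MS := by
      refine hcovS V T k C J M0 u MS xs deg (fun s => sc s ρ) Q.par Q.ch idx hM0k hdiv hxs1 hxs2 hxs3
        ?_ ?_ ?_ ?_ ?_ ?_ ?_
      · intro x hx
        have hxM := ((memS x).1 hx).1
        exact ⟨hparch x hxM, Q.adj_iff x hxM⟩
      · intro s hs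
        have h := (memS _).1 (hxs1 s hs)
        exact ⟨hdgM _ h.1, hdeg2 s hs⟩
      · exact fun x hx => hidx1 x ((memS x).1 hx).1
      · exact fun x hx => hidx2 x ((memS x).1 hx).1
      · intro s hs
        exact hgm.sc_le s hs ρ
      · intro s hs c hc
        exact hu3 s hs c hc
      · intro d hd2 hdC j hj
        exact hgm.count ρ d hd2 hdC j hj
    have hcovA3 : Cov T k u (X \ (A1 ∪ MS)) := by
      apply hf2
      intro x hx
      rw [mem_sdiff, mem_union] at hx
      apply hleaf x hx.1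
      intro hxM
      apply hx.2
      have := (memU x).2 hxM
      rw [mem_union] at this
      rcases this with h | h
      · left
        rw [memA1]
        exact ⟨x, h, Or.inl rfl⟩
      · right
        exact h
    have hd12 : Disjoint A1 MS := by
      rw [disjoint_left]
      intro z hz hz'
      rw [memA1] at hz
      obtain ⟨x, hx, rfl | hz⟩ := hz
      · exact (disjoint_left.1 hdisj) hx hz'
      · exact (hPM x ((memL x).1 hx).1 z hz).2.1 ((memS z).1 hz').1
    have h12 := hc3 A1 MS hcovA1 hcovMS hd12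
    have h123 := hc3 (A1 ∪ MS) (X \ (A1 ∪ MS)) h12 hcovA3 disjoint_sdiff
    rw [union_sdiff_of_subset (union_subset hA1X hMSX')] at h123
    exact h123

end Pool.Agent.Lib.MP_7c15de_co.TH
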