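import Pool.Agent.Lib.MP_7c15de_co.TH.Stm

/-!
# MP_7c15de_co, piece DB: the double hub case
-/

set_option autoImplicit false

namespace Pool.Agent.Lib.MP_7c15de_co.TH

open Finset Pool.Agent.Lib.MP_7c15de_co

/-- A numbering of a finite set. -/
private lemma num_exists {V : Type} (A : Finset V) :
    ∃ g : V → ℕ, (∀ y ∈ A, g y < A.card) ∧ (∀ y ∈ A, ∀ y' ∈ A, g y = g y' → y = y') := by
  classical
  refine ⟨fun y => if h : y ∈ A then (A.equivFin ⟨y, h⟩).val else 0, ?_, ?_⟩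
  · intro y hy
    simp only [dif_pos hy]
    exact (A.equivFin ⟨y, hy⟩).isLt
  · intro y hy y' hy' he
    simp only [dif_pos hy, dif_pos hy'] at he
    have h1 := A.equivFin.injective (Fin.ext he)
    exact congrArg Subtype.val h1

/-- A numbering of a finite set in which a given element is the last one. -/
private lemma num_exists_last {V : Type} (A : Finset V) (y0 : V) (h0 : y0 ∈ A) :
    ∃ g : V → ℕ, (∀ y ∈ A, g y < A.card) ∧ (∀ y ∈ A, ∀ y' ∈ A, g y = g y' → y = y') ∧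
      g y0 + 1 = A.card := by
  classical
  obtain ⟨g, hg1, hg2⟩ := num_exists (A.erase y0)
  have hc : (A.erase y0).card + 1 = A.card := Finset.card_erase_add_one h0
  refine ⟨fun y => if y = y0 then (A.erase y0).card else g y, ?_, ?_, ?_⟩
  · intro y hy
    by_cases hy0 : y = y0
    · simp only [hy0, if_true]; omega
    · simp only [hy0, if_false]
      have := hg1 y (Finset.mem_erase.2 ⟨hy0, hy⟩)
      omega
  · intro y hy y' hy' he
    by_cases hy0 : y = y0 <;> by_cases hy0' : y' = y0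
    · rw [hy0, hy0']
    · simp only [hy0, hy0', if_true, if_false] at he
      have := hg1 y' (Finset.mem_erase.2 ⟨hy0', hy'⟩)
      omega
    · simp only [hy0, hy0', if_true, if_false] at he
      have := hg1 y (Finset.mem_erase.2 ⟨hy0, hy⟩)
      omega
    · simp only [hy0, hy0', if_false] at he
      exact hg2 y (Finset.mem_erase.2 ⟨hy0, hy⟩) y' (Finset.mem_erase.2 ⟨hy0', hy'⟩) he
  · simp only [if_true]; exact hc

/-- Two integers in `[0, k)` congruent mod `k` are equal. -/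
private lemma eq_of_modEq {k : ℕ} {a b : ℤ} (ha : 0 ≤ a) (ha' : a < k) (hb : 0 ≤ b) (hb' : b < k)
    (h : a ≡ b [ZMOD k]) : a = b := by
  have h1 : a % (k : ℤ) = b % (k : ℤ) := h
  rwa [Int.emod_eq_of_lt ha ha', Int.emod_eq_of_lt hb hb'] at h1

private lemma stage2 (hdg : S_dg) (hcrit : S_crit) (hcov : S_cov) (hlocF : S_locF)
    (hlocH : S_locH)
    {V : Type} [Fintype V] [DecidableEq V] (T : SimpleGraph V) (hT : T.IsTree) (X : Finset V)
    (hX : ∀ a b, T.Adj a b → (a ∈ X ↔ b ∉ X)) (n k C Q0 q w : ℕ) (h yo lf rt : V) (par : V → V)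
    (E PH Bd : Finset V) (P : V → Finset V) (u : V → ℤ)
    (hXn : X.card = n) (hXcn : Xᶜ.card = n) (hhX : h ∈ X)
    (hw : dg T h + w = k + 1) (h2w : 2 * w ≤ k) (h2q : 2 * q ≤ w) (hQq : Q0 ≤ q)
    (hdh : 2 ≤ dg T h)
    (hrtX : rt ∉ X) (hparh : par h = rt)
    (hpar : ∀ v, v ≠ rt → T.Adj v (par v) ∧ T.dist rt v = T.dist rt (par v) + 1)
    (hadj : ∀ a b, T.Adj a b → (a ≠ rt ∧ par a = b) ∨ (b ≠ rt ∧ par b = a))
    (hEc : E.card ≤ 1)
    (hE : ∀ x ∈ E, x = par yo ∧ yo ≠ rt ∧ x ∈ X ∧ x ≠ h ∧ 2 ≤ dg T x ∧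
      (par x ≠ rt → par (par x) ∉ insert h E) ∧ par x ≠ yo ∧ Q0 + dg T x = q + 1)
    (hE0 : E = ∅ → yo = rt)
    (hPX : ∀ x ∈ X, x ∉ insert h E → C ≤ dg T x → ∀ r ∈ P x, r ∈ X ∧ dg T r = 1)
    (hPH : ∀ r ∈ PH, r ∈ X ∧ dg T r = 1 ∧ ∀ x, r ∉ P x)
    (hsum : dg T h + ∑ x ∈ E, dg T x + PH.card = k) (hBd : Bd ⊆ PH)
    (hBdyo : ∀ r ∈ PH, r ∉ Bd → T.Adj r yo) (hBdc : 2 * Bd.card + n ≤ PH.card + dg T h)
    (hlf : T.Adj h lf) (hlf1 : dg T lf = 1) (hlfrt : lf ≠ rt)
    (u1 : u rt = (k : ℤ) - 1)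
    (u2 : ∀ y, y ≠ rt → par y = h → y ≠ lf → (w : ℤ) ≤ u y ∧ u y < (k : ℤ) - 1)
    (u3 : ∀ y y', y ≠ rt → par y = h → y ≠ lf → y' ≠ rt → par y' = h → y' ≠ lf →
      u y = u y' → y = y')
    (u4 : ∀ x ∈ E, ∀ y, y ≠ rt → par y = x → (Q0 : ℤ) ≤ u y ∧ u y < q)
    (u5 : ∀ x ∈ E, ∀ y y', y ≠ rt → par y = x → y' ≠ rt → par y' = x → u y = u y' → y = y')
    (u6 : E.Nonempty → u yo = (q : ℤ) - 1)
    (u7 : ∀ y ∉ X, y ≠ rt → par y ∉ insert h E → 0 ≤ u y ∧ u y < Q0)
    (u8 : ∀ y ∉ X, ∀ y' ∉ X, y ≠ rt → par y ∉ insert h E → y' ≠ rt → par y' ∉ insert h E →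
      u y = u y' → y = y')
    (u9 : Cov T k u (X.filter (fun x => x ∉ insert h E ∧ 2 ≤ dg T x) ∪
        (X.filter (fun x => x ∉ insert h E ∧ C ≤ dg T x)).biUnion P)) :
    Decomposes T (completeBipartiteGraph (Fin (2 * n - 1)) (Fin k)) := by
  classical
  obtain ⟨hd1, hd2, hd3, hd4, hd5, hd6⟩ := hdg V T
  have hk0 : 0 < k := by omega
  have hkZ : (0 : ℤ) < k := by exact_mod_cast hk0
  have hwk : (w : ℤ) + 1 ≤ k := by omega
  have hqw : 2 * (q : ℤ) ≤ w := by exact_mod_cast h2q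
  have hQqZ : (Q0 : ℤ) ≤ q := by exact_mod_cast hQq
  have hEx : ∀ x ∈ E, ∀ x' ∈ E, x = x' := fun x hx x' hx' => Finset.card_le_one.1 hEc x hx x' hx'
  have hYh : ∀ y, T.Adj h y → y = rt ∨ (y ≠ rt ∧ par y = h) := by
    intro y hy
    rcases hadj h y hy with h1 | h1
    · left; rw [← h1.2, hparh]
    · exact Or.inr h1
  have hYx : ∀ x, ∀ y, T.Adj x y → y = par x ∨ (y ≠ rt ∧ par y = x) := by
    intro x y hy
    rcases hadj x y hy with h1 | h1
    · left; exact h1.2.symm
    · exact Or.inr h1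
  have hadjX : ∀ x y, x ∈ X → T.Adj x y → y ∉ X := fun x y hx hy => (hX x y hy).1 hx
  have hlfX : lf ∉ X := hadjX h lf hhX hlf
  have hlfonly : ∀ x, T.Adj x lf → x = h := fun x hx =>
    (hd6 lf h hlf1 hlf.symm x).1 hx.symm
  have hparlf : par lf = h := by
    rcases hYh lf hlf with h1 | h1
    · exact absurd h1 hlfrt
    · exact h1.2
  have cls : ∀ y, y = rt ∨ (y ≠ rt ∧ par y = h) ∨ (y ≠ rt ∧ par y ∈ E) ∨
      (y ≠ rt ∧ par y ∉ insert h E) := by
    intro y
    by_cases h1 : y = rt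
    · exact Or.inl h1
    by_cases h2 : par y = h
    · exact Or.inr (Or.inl ⟨h1, h2⟩)
    by_cases h3 : par y ∈ E
    · exact Or.inr (Or.inr (Or.inl ⟨h1, h3⟩))
    · refine Or.inr (Or.inr (Or.inr ⟨h1, ?_⟩))
      rw [Finset.mem_insert]; tauto
  have R : ∀ y ∉ X, y ≠ lf → 0 ≤ u y ∧ u y < k := by
    intro y hy hyl
    rcases cls y with h1 | h1 | h1 | h1
    · rw [h1, u1]; omega
    · have := u2 y h1.1 h1.2 hyl; omega
    · have := u4 (par y) h1.2 y h1.1 rfl; omega
    · have := u7 y hy h1.1 h1.2; omega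
  have I : ∀ y ∉ X, ∀ y' ∉ X, y ≠ lf → y' ≠ lf → u y = u y' → y = y' := by
    intro y hy y' hy' hyl hyl' he
    rcases cls y with h1 | h1 | h1 | h1 <;> rcases cls y' with h2 | h2 | h2 | h2
    · rw [h1, h2]
    · have := u2 y' h2.1 h2.2 hyl'; rw [h1, u1] at he; omega
    · have := u4 (par y') h2.2 y' h2.1 rfl; rw [h1, u1] at he; omega
    · have := u7 y' hy' h2.1 h2.2; rw [h1, u1] at he; omega
    · have := u2 y h1.1 h1.2 hyl; rw [h2, u1] at he; omega
    · exact u3 y y' h1.1 h1.2 hyl h2.1 h2.2 hyl' he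
    · have := u2 y h1.1 h1.2 hyl; have := u4 (par y') h2.2 y' h2.1 rfl; omega
    · have := u2 y h1.1 h1.2 hyl; have := u7 y' hy' h2.1 h2.2; omega
    · have := u4 (par y) h1.2 y h1.1 rfl; rw [h2, u1] at he; omega
    · have := u4 (par y) h1.2 y h1.1 rfl; have := u2 y' h2.1 h2.2 hyl'; omega
    · exact u5 (par y) h1.2 y y' h1.1 rfl h2.1 (hEx _ h2.2 _ h1.2) he
    · have := u4 (par y) h1.2 y h1.1 rfl; have := u7 y' hy' h2.1 h2.2; omega
    · have := u7 y hy h1.1 h1.2; rw [h2, u1] at he; omega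
    · have := u7 y hy h1.1 h1.2; have := u2 y' h2.1 h2.2 hyl'; omega
    · have := u7 y hy h1.1 h1.2; have := u4 (par y') h2.2 y' h2.1 rfl; omega
    · exact u8 y hy y' hy' h1.1 h1.2 h2.1 h2.2 he
  -- the big block
  obtain ⟨a0, ha0⟩ : ∃ a0 : V → ℤ, ∀ x, a0 x = u (par x) - ((q : ℤ) - 1) := ⟨_, fun _ => rfl⟩
  have hparx : ∀ x ∈ E, u (par x) = (k : ℤ) - 1 ∨ (0 ≤ u (par x) ∧ u (par x) < Q0) := by
    intro x hx
    obtain ⟨e1, e2, e3, e4, e5, e6, e7, e8⟩ := hE x hx
    by_cases h1 : par x = rt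
    · left; rw [h1, u1]
    · right
      have hxrt : x ≠ rt := fun hc => hrtX (hc ▸ e3)
      exact u7 (par x) (hadjX x _ e3 (hpar x hxrt).1) h1 (e6 h1)
  have hq1 : ∀ x ∈ E, Q0 + 1 ≤ q := by
    intro x hx
    obtain ⟨e1, e2, e3, e4, e5, e6, e7, e8⟩ := hE x hx
    omega
  have hco : ∀ x ∈ E, ∀ y, T.Adj x y → (0 ≤ (u y - a0 x) % (k : ℤ) ∧ (u y - a0 x) % (k : ℤ) < w) ∧
      (y = par x → (u y - a0 x) % (k : ℤ) = (q : ℤ) - 1) := by
    intro x hx y hy
    have hq1' := hq1 x hx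
    have key : ∃ v t : ℤ, u y - a0 x = v + (k : ℤ) * t ∧ 0 ≤ v ∧ v < w ∧
        (y = par x → v = (q : ℤ) - 1) := by
      rcases hYx x y hy with h1 | h1
      · refine ⟨(q : ℤ) - 1, 0, ?_, ?_, ?_, fun _ => rfl⟩
        · rw [h1, ha0]; ring
        · omega
        · omega
      · have h2 := u4 x hx y h1.1 h1.2
        have h3 : y ≠ par x := by
          intro hc
          obtain ⟨e1, e2, e3, e4, e5, e6, e7, e8⟩ := hE x hx
          have hxrt : x ≠ rt := fun hc => hrtX (hc ▸ e3)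
          have d1 := (hpar x hxrt).2
          have d2 := (hpar y h1.1).2
          rw [h1.2] at d2
          rw [← hc] at d1
          omega
        rcases hparx x hx with h4 | h4
        · refine ⟨u y + q, -1, ?_, ?_, ?_, fun hc => absurd hc h3⟩
          · rw [ha0, h4]; ring
          · omega
          · omega
        · refine ⟨u y - u (par x) + ((q : ℤ) - 1), 0, ?_, ?_, ?_, fun hc => absurd hc h3⟩
          · rw [ha0]; ring
          · omega
          · omega
    obtain ⟨v, t, hv1, hv2, hv3, hv4⟩ := key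
    have h5 : (u y - a0 x) % (k : ℤ) = v := by
      rw [hv1, Int.add_mul_emod_self_left, Int.emod_eq_of_lt hv2 (by omega)]
    rw [h5]
    exact ⟨⟨hv2, hv3⟩, hv4⟩
  have hinjE : ∀ x ∈ E, ∀ y y', T.Adj x y → T.Adj x y' → u y ≡ u y' [ZMOD k] → y = y' := by
    intro x hx y y' hy hy' he
    obtain ⟨e1, e2, e3, e4, e5, e6, e7, e8⟩ := hE x hx
    have hyl : y ≠ lf := fun hc => e4 (hlfonly x (hc ▸ hy))
    have hyl' : y' ≠ lf := fun hc => e4 (hlfonly x (hc ▸ hy'))
    have hyX := hadjX x y e3 hy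
    have hyX' := hadjX x y' e3 hy'
    have r1 := R y hyX hyl
    have r2 := R y' hyX' hyl'
    exact I y hyX y' hyX' hyl hyl' (eq_of_modEq r1.1 r1.2 r2.1 r2.2 he)
  obtain ⟨CE, hCE⟩ : ∃ CE : Finset ℤ, ∀ δ, δ ∈ CE ↔ ∃ x ∈ E, ∃ y, T.Adj x y ∧
      (u y - a0 x) % (k : ℤ) = δ :=
    ⟨E.biUnion (fun x => (univ.filter (fun y => T.Adj x y)).image (fun y => (u y - a0 x) % (k : ℤ))),
      by intro δ; simp⟩
  have hCEcard : CE.card = ∑ x ∈ E, dg T x := by
    rcases E.eq_empty_or_nonempty with h0 | ⟨x, hx⟩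
    · rw [h0]
      simp only [Finset.sum_empty, Finset.card_eq_zero]
      apply Finset.eq_empty_of_forall_notMem
      intro δ hδ
      obtain ⟨x, hx, _⟩ := (hCE δ).1 hδ
      rw [h0] at hx
      exact absurd hx (Finset.notMem_empty x)
    · have hE1 : E = {x} := Finset.eq_singleton_iff_unique_mem.2 ⟨hx, fun y hy => hEx y hy x hx⟩
      have h1 : CE = (univ.filter (fun y => T.Adj x y)).image (fun y => (u y - a0 x) % (k : ℤ)) := by
        ext δ
        rw [hCE, hE1]
        simp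
      have h2 : ∑ z ∈ E, dg T z = dg T x := by rw [hE1, Finset.sum_singleton]
      rw [h1, h2, Finset.card_image_of_injOn, hd4 x (univ.filter (fun y => T.Adj x y)) (by simp)]
      intro y hy y' hy' he
      simp only [Finset.coe_filter, Finset.mem_univ, true_and, Set.mem_ofPred_eq] at hy hy'
      have h3 : u y - a0 x ≡ u y' - a0 x [ZMOD k] := he
      exact hinjE x hx y y' hy hy' (by simpa using Int.ModEq.add_right (a0 x) h3)
  have hCEr : ∀ δ ∈ CE, 0 ≤ δ ∧ δ < w := by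
    intro δ hδ
    obtain ⟨x, hx, y, hy, he⟩ := (hCE δ).1 hδ
    rw [← he]
    exact (hco x hx y hy).1
  have hpr : ∀ r, ∃ y, dg T r = 1 → ∀ z, T.Adj r z ↔ z = y := by
    intro r
    by_cases hr : dg T r = 1
    · obtain ⟨y, hy⟩ := hd5 r hr
      exact ⟨y, fun _ => hy⟩
    · exact ⟨r, fun hc => absurd hc hr⟩
  choose pr hpr using hpr
  obtain ⟨F, hF⟩ : ∃ F : Finset ℤ, F = ((Xᶜ.filter (fun y => ¬ T.Adj h y)).image u).filter
      (fun δ : ℤ => 0 ≤ δ ∧ δ < w ∧ δ ∉ CE) := ⟨_, rfl⟩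
  have hFcard : F.card + dg T h ≤ n := by
    have h1 : F.card ≤ (Xᶜ.filter (fun y => ¬ T.Adj h y)).card := by
      rw [hF]
      exact (Finset.card_filter_le _ _).trans Finset.card_image_le
    have h2 : dg T h = (Xᶜ.filter (fun y => T.Adj h y)).card := by
      apply hd4
      intro y
      simp only [Finset.mem_filter, Finset.mem_compl]
      exact ⟨fun hy => ⟨hadjX h y hhX hy, hy⟩, fun hy => hy.2⟩
    have h3 := Finset.card_filter_add_card_filter_not (s := Xᶜ) (fun y => T.Adj h y)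
    omega
  have hhE : h ∉ E := fun hc => (hE h hc).2.2.2.1 rfl
  have hhPH : h ∉ PH := fun hc => by have := (hPH h hc).2.1; omega
  have hEPH : Disjoint E PH := by
    rw [Finset.disjoint_left]
    intro x hx hx'
    have h1 := (hE x hx).2.2.2.2.1
    have h2 := (hPH x hx').2.1
    omega
  obtain ⟨z, hz0, hzw, hzCE, hzF, hLoc⟩ := hlocH V T k w u h lf E PH Bd pr a0 CE F hk0 h2w hEc hhE
    hhPH hEPH hlf
    (by
      intro x hx hc
      have h1 := hlfonly x hc
      rw [h1] at hx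
      rcases Finset.mem_union.1 hx with h2 | h2
      · exact hhE h2
      · exact hhPH h2)
    (by
      intro y hy hyl
      rcases hYh y hy with h1 | h1
      · rw [h1, u1]; omega
      · have := u2 y h1.1 h1.2 hyl; omega)
    (by
      intro y y' hy hy' hyl hyl' he
      exact I y (hadjX h y hhX hy) y' (hadjX h y' hhX hy') hyl hyl' he)
    hw
    (by
      intro x hx hc
      have hq1' := hq1 x hx
      have h1 : (k : ℤ) ∣ a0 x := Int.modEq_zero_iff_dvd.1 hc
      rcases hparx x hx with h4 | h4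
      · have h2 : a0 x = (k : ℤ) - q := by rw [ha0, h4]; ring
        rw [h2] at h1
        have := Int.le_of_dvd (by omega) h1
        omega
      · have h2 : (k : ℤ) ∣ - a0 x := (dvd_neg).2 h1
        rw [ha0] at h2
        have := Int.le_of_dvd (by omega) h2
        omega)
    (by
      intro x hx y hy
      refine ⟨(u y - a0 x) % (k : ℤ), (hCE _).2 ⟨x, hx, y, hy, rfl⟩, ?_⟩
      exact Int.mod_modEq _ _)
    hinjE hCEcard hCEr
    (by
      intro r hr y
      exact hpr r (hPH r hr).2.1 y)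
    hsum hBd
    (by
      intro r hr hrB δ hδ0 hδw hδ
      have hpy : pr r = yo := ((hpr r (hPH r hr).2.1 yo).1 (hBdyo r hr hrB)).symm
      rw [hpy]
      refine ⟨?_, ?_⟩
      · intro hc
        rcases E.eq_empty_or_nonempty with h0 | h0
        · rw [hE0 h0, u1] at hc
          have := eq_of_modEq hδ0 (by omega) (by omega) (by omega) hc
          omega
        · rw [u6 h0] at hc
          obtain ⟨x, hx⟩ := h0
          have hq1' := hq1 x hx
          have h1 := eq_of_modEq hδ0 (by omega) (by omega) (by omega) hc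
          apply hδ
          rw [hCE]
          have hxrt : x ≠ rt := fun hc => hrtX (hc ▸ (hE x hx).2.2.1)
          refine ⟨x, hx, par x, (hpar x hxrt).1, ?_⟩
          rw [h1]
          exact (hco x hx (par x) (hpar x hxrt).1).2 rfl
      · intro x hx hc
        apply hδ
        rw [hCE]
        obtain ⟨e1, e2, e3, e4, e5, e6, e7, e8⟩ := hE x hx
        have hxy : T.Adj x yo := by rw [e1]; exact (hpar yo e2).1.symm
        refine ⟨x, hx, yo, hxy, ?_⟩
        have h1 : δ % (k : ℤ) = (u yo - a0 x) % (k : ℤ) := hc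
        rw [← h1, Int.emod_eq_of_lt hδ0 (by omega)])
    (by
      intro δ hδ
      rw [hF, Finset.mem_filter] at hδ
      exact hδ.2)
    (by omega)
  -- the labels
  have hu' : ∀ y, y ≠ lf → Function.update u lf z y = u y := fun y hy =>
    Function.update_of_ne hy z u
  have hulf : Function.update u lf z lf = z := Function.update_self lf z u
  have hzne : ∀ y ∉ X, y ≠ lf → u y ≠ z := by
    intro y hy hyl he
    by_cases h1 : T.Adj h y
    · rcases hYh y h1 with h2 | h2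
      · rw [h2, u1] at he; omega
      · have := u2 y h2.1 h2.2 hyl; omega
    · apply hzF
      rw [hF, Finset.mem_filter]
      refine ⟨Finset.mem_image.2 ⟨y, Finset.mem_filter.2 ⟨Finset.mem_compl.2 hy, h1⟩, he⟩, hz0, hzw, hzCE⟩
  have hcardV : Fintype.card V = 2 * n := by
    have := Finset.card_add_card_compl X
    omega
  have hn1 : 1 ≤ n := by
    rw [← hXn]; exact Finset.card_pos.2 ⟨h, hhX⟩
  obtain ⟨c1, c2, c3, c4, c5⟩ := hcov V T k (Function.update u lf z)
  apply hcrit V T hT X hX (2 * n - 1) k (by omega) hk0 (Function.update u lf z)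
  · intro y hy y' hy' he
    by_cases h1 : y = lf <;> by_cases h2 : y' = lf
    · rw [h1, h2]
    · exfalso
      rw [h1, hulf, hu' y' h2] at he
      have r := R y' hy' h2
      exact hzne y' hy' h2 (eq_of_modEq hz0 (by omega) r.1 r.2 he).symm
    · exfalso
      rw [h2, hulf, hu' y h1] at he
      have r := R y hy h1
      exact hzne y hy h1 (eq_of_modEq r.1 r.2 hz0 (by omega) he)
    · rw [hu' y h1, hu' y' h2] at he
      have r1 := R y hy h1
      have r2 := R y' hy' h2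
      exact I y hy y' hy' h1 h2 (eq_of_modEq r1.1 r1.2 r2.1 r2.2 he)
  · -- the partition
    obtain ⟨S1, hS1⟩ : ∃ S1 : Finset V, S1 = X.filter (fun x => x ∉ insert h E ∧ 2 ≤ dg T x) ∪
        (X.filter (fun x => x ∉ insert h E ∧ C ≤ dg T x)).biUnion P := ⟨_, rfl⟩
    rw [← hS1] at u9
    have hmem1 : ∀ x ∈ S1, x ∈ X ∧ x ≠ h ∧ x ∉ E ∧ x ∉ PH := by
      intro x hx
      rw [hS1, Finset.mem_union, Finset.mem_filter, Finset.mem_biUnion] at hx
      rcases hx with ⟨hx1, hx2, hx3⟩ | ⟨x', hx', hx''⟩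
      · rw [Finset.mem_insert, not_or] at hx2
        refine ⟨hx1, hx2.1, hx2.2, fun hc => ?_⟩
        have := (hPH x hc).2.1
        omega
      · rw [Finset.mem_filter] at hx'
        obtain ⟨g1, g2⟩ := hPX x' hx'.1 hx'.2.1 hx'.2.2 x hx''
        refine ⟨g1, ?_, ?_, ?_⟩
        · intro hc; rw [hc] at g2; omega
        · intro hc; have := (hE x hc).2.2.2.2.1; omega
        · intro hc; exact (hPH x hc).2.2 x' hx''
    have hcS1 : Cov T k (Function.update u lf z) S1 := by
      obtain ⟨_, _, _, _, c5'⟩ := hcov V T k u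
      apply c5' (Function.update u lf z) S1 _ u9
      intro x hx y hy
      apply hu'
      intro hc
      rw [hc] at hy
      exact (hmem1 x hx).2.1 (hlfonly x hy)
    have hS0X : insert h (E ∪ PH) ⊆ X := by
      intro x hx
      rcases Finset.mem_insert.1 hx with h1 | h1
      · rw [h1]; exact hhX
      rcases Finset.mem_union.1 h1 with h2 | h2
      · exact (hE x h2).2.2.1
      · exact (hPH x h2).1
    have hdisj : Disjoint (insert h (E ∪ PH)) S1 := by
      rw [Finset.disjoint_left]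
      intro x hx hx'
      obtain ⟨g1, g2, g3, g4⟩ := hmem1 x hx'
      rcases Finset.mem_insert.1 hx with h1 | h1
      · exact g2 h1
      rcases Finset.mem_union.1 h1 with h2 | h2
      · exact g3 h2
      · exact g4 h2
    have h01 := c3 _ _ (c2 _ hLoc) hcS1 hdisj
    have hleaf : ∀ x ∈ X \ (insert h (E ∪ PH) ∪ S1), dg T x = 1 := by
      intro x hx
      rw [Finset.mem_sdiff, Finset.mem_union, not_or] at hx
      obtain ⟨g1, g2, g3⟩ := hx
      have h1 := hd2 hT (by omega) x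
      by_contra hne
      apply g3
      rw [hS1, Finset.mem_union, Finset.mem_filter]
      left
      refine ⟨g1, ?_, by omega⟩
      intro hc
      apply g2
      rcases Finset.mem_insert.1 hc with h2 | h2
      · rw [h2]; exact Finset.mem_insert_self _ _
      · exact Finset.mem_insert_of_mem (Finset.mem_union_left _ h2)
    have hR := (hlocF V T k (Function.update u lf z)).2 _ hleaf
    have h012 := c3 _ _ h01 hR Finset.disjoint_sdiff
    have hXe : (insert h (E ∪ PH) ∪ S1) ∪ (X \ (insert h (E ∪ PH) ∪ S1)) = X := by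
      apply Finset.union_sdiff_of_subset
      apply Finset.union_subset hS0X
      intro x hx
      exact (hmem1 x hx).1
    rwa [hXe] at h012

/-- The capacity, split by an arbitrary condition. -/
private lemma cap_split {V : Type} (X : Finset V) (C : ℕ) (d N : V → ℕ)
    (p : V → Prop) [DecidablePred p] :
    ∑ x ∈ X.filter p, (if C ≤ d x then (N x : ℝ) else if 2 ≤ d x then 3 / 2 * ((d x : ℝ) - 1) else 0) =
      ∑ x ∈ X.filter (fun x => p x ∧ C ≤ d x), (N x : ℝ) +
        3 / 2 * ∑ x ∈ X.filter (fun x => p x ∧ 2 ≤ d x ∧ d x < C), ((d x : ℝ) - 1) := by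
  classical
  rw [Finset.sum_filter, Finset.sum_filter, Finset.sum_filter, Finset.mul_sum,
    ← Finset.sum_add_distrib]
  apply Finset.sum_congr rfl
  intro x _
  by_cases h1 : p x <;> by_cases h2 : C ≤ d x <;> by_cases h3 : 2 ≤ d x
  · simp [h1, h2, not_lt.2 h2]
  · simp [h1, h2, not_lt.2 h2]
  · simp [h1, h2, h3, not_le.1 h2]
  · simp [h1, h2, h3]
  all_goals simp [h1]

theorem p_DB (hdg : S_dg) (hcrit : S_crit) (hcov : S_cov) (hlocF : S_locF) (hgame : S_game)
    (hlocH : S_locH) (hfill : S_fill) (hroot : S_root) (hDB1 : S_DB1) : S_DB := by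
  intro C hC
  obtain ⟨J, hJ⟩ := hgame C (1 / 2) (by norm_num)
  refine ⟨J, fun M0 hM0 hd => ?_⟩
  obtain ⟨K, Bf, hBf, hG⟩ := hJ M0 hM0 hd
  refine ⟨K, ?_⟩
  intro V _ _ T hT X hX n k h yo N hXn hXcn hM0k hk hnk hnk1 hhX hyoX hh hyo hN hcap
  classical
  obtain ⟨hd1, hd2, hd3, hd4, hd5, hd6⟩ := hdg V T
  obtain ⟨rt, par, hrtX, hrth, hparh, hparrt, hpar, hadj, hyoroot⟩ :=
    hroot V T hT X hX h hhX yo hyoX
  have hn1 : 1 ≤ n := by rw [← hXn]; exact Finset.card_pos.2 ⟨h, hhX⟩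
  have hadjX : ∀ x y, x ∈ X → T.Adj x y → y ∉ X := fun x y hx hy => (hX x y hy).1 hx
  have hYh : ∀ y, T.Adj h y → y = rt ∨ (y ≠ rt ∧ par y = h) := by
    intro y hy
    rcases hadj h y hy with h1 | h1
    · left; rw [← h1.2, hparh]
    · exact Or.inr h1
  have hdh2 : k + 2 ≤ 2 * dg T h := by
    obtain ⟨r, hr⟩ := hk
    omega
  have hdhn : dg T h ≤ n := by
    have h1 : dg T h = (Xᶜ.filter (fun y => T.Adj h y)).card := by
      apply hd4
      intro y
      simp only [Finset.mem_filter, Finset.mem_compl]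
      exact ⟨fun hy => ⟨hadjX h y hhX hy, hy⟩, fun hy => hy.2⟩
    rw [h1, ← hXcn]
    exact Finset.card_filter_le _ _
  obtain ⟨w, hw⟩ : ∃ w : ℕ, dg T h + w = k + 1 := ⟨k + 1 - dg T h, by omega⟩
  -- the set E
  obtain ⟨E, hEdef⟩ : ∃ E : Finset V, E = if yo = rt then ∅ else {par yo} := ⟨_, rfl⟩
  have hE0 : yo = rt → E = ∅ := fun hc => by rw [hEdef, if_pos hc]
  have hE1 : yo ≠ rt → E = {par yo} := fun hc => by rw [hEdef, if_neg hc]
  have hEmem : ∀ x ∈ E, x = par yo ∧ yo ≠ rt := by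
    intro x hx
    by_cases h1 : yo = rt
    · rw [hE0 h1] at hx; exact absurd hx (Finset.notMem_empty x)
    · rw [hE1 h1, Finset.mem_singleton] at hx; exact ⟨hx, h1⟩
  have hEc : E.card ≤ 1 := by
    by_cases h1 : yo = rt
    · rw [hE0 h1]; simp
    · rw [hE1 h1]; simp
  have hEx : ∀ x ∈ E, ∀ x' ∈ E, x = x' := fun x hx x' hx' => Finset.card_le_one.1 hEc x hx x' hx'
  have hEX : E ⊆ X := by
    intro x hx
    obtain ⟨h1, h2⟩ := hEmem x hx
    have h3 := hX yo (par yo) (hpar yo h2).1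
    rw [h1]
    by_contra h4
    exact hyoX (h3.2 h4)
  have hxrt : ∀ x ∈ E, x ≠ rt := fun x hx hc => hrtX (hc ▸ hEX hx)
  have hxh : ∀ x ∈ E, x ≠ h := by
    intro x hx
    obtain ⟨h1, h2⟩ := hEmem x hx
    rw [h1]
    exact (hyoroot h2).2.1
  have hparx : ∀ x ∈ E, par x ≠ yo := by
    intro x hx hc
    obtain ⟨h1, h2⟩ := hEmem x hx
    have d1 := (hpar x (hxrt x hx)).2
    have d2 := (hpar yo h2).2
    rw [← h1] at d2
    rw [hc] at d1
    omega
  have hdx : ∀ x ∈ E, 2 ≤ dg T x := by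
    intro x hx
    obtain ⟨h1, h2⟩ := hEmem x hx
    rw [hd4 x (univ.filter (fun y => T.Adj x y)) (by simp)]
    apply Nat.succ_le_of_lt
    rw [Finset.one_lt_card]
    refine ⟨par x, ?_, yo, ?_, hparx x hx⟩
    · simp only [Finset.mem_filter, Finset.mem_univ, true_and]
      exact (hpar x (hxrt x hx)).1
    · simp only [Finset.mem_filter, Finset.mem_univ, true_and]
      rw [h1]
      exact (hpar yo h2).1.symm
  have hparpar : ∀ x ∈ E, par x ≠ rt → par (par x) ∉ insert h E := by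
    intro x hx hne hc
    obtain ⟨h1, h2⟩ := hEmem x hx
    rcases Finset.mem_insert.1 hc with h3 | h3
    · rw [h1] at h3 hne
      exact (hyoroot h2).2.2 hne h3
    · have h4 := hEx _ h3 _ hx
      have d1 := (hpar x (hxrt x hx)).2
      have d2 := (hpar (par x) hne).2
      rw [h4] at d2
      omega
  have hhE : h ∉ E := fun hc => hxh h hc rfl
  -- sizes
  obtain ⟨MS, hMS⟩ : ∃ MS : Finset V,
      MS = X.filter (fun x => x ∉ insert h E ∧ 2 ≤ dg T x ∧ dg T x < C) := ⟨_, rfl⟩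
  obtain ⟨ML, hML⟩ : ∃ ML : Finset V, ML = X.filter (fun x => x ∉ insert h E ∧ C ≤ dg T x) :=
    ⟨_, rfl⟩
  obtain ⟨B, hB⟩ : ∃ B : ℕ, B = Bf (∑ x ∈ MS, (dg T x - 1)) := ⟨_, rfl⟩
  obtain ⟨Q0, hQ0⟩ : ∃ Q0 : ℕ, Q0 = ∑ x ∈ ML, N x + M0 * B := ⟨_, rfl⟩
  obtain ⟨q, hq⟩ : ∃ q : ℕ, q = Q0 + ∑ x ∈ E, (dg T x - 1) := ⟨_, rfl⟩
  have hQq : Q0 ≤ q := by rw [hq]; exact Nat.le_add_right _ _
  have hEsum : ∀ x ∈ E, ∑ z ∈ E, (dg T z - 1) = dg T x - 1 := by
    intro x hx
    have : E = {x} := Finset.eq_singleton_iff_unique_mem.2 ⟨hx, fun y hy => hEx y hy x hx⟩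
    rw [this, Finset.sum_singleton]
  have hQ0x : ∀ x ∈ E, Q0 + dg T x = q + 1 := by
    intro x hx
    have h1 := hEsum x hx
    have h2 := hdx x hx
    omega
  have h2q : 2 * q ≤ w := by
    have e1 := cap_split X C (dg T) N (fun x => x ≠ h)
    have e2 := cap_split X C (dg T) N (fun x => x ∉ insert h E)
    rw [← hMS, ← hML] at e2
    have hsplit : X.filter (fun x => x ≠ h) = X.filter (fun x => x ∉ insert h E) ∪ E := by
      ext x
      simp only [Finset.mem_filter, Finset.mem_union, Finset.mem_insert, not_or]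
      constructor
      · intro hx
        by_cases h1 : x ∈ E
        · exact Or.inr h1
        · exact Or.inl ⟨hx.1, hx.2, h1⟩
      · rintro (hx | hx)
        · exact ⟨hx.1, hx.2.1⟩
        · exact ⟨hEX hx, hxh x hx⟩
    have hdisj : Disjoint (X.filter (fun x => x ∉ insert h E)) E := by
      rw [Finset.disjoint_left]
      intro x hx hx'
      exact (Finset.mem_filter.1 hx).2 (Finset.mem_insert_of_mem hx')
    rw [hsplit, Finset.sum_union hdisj, e2] at e1
    have e3 : ((∑ x ∈ E, (dg T x - 1) : ℕ) : ℝ) ≤ ∑ x ∈ E,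
        (if C ≤ dg T x then (N x : ℝ) else if 2 ≤ dg T x then 3 / 2 * ((dg T x : ℝ) - 1) else 0) := by
      push_cast
      apply Finset.sum_le_sum
      intro x hx
      have h2 := hdx x hx
      have h3 : ((dg T x - 1 : ℕ) : ℝ) = (dg T x : ℝ) - 1 := by
        rw [Nat.cast_sub (by omega)]; norm_num
      have h4 : (2 : ℝ) ≤ dg T x := by exact_mod_cast h2
      by_cases h1 : C ≤ dg T x
      · rw [if_pos h1, h3]
        have h5 := (hN x (hEX hx) (hxh x hx) h1).2.1
        have h6 : (dg T x : ℝ) ≤ N x := by exact_mod_cast h5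
        linarith
      · rw [if_neg h1, if_pos h2, h3]
        linarith
    have e4 := hBf (∑ x ∈ MS, (dg T x - 1))
    rw [← hB] at e4
    have e5 : ((∑ x ∈ MS, (dg T x - 1) : ℕ) : ℝ) = ∑ x ∈ MS, ((dg T x : ℝ) - 1) := by
      rw [Nat.cast_sum]
      apply Finset.sum_congr rfl
      intro x hx
      rw [hMS, Finset.mem_filter] at hx
      rw [Nat.cast_sub (by omega)]; norm_num
    rw [e5] at e4
    have e6 : (q : ℝ) = ∑ x ∈ ML, (N x : ℝ) + ((M0 * B : ℕ) : ℝ) +
        ((∑ x ∈ E, (dg T x - 1) : ℕ) : ℝ) := by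
      rw [hq, hQ0, Nat.cast_add, Nat.cast_add, Nat.cast_sum]
    have e7 : (w : ℝ) = (k : ℝ) - dg T h + 1 := by
      have : ((dg T h + w : ℕ) : ℝ) = ((k + 1 : ℕ) : ℝ) := by rw [hw]
      push_cast at this
      linarith
    have e8 : 2 * (q : ℝ) ≤ w := by
      rw [e7]
      refine le_trans ?_ hcap
      rw [e6]
      linarith
    exact_mod_cast e8
  -- the padding
  obtain ⟨P, PH, Bd, lf, f1, f2, f3, f4, f5, f6, f7, f8, f9⟩ :=
    hfill V T hT X hX n k h yo E (fun x => if C ≤ dg T x then N x else dg T x) hXn hXcn hk hnk hhX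
      hyoX hh hyo hEX hEc hhE hdx
      (by
        intro x hx h2 hxh' hxE
        by_cases h1 : C ≤ dg T x
        · simp only [h1, if_true]
          have := hN x hx hxh' h1
          omega
        · simp only [h1, if_false]
          omega)
  have hrt2 : 2 ≤ dg T rt := by
    by_cases h1 : yo = rt
    · rw [← h1]; omega
    · exact (hyoroot h1).1
  have hlfrt : lf ≠ rt := by
    intro hc
    rw [hc] at f9
    omega
  have hP : ∀ x ∈ X, x ∉ insert h E → C ≤ dg T x → N x ∣ k ∧ dg T x + (P x).card = N x ∧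
      ∀ r ∈ P x, r ∈ X ∧ dg T r = 1 ∧ T.Adj r yo := by
    intro x hx hxH hCx
    rw [Finset.mem_insert, not_or] at hxH
    have h1 := f1 x hx (by omega) hxH.1 hxH.2
    simp only [hCx, if_true] at h1
    exact ⟨(hN x hx hxH.1 hCx).1, h1⟩
  -- the children of h
  obtain ⟨Ah, hAh⟩ : ∃ Ah : Finset V, Ah = univ.filter (fun y => y ≠ rt ∧ par y = h ∧ y ≠ lf) :=
    ⟨_, rfl⟩
  have hAhc : Ah.card + 2 = dg T h := by
    have h1 : dg T h = (insert rt (insert lf Ah)).card := by
      apply hd4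
      intro y
      simp only [Finset.mem_insert, hAh, Finset.mem_filter, Finset.mem_univ, true_and]
      constructor
      · intro hy
        rcases hYh y hy with h2 | h2
        · exact Or.inl h2
        · by_cases h3 : y = lf
          · exact Or.inr (Or.inl h3)
          · exact Or.inr (Or.inr ⟨h2.1, h2.2, h3⟩)
      · rintro (h2 | h2 | h2)
        · rw [h2]; exact hrth.symm
        · rw [h2]; exact f8
        · have := (hpar y h2.1).1.symm
          rwa [h2.2.1] at this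
    rw [h1, Finset.card_insert_of_notMem, Finset.card_insert_of_notMem]
    · rw [hAh]; simp
    · rw [hAh, Finset.mem_insert, not_or]
      exact ⟨hlfrt.symm, by simp⟩
  obtain ⟨gh, hgh1, hgh2⟩ := num_exists Ah
  -- the children of E
  obtain ⟨g0, hg0⟩ : ∃ g0 : V → ℕ, ∀ x ∈ E, (∀ y, y ≠ rt → par y = x → Q0 + g0 y < q) ∧
      (∀ y y', y ≠ rt → par y = x → y' ≠ rt → par y' = x → g0 y = g0 y' → y = y') ∧
      Q0 + g0 yo + 1 = q := by
    by_cases h1 : yo = rt
    · refine ⟨fun _ => 0, fun x hx => ?_⟩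
      rw [hE0 h1] at hx
      exact absurd hx (Finset.notMem_empty x)
    · have hx : par yo ∈ E := by rw [hE1 h1]; exact Finset.mem_singleton_self _
      obtain ⟨A0, hA0⟩ : ∃ A0 : Finset V, A0 = univ.filter (fun y => y ≠ rt ∧ par y = par yo) :=
        ⟨_, rfl⟩
      have hmemA : ∀ y, y ∈ A0 ↔ y ≠ rt ∧ par y = par yo := by
        intro y; rw [hA0]; simp
      have hA0c : A0.card + 1 = dg T (par yo) := by
        have h2 : dg T (par yo) = (insert (par (par yo)) A0).card := by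
          apply hd4
          intro y
          rw [Finset.mem_insert, hmemA]
          constructor
          · intro hy
            rcases hadj (par yo) y hy with h3 | h3
            · exact Or.inl h3.2.symm
            · exact Or.inr h3
          · rintro (h3 | h3)
            · rw [h3]; exact (hpar (par yo) (hxrt _ hx)).1
            · have := (hpar y h3.1).1.symm
              rwa [h3.2] at this
        rw [h2, Finset.card_insert_of_notMem]
        rw [hmemA]
        rintro ⟨h3, h4⟩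
        have d1 := (hpar (par yo) (hxrt _ hx)).2
        have d2 := (hpar (par (par yo)) h3).2
        rw [h4] at d2
        omega
      obtain ⟨g0, i1, i2, i3⟩ := num_exists_last A0 yo ((hmemA yo).2 ⟨h1, rfl⟩)
      have h5 := hQ0x _ hx
      refine ⟨g0, fun x hx' => ?_⟩
      have h6 : x = par yo := (hEmem x hx').1
      rw [h6]
      refine ⟨?_, ?_, ?_⟩
      · intro y hy hy'
        have := i1 y ((hmemA y).2 ⟨hy, hy'⟩)
        omega
      · intro y y' hy hy' hz hz'
        exact i2 y ((hmemA y).2 ⟨hy, hy'⟩) y' ((hmemA y').2 ⟨hz, hz'⟩)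
      · omega
  -- prescribed labels
  obtain ⟨f, hf⟩ : ∃ f : V → ℤ, ∀ y, f y = if y = rt then (k : ℤ) - 1 else if par y = h then
      ((w + gh y : ℕ) : ℤ) else ((Q0 + g0 y : ℕ) : ℤ) := ⟨_, fun _ => rfl⟩
  obtain ⟨u, v1, v2, v3, v4⟩ := hDB1 V T hT X hX rt par hrtX hparrt hpar hadj (insert h E) yo
    (Finset.insert_subset hhX hEX) hyoX
    (by
      by_cases h1 : yo = rt
      · exact Or.inl h1
      · right
        rw [hE1 h1]
        simp)
    f C J M0 B k N P (by omega) hM0k hd hP f2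
    (by
      intro deg h1 h2
      rw [← hMS] at h1 h2 ⊢
      have h3 := hG MS.card deg h1
      rw [h2, ← hB] at h3
      exact h3)
  rw [← hML, ← hQ0] at v2
  have hchY : ∀ y, y ≠ rt → par y ∈ X → y ∉ X := fun y hy hy' =>
    hadjX (par y) y hy' (hpar y hy).1.symm
  have ufh : ∀ y, y ≠ rt → par y = h → u y = ((w + gh y : ℕ) : ℤ) := by
    intro y hy hy'
    rw [v1 y (hchY y hy (hy' ▸ hhX)) (Or.inr (by rw [hy']; exact Finset.mem_insert_self _ _)), hf,
      if_neg hy, if_pos hy']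
  have ufx : ∀ x ∈ E, ∀ y, y ≠ rt → par y = x → u y = ((Q0 + g0 y : ℕ) : ℤ) := by
    intro x hx y hy hy'
    rw [v1 y (hchY y hy (hy' ▸ hEX hx)) (Or.inr (by rw [hy']; exact Finset.mem_insert_of_mem hx)), hf,
      if_neg hy, if_neg (by rw [hy']; exact hxh x hx)]
  refine stage2 hdg hcrit hcov hlocF hlocH T hT X hX n k C Q0 q w h yo lf rt par E PH Bd P u hXn
    hXcn hhX hw (by omega) h2q hQq (by omega) hrtX hparh hpar hadj hEc ?_ ?_ ?_ f3 f4 f5 f6 f7 f8 f9
    hlfrt ?_ ?_ ?_ ?_ ?_ ?_ ?_ ?_ ?_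
  · intro x hx
    exact ⟨(hEmem x hx).1, (hEmem x hx).2, hEX hx, hxh x hx, hdx x hx, hparpar x hx, hparx x hx,
      hQ0x x hx⟩
  · intro hc
    by_contra h1
    rw [hE1 h1] at hc
    exact absurd hc (Finset.singleton_ne_empty _)
  · intro x hx hxH hCx r hr
    exact ⟨((hP x hx hxH hCx).2.2 r hr).1, ((hP x hx hxH hCx).2.2 r hr).2.1⟩
  · rw [v1 rt hrtX (Or.inl rfl), hf, if_pos rfl]
  · intro y hy hy' hyl
    have h1 : y ∈ Ah := by rw [hAh]; simp [hy, hy', hyl]
    have h2 := hgh1 y h1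
    rw [ufh y hy hy']
    push_cast
    omega
  · intro y y' hy hyh hyl hy' hyh' hyl' he
    have h1 : y ∈ Ah := by rw [hAh]; simp [hy, hyh, hyl]
    have h2 : y' ∈ Ah := by rw [hAh]; simp [hy', hyh', hyl']
    rw [ufh y hy hyh, ufh y' hy' hyh'] at he
    exact hgh2 y h1 y' h2 (by omega)
  · intro x hx y hy hy'
    have h1 := (hg0 x hx).1 y hy hy'
    rw [ufx x hx y hy hy']
    omega
  · intro x hx y y' hy hyx hy' hyx' he
    rw [ufx x hx y hy hyx, ufx x hx y' hy' hyx'] at he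
    exact (hg0 x hx).2.1 y y' hy hyx hy' hyx' (by omega)
  · rintro ⟨x, hx⟩
    obtain ⟨h1, h2⟩ := hEmem x hx
    have h3 := (hg0 x hx).2.2
    rw [ufx x hx yo h2 h1.symm]
    omega
  · intro y hy hyr hyH
    exact v2 y hy hyr hyH
  · intro y hy y' hy' h1 h2 h3 h4 he
    exact v3 y hy y' hy' h1 h2 h3 h4 he
  · exact v4

end Pool.Agent.Lib.MP_7c15de_co.TH
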