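import Pool.Agent.Lib.MP_7c15de_co.TH.Stm

/-!
# MP_7c15de_co, better hosts, piece [DB1]
-/

set_option autoImplicit false

namespace Pool.Agent.Lib.MP_7c15de_co.TH

open Finset Pool.Agent.Lib.MP_7c15de_co

theorem p_DB1 (hdg : S_dg) (hcov : S_cov) (henum : S_enum) (hlocY : S_locY) (hslot : S_slot)
    (hlab : S_lab) (hcovS : S_covS) : S_DB1 := by
  intro V _ _ T hT X hX rt par hrt hprt hpar hedge Hs yo hHs hyo hyo2 f C J M0 B k N P hC hM0k
    hdiv hML hPd hgame
  obtain ⟨-, -, -, hd4, -, hd6⟩ := hdg V T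
  obtain ⟨sl, hsl⟩ := hslot
  -- the children
  set ch : V → Finset V := fun x => univ.filter (fun y => y ≠ rt ∧ par y = x) with hch
  have mem_ch : ∀ x c, c ∈ ch x ↔ c ≠ rt ∧ par c = x := by
    intro x c
    simp [hch]
  have hXrt : ∀ x ∈ X, x ≠ rt := by
    rintro x hx rfl
    exact hrt hx
  have hadj : ∀ x ∈ X, ∀ y, T.Adj x y ↔ y = par x ∨ y ∈ ch x := by
    intro x hx y
    constructor
    · intro h
      rcases hedge x y h with h1 | h1
      · exact Or.inl h1.2.symm
      · exact Or.inr ((mem_ch x y).mpr h1)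
    · rintro (h | h)
      · rw [h]; exact (hpar x (hXrt x hx)).1
      · rw [mem_ch] at h
        have := (hpar y h.1).1
        rw [h.2] at this
        exact this.symm
  have hparch : ∀ x ∈ X, par x ∉ ch x := by
    intro x hx h
    rw [mem_ch] at h
    have h1 := (hpar x (hXrt x hx)).2
    have h2 := (hpar (par x) h.1).2
    rw [h.2] at h2
    omega
  have hdgch : ∀ x ∈ X, dg T x = (ch x).card + 1 := by
    intro x hx
    rw [hd4 x (insert (par x) (ch x)) (fun y => by rw [hadj x hx y, mem_insert]),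
      card_insert_of_notMem (hparch x hx)]
  have hchX : ∀ x ∈ X, ∀ c ∈ ch x, c ∉ X := by
    intro x hx c hc
    have h1 := (hadj x hx c).mpr (Or.inr hc)
    exact ((hX x c h1).mp hx)
  have hμch : ∀ x ∈ X, ∀ c ∈ ch x, T.dist rt (par x) < T.dist rt c := by
    intro x hx c hc
    rw [mem_ch] at hc
    have h1 := (hpar c hc.1).2
    have h2 := (hpar x (hXrt x hx)).2
    rw [hc.2] at h1
    omega
  -- the mains
  set ML := X.filter (fun x => x ∉ Hs ∧ C ≤ dg T x) with hMLd
  set MS := X.filter (fun x => x ∉ Hs ∧ 2 ≤ dg T x ∧ dg T x < C) with hMSd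
  have memL : ∀ x, x ∈ ML ↔ x ∈ X ∧ x ∉ Hs ∧ C ≤ dg T x := by
    intro x; simp [hMLd]
  have memS : ∀ x, x ∈ MS ↔ x ∈ X ∧ x ∉ Hs ∧ 2 ≤ dg T x ∧ dg T x < C := by
    intro x; simp [hMSd]
  have memLS : ∀ x, x ∈ ML ∪ MS ↔ x ∈ X ∧ x ∉ Hs ∧ 2 ≤ dg T x := by
    intro x
    rw [mem_union, memL, memS]
    constructor
    · rintro (h | h)
      · exact ⟨h.1, h.2.1, hC.trans h.2.2⟩
      · exact ⟨h.1, h.2.1, h.2.2.1⟩
    · rintro ⟨h1, h2, h3⟩
      by_cases h4 : C ≤ dg T x
      · exact Or.inl ⟨h1, h2, h4⟩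
      · exact Or.inr ⟨h1, h2, h3, by omega⟩
  set F := univ.filter (fun y => y ∉ X ∧ (y = rt ∨ par y ∈ Hs)) with hFd
  have memF : ∀ y, y ∈ F ↔ y ∉ X ∧ (y = rt ∨ par y ∈ Hs) := by
    intro y; simp [hFd]
  haveI : Nonempty V := ⟨rt⟩
  obtain ⟨xs, hx1, hx2, hx3, hx4⟩ := henum V MS (fun x => T.dist rt (par x))
  have hsum : ∑ s ∈ range MS.card, (dg T (xs s) - 1) = ∑ x ∈ MS, (dg T x - 1) := by
    refine Finset.sum_nbij xs ?_ ?_ ?_ ?_
    · intro s hs
      exact hx1 s (mem_range.mp hs)
    · intro s hs s' hs' h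
      exact hx3 s (mem_range.mp hs) s' (mem_range.mp hs') h
    · intro x hx
      obtain ⟨s, hs, he⟩ := hx2 x hx
      exact ⟨s, mem_coe.mpr (mem_range.mpr hs), he⟩
    · intro s _
      rfl
  obtain ⟨sc, lab, hG⟩ := hgame (fun s => dg T (xs s))
    (fun s hs => ((memS _).mp (hx1 s hs)).2.2) hsum
  -- numbering of the children
  let eV : V → ℕ := fun z => (Fintype.equivFin V z : ℕ)
  have heV : ∀ a b, eV a = eV b → a = b := by
    intro a b h
    exact (Fintype.equivFin V).injective (Fin.ext h)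
  let idx : V → ℕ := fun y => ((ch (par y)).filter (fun z => eV z ≤ eV y)).card
  have hidx1 : ∀ x, ∀ c ∈ ch x, 1 ≤ idx c ∧ idx c ≤ (ch x).card := by
    intro x c hc
    have h1 := ((mem_ch x c).mp hc).2
    have h2 := (rank_spec (ch x) eV (fun a _ b _ h => heV a b h)).1 c hc
    simp only [idx, h1]
    exact h2
  have hidx2 : ∀ x, ∀ c ∈ ch x, ∀ c' ∈ ch x, idx c = idx c' → c = c' := by
    intro x c hc c' hc' h
    have h1 := ((mem_ch x c).mp hc).2
    have h1' := ((mem_ch x c').mp hc').2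
    simp only [idx, h1, h1'] at h
    exact (rank_spec (ch x) eV (fun a _ b _ h => heV a b h)).2 c hc c' hc' h
  have hidx3 : ∀ x, ∀ i < (ch x).card, ∃ c ∈ ch x, idx c - 1 = i := by
    intro x i hi
    have h1 : (ch x).image idx = Finset.Icc 1 (ch x).card := by
      apply Finset.eq_of_subset_of_card_le
      · intro j hj
        rw [mem_image] at hj
        obtain ⟨c, hc, rfl⟩ := hj
        rw [Finset.mem_Icc]
        exact hidx1 x c hc
      · rw [Finset.card_image_of_injOn (fun a ha b hb h => hidx2 x a ha b hb h), Nat.card_Icc]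
        omega
    have h2 : i + 1 ∈ (ch x).image idx := by
      rw [h1, Finset.mem_Icc]; omega
    rw [mem_image] at h2
    obtain ⟨c, hc, h3⟩ := h2
    exact ⟨c, hc, by omega⟩
  -- facts on the large mains
  have hMLf : ∀ x ∈ ML, 2 ≤ dg T x ∧ dg T x ≤ N x ∧ N x ∣ k := by
    intro x hx
    obtain ⟨h1, h2, h3⟩ := (memL x).mp hx
    obtain ⟨h4, h5, -⟩ := hML x h1 h2 h3
    exact ⟨hC.trans h3, by omega, h4⟩
  obtain ⟨u, ρ, hu1, hu2, hu3, hu4, hu5⟩ := hlab V (fun v => T.dist rt v) par ML MS ch N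
    (fun x w c => sl (N x) (dg T x) (w (par x)) (f yo) (idx c - 1)) F f C J M0 B
    (fun s => dg T (xs s)) sc lab xs idx
    (by
      rw [Finset.disjoint_left]
      intro x hx hx'
      have h1 := ((memL x).mp hx).2.2
      have h2 := ((memS x).mp hx').2.2.2
      omega)
    (by
      intro x hx c hc
      obtain ⟨h1, h2, -⟩ := (memLS x).mp hx
      refine ⟨?_, hμch x h1 c hc⟩
      intro hcF
      rw [memF] at hcF
      rw [mem_ch] at hc
      rcases hcF.2 with h3 | h3
      · exact hc.1 h3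
      · rw [hc.2] at h3
        exact h2 h3)
    (by
      intro x _ x' _ c hc hc'
      rw [mem_ch] at hc hc'
      rw [← hc.2, ← hc'.2])
    (fun x hx => by have := hMLf x hx; omega)
    (by
      intro x hx c hc w w' hw
      have h1 := ((memL x).mp hx).1
      show sl _ _ (w (par x)) _ _ = sl _ _ (w' (par x)) _ _
      rw [hw (par x) (hμch x h1 c hc)])
    (by
      intro x hx w c hc c' hc' h
      have h1 := ((memL x).mp hx).1
      obtain ⟨h2, h3, -⟩ := hMLf x hx
      have h4 := (hsl (N x) (dg T x) (w (par x)) (f yo) h2 h3).2.1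
      have h5 := hidx1 x c hc
      have h6 := hidx1 x c' hc'
      have h7 := hdgch x h1
      have h8 := h4 (idx c - 1) (by omega) (idx c' - 1) (by omega) h
      exact hidx2 x c hc c' hc' (by omega))
    hG
    (fun s hs => ⟨hx1 s hs, hdgch _ ((memS _).mp (hx1 s hs)).1⟩)
    hx2 hx3 hx4
    (fun x _ => hidx1 x) (fun x _ => hidx2 x)
  have hyoF : u yo = f yo := hu1 yo ((memF yo).mpr ⟨hyo, hyo2⟩)
  have hpary : ∀ y ∉ X, y ≠ rt → par y ∉ Hs → par y ∈ ML ∪ MS ∧ y ∈ ch (par y) := by
    intro y hy hyr hyH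
    have h1 : par y ∈ X := by
      by_contra h
      exact hy ((hX y (par y) (hpar y hyr).1).mpr h)
    have h2 : y ∈ ch (par y) := (mem_ch _ _).mpr ⟨hyr, rfl⟩
    refine ⟨(memLS _).mpr ⟨h1, hyH, ?_⟩, h2⟩
    rw [hdgch _ h1]
    have : 0 < (ch (par y)).card := card_pos.mpr ⟨y, h2⟩
    omega
  refine ⟨u, ?_, ?_, ?_, ?_⟩
  · intro y hy h
    exact hu1 y ((memF y).mpr ⟨hy, h⟩)
  · intro y hy hyr hyH
    obtain ⟨h1, h2⟩ := hpary y hy hyr hyH
    exact hu4 _ h1 y h2
  · intro y hy y' hy' hyr hyH hyr' hyH' h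
    obtain ⟨h1, h2⟩ := hpary y hy hyr hyH
    obtain ⟨h1', h2'⟩ := hpary y' hy' hyr' hyH'
    exact hu5 _ h1 _ h1' y h2 y' h2' h
  · obtain ⟨-, hc2, hc3, hc4, -⟩ := hcov V T k u
    have hset : X.filter (fun x => x ∉ Hs ∧ 2 ≤ dg T x) ∪ ML.biUnion P =
        (ML.biUnion (fun x => insert x (P x))) ∪ MS := by
      ext z
      simp only [mem_union, mem_filter, mem_biUnion, mem_insert]
      constructor
      · rintro (h | ⟨x, hx, hz⟩)
        · have h1 := (memLS z).mpr h
          rw [mem_union] at h1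
          rcases h1 with h1 | h1
          · exact Or.inl ⟨z, h1, Or.inl rfl⟩
          · exact Or.inr h1
        · exact Or.inl ⟨x, hx, Or.inr hz⟩
      · rintro (⟨x, hx, rfl | hz⟩ | h)
        · exact Or.inl ((memLS z).mp (mem_union_left _ hx))
        · exact Or.inr ⟨x, hx, hz⟩
        · exact Or.inl ((memLS z).mp (mem_union_right _ h))
    rw [hset]
    have hPf : ∀ x ∈ ML, ∀ r ∈ P x, r ∈ X ∧ dg T r = 1 ∧ T.Adj r yo := by
      intro x hx
      obtain ⟨h1, h2, h3⟩ := (memL x).mp hx
      exact (hML x h1 h2 h3).2.2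
    refine hc3 _ _ ?_ ?_ ?_
    · refine hc4 V ML (fun x => insert x (P x)) ?_ ?_
      · intro x hx
        apply hc2
        obtain ⟨h1, h2, h3⟩ := (memL x).mp hx
        obtain ⟨h4, h5, h6⟩ := hML x h1 h2 h3
        obtain ⟨h7, h8, h9⟩ := hMLf x hx
        obtain ⟨s1, s2, s3⟩ := hsl (N x) (dg T x) (u (par x)) (f yo) h7 h8
        have hcard := hdgch x h1
        have hlt : ∀ c ∈ ch x, idx c - 1 < dg T x - 1 := by
          intro c hc
          have := hidx1 x c hc
          omega
        have hxP : x ∉ P x := by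
          intro h
          have := (h6 x h).2.1
          omega
        refine hlocY V T k (N x) u x yo (P x) (by omega) h4 hxP h5 ?_ ?_ ?_
        · intro r hr y
          exact hd6 r yo (h6 r hr).2.1 (h6 r hr).2.2 y
        · intro y y' hy hy' h
          rw [hadj x h1] at hy hy'
          rcases hy with hy | hy <;> rcases hy' with hy' | hy'
          · rw [hy, hy']
          · exfalso
            rw [hy] at h
            exact s1 _ (hlt y' hy') ((hu2 x hx y' hy').symm.trans h.symm)
          · exfalso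
            rw [hy'] at h
            exact s1 _ (hlt y hy) ((hu2 x hx y hy).symm.trans h)
          · have h10 := s2 _ (hlt y hy) _ (hlt y' hy')
              (((hu2 x hx y hy).symm.trans h).trans (hu2 x hx y' hy'))
            have h11 := hidx1 x y hy
            have h12 := hidx1 x y' hy'
            exact hidx2 x y hy y' hy' (by omega)
        · rw [hyoF]
          rcases s3 with s3 | ⟨i, hi, s3⟩
          · exact ⟨par x, (hadj x h1 _).mpr (Or.inl rfl), s3.symm⟩
          · obtain ⟨c, hc, hci⟩ := hidx3 x i (by omega)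
            refine ⟨c, (hadj x h1 _).mpr (Or.inr hc), ?_⟩
            have h13 := hu2 x hx c hc
            simp only [hci] at h13
            exact h13.trans s3
      · intro i hi j hj x hx hx'
        rw [mem_insert] at hx hx'
        rcases hx with hx | hx <;> rcases hx' with hx' | hx'
        · rw [← hx, ← hx']
        · exfalso
          have h1 := (hPf j hj x hx').2.1
          have h2 := (hMLf i hi).1
          rw [← hx] at h2
          omega
        · exfalso
          have h1 := (hPf i hi x hx).2.1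
          have h2 := (hMLf j hj).1
          rw [← hx'] at h2
          omega
        · exact hPd i j x hx hx'
    · exact hcovS V T k C J M0 u MS xs (fun s => dg T (xs s)) (fun s => sc s ρ) par ch idx hM0k
        hdiv hx1 hx2 hx3
        (fun x hx => ⟨hparch x ((memS x).mp hx).1, hadj x ((memS x).mp hx).1⟩)
        (fun s hs => ⟨hdgch _ ((memS _).mp (hx1 s hs)).1, ((memS _).mp (hx1 s hs)).2.2⟩)
        (fun x _ => hidx1 x) (fun x _ => hidx2 x)
        (fun s hs => hG.sc_le s hs ρ) hu3
        (fun d hd hdC j hj => hG.count ρ d hd hdC j hj)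
    · rw [Finset.disjoint_left]
      intro z hz hz'
      have h1 := (memS z).mp hz'
      rw [mem_biUnion] at hz
      obtain ⟨x, hx, hz⟩ := hz
      rw [mem_insert] at hz
      rcases hz with hz | hz
      · have h2 := ((memL x).mp hx).2.2
        rw [← hz] at h2
        omega
      · have h2 := (hPf x hx z hz).2.1
        omega

end Pool.Agent.Lib.MP_7c15de_co.TH
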