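import Pool.Agent.Lib.MP_7c15de_co.TH.Stm

/-!
# MP_7c15de_co, better hosts: piece R1
-/

set_option autoImplicit false

namespace Pool.Agent.Lib.MP_7c15de_co.TH

open Finset Pool.Agent.Lib.MP_7c15de_co

/-- the size of `N` compared with `d - 1` -/
private theorem r1_size (C N d : ℕ) (η : ℝ) (hC : 3 ≤ C) (hd : C ≤ d)
    (hη : (C : ℝ) + 1 ≤ (1 + η) * (C - 1)) (h : C * N ≤ (C + 1) * d) :
    (N : ℝ) ≤ (1 + η) * ((d : ℝ) - 1) := by
  have h1 : (C : ℝ) * N ≤ (C + 1) * d := by exact_mod_cast h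
  have hC' : (3 : ℝ) ≤ C := by exact_mod_cast hC
  have hd' : (C : ℝ) ≤ d := by exact_mod_cast hd
  have h2 : (C : ℝ) * ((C - 1) * N) ≤ C * ((C + 1) * (d - 1)) := by nlinarith
  have h3 : ((C : ℝ) - 1) * N ≤ (C + 1) * (d - 1) := le_of_mul_le_mul_left h2 (by linarith)
  have h4 : ((C : ℝ) - 1) * N ≤ (C - 1) * ((1 + η) * (d - 1)) := by nlinarith
  exact le_of_mul_le_mul_left h4 (by linarith)

theorem p_R1 (hdg : S_dg) (hA : S_A) (hk1 : S_k1) : S_R1 := by
  intro ε hε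
  obtain ⟨e, he0, he1, hee⟩ : ∃ e : ℝ, 0 < e ∧ e ≤ 1 ∧ e ≤ ε :=
    ⟨min ε 1, lt_min hε one_pos, min_le_right _ _, min_le_left _ _⟩
  obtain ⟨C, hC⟩ := exists_nat_ge (8 / e + 1)
  have h8 : 8 ≤ 8 / e := by rw [le_div_iff₀ he0]; linarith
  have hC9 : (9 : ℝ) ≤ C := by linarith
  have hC9' : 9 ≤ C := by exact_mod_cast hC9
  have hCe : 8 ≤ e * ((C : ℝ) - 1) := by
    have : 8 / e ≤ (C : ℝ) - 1 := by linarith
    rw [div_le_iff₀ he0] at this
    linarith
  have hη : (C : ℝ) + 1 ≤ (1 + e / 4) * (C - 1) := by nlinarith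
  obtain ⟨J, hJ⟩ := hA C (e / 4) (by linarith)
  have hM0 : 0 < (Nat.factorial C) ^ (J + 1) := pow_pos (Nat.factorial_pos C) _
  obtain ⟨K, hK⟩ := hJ ((Nat.factorial C) ^ (J + 1)) hM0
    (fun d hd1 hd2 => pow_dvd_pow_of_dvd (Nat.dvd_factorial (by omega) hd2.le) _)
  obtain ⟨γ, n1, hγ, hk⟩ := hk1 C ((Nat.factorial C) ^ (J + 1)) (by omega) hM0
  obtain ⟨n2, hn2⟩ := exists_nat_ge (4 * ((K : ℝ) + 1) / e)
  refine ⟨γ, hγ, max n1 (max 2 n2), fun n hn => ?_⟩
  have hn1 : n1 ≤ n := (le_max_left _ _).trans hn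
  have hn2' : 2 ≤ n := ((le_max_left _ _).trans (le_max_right _ _)).trans hn
  have hn3 : n2 ≤ n := ((le_max_right _ _).trans (le_max_right _ _)).trans hn
  have hnR : (2 : ℝ) ≤ n := by exact_mod_cast hn2'
  have hnK : (K : ℝ) + 1 ≤ e / 4 * n := by
    have h1 : (n2 : ℝ) ≤ n := by exact_mod_cast hn3
    have h2 : 4 * ((K : ℝ) + 1) / e ≤ n := hn2.trans h1
    rw [div_le_iff₀ he0] at h2
    linarith
  obtain ⟨k, hk0, hk1', hk2, hkd⟩ := hk n hn1 (1 + e / 2) (by linarith)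
  have hkpos : 0 < k := by
    have : (0 : ℝ) < k := lt_of_lt_of_le (by positivity) hk1'
    exact_mod_cast this
  refine ⟨k, hkpos, ?_, ?_⟩
  · refine hk2.trans ?_
    have h1 : (1 + e / 2) * (1 + 1 / (C : ℝ)) ≤ 1 + e := by
      have h2 : 1 / (C : ℝ) ≤ e / 3 := by
        rw [div_le_div_iff₀ (by linarith) (by norm_num)]
        nlinarith
      nlinarith
    have h3 : (1 + e / 2) * (1 + 1 / (C : ℝ)) ≤ 1 + ε := by linarith
    exact mul_le_mul_of_nonneg_right h3 (by linarith)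
  intro V _ T c hT hc hct hcf hdeg
  classical
  obtain ⟨X, hXdef⟩ : ∃ X : Finset V, X = univ.filter (fun v => c v = true) := ⟨_, rfl⟩
  have hmem : ∀ v, v ∈ X ↔ c v = true := by
    intro v
    rw [hXdef, mem_filter]
    simp
  have hX : ∀ a b, T.Adj a b → (a ∈ X ↔ b ∉ X) := by
    intro a b hab
    have h1 := hc a b hab
    rw [hmem, hmem]
    cases ha : c a <;> cases hb : c b <;> simp_all
  have hXcard : X.card = n := by
    rw [hXdef, ← hct, Fintype.card_subtype]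
  have hXc : Xᶜ.card = n := by
    rw [← hcf, Fintype.card_subtype]
    congr 1
    ext v
    rw [mem_compl, hmem, mem_filter]
    simp
  have hVcard : Fintype.card V = 2 * n := by
    rw [← card_add_card_compl X, hXcard, hXc]
    omega
  obtain ⟨-, hd2, hd3, -⟩ := hdg V T
  have hdpos := hd2 hT (by omega)
  have hsum := hd3 hT X hX
  -- the sizes of the parts
  have hex : ∀ x : V, ∃ N : ℕ, x ∈ X → C ≤ dg T x → N ∣ k ∧ dg T x ≤ N ∧ C * N ≤ (C + 1) * dg T x := by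
    intro x
    by_cases h : x ∈ X ∧ C ≤ dg T x
    · obtain ⟨N, h1, h2, h3⟩ := hkd (dg T x) h.2 (hdeg x ((hmem x).1 h.1))
      exact ⟨N, fun _ _ => ⟨h1, h2, h3⟩⟩
    · exact ⟨0, fun h1 h2 => absurd ⟨h1, h2⟩ h⟩
  choose N hN using hex
  refine hK V T hT X hX (by rw [hXcard, hXc]) (by omega) (2 * n - 1) k (by omega) hk0 N ?_ ?_
  · intro x hx hCx _
    obtain ⟨h1, h2, h3⟩ := hN x hx hCx
    refine ⟨h1, h2, ?_⟩
    have h4 : C * (N x + 2) ≤ C * (2 * dg T x) := by nlinarith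
    exact Nat.le_of_mul_le_mul_left h4 (by omega)
  · -- capacity
    have hS : ∑ x ∈ X, ((dg T x : ℝ) - 1) = n - 1 := by
      rw [sum_sub_distrib, sum_const, hXcard, nsmul_eq_mul, mul_one]
      have h1 : (∑ x ∈ X, (dg T x : ℝ)) + 1 = 2 * n := by
        have h2 : ((∑ x ∈ X, dg T x + 1 : ℕ) : ℝ) = ((2 * n : ℕ) : ℝ) := by rw [hsum, hVcard]
        push_cast at h2
        exact h2
      linarith
    have hA1 : ∑ x ∈ X.filter (fun x => C ≤ dg T x ∧ 2 ≤ dg T x), (N x : ℝ) ≤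
        (1 + e / 4) * ∑ x ∈ X.filter (fun x => C ≤ dg T x ∧ 2 ≤ dg T x), ((dg T x : ℝ) - 1) := by
      rw [mul_sum]
      refine sum_le_sum fun x hx => ?_
      rw [mem_filter] at hx
      obtain ⟨-, -, h3⟩ := hN x hx.1 hx.2.1
      exact r1_size C (N x) (dg T x) (e / 4) (by omega) hx.2.1 hη h3
    have hdisj : Disjoint (X.filter (fun x => C ≤ dg T x ∧ 2 ≤ dg T x))
        (X.filter (fun x => 2 ≤ dg T x ∧ dg T x < C)) := by
      rw [disjoint_left]
      intro x hx hx'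
      rw [mem_filter] at hx hx'
      omega
    have hB1 : ∑ x ∈ X.filter (fun x => C ≤ dg T x ∧ 2 ≤ dg T x), ((dg T x : ℝ) - 1) +
        ∑ x ∈ X.filter (fun x => 2 ≤ dg T x ∧ dg T x < C), ((dg T x : ℝ) - 1) ≤
        ∑ x ∈ X, ((dg T x : ℝ) - 1) := by
      rw [← sum_union hdisj]
      refine sum_le_sum_of_subset_of_nonneg ?_ ?_
      · intro x hx
        rw [mem_union, mem_filter, mem_filter] at hx
        rcases hx with hx | hx
        · exact hx.1
        · exact hx.1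
      · intro x _ _
        have : (1 : ℝ) ≤ dg T x := by exact_mod_cast hdpos x
        linarith
    rw [hS] at hB1
    have hfin : (1 + e / 4) * (∑ x ∈ X.filter (fun x => C ≤ dg T x ∧ 2 ≤ dg T x), ((dg T x : ℝ) - 1) +
        ∑ x ∈ X.filter (fun x => 2 ≤ dg T x ∧ dg T x < C), ((dg T x : ℝ) - 1)) ≤
        (1 + e / 4) * ((n : ℝ) - 1) := mul_le_mul_of_nonneg_left hB1 (by linarith)
    rw [mul_add] at hfin
    nlinarith

end Pool.Agent.Lib.MP_7c15de_co.TH
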