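import Pool.Agent.Lib.MP_7c15de_co.TH.Stm

/-!
# MP_7c15de_co, piece [R2]: `k(n) ≤ (3/2 + ε) n`
-/

set_option autoImplicit false

namespace Pool.Agent.Lib.MP_7c15de_co.TH

open Finset Pool.Agent.Lib.MP_7c15de_co

/-- The sum of `dg - 1` over a class with `n` vertices. -/
private lemma r2_sum (hdg : S_dg) {V : Type} [Fintype V] [DecidableEq V] (T : SimpleGraph V)
    (hT : T.IsTree) (X : Finset V) (hb : ∀ a b, T.Adj a b → (a ∈ X ↔ b ∉ X)) (n : ℕ)
    (hX : X.card = n) (hV : Fintype.card V = 2 * n) :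
    ∑ x ∈ X, ((dg T x : ℝ) - 1) = (n : ℝ) - 1 := by
  have h1 := (hdg V T).2.2.1 hT X hb
  rw [hV] at h1
  have h2 : (∑ x ∈ X, (dg T x : ℝ)) + 1 = 2 * (n : ℝ) := by
    exact_mod_cast h1
  rw [Finset.sum_sub_distrib, Finset.sum_const, hX, nsmul_eq_mul, mul_one]
  linarith

/-- Two sums over disjoint filters. -/
private lemma r2_filter {V : Type} [DecidableEq V] (X : Finset V) (g Nx : V → ℝ) (P Q : V → Prop)
    [DecidablePred P] [DecidablePred Q] (A : ℝ) (hA : 3 / 2 ≤ A) (hg : ∀ x ∈ X, 0 ≤ g x)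
    (hN : ∀ x ∈ X, P x → Nx x ≤ A * g x) (hPQ : ∀ x ∈ X, P x → ¬ Q x) :
    ∑ x ∈ X.filter P, Nx x + 3 / 2 * ∑ x ∈ X.filter Q, g x ≤ A * ∑ x ∈ X, g x := by
  rw [Finset.sum_filter, Finset.sum_filter, Finset.mul_sum, Finset.mul_sum, ← Finset.sum_add_distrib]
  apply Finset.sum_le_sum
  intro x hx
  have h0 := hg x hx
  by_cases hP : P x
  · rw [if_pos hP, if_neg (hPQ x hx hP)]
    have := hN x hx hP
    linarith
  · rw [if_neg hP]
    by_cases hQ : Q x
    · rw [if_pos hQ]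
      nlinarith
    · rw [if_neg hQ]
      nlinarith

/-- The same without the vertex `h`. -/
private lemma r2_filter2 {V : Type} [DecidableEq V] (X : Finset V) (h : V) (hh : h ∈ X)
    (g Nx : V → ℝ) (P Q : V → Prop)
    [DecidablePred P] [DecidablePred Q] (A : ℝ) (hA : 3 / 2 ≤ A) (hg : ∀ x ∈ X, 0 ≤ g x)
    (hN : ∀ x ∈ X, x ≠ h → P x → Nx x ≤ A * g x) (hPQ : ∀ x ∈ X, P x → ¬ Q x) :
    ∑ x ∈ X.filter (fun x => x ≠ h ∧ P x), Nx x +
      3 / 2 * ∑ x ∈ X.filter (fun x => x ≠ h ∧ Q x), g x ≤ A * (∑ x ∈ X, g x - g h) := by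
  have h1 : X.filter (fun x => x ≠ h ∧ P x) = (X.erase h).filter P := by
    ext x
    simp only [mem_filter, mem_erase]
    tauto
  have h2 : X.filter (fun x => x ≠ h ∧ Q x) = (X.erase h).filter Q := by
    ext x
    simp only [mem_filter, mem_erase]
    tauto
  have h3 := Finset.sum_erase_add X g hh
  have h4 : ∑ x ∈ X, g x - g h = ∑ x ∈ X.erase h, g x := by linarith
  rw [h1, h2, h4]
  exact r2_filter (X.erase h) g Nx P Q A hA (fun x hx => hg x (mem_of_mem_erase hx))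
    (fun x hx hP => hN x (mem_of_mem_erase hx) (ne_of_mem_erase hx) hP)
    (fun x hx hP => hPQ x (mem_of_mem_erase hx) hP)

theorem p_R2 (hdg : S_dg) (hA : S_A) (hDB : S_DB) (hk2 : S_k2) : S_R2 := by
  classical
  -- it suffices to treat `ε ≤ 1`
  suffices H : ∀ ε : ℝ, 0 < ε → ε ≤ 1 →
      ∃ n0 : ℕ, ∀ n : ℕ, n0 ≤ n → ∃ k ∈ S n, (k : ℝ) ≤ (3 / 2 + ε) * n by
    intro ε hε
    obtain ⟨n0, h0⟩ := H (min ε 1) (lt_min hε one_pos) (min_le_right _ _)
    refine ⟨n0, fun n hn => ?_⟩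
    obtain ⟨k, hk, hkn⟩ := h0 n hn
    refine ⟨k, hk, hkn.trans ?_⟩
    have h1 : min ε 1 ≤ ε := min_le_left _ _
    have h2 : (0 : ℝ) ≤ n := Nat.cast_nonneg n
    nlinarith
  intro ε hε hε1
  -- the constants
  obtain ⟨C0, hC0⟩ := exists_nat_ge (8 / ε)
  set C : ℕ := C0 + 4 with hCdef
  have hC4 : 4 ≤ C := by omega
  have hCr : 8 / ε ≤ (C : ℝ) - 1 := by
    rw [hCdef]
    push_cast
    linarith
  have hCd : ∀ d : ℕ, C ≤ d → (d : ℝ) ≤ (1 + ε / 8) * ((d : ℝ) - 1) := by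
    intro d hd
    have h1 : (C : ℝ) ≤ d := by exact_mod_cast hd
    have h2 : 8 / ε ≤ (d : ℝ) - 1 := by linarith
    rw [div_le_iff₀ hε] at h2
    nlinarith
  obtain ⟨Q0, hQ0⟩ := exists_nat_ge (4 / ε)
  set Q : ℕ := Q0 + 1 with hQdef
  have hQ1 : 1 ≤ Q := by omega
  have hQr : 4 / ε ≤ (Q : ℝ) := by
    rw [hQdef]
    push_cast
    linarith
  obtain ⟨J1, hJ1⟩ := hA C (1 / 2) (by norm_num)
  obtain ⟨J2, hJ2⟩ := hDB C hC4
  set J : ℕ := max J1 J2 with hJdef
  set M0 : ℕ := (C.factorial) ^ (J + 1) with hM0def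
  have hM0 : 0 < M0 := pow_pos (Nat.factorial_pos C) _
  have hdv : ∀ j ≤ J, ∀ d, 2 ≤ d → d < C → d ^ (j + 1) ∣ M0 := by
    intro j hj d hd2 hdC
    have h1 : d ∣ C.factorial := Nat.dvd_factorial (by omega) hdC.le
    exact (pow_dvd_pow d (by omega)).trans (pow_dvd_pow_of_dvd h1 (J + 1))
  obtain ⟨K1, hK1⟩ := hJ1 M0 hM0 (hdv J1 (le_max_left _ _))
  obtain ⟨K2, hK2⟩ := hJ2 M0 hM0 (hdv J2 (le_max_right _ _))
  obtain ⟨n1, hn1⟩ := hk2 Q M0 hQ1 hM0
  obtain ⟨n2, hn2⟩ := exists_nat_ge (8 * ((K1 : ℝ) + K2 + 1) / ε)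
  refine ⟨max n1 (max 4 n2), fun n hn => ?_⟩
  have hnn1 : n1 ≤ n := le_trans (le_max_left _ _) hn
  have hnn4 : 4 ≤ n := le_trans (le_trans (le_max_left _ _) (le_max_right _ _)) hn
  have hnn2 : n2 ≤ n := le_trans (le_trans (le_max_right _ _) (le_max_right _ _)) hn
  have hn4 : (4 : ℝ) ≤ n := by exact_mod_cast hnn4
  have hnK : 8 * ((K1 : ℝ) + K2 + 1) ≤ n * ε := by
    have h1 : (n2 : ℝ) ≤ n := by exact_mod_cast hnn2
    have h2 := hn2.trans h1
    rwa [div_le_iff₀ hε] at h2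
  obtain ⟨k, hMk, hEv, hlo, hhi, hdiv⟩ := hn1 n hnn1 (3 / 2 + ε / 2) (by linarith)
  have hk3 : 3 * n ≤ 2 * k := by
    have h1 : (3 : ℝ) * n ≤ 2 * k := by nlinarith
    exact_mod_cast h1
  have hkn1 : n + 1 ≤ k := by omega
  have hk0 : 0 < k := by omega
  choose! Nf hNf using hdiv
  have hub : (k : ℝ) ≤ (3 / 2 + ε) * n := by
    refine hhi.trans ?_
    have hQp : (0 : ℝ) < Q := by exact_mod_cast hQ1
    have h1 : 1 / (Q : ℝ) ≤ ε / 4 := by
      rw [div_le_div_iff₀ hQp (by norm_num)]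
      rw [div_le_iff₀ hε] at hQr
      linarith
    have h2 : (3 / 2 + ε / 2) * (1 + 1 / (Q : ℝ)) ≤ 3 / 2 + ε := by
      have h3 : 0 ≤ 1 / (Q : ℝ) := by positivity
      nlinarith
    have h4 : (0 : ℝ) ≤ n := by linarith
    exact mul_le_mul_of_nonneg_right h2 h4
  refine ⟨k, ⟨hk0, ?_⟩, hub⟩
  intro V _ T hT
  obtain ⟨hT1, c, hc, hc1, hc2⟩ := hT
  -- the classes
  have hX1 : (univ.filter (fun v => c v = true)).card = n := by
    rw [← hc1, Fintype.card_subtype]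
  have hXc : (univ.filter (fun v => c v = true))ᶜ = univ.filter (fun v => c v = false) := by
    ext v
    simp
  have hX2 : ((univ.filter (fun v => c v = true))ᶜ).card = n := by
    rw [hXc, ← hc2, Fintype.card_subtype]
  have hV : Fintype.card V = 2 * n := by
    have h1 := Finset.card_add_card_compl (univ.filter (fun v => c v = true))
    omega
  have hV1 : Fintype.card V = (2 * n - 1) + 1 := by omega
  have hbX : ∀ a b, T.Adj a b →
      (a ∈ univ.filter (fun v => c v = true) ↔ b ∉ univ.filter (fun v => c v = true)) := by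
    intro a b hab
    have h1 := hc a b hab
    rw [mem_filter, mem_filter]
    constructor
    · rintro ⟨_, h2⟩ ⟨_, h3⟩
      exact h1 (h2.trans h3.symm)
    · intro h2
      refine ⟨mem_univ _, ?_⟩
      by_contra h3
      have h4 : c a = false := Bool.eq_false_iff.2 h3
      have h5 : c b = true := by
        by_contra h6
        exact h1 (h4.trans (Bool.eq_false_iff.2 h6).symm)
      exact h2 ⟨mem_univ _, h5⟩
  generalize univ.filter (fun v => c v = true) = X at hX1 hX2 hbX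
  clear hXc
  have hpos : ∀ x, 1 ≤ dg T x := (hdg V T).2.1 hT1 (by omega)
  -- the first case
  have case1 : ∀ Y : Finset V, (∀ a b, T.Adj a b → (a ∈ Y ↔ b ∉ Y)) → Y.card = n → Yᶜ.card = n →
      (∀ x ∈ Y, 2 * dg T x ≤ k) →
      Decomposes T (completeBipartiteGraph (Fin (2 * n - 1)) (Fin k)) := by
    intro Y hbY hY1 hY2 hle
    refine hK1 V T hT1 Y hbY (by omega) (by omega) (2 * n - 1) k hV1 hMk (fun x => Nf (dg T x))
      ?_ ?_
    · intro x hx hCx h2x
      obtain ⟨h1, h2, h3⟩ := hNf (dg T x) h2x (hle x hx)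
      exact ⟨h1, h2, by omega⟩
    · have hs := r2_sum hdg T hT1 Y hbY n hY1 hV
      have hf := r2_filter Y (fun x => (dg T x : ℝ) - 1) (fun x => (Nf (dg T x) : ℝ))
        (fun x => C ≤ dg T x ∧ 2 ≤ dg T x) (fun x => 2 ≤ dg T x ∧ dg T x < C)
        (3 / 2 * (1 + ε / 8)) (by linarith)
        (fun x _ => by
          have : (1 : ℝ) ≤ dg T x := by exact_mod_cast hpos x
          linarith)
        (fun x hx hP => by
          obtain ⟨h1, h2, h3⟩ := hNf (dg T x) hP.2 (hle x hx)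
          have h4 : (2 : ℝ) * Nf (dg T x) ≤ 3 * dg T x := by exact_mod_cast h3
          have h5 := hCd (dg T x) hP.1
          nlinarith)
        (fun x _ hP hQ => by omega)
      rw [hs] at hf
      have hK2p : (0 : ℝ) ≤ K2 := Nat.cast_nonneg _
      have hK1p : (0 : ℝ) ≤ K1 := Nat.cast_nonneg _
      have e : (1 + 1 / 2 : ℝ) = 3 / 2 := by norm_num
      rw [e]
      nlinarith
  by_cases hcX : ∀ x ∈ X, 2 * dg T x ≤ k
  · exact case1 X hbX hX1 hX2 hcX
  by_cases hcY : ∀ x ∈ Xᶜ, 2 * dg T x ≤ k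
  · refine case1 Xᶜ ?_ hX2 ?_ hcY
    · intro a b hab
      have h1 := hbX a b hab
      rw [mem_compl, mem_compl]
      tauto
    · rw [compl_compl]
      exact hX1
  -- the second case
  push Not at hcX hcY
  obtain ⟨h, hh, hhk⟩ := hcX
  obtain ⟨yo, hyo, hyok⟩ := hcY
  rw [mem_compl] at hyo
  have hsumN := (hdg V T).2.2.1 hT1 X hbX
  rw [hV] at hsumN
  have hpair : ∀ x ∈ X, x ≠ h → dg T x + dg T h ≤ n + 1 := by
    intro x hx hxh
    have h1 : ∑ z ∈ ({x, h} : Finset V), (dg T z - 1) ≤ ∑ z ∈ X, (dg T z - 1) := by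
      apply Finset.sum_le_sum_of_subset
      intro z hz
      rw [mem_insert, mem_singleton] at hz
      rcases hz with rfl | rfl
      · exact hx
      · exact hh
    rw [Finset.sum_pair hxh] at h1
    have h2 : ∑ z ∈ X, (dg T z - 1) + X.card = ∑ z ∈ X, dg T z := by
      rw [Finset.card_eq_sum_ones, ← Finset.sum_add_distrib]
      apply Finset.sum_congr rfl
      intro z _
      have := hpos z
      omega
    have h3 := hpos x
    have h4 := hpos h
    omega
  refine hK2 V T hT1 X hbX n k h yo (fun x => Nf (dg T x)) hX1 hX2 hMk hEv hk3 hkn1 hh hyo hhk hyok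
    ?_ ?_
  · intro x hx hxh hCx
    have h1 := hpair x hx hxh
    exact hNf (dg T x) (by omega) (by omega)
  · have hs := r2_sum hdg T hT1 X hbX n hX1 hV
    have hf := r2_filter2 X h hh (fun x => (dg T x : ℝ) - 1) (fun x => (Nf (dg T x) : ℝ))
        (fun x => C ≤ dg T x) (fun x => 2 ≤ dg T x ∧ dg T x < C)
        (3 / 2 * (1 + ε / 8)) (by linarith)
        (fun x _ => by
          have : (1 : ℝ) ≤ dg T x := by exact_mod_cast hpos x
          linarith)
        (fun x hx hxh hP => by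
          have h0 := hpair x hx hxh
          obtain ⟨h1, h2, h3⟩ := hNf (dg T x) (by omega) (by omega)
          have h4 : (2 : ℝ) * Nf (dg T x) ≤ 3 * dg T x := by exact_mod_cast h3
          have h5 := hCd (dg T x) hP
          linarith)
        (fun x _ hP hQ => by omega)
    rw [hs] at hf
    have hK2p : (0 : ℝ) ≤ K2 := Nat.cast_nonneg _
    have hK1p : (0 : ℝ) ≤ K1 := Nat.cast_nonneg _
    have hD : (k : ℝ) ≤ 2 * dg T h := by
      have : k ≤ 2 * dg T h := by omega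
      exact_mod_cast this
    have hD0 : (0 : ℝ) ≤ dg T h := Nat.cast_nonneg _
    have hD1 : 0 ≤ ε * dg T h := mul_nonneg hε.le hD0
    refine le_trans (mul_le_mul_of_nonneg_left (add_le_add_left hf _) (by norm_num : (0 : ℝ) ≤ 2)) ?_
    nlinarith

end Pool.Agent.Lib.MP_7c15de_co.TH
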