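import Pool.Agent.Lib.MP_7c15de_co.TH.Stm

/-!
# MP_7c15de_co, better hosts: piece alloc (disjoint subsets of prescribed sizes)
-/

set_option autoImplicit false

namespace Pool.Agent.Lib.MP_7c15de_co.TH

open Finset

/-- [alloc] -/
theorem p_alloc : S_alloc := by
  intro V _ L A s
  induction A using Finset.induction_on with
  | empty =>
    intro _
    exact ⟨fun _ => ∅, fun x hx => absurd hx (notMem_empty x), fun _ _ => rfl,
      fun _ => empty_subset _, fun x x' r hr _ => absurd hr (notMem_empty r)⟩
  | insert a A ha ih =>
    intro h
    rw [sum_insert ha] at h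
    obtain ⟨P, h1, h2, h3, h4⟩ := ih (by omega)
    have hd : ∀ x ∈ A, ∀ y ∈ A, x ≠ y → Disjoint (P x) (P y) := by
      intro x _ y _ hxy
      rw [disjoint_left]
      intro r hr hr'
      exact hxy (h4 x y r hr hr')
    have hU : (A.biUnion P).card = ∑ x ∈ A, s x := by
      rw [card_biUnion hd]
      exact sum_congr rfl h1
    have hsub : A.biUnion P ⊆ L := by
      intro r hr
      obtain ⟨x, _, hx⟩ := mem_biUnion.1 hr
      exact h3 x hx
    have hle : s a ≤ (L \ A.biUnion P).card := by
      rw [card_sdiff_of_subset hsub, hU]
      omega
    obtain ⟨Q, hQ, hQc⟩ := exists_subset_card_eq hle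
    have hPa : P a = ∅ := h2 a ha
    have hQP : ∀ x r, r ∈ P x → r ∉ Q := by
      intro x r hr hrQ
      have hx : x ∈ A := by
        by_contra hx
        rw [h2 x hx] at hr
        exact absurd hr (notMem_empty r)
      exact (mem_sdiff.1 (hQ hrQ)).2 (mem_biUnion.2 ⟨x, hx, hr⟩)
    refine ⟨Function.update P a Q, ?_, ?_, ?_, ?_⟩
    · intro x hx
      by_cases hxa : x = a
      · subst hxa
        rw [Function.update_self]
        exact hQc
      · rw [Function.update_of_ne hxa]
        exact h1 x ((mem_insert.1 hx).resolve_left hxa)
    · intro x hx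
      have hxa : x ≠ a := fun e => hx (e ▸ mem_insert_self x A)
      rw [Function.update_of_ne hxa]
      exact h2 x (fun hxA => hx (mem_insert_of_mem hxA))
    · intro x
      by_cases hxa : x = a
      · subst hxa
        rw [Function.update_self]
        exact hQ.trans sdiff_subset
      · rw [Function.update_of_ne hxa]
        exact h3 x
    · intro x x' r hr hr'
      by_cases hxa : x = a
      · by_cases hxa' : x' = a
        · rw [hxa, hxa']
        · rw [hxa, Function.update_self] at hr
          rw [Function.update_of_ne hxa'] at hr'
          exact absurd hr (hQP x' r hr')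
      · rw [Function.update_of_ne hxa] at hr
        by_cases hxa' : x' = a
        · rw [hxa', Function.update_self] at hr'
          exact absurd hr' (hQP x r hr)
        · rw [Function.update_of_ne hxa'] at hr'
          exact h4 x x' r hr hr'

end Pool.Agent.Lib.MP_7c15de_co.TH
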