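import Pool.Agent.Lib.MP_7c15de_co.TH.Stm

/-!
# MP_7c15de_co, better hosts: a coefficient of a product of two Vandermonde polynomials
-/

set_option autoImplicit false

namespace Pool.Agent.Lib.MP_7c15de_co.TH

open Finset MvPolynomial Pool.Agent.Lib.MP_7c15de_co

/-- The pairs of permutations with the right exponents. -/
private def CoefSol (p : ℕ) (Bs : Finset (Fin p)) (a : Equiv.Perm (Fin (p + 1)))
    (b : Equiv.Perm (Fin p)) : Prop :=
  ((a 0 : Fin (p + 1)) : ℕ) = 2 * Bs.card ∧
    ∀ j : Fin p, ((a j.succ : Fin (p + 1)) : ℕ) + ((b j : Fin p) : ℕ) =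
      if j ∈ Bs then p - 2 else p

private theorem coef_parity {p e : ℕ} {Bs : Finset (Fin p)} (_hp : 2 * Bs.card + e = p)
    {a : Equiv.Perm (Fin (p + 1))} {b : Equiv.Perm (Fin p)} (h : CoefSol p Bs a b) :
    ∀ (s : ℕ) (j : Fin p), ((a j.succ : Fin (p + 1)) : ℕ) = s →
      (j ∈ Bs ↔ (s < 2 * Bs.card ∧ s % 2 = 0)) := by
  obtain ⟨h0, h1⟩ := h
  have hB2 : ∀ j : Fin p, j ∈ Bs → 2 ≤ p := by
    intro j hj
    have := card_pos.2 ⟨j, hj⟩
    omega
  intro s
  induction s using Nat.strong_induction_on with
  | _ s ih =>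
    intro j hj
    have hs2b : s ≠ 2 * Bs.card := by
      intro hs
      have : a j.succ = a 0 := by
        apply Fin.ext
        rw [hj, h0, hs]
      exact Fin.succ_ne_zero j (a.injective this)
    have hsp : s ≤ p := by
      have := (a j.succ).isLt
      omega
    rcases Nat.eq_zero_or_pos s with hs0 | hs0
    · subst hs0
      have hj2 := h1 j
      rw [hj] at hj2
      have hjB : j ∈ Bs := by
        by_contra hn
        rw [if_neg hn] at hj2
        have := (b j).isLt
        omega
      exact ⟨fun _ => ⟨by omega, rfl⟩, fun _ => hjB⟩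
    · -- the index with the value `p - s`
      obtain ⟨j', hj'⟩ : ∃ j' : Fin p, b j' = ⟨p - s, by omega⟩ := b.surjective _
      have hj'v : ((b j' : Fin p) : ℕ) = p - s := by rw [hj']
      have h2 := h1 j'
      rw [hj'v] at h2
      by_cases hB : j' ∈ Bs
      · rw [if_pos hB] at h2
        have hp2 := hB2 j' hB
        have h3 : ((a j'.succ : Fin (p + 1)) : ℕ) = s - 2 := by omega
        have hs2 : 2 ≤ s := by omega
        have h4 := (ih (s - 2) (by omega) j' h3).1 hB
        have hjB : j ∈ Bs := by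
          by_contra hn
          have h5 := h1 j
          rw [if_neg hn, hj] at h5
          have : b j = b j' := by
            apply Fin.ext
            omega
          exact hn ((b.injective this) ▸ hB)
        exact ⟨fun _ => by omega, fun _ => hjB⟩
      · rw [if_neg hB] at h2
        have h3 : a j'.succ = a j.succ := by
          apply Fin.ext
          omega
        have h4 : j' = j := Fin.succ_injective _ (a.injective h3)
        rw [h4] at hB
        refine ⟨fun h => absurd h hB, ?_⟩
        rintro ⟨c1, c2⟩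
        exfalso
        -- the index with the value `s - 2` of `a`
        obtain ⟨i, hi⟩ : ∃ i : Fin (p + 1), a i = ⟨s - 2, by omega⟩ := a.surjective _
        have hiv : ((a i : Fin (p + 1)) : ℕ) = s - 2 := by rw [hi]
        have hi0 : i ≠ 0 := by
          rintro rfl
          omega
        obtain ⟨j'', rfl⟩ := Fin.exists_succ_eq.2 hi0
        have h5 := (ih (s - 2) (by omega) j'' hiv).2 (by omega)
        have h6 := h1 j''
        rw [if_pos h5, hiv] at h6
        have hp2 := hB2 j'' h5
        have h7 : b j'' = b j' := by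
          apply Fin.ext
          omega
        rw [b.injective h7, h4] at h5
        exact hB h5

private theorem coef_sign {p e : ℕ} {Bs : Finset (Fin p)} (hp : 2 * Bs.card + e = p)
    {a a' : Equiv.Perm (Fin (p + 1))} {b b' : Equiv.Perm (Fin p)} (h : CoefSol p Bs a b)
    (h' : CoefSol p Bs a' b') :
    (Equiv.Perm.sign a' : ℤ) * (Equiv.Perm.sign b' : ℤ) =
      (Equiv.Perm.sign a : ℤ) * (Equiv.Perm.sign b : ℤ) := by
  obtain ⟨⟨x, π'⟩, hπ⟩ : ∃ q, Equiv.Perm.decomposeFin.symm q = a⁻¹ * a' :=
    Equiv.Perm.decomposeFin.symm.surjective _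
  have h00 : a' 0 = a 0 := by
    apply Fin.ext
    rw [h.1, h'.1]
  have hx : x = 0 := by
    have e1 := congrArg (fun σ : Equiv.Perm (Fin (p + 1)) => σ 0) hπ
    simp only [Equiv.Perm.decomposeFin_symm_apply_zero, Equiv.Perm.mul_apply, h00] at e1
    rw [e1]
    exact a.symm_apply_apply 0
  subst hx
  have ha' : ∀ j : Fin p, a' j.succ = a (π' j).succ := by
    intro j
    have e1 := congrArg (fun σ : Equiv.Perm (Fin (p + 1)) => a (σ j.succ)) hπ
    simp only [Equiv.Perm.decomposeFin_symm_apply_succ, Equiv.swap_self, Equiv.refl_apply,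
      Equiv.Perm.mul_apply] at e1
    rw [e1]
    exact (a.apply_symm_apply _).symm
  have hb' : b' = b * π' := by
    ext j
    rw [Equiv.Perm.mul_apply]
    have e1 := h.2 (π' j)
    have e2 := h'.2 j
    rw [ha' j] at e2
    have e3 := coef_parity hp h _ (π' j) rfl
    have e4 := coef_parity hp h' _ j rfl
    rw [ha' j] at e4
    have e5 : j ∈ Bs ↔ π' j ∈ Bs := e4.trans e3.symm
    by_cases hB : j ∈ Bs
    · rw [if_pos hB] at e2
      rw [if_pos (e5.1 hB)] at e1
      omega
    · rw [if_neg hB] at e2
      rw [if_neg (fun hh => hB (e5.2 hh))] at e1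
      omega
  have hsa : Equiv.Perm.sign a' = Equiv.Perm.sign a * Equiv.Perm.sign π' := by
    have e1 : a' = a * (Equiv.Perm.decomposeFin.symm (0, π')) := by
      rw [hπ, mul_inv_cancel_left]
    rw [e1, Equiv.Perm.sign_mul, Equiv.Perm.decomposeFin.symm_sign]
    simp
  rw [hb', Equiv.Perm.sign_mul, hsa]
  push_cast
  have e2 : ((Equiv.Perm.sign π' : ℤˣ) : ℤ) * ((Equiv.Perm.sign π' : ℤˣ) : ℤ) = 1 := by
    rw [← Units.val_mul, Int.units_mul_self, Units.val_one]
  calc ((Equiv.Perm.sign a : ℤˣ) : ℤ) * ((Equiv.Perm.sign π' : ℤˣ) : ℤ) *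
        (((Equiv.Perm.sign b : ℤˣ) : ℤ) * ((Equiv.Perm.sign π' : ℤˣ) : ℤ))
      = ((Equiv.Perm.sign a : ℤˣ) : ℤ) * ((Equiv.Perm.sign b : ℤˣ) : ℤ) *
        (((Equiv.Perm.sign π' : ℤˣ) : ℤ) * ((Equiv.Perm.sign π' : ℤˣ) : ℤ)) := by ring
    _ = _ := by rw [e2, mul_one]

private theorem coef_exists {p e : ℕ} {Bs : Finset (Fin p)} (hp : 2 * Bs.card + e = p) :
    ∃ (a : Equiv.Perm (Fin (p + 1))) (b : Equiv.Perm (Fin p)), CoefSol p Bs a b := by
  classical
  -- ranks
  obtain ⟨r, hr1, hr2, hr3, hr4⟩ : ∃ r : Fin p → ℕ, (∀ j ∈ Bs, r j < Bs.card) ∧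
      (∀ j, j ∉ Bs → r j < p - Bs.card) ∧ (∀ i ∈ Bs, ∀ j ∈ Bs, r i = r j → i = j) ∧
      (∀ i, i ∉ Bs → ∀ j, j ∉ Bs → r i = r j → i = j) := by
    refine ⟨fun j => if h : j ∈ Bs then (Bs.equivFin ⟨j, h⟩ : ℕ)
      else ((Bsᶜ).equivFin ⟨j, mem_compl.2 h⟩ : ℕ), ?_, ?_, ?_, ?_⟩
    · intro j hj
      simp only [dif_pos hj]
      exact (Bs.equivFin ⟨j, hj⟩).isLt
    · intro j hj
      simp only [dif_neg hj]
      have h1 := ((Bsᶜ).equivFin ⟨j, mem_compl.2 hj⟩).isLt
      have h2 : (Bsᶜ).card = p - Bs.card := by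
        rw [card_compl, Fintype.card_fin]
      omega
    · intro i hi j hj hij
      simp only [dif_pos hi, dif_pos hj] at hij
      have := (Bs.equivFin).injective (Fin.ext hij)
      exact congrArg Subtype.val this
    · intro i hi j hj hij
      simp only [dif_neg hi, dif_neg hj] at hij
      have := ((Bsᶜ).equivFin).injective (Fin.ext hij)
      exact congrArg Subtype.val this
  -- the values
  set va : Fin p → ℕ := fun j => if j ∈ Bs then 2 * r j
    else if r j < Bs.card then 2 * r j + 1 else Bs.card + r j + 1 with hva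
  have va_pos : ∀ j, j ∈ Bs → va j = 2 * r j := fun j hj => by simp only [hva, if_pos hj]
  have va_neg1 : ∀ j, j ∉ Bs → r j < Bs.card → va j = 2 * r j + 1 := fun j hj h => by
    simp only [hva, if_neg hj, if_pos h]
  have va_neg2 : ∀ j, j ∉ Bs → ¬ r j < Bs.card → va j = Bs.card + r j + 1 := fun j hj h => by
    simp only [hva, if_neg hj, if_neg h]
  have hva_le : ∀ j, va j ≤ p := by
    intro j
    by_cases hj : j ∈ Bs
    · have := hr1 j hj
      rw [va_pos j hj]
      omega
    · have := hr2 j hj
      by_cases h : r j < Bs.card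
      · rw [va_neg1 j hj h]
        omega
      · rw [va_neg2 j hj h]
        omega
  have hva_ne : ∀ j, va j ≠ 2 * Bs.card := by
    intro j
    by_cases hj : j ∈ Bs
    · have := hr1 j hj
      rw [va_pos j hj]
      omega
    · by_cases h : r j < Bs.card
      · rw [va_neg1 j hj h]
        omega
      · rw [va_neg2 j hj h]
        omega
  have hva_inj : ∀ i j, va i = va j → i = j := by
    intro i j hij
    by_cases hi : i ∈ Bs <;> by_cases hj : j ∈ Bs
    · rw [va_pos i hi, va_pos j hj] at hij
      exact hr3 i hi j hj (by omega)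
    · have h1 := hr1 i hi
      rw [va_pos i hi] at hij
      by_cases h : r j < Bs.card
      · rw [va_neg1 j hj h] at hij
        omega
      · rw [va_neg2 j hj h] at hij
        omega
    · have h1 := hr1 j hj
      rw [va_pos j hj] at hij
      by_cases h : r i < Bs.card
      · rw [va_neg1 i hi h] at hij
        omega
      · rw [va_neg2 i hi h] at hij
        omega
    · apply hr4 i hi j hj
      by_cases h : r i < Bs.card <;> by_cases h' : r j < Bs.card
      · rw [va_neg1 i hi h, va_neg1 j hj h'] at hij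
        omega
      · rw [va_neg1 i hi h, va_neg2 j hj h'] at hij
        omega
      · rw [va_neg2 i hi h, va_neg1 j hj h'] at hij
        omega
      · rw [va_neg2 i hi h, va_neg2 j hj h'] at hij
        omega
  -- the second values
  set vb : Fin p → ℕ := fun j => (if j ∈ Bs then p - 2 else p) - va j with hvb
  have hB2 : ∀ j : Fin p, j ∈ Bs → 2 ≤ p := by
    intro j hj
    have := card_pos.2 ⟨j, hj⟩
    omega
  have vb_add : ∀ j, va j + vb j = if j ∈ Bs then p - 2 else p := by
    intro j
    have h1 := hva_le j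
    by_cases hj : j ∈ Bs
    · have h2 := hr1 j hj
      have h3 := va_pos j hj
      simp only [hvb, if_pos hj]
      omega
    · simp only [hvb, if_neg hj]
      omega
  have vb_lt : ∀ j, vb j < p := by
    intro j
    have h0 := j.isLt
    have h1 := vb_add j
    by_cases hj : j ∈ Bs
    · have h2 := hB2 j hj
      rw [if_pos hj] at h1
      omega
    · rw [if_neg hj] at h1
      by_cases h : r j < Bs.card
      · rw [va_neg1 j hj h] at h1
        omega
      · rw [va_neg2 j hj h] at h1
        omega
  have vb_inj : ∀ i j, vb i = vb j → i = j := by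
    intro i j hij
    have e1 := vb_add i
    have e2 := vb_add j
    by_cases hi : i ∈ Bs <;> by_cases hj : j ∈ Bs
    · rw [if_pos hi] at e1
      rw [if_pos hj] at e2
      exact hva_inj i j (by omega)
    · exfalso
      have h1 := hr1 i hi
      have h2 := hB2 i hi
      rw [if_pos hi, va_pos i hi] at e1
      rw [if_neg hj] at e2
      by_cases h : r j < Bs.card
      · rw [va_neg1 j hj h] at e2
        omega
      · rw [va_neg2 j hj h] at e2
        omega
    · exfalso
      have h1 := hr1 j hj
      have h2 := hB2 j hj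
      rw [if_pos hj, va_pos j hj] at e2
      rw [if_neg hi] at e1
      by_cases h : r i < Bs.card
      · rw [va_neg1 i hi h] at e1
        omega
      · rw [va_neg2 i hi h] at e1
        omega
    · rw [if_neg hi] at e1
      rw [if_neg hj] at e2
      exact hva_inj i j (by omega)
  -- the permutations
  let fa : Fin (p + 1) → Fin (p + 1) := fun i => Fin.cases (motive := fun _ => Fin (p + 1))
    ⟨2 * Bs.card, by omega⟩ (fun j => ⟨va j, by have := hva_le j; omega⟩) i
  have hfa0 : ((fa 0 : Fin (p + 1)) : ℕ) = 2 * Bs.card := rfl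
  have hfas : ∀ j : Fin p, ((fa j.succ : Fin (p + 1)) : ℕ) = va j := fun j => rfl
  have hfai : Function.Injective fa := by
    intro i i' hii
    have hv : ((fa i : Fin (p + 1)) : ℕ) = fa i' := by rw [hii]
    rcases Fin.eq_zero_or_eq_succ i with rfl | ⟨j, rfl⟩ <;>
      rcases Fin.eq_zero_or_eq_succ i' with rfl | ⟨j', rfl⟩
    · rfl
    · rw [hfa0, hfas] at hv
      exact absurd hv.symm (hva_ne j')
    · rw [hfa0, hfas] at hv
      exact absurd hv (hva_ne j)
    · rw [hfas, hfas] at hv
      rw [hva_inj j j' hv]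
  let fb : Fin p → Fin p := fun j => ⟨vb j, vb_lt j⟩
  have hfbi : Function.Injective fb := by
    intro i j hij
    exact vb_inj i j (congrArg Fin.val hij)
  refine ⟨Equiv.ofBijective fa (Finite.injective_iff_bijective.1 hfai),
    Equiv.ofBijective fb (Finite.injective_iff_bijective.1 hfbi), ?_, ?_⟩
  · rw [Equiv.ofBijective_apply]
    exact hfa0
  · intro j
    rw [Equiv.ofBijective_apply, Equiv.ofBijective_apply, hfas]
    exact vb_add j

theorem p_coef : S_coef := by
  classical
  intro p e Bs hp
  obtain ⟨a0, b0, h0⟩ := coef_exists hp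
  have hren : rename (Fin.succ : Fin p → Fin (p + 1)) (vdm p) =
      ∑ t : Equiv.Perm (Fin p), (Equiv.Perm.sign t : ℤ) •
        monomial (Finsupp.mapDomain Fin.succ
          (Finsupp.equivFunOnFinite.symm (fun j => ((t.symm j : Fin p) : ℕ)))) (1 : ℤ) := by
    rw [vdm_eq, map_sum]
    apply Finset.sum_congr rfl
    intro t _
    rw [map_zsmul, rename_monomial]
  have hcond : ∀ (s : Equiv.Perm (Fin (p + 1))) (t : Equiv.Perm (Fin p)),
      Finsupp.equivFunOnFinite.symm (fun j => ((s.symm j : Fin (p + 1)) : ℕ)) +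
        Finsupp.mapDomain Fin.succ
          (Finsupp.equivFunOnFinite.symm (fun j => ((t.symm j : Fin p) : ℕ))) =
        Finsupp.equivFunOnFinite.symm (texp p e Bs) ↔ CoefSol p Bs s.symm t.symm := by
    intro s t
    have hm0 : (Finsupp.mapDomain Fin.succ
        (Finsupp.equivFunOnFinite.symm (fun j => ((t.symm j : Fin p) : ℕ))) :
          Fin (p + 1) →₀ ℕ) 0 = 0 := by
      apply Finsupp.mapDomain_of_notMem_range
      rintro ⟨j, hj⟩
      exact Fin.succ_ne_zero j hj
    have hms : ∀ j : Fin p, (Finsupp.mapDomain Fin.succ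
        (Finsupp.equivFunOnFinite.symm (fun j => ((t.symm j : Fin p) : ℕ))) :
          Fin (p + 1) →₀ ℕ) j.succ = ((t.symm j : Fin p) : ℕ) := by
      intro j
      rw [Finsupp.mapDomain_apply (Fin.succ_injective p)]
      simp
    have ht0 : texp p e Bs 0 = 2 * Bs.card := by
      have : texp p e Bs 0 = p - e := rfl
      rw [this]
      omega
    have hts : ∀ j : Fin p, texp p e Bs j.succ = if j ∈ Bs then p - 2 else p := fun j => rfl
    constructor
    · intro h
      constructor
      · have := DFunLike.congr_fun h 0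
        rw [Finsupp.add_apply, hm0] at this
        simp only [Finsupp.equivFunOnFinite_symm_apply_apply, add_zero, ht0] at this
        exact this
      · intro j
        have := DFunLike.congr_fun h j.succ
        rw [Finsupp.add_apply, hms] at this
        simp only [Finsupp.equivFunOnFinite_symm_apply_apply, hts] at this
        exact this
    · rintro ⟨h1, h2⟩
      ext i
      rw [Finsupp.add_apply]
      simp only [Finsupp.equivFunOnFinite_symm_apply_apply]
      rcases Fin.eq_zero_or_eq_succ i with rfl | ⟨j, rfl⟩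
      · rw [hm0, ht0, add_zero, h1]
      · rw [hms, hts, h2]
  have key : coeff (Finsupp.equivFunOnFinite.symm (texp p e Bs))
      (vdm (p + 1) * rename (Fin.succ : Fin p → Fin (p + 1)) (vdm p)) =
      ∑ s : Equiv.Perm (Fin (p + 1)), ∑ t : Equiv.Perm (Fin p),
        if CoefSol p Bs s.symm t.symm then
          (Equiv.Perm.sign a0 : ℤ) * (Equiv.Perm.sign b0 : ℤ) else 0 := by
    rw [hren, vdm_eq (p + 1), Finset.sum_mul_sum, coeff_sum]
    apply Finset.sum_congr rfl
    intro s _
    rw [coeff_sum]
    apply Finset.sum_congr rfl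
    intro t _
    simp only [smul_mul_smul_comm, monomial_mul, mul_one, coeff_smul, coeff_monomial, hcond]
    split_ifs with h
    · have h1 := coef_sign hp h0 h
      rw [Equiv.Perm.sign_symm, Equiv.Perm.sign_symm] at h1
      rw [← h1]
      simp
    · simp
  rw [key]
  have h1 : ∑ s : Equiv.Perm (Fin (p + 1)), ∑ t : Equiv.Perm (Fin p),
        (if CoefSol p Bs s.symm t.symm then
          (Equiv.Perm.sign a0 : ℤ) * (Equiv.Perm.sign b0 : ℤ) else 0) =
      (((Finset.univ ×ˢ Finset.univ : Finset (Equiv.Perm (Fin (p + 1)) × Equiv.Perm (Fin p))).filter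
        (fun q => CoefSol p Bs q.1.symm q.2.symm)).card : ℤ) *
        ((Equiv.Perm.sign a0 : ℤ) * (Equiv.Perm.sign b0 : ℤ)) := by
    rw [← Finset.sum_product', ← Finset.sum_filter, Finset.sum_const, nsmul_eq_mul]
  rw [h1]
  refine mul_ne_zero ?_ (mul_ne_zero (Units.ne_zero _) (Units.ne_zero _))
  have h2 : 0 < ((Finset.univ ×ˢ Finset.univ :
      Finset (Equiv.Perm (Fin (p + 1)) × Equiv.Perm (Fin p))).filter
        (fun q => CoefSol p Bs q.1.symm q.2.symm)).card := by
    apply Finset.card_pos.2
    refine ⟨(a0.symm, b0.symm), ?_⟩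
    rw [Finset.mem_filter]
    refine ⟨Finset.mem_product.2 ⟨Finset.mem_univ _, Finset.mem_univ _⟩, ?_⟩
    simpa using h0
  exact_mod_cast h2.ne'

end Pool.Agent.Lib.MP_7c15de_co.TH
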