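import Pool.Agent.Lib.MP_7c15de_co.TH.Stm

/-!
# MP_7c15de_co, [TH cov]: properties of `Cov`
-/

set_option autoImplicit false

namespace Pool.Agent.Lib.MP_7c15de_co.TH

open Finset Pool.Agent.Lib.MP_7c15de_co

private theorem cov_union {V ι : Type} [DecidableEq V] (T : SimpleGraph V) (k : ℕ) (u : V → ℤ)
    (I : Finset ι) (A : ι → Finset V) (hA : ∀ i ∈ I, Cov T k u (A i))
    (hd : ∀ i ∈ I, ∀ j ∈ I, ∀ x, x ∈ A i → x ∈ A j → i = j) : Cov T k u (I.biUnion A) := by
  classical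
  choose! P hP1 hP2 hP3 using hA
  refine ⟨I.biUnion P, ?_, ?_, ?_⟩
  · intro p hp
    obtain ⟨i, hi, hpi⟩ := Finset.mem_biUnion.1 hp
    refine ⟨(hP1 i hi p hpi).1.trans (Finset.subset_biUnion_of_mem A hi), (hP1 i hi p hpi).2⟩
  · intro x hx
    obtain ⟨i, hi, hxi⟩ := Finset.mem_biUnion.1 hx
    obtain ⟨p, hp, hxp⟩ := hP2 i hi x hxi
    exact ⟨p, Finset.mem_biUnion.2 ⟨i, hi, hp⟩, hxp⟩
  · intro p hp p' hp' x hx hx'
    obtain ⟨i, hi, hpi⟩ := Finset.mem_biUnion.1 hp
    obtain ⟨j, hj, hpj⟩ := Finset.mem_biUnion.1 hp'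
    have e : i = j := hd i hi j hj x ((hP1 i hi p hpi).1 hx) ((hP1 j hj p' hpj).1 hx')
    subst e
    exact hP3 i hi p hpi p' hpj x hx hx'

theorem p_cov : S_cov := by
  intro V _ _ T k u
  classical
  refine ⟨?_, ?_, ?_, ?_, ?_⟩
  · exact ⟨∅, by simp, by simp, by simp⟩
  · intro p hp
    refine ⟨{p}, ?_, ?_, ?_⟩
    · intro q hq
      rw [Finset.mem_singleton.1 hq]
      exact ⟨Finset.Subset.refl _, hp⟩
    · intro x hx
      exact ⟨p, Finset.mem_singleton_self p, hx⟩
    · intro q hq q' hq' x _ _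
      rw [Finset.mem_singleton.1 hq, Finset.mem_singleton.1 hq']
  · intro A B hA hB hAB
    have h := cov_union T k u (Finset.univ : Finset Bool) (fun b => if b then A else B)
      (by
        intro b _
        cases b
        · exact hB
        · exact hA)
      (by
        intro b _ b' _ x hx hx'
        cases b <;> cases b'
        · rfl
        · exact absurd hx (Finset.disjoint_left.1 hAB hx')
        · exact absurd hx' (Finset.disjoint_left.1 hAB hx)
        · rfl)
    have e : (Finset.univ : Finset Bool).biUnion (fun b => if b then A else B) = A ∪ B := by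
      ext x
      simp [or_comm]
    rwa [e] at h
  · intro ι _ I A hA hd
    exact cov_union T k u I A hA hd
  · intro u' A hu hA
    obtain ⟨P, hP1, hP2, hP3⟩ := hA
    refine ⟨P, ?_, hP2, hP3⟩
    intro p hp
    refine ⟨(hP1 p hp).1, (hP1 p hp).2.1, ?_⟩
    obtain ⟨a, ha1, ha2⟩ := (hP1 p hp).2.2
    refine ⟨a, ha1, ?_⟩
    intro x hx x' hx' y y' hy hy' h
    rw [hu x ((hP1 p hp).1 hx) y hy, hu x' ((hP1 p hp).1 hx') y' hy'] at h
    exact ha2 x hx x' hx' y y' hy hy' h

end Pool.Agent.Lib.MP_7c15de_co.TH
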