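import Pool.Agent.Lib.MP_7c15de_co.TH.Stm

/-!
# MP_7c15de_co, better hosts, piece [covS]
-/

set_option autoImplicit false

namespace Pool.Agent.Lib.MP_7c15de_co.TH

open Finset Pool.Agent.Lib.MP_7c15de_co

private lemma covS_inj (d j : ℕ) (hd : 2 ≤ d) (w : ℤ) (a b : ℕ) (ha : a < d) (hb : b < d)
    (h : w + a * (d : ℤ) ^ j ≡ w + b * (d : ℤ) ^ j [ZMOD (d : ℤ) ^ (j + 1)]) : a = b := by
  have h1 : (a : ℤ) * (d : ℤ) ^ j ≡ b * (d : ℤ) ^ j [ZMOD (d : ℤ) * (d : ℤ) ^ j] := by
    rw [← pow_succ']
    exact Int.ModEq.add_left_cancel' w h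
  have hp : (d : ℤ) ^ j ≠ 0 := by positivity
  have h2 : (a : ℤ) ≡ b [ZMOD d] := by
    have h3 := (Int.modEq_iff_dvd.mp h1)
    rw [← sub_mul] at h3
    exact Int.modEq_iff_dvd.mpr ((mul_dvd_mul_iff_right hp).mp h3)
  have h4 : a ≡ b [MOD d] := (Int.natCast_modEq_iff).mp h2
  exact Nat.ModEq.eq_of_lt_of_lt h4 ha hb

theorem p_covS (hdg : S_dg) (hcov : S_cov) (hpart : S_part) (hlocS : S_locS) : S_covS := by
  intro V _ _ T k C J M0 u MS xs deg sc0 par ch idx hM0k hdiv h1 h2 h3 h4 h5 h6 h7 h8 h9 h10
  obtain ⟨hc1, -, -, hc4, -⟩ := hcov V T k u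
  set A : ℕ × ℕ → Finset V := fun i =>
    ((range MS.card).filter (fun s => deg s = i.1 ∧ sc0 s = i.2)).image xs with hA
  have hMS : MS = ((range C) ×ˢ (range (J + 1))).biUnion A := by
    ext x
    simp only [hA, mem_biUnion, mem_product, mem_range, mem_image, mem_filter]
    constructor
    · intro hx
      obtain ⟨s, hs, rfl⟩ := h2 x hx
      exact ⟨(deg s, sc0 s), ⟨(h5 s hs).2.2, Nat.lt_succ_of_le (h8 s hs)⟩, s, ⟨hs, rfl, rfl⟩, rfl⟩
    · rintro ⟨i, -, s, ⟨hs, -, -⟩, rfl⟩
      exact h1 s hs
  rw [hMS]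
  refine hc4 (ℕ × ℕ) _ A ?_ ?_
  · rintro ⟨d, j⟩ hi
    simp only [mem_product, mem_range] at hi
    obtain ⟨hdC, hjJ⟩ := hi
    by_cases hd : 2 ≤ d
    · have hcard : (A (d, j)).card =
          ((range MS.card).filter (fun s => deg s = d ∧ sc0 s = j)).card := by
        simp only [hA]
        refine card_image_of_injOn ?_
        intro s hs s' hs' he
        simp only [coe_filter, mem_range, Set.mem_setOf_eq] at hs hs'
        exact h3 s hs.1 s' hs'.1 he
      obtain ⟨PP, hp1, hp2, hp3⟩ := hpart V (A (d, j)) (d ^ j) (by positivity)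
        (hcard ▸ h10 d hd hdC j (by omega))
      refine ⟨PP, ?_, hp2, hp3⟩
      intro p hp
      refine ⟨(hp1 p hp).1, ?_⟩
      -- the common description of the neighbours
      have key : ∀ x ∈ p, ∃ β : V → ℕ, (∀ y, T.Adj x y → β y < d) ∧
          (∀ y, T.Adj x y → u y ≡ u (par x) + β y * (d : ℤ) ^ j [ZMOD (d : ℤ) ^ (j + 1)]) ∧
          (∀ y y', T.Adj x y → T.Adj x y' → β y = β y' → y = y') ∧ dg T x = d := by
        intro x hx
        have hxA := (hp1 p hp).1 hx
        simp only [hA, mem_image, mem_filter, mem_range] at hxA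
        obtain ⟨s, ⟨hs, hds, hjs⟩, rfl⟩ := hxA
        have hm := h1 s hs
        obtain ⟨hpc, hadj⟩ := h4 _ hm
        have hdc : d = (ch (xs s)).card + 1 := hds ▸ (h5 s hs).1
        refine ⟨fun y => if y ∈ ch (xs s) then idx y else 0, ?_, ?_, ?_, ?_⟩
        · intro y hy
          by_cases hyc : y ∈ ch (xs s)
          · simp only [hyc, if_true]
            have := (h6 _ hm y hyc).2
            omega
          · simp only [hyc, if_false]; omega
        · intro y hy
          by_cases hyc : y ∈ ch (xs s)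
          · simp only [hyc, if_true]
            have := h9 s hs y hyc
            rw [hds, hjs] at this
            exact this
          · have hyp : y = par (xs s) := ((hadj y).mp hy).resolve_right hyc
            subst hyp
            simp only [hyc, if_false]
            simp
        · intro y y' hy hy' he
          by_cases hyc : y ∈ ch (xs s) <;> by_cases hyc' : y' ∈ ch (xs s)
          · simp only [hyc, hyc', if_true] at he
            exact h7 _ hm y hyc y' hyc' he
          · simp only [hyc, hyc', if_true, if_false] at he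
            have := (h6 _ hm y hyc).1
            omega
          · simp only [hyc, hyc', if_true, if_false] at he
            have := (h6 _ hm y' hyc').1
            omega
          · rw [((hadj y).mp hy).resolve_right hyc, ((hadj y').mp hy').resolve_right hyc']
        · obtain ⟨-, -, -, hd4, -⟩ := hdg V T
          rw [hd4 (xs s) (insert (par (xs s)) (ch (xs s)))
            (fun y => by rw [hadj y, mem_insert]), card_insert_of_notMem hpc, hdc]
      refine hlocS V T k d (d ^ j) u p hd (by positivity) (hp1 p hp).2 ?_ ?_ ?_ ?_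
      · have e1 : d * d ^ j = d ^ (j + 1) := by ring
        rw [e1]
        exact ((pow_dvd_pow d (by omega)).trans (hdiv d hd hdC)).trans hM0k
      · intro x hx
        obtain ⟨β, -, -, -, h⟩ := key x hx
        exact h
      · intro x hx y y' hy hy'
        obtain ⟨β, -, hb, -, -⟩ := key x hx
        have hq : ∀ y, T.Adj x y → u y ≡ u (par x) [ZMOD ((d ^ j : ℕ) : ℤ)] := by
          intro z hz
          have h11 := (hb z hz).of_dvd (pow_dvd_pow (d : ℤ) (Nat.le_succ j))
          push_cast
          refine h11.trans ?_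
          have h12 : (β z : ℤ) * (d : ℤ) ^ j ≡ 0 [ZMOD (d : ℤ) ^ j] :=
            Int.modEq_zero_iff_dvd.mpr (Dvd.intro_left _ rfl)
          simpa using (Int.ModEq.refl (u (par x))).add h12
        exact (hq y hy).trans (hq y' hy').symm
      · intro x hx y y' hy hy' he
        obtain ⟨β, hb1, hb2, hb3, -⟩ := key x hx
        have e1 : ((d * d ^ j : ℕ) : ℤ) = (d : ℤ) ^ (j + 1) := by push_cast; ring
        rw [e1] at he
        have h13 := ((hb2 y hy).symm.trans he).trans (hb2 y' hy')
        exact hb3 y y' hy hy' (covS_inj d j hd _ _ _ (hb1 y hy) (hb1 y' hy') h13)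
    · have hemp : A (d, j) = ∅ := by
        simp only [hA]
        rw [image_eq_empty, filter_eq_empty_iff]
        intro s hs
        rw [mem_range] at hs
        have := (h5 s hs).2.1
        intro hcon
        omega
      rw [hemp]
      exact hc1
  · rintro ⟨d, j⟩ - ⟨d', j'⟩ - x hx hx'
    simp only [hA, mem_image, mem_filter, mem_range] at hx hx'
    obtain ⟨s, ⟨hs, hd, hj⟩, rfl⟩ := hx
    obtain ⟨s', ⟨hs', hd', hj'⟩, he⟩ := hx'
    have := h3 s' hs' s hs he
    subst this
    rw [← hd, ← hj, ← hd', ← hj']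

end Pool.Agent.Lib.MP_7c15de_co.TH
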