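import Pool.Agent.Lib.MP_7c15de_co.TH.Stm

set_option autoImplicit false

namespace Pool.Agent.Lib.MP_7c15de_co.TH

open Finset Pool.Agent.Lib.MP_7c15de_co

theorem p_crit (hdg : S_dg) : S_crit := by
  intro V _ _ T hT X hbip m k hcard hk u hY hcov
  classical
  obtain ⟨PP, hPP, hex, hdis⟩ := hcov
  have hdec : DecidableRel T.Adj := Classical.decRel _
  haveI : Nonempty V := hT.1.nonempty
  obtain ⟨-, -, hsum, -, -, -⟩ := hdg V T
  have hsum' := hsum hT X hbip
  have hne : ∀ p ∈ PP, p.Nonempty := by
    intro p hp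
    by_contra h
    rw [Finset.not_nonempty_iff_eq_empty] at h
    have h1 := (hPP p hp).2.1
    rw [h, Finset.sum_empty] at h1
    have := Nat.eq_zero_of_zero_dvd h1
    omega
  let part : V → Finset V := fun x => if h : ∃ p ∈ PP, x ∈ p then h.choose else ∅
  have part_spec : ∀ x ∈ X, part x ∈ PP ∧ x ∈ part x := by
    intro x hx
    have h := hex x hx
    have : part x = h.choose := dif_pos h
    rw [this]
    exact h.choose_spec
  have part_eq : ∀ x ∈ X, ∀ p ∈ PP, x ∈ p → part x = p := by
    intro x hx p hp hxp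
    exact hdis _ (part_spec x hx).1 _ hp x (part_spec x hx).2 hxp
  let e : Finset V → V := fun p => if h : p.Nonempty then h.choose else Classical.arbitrary V
  have e_mem : ∀ p ∈ PP, e p ∈ p := by
    intro p hp
    have : e p = (hne p hp).choose := dif_pos (hne p hp)
    rw [this]
    exact (hne p hp).choose_spec
  have part_e : ∀ p ∈ PP, part (e p) = p := by
    intro p hp
    exact part_eq _ ((hPP p hp).1 (e_mem p hp)) p hp (e_mem p hp)
  let sh : Finset V → V → ℤ := fun p => if h : p ∈ PP then (hPP p h).2.2.choose else fun _ => 0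
  have sh_spec : ∀ p ∈ PP,
      (∀ x ∈ p, ∀ x' ∈ p, sh p x ≡ sh p x' [ZMOD ((∑ z ∈ p, dg T z : ℕ) : ℤ)] → x = x') ∧
      ∀ x ∈ p, ∀ x' ∈ p, ∀ y y' : V, T.Adj x y → T.Adj x' y' →
        sh p x - u y ≡ sh p x' - u y' [ZMOD ((∑ z ∈ p, dg T z : ℕ) : ℤ)] → x = x' ∧ y = y' := by
    intro p hp
    have : sh p = (hPP p hp).2.2.choose := dif_pos hp
    rw [this]
    exact (hPP p hp).2.2.choose_spec
  have hhead : ∀ x ∈ X, part (e (part x)) = part x := fun x hx => part_e _ (part_spec x hx).1
  have hhh : ∀ x ∈ X, ∀ x' ∈ X, e (part x) = e (part x') → part x = part x' := by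
    intro x hx x' hx' h
    rw [← hhead x hx, h, hhead x' hx']
  refine criterion T hT X hbip m k hcard hk (fun x => e (part x))
    (fun z => ∑ t ∈ part z, dg T t) ?_ (fun x => sh (part x) x) u ?_ hY ?_ ?_
  · intro x hx
    simp only [hhead x hx]
    exact (hPP _ (part_spec x hx).1).2.1
  · intro x hx x' hx' h hm
    have h2 := hhh x hx x' hx' h
    simp only [hhead x hx] at hm
    rw [← h2] at hm
    exact (sh_spec _ (part_spec x hx).1).1 x (part_spec x hx).2 x' (h2 ▸ (part_spec x' hx').2) hm
  · intro x hx x' hx' y y' hy hy' h hm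
    have h2 := hhh x hx x' hx' h
    simp only [hhead x hx] at hm
    rw [← h2] at hm
    exact (sh_spec _ (part_spec x hx).1).2 x (part_spec x hx).2 x' (h2 ▸ (part_spec x' hx').2)
      y y' hy hy' hm
  · have h1 : X.image (fun x => e (part x)) = PP.image e := by
      ext z
      simp only [Finset.mem_image]
      constructor
      · rintro ⟨x, hx, rfl⟩
        exact ⟨part x, (part_spec x hx).1, rfl⟩
      · rintro ⟨p, hp, rfl⟩
        refine ⟨e p, (hPP p hp).1 (e_mem p hp), ?_⟩
        rw [part_e p hp]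
    rw [h1, Finset.sum_image]
    · have h2 : ∑ p ∈ PP, ∑ t ∈ part (e p), dg T t = ∑ p ∈ PP, ∑ t ∈ p, dg T t :=
        Finset.sum_congr rfl (fun p hp => by rw [part_e p hp])
      rw [h2]
      have h3 : X = PP.biUnion (fun p => p) := by
        ext x
        simp only [Finset.mem_biUnion]
        constructor
        · intro hx
          exact hex x hx
        · rintro ⟨p, hp, hxp⟩
          exact (hPP p hp).1 hxp
      have h4 : ∑ t ∈ X, dg T t = ∑ p ∈ PP, ∑ t ∈ p, dg T t := by
        conv_lhs => rw [h3]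
        rw [Finset.sum_biUnion]
        intro p hp p' hp' hpp
        rw [Function.onFun, Finset.disjoint_left]
        intro x hx hx'
        exact hpp (hdis p hp p' hp' x hx hx')
      omega
    · intro p hp p' hp' h
      have h1 := part_e p hp
      rw [h, part_e p' hp'] at h1
      exact h1.symm

end Pool.Agent.Lib.MP_7c15de_co.TH
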