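import Pool.Agent.Lib.MP_7c15de_co.TH.Stm

/-!
# MP_7c15de_co, better hosts: piece [enum]

A finite set can be enumerated in the order of a function.
-/

set_option autoImplicit false

namespace Pool.Agent.Lib.MP_7c15de_co.TH

open Finset Pool.Agent.Lib.MP_7c15de_co

theorem p_enum : S_enum := by
  intro V _ _ A g
  induction hn : A.card generalizing A with
  | zero =>
    refine ⟨fun _ => Classical.arbitrary V, ?_, ?_, ?_, ?_⟩
    · intro i hi; omega
    · intro x hx
      rw [Finset.card_eq_zero] at hn
      subst hn
      simp at hx
    · intro i hi; omega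
    · intro i j _ hj; omega
  | succ n ih =>
    have hne : A.Nonempty := by
      rw [← Finset.card_pos]; omega
    obtain ⟨x, hxA, hmax⟩ := Finset.exists_max_image A g hne
    have hc : (A.erase x).card = n := by
      rw [Finset.card_erase_of_mem hxA, hn]; omega
    obtain ⟨xs, h1, h2, h3, h4⟩ := ih (A.erase x) hc
    have hxs : ∀ i < n, xs i ∈ A ∧ xs i ≠ x := fun i hi =>
      ⟨Finset.mem_of_mem_erase (h1 i hi), Finset.ne_of_mem_erase (h1 i hi)⟩
    refine ⟨fun i => if i = n then x else xs i, ?_, ?_, ?_, ?_⟩
    · intro i hi
      by_cases h : i = n
      · simp only [h, if_true]; exact hxA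
      · simp only [h, if_false]; exact (hxs i (by omega)).1
    · intro y hy
      by_cases h : y = x
      · exact ⟨n, by omega, by simp [h]⟩
      · obtain ⟨i, hi, hiy⟩ := h2 y (Finset.mem_erase.2 ⟨h, hy⟩)
        exact ⟨i, by omega, by simp only [Nat.ne_of_lt hi, if_false]; exact hiy⟩
    · intro i hi j hj hij
      by_cases hin : i = n <;> by_cases hjn : j = n
      · omega
      · simp only [hin, hjn, if_true, if_false] at hij
        exact absurd hij.symm (hxs j (by omega)).2
      · simp only [hin, hjn, if_true, if_false] at hij
        exact absurd hij (hxs i (by omega)).2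
      · simp only [hin, hjn, if_false] at hij
        exact h3 i (by omega) j (by omega) hij
    · intro i j hij hj
      by_cases hjn : j = n
      · by_cases hin : i = n
        · simp only [hin, hjn, if_true]; exact le_refl _
        · simp only [hin, hjn, if_true, if_false]
          exact hmax _ (hxs i (by omega)).1
      · have hin : i ≠ n := by omega
        simp only [hin, hjn, if_false]
        exact h4 i j hij (by omega)

end Pool.Agent.Lib.MP_7c15de_co.TH
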