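import Pool.Agent.Lib.MP_7c15de_co.TH.Stm

/-!
# MP_7c15de_co, [fill]: the padding leaves in the double hub case
-/

set_option autoImplicit false

namespace Pool.Agent.Lib.MP_7c15de_co.TH

open Finset Pool.Agent.Lib.MP_7c15de_co

private theorem fill_class {V : Type} [DecidableEq V] (g : V → ℕ) (Z : Finset V)
    (hpos : ∀ x, 1 ≤ g x) :
    (Z.filter (fun x => 2 ≤ g x)).card + (Z.filter (fun x => g x = 1)).card = Z.card ∧
    ∑ x ∈ Z.filter (fun x => 2 ≤ g x), g x + (Z.filter (fun x => g x = 1)).card =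
      ∑ x ∈ Z, g x := by
  have e : Z.filter (fun x => ¬ 2 ≤ g x) = Z.filter (fun x => g x = 1) := by
    apply Finset.filter_congr
    intro x _
    have := hpos x
    omega
  constructor
  · rw [← e]
    exact Finset.card_filter_add_card_filter_not _
  · rw [← Finset.sum_filter_add_sum_filter_not Z (fun x => 2 ≤ g x) g, e]
    congr 1
    rw [Finset.card_eq_sum_ones]
    apply Finset.sum_congr rfl
    intro x hx
    rw [Finset.mem_filter] at hx
    exact hx.2.symm

theorem p_fill (hdg : S_dg) (halloc : S_alloc) : S_fill := by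
  intro V _ _ T hT X hX n k h yo E N hXn hXc hev h3 hh hyo hkh hkyo hEX hE1 hhE hE2 hN
  classical
  obtain ⟨-, hd2, hd3, hd4, -, -⟩ := hdg V T
  have hVcard : Fintype.card V = 2 * n := by
    have := Finset.card_add_card_compl X
    omega
  have hn1 : 1 ≤ n := by
    rw [← hXn]
    exact Finset.card_pos.mpr ⟨h, hh⟩
  have hdpos := hd2 hT (by omega)
  have hsumX := hd3 hT X hX
  have hXc' : ∀ a b, T.Adj a b → (a ∈ Xᶜ ↔ b ∉ Xᶜ) := by
    intro a b hab
    have := hX a b hab
    simp only [Finset.mem_compl]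
    tauto
  have hsumY := hd3 hT Xᶜ hXc'
  rw [hVcard] at hsumX hsumY
  obtain ⟨m, hm⟩ := hev
  have hk2 : 2 ≤ k := by omega
  have hD2 : k + 2 ≤ 2 * dg T h := by omega
  have hl2 : k + 2 ≤ 2 * dg T yo := by omega
  obtain ⟨c1, c2⟩ := fill_class (dg T) X hdpos
  obtain ⟨c3, c4⟩ := fill_class (dg T) Xᶜ hdpos
  set LX := X.filter (fun x => dg T x = 1) with hLX
  set A0 := X.filter (fun x => 2 ≤ dg T x) with hA0
  set LY := Xᶜ.filter (fun x => dg T x = 1) with hLY
  set B0 := Xᶜ.filter (fun x => 2 ≤ dg T x) with hB0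
  set LXo := LX.filter (fun x => T.Adj x yo) with hLXo
  have hLXo_sub : LXo ⊆ LX := Finset.filter_subset _ _
  -- the sets `E`, `A`
  have hIA : insert h E ⊆ A0 := by
    intro x hx
    rw [Finset.mem_insert] at hx
    rw [hA0, Finset.mem_filter]
    rcases hx with rfl | hx
    · exact ⟨hh, by omega⟩
    · exact ⟨hEX hx, hE2 x hx⟩
  set A := A0 \ insert h E with hA
  have hAmem : ∀ x, x ∈ A ↔ x ∈ X ∧ 2 ≤ dg T x ∧ x ≠ h ∧ x ∉ E := by
    intro x
    rw [hA, Finset.mem_sdiff, hA0, Finset.mem_filter, Finset.mem_insert]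
    tauto
  have hAcard : A.card + (E.card + 1) = A0.card := by
    rw [← Finset.card_insert_of_notMem hhE, hA]
    exact Finset.card_sdiff_add_card_eq_card hIA
  have hAsum : ∑ x ∈ A, dg T x + (dg T h + ∑ x ∈ E, dg T x) = ∑ x ∈ A0, dg T x := by
    rw [← Finset.sum_insert hhE, hA]
    exact Finset.sum_sdiff hIA
  have hEsum : 2 * E.card ≤ ∑ x ∈ E, dg T x := by
    have := Finset.card_nsmul_le_sum E (fun x => dg T x) 2 hE2
    rw [smul_eq_mul] at this
    omega
  have hE0 : E.card = 0 → ∑ x ∈ E, dg T x = 0 := by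
    intro h0
    rw [Finset.card_eq_zero.mp h0, Finset.sum_empty]
  have hAsum2 : 2 * A.card ≤ ∑ x ∈ A, dg T x := by
    have := Finset.card_nsmul_le_sum A (fun x => dg T x) 2 (fun x hx => ((hAmem x).1 hx).2.1)
    rw [smul_eq_mul] at this
    omega
  have hS : ∑ x ∈ A, (N x - dg T x) + 2 * A.card ≤ ∑ x ∈ A, dg T x := by
    have e1 : 2 * A.card = ∑ x ∈ A, 2 := by rw [Finset.sum_const, smul_eq_mul]; ring
    rw [e1, ← Finset.sum_add_distrib]
    apply Finset.sum_le_sum
    intro x hx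
    obtain ⟨x1, x2, x3, x4⟩ := (hAmem x).1 hx
    have := hN x x1 x2 x3 x4
    omega
  -- neighbours of `yo`
  have hlam : dg T yo ≤ LXo.card + A0.card := by
    rw [hd4 yo (Finset.univ.filter (fun y => T.Adj yo y)) (by intro y; simp)]
    refine (Finset.card_le_card ?_).trans (Finset.card_union_le _ _)
    intro y hy
    rw [Finset.mem_filter] at hy
    have hyX : y ∈ X := by
      have := hX y yo hy.2.symm
      tauto
    rw [Finset.mem_union, hLXo, hLX, hA0, Finset.mem_filter, Finset.mem_filter, Finset.mem_filter]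
    rcases Nat.lt_or_ge (dg T y) 2 with h2 | h2
    · have := hdpos y
      exact Or.inl ⟨⟨hyX, by omega⟩, hy.2.symm⟩
    · exact Or.inr ⟨hyX, h2⟩
  -- a leaf adjacent to `h`
  have hlf : ∃ lf, T.Adj h lf ∧ dg T lf = 1 := by
    by_contra hcon
    push Not at hcon
    have hsub : (Finset.univ.filter (fun y => T.Adj h y)) ⊆ B0 := by
      intro y hy
      rw [Finset.mem_filter] at hy
      have hyX : y ∉ X := by
        have := hX h y hy.2
        tauto
      have h1 := hdpos y
      have h2 := hcon y hy.2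
      rw [hB0, Finset.mem_filter, Finset.mem_compl]
      exact ⟨hyX, by omega⟩
    have hDB : dg T h ≤ B0.card := by
      rw [hd4 h (Finset.univ.filter (fun y => T.Adj h y)) (by intro y; simp)]
      exact Finset.card_le_card hsub
    have hyB : yo ∈ B0 := by
      rw [hB0, Finset.mem_filter, Finset.mem_compl]
      exact ⟨hyo, by omega⟩
    have e1 : ∑ x ∈ B0.erase yo, dg T x + dg T yo = ∑ x ∈ B0, dg T x :=
      Finset.sum_erase_add _ _ hyB
    have e2 : 2 * (B0.erase yo).card ≤ ∑ x ∈ B0.erase yo, dg T x := by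
      have := Finset.card_nsmul_le_sum (B0.erase yo) (fun x => dg T x) 2 (fun x hx => by
        have hx' := Finset.mem_of_mem_erase hx
        rw [hB0, Finset.mem_filter] at hx'
        exact hx'.2)
      rw [smul_eq_mul] at this
      omega
    have e3 : (B0.erase yo).card + 1 = B0.card := Finset.card_erase_add_one hyB
    omega
  obtain ⟨lf, hlf1, hlf2⟩ := hlf
  -- allocation of the leaves at `yo`
  have hSle : ∑ x ∈ A, (N x - dg T x) ≤ LXo.card := by omega
  obtain ⟨P, hP1, hP2, hP3, hP4⟩ := halloc V LXo A (fun x => N x - dg T x) hSle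
  set U := A.biUnion P with hU
  have hUcard : U.card = ∑ x ∈ A, (N x - dg T x) := by
    rw [hU, Finset.card_biUnion]
    · exact Finset.sum_congr rfl hP1
    · intro x _ y _ hxy
      rw [Function.onFun, Finset.disjoint_left]
      intro r hr hr'
      exact hxy (hP4 x y r hr hr')
  have hUsub : U ⊆ LXo := by
    intro r hr
    rw [hU, Finset.mem_biUnion] at hr
    obtain ⟨x, _, hx⟩ := hr
    exact hP3 x hx
  have hUP : ∀ r, r ∉ U → ∀ x, r ∉ P x := by
    intro r hr x hx
    by_cases hxA : x ∈ A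
    · exact hr (by rw [hU, Finset.mem_biUnion]; exact ⟨x, hxA, hx⟩)
    · rw [hP2 x hxA] at hx
      exact absurd hx (Finset.notMem_empty r)
  have hR : (LXo \ U).card + U.card = LXo.card := Finset.card_sdiff_add_card_eq_card hUsub
  have hB : (LX \ LXo).card + LXo.card = LX.card := Finset.card_sdiff_add_card_eq_card hLXo_sub
  have hLXmem : ∀ r ∈ LX, r ∈ X ∧ dg T r = 1 := by
    intro r hr
    rw [hLX, Finset.mem_filter] at hr
    exact hr
  have hLXomem : ∀ r ∈ LXo, r ∈ X ∧ dg T r = 1 ∧ T.Adj r yo := by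
    intro r hr
    rw [hLXo, Finset.mem_filter] at hr
    exact ⟨(hLXmem r hr.1).1, (hLXmem r hr.1).2, hr.2⟩
  have hfirst : ∀ x ∈ X, 2 ≤ dg T x → x ≠ h → x ∉ E →
      dg T x + (P x).card = N x ∧ ∀ r ∈ P x, r ∈ X ∧ dg T r = 1 ∧ T.Adj r yo := by
    intro x x1 x2 x3 x4
    refine ⟨?_, fun r hr => hLXomem r (hP3 x hr)⟩
    rw [hP1 x ((hAmem x).2 ⟨x1, x2, x3, x4⟩)]
    have := hN x x1 x2 x3 x4
    omega
  -- `p = k - D - s0`
  have hp0 : dg T h + ∑ x ∈ E, dg T x ≤ k := by
    rcases Nat.eq_zero_or_pos E.card with h0 | h0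
    · have := hE0 h0
      omega
    · omega
  obtain ⟨p, hp⟩ := Nat.exists_eq_add_of_le hp0
  rcases Nat.lt_or_ge (LXo \ U).card p with hlt | hge
  · -- not enough leaves at `yo`
    have hle : p - (LXo \ U).card ≤ (LX \ LXo).card := by omega
    obtain ⟨Bd, hBd1, hBd2⟩ := Finset.exists_subset_card_eq hle
    have hdis : Disjoint (LXo \ U) Bd := by
      rw [Finset.disjoint_left]
      intro r hr hr'
      have h1 := (Finset.mem_sdiff.1 hr).1
      have h2 := (Finset.mem_sdiff.1 (hBd1 hr')).2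
      exact h2 h1
    have hPHcard : ((LXo \ U) ∪ Bd).card = p := by
      rw [Finset.card_union_of_disjoint hdis]
      omega
    refine ⟨P, (LXo \ U) ∪ Bd, Bd, lf, hfirst, hP4, ?_, ?_, Finset.subset_union_right, ?_, ?_,
      hlf1, hlf2⟩
    · intro r hr
      rw [Finset.mem_union] at hr
      rcases hr with hr | hr
      · obtain ⟨r1, r2⟩ := Finset.mem_sdiff.1 hr
        obtain ⟨r3, r4, -⟩ := hLXomem r r1
        exact ⟨r3, r4, hUP r r2⟩
      · obtain ⟨r1, r2⟩ := Finset.mem_sdiff.1 (hBd1 hr)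
        obtain ⟨r3, r4⟩ := hLXmem r r1
        exact ⟨r3, r4, hUP r (fun hc => r2 (hUsub hc))⟩
    · rw [hPHcard]
      omega
    · intro r hr hr'
      rw [Finset.mem_union] at hr
      rcases hr with hr | hr
      · exact (hLXomem r (Finset.mem_sdiff.1 hr).1).2.2
      · exact absurd hr hr'
    · rw [hPHcard, hBd2]
      omega
  · obtain ⟨PH, hPH1, hPH2⟩ := Finset.exists_subset_card_eq hge
    refine ⟨P, PH, ∅, lf, hfirst, hP4, ?_, ?_, Finset.empty_subset _, ?_, ?_, hlf1, hlf2⟩
    · intro r hr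
      obtain ⟨r1, r2⟩ := Finset.mem_sdiff.1 (hPH1 hr)
      obtain ⟨r3, r4, -⟩ := hLXomem r r1
      exact ⟨r3, r4, hUP r r2⟩
    · rw [hPH2]
      omega
    · intro r hr _
      exact (hLXomem r (Finset.mem_sdiff.1 (hPH1 hr)).1).2.2
    · rw [Finset.card_empty, hPH2]
      rcases Nat.eq_zero_or_pos E.card with h0 | h0
      · have := hE0 h0
        omega
      · omega

end Pool.Agent.Lib.MP_7c15de_co.TH
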