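import Pool.Agent.Lib.MP_7c15de_co.TH.Stm

set_option autoImplicit false

namespace Pool.Agent.Lib.MP_7c15de_co.TH

open Finset Pool.Agent.Lib.MP_7c15de_co

/-- the number of uses of the class `t` before the time `s` -/
private noncomputable def game_uses (deg : ℕ → ℕ) (tt : ℕ → (ℕ → ℤ) → ℕ → ℕ) (s : ℕ) (ρ : ℕ → ℤ)
    (t : ℕ) : ℕ := ∑ s' ∈ range s, ((Ico 1 (deg s')).filter (fun i => tt s' ρ i = t)).card

private lemma game_uses_mono (deg : ℕ → ℕ) (tt : ℕ → (ℕ → ℤ) → ℕ → ℕ) (ρ : ℕ → ℤ) (t : ℕ) {s s' : ℕ}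
    (h : s ≤ s') : game_uses deg tt s ρ t ≤ game_uses deg tt s' ρ t :=
  sum_le_sum_of_subset (range_subset_range.mpr h)

private lemma game_uses_succ (deg : ℕ → ℕ) (tt : ℕ → (ℕ → ℤ) → ℕ → ℕ) (ρ : ℕ → ℤ) (t s i : ℕ)
    (h1 : 1 ≤ i) (h2 : i < deg s) (h3 : tt s ρ i = t) :
    game_uses deg tt s ρ t + 1 ≤ game_uses deg tt (s + 1) ρ t := by
  have h4 : 0 < ((Ico 1 (deg s)).filter (fun i => tt s ρ i = t)).card :=
    card_pos.mpr ⟨i, mem_filter.mpr ⟨mem_Ico.mpr ⟨h1, h2⟩, h3⟩⟩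
  unfold game_uses
  rw [sum_range_succ]
  omega

private lemma game_real (M0 : ℕ) (hM : 0 < M0) (η δ θ β : ℝ) (_hη : 0 < η) (hδ0 : 0 < δ)
    (hδ1 : 4 * δ ≤ η) (hδ2 : δ ≤ 1 / 4) (hθ : θ = 1 + δ) (hβ0 : 0 ≤ β) (hβ : β ≤ 1 + δ) (Kf : ℕ) :
    ∃ K : ℕ, ∀ Y : ℕ, ((M0 * (⌊((Kf : ℝ) * Real.log θ + Real.log M0 + (θ - 1) * β * (Y : ℝ) / M0) /
      Real.log θ⌋₊ + 1) : ℕ) : ℝ) ≤ (1 + η) * Y + K := by
  have hθ1 : 1 < θ := by linarith
  have hlog : 0 < Real.log θ := Real.log_pos hθ1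
  have hM1 : (1 : ℝ) ≤ M0 := by exact_mod_cast hM
  have hM0 : (0 : ℝ) < M0 := by linarith
  have hlogM : 0 ≤ Real.log M0 := Real.log_nonneg hM1
  have h1 : δ ≤ θ * Real.log θ := by
    have h := Real.one_sub_inv_le_log_of_pos (show (0 : ℝ) < θ by linarith)
    have h2 : θ * (1 - θ⁻¹) ≤ θ * Real.log θ := mul_le_mul_of_nonneg_left h (by linarith)
    have h3 : θ * (1 - θ⁻¹) = δ := by
      rw [mul_sub, mul_one, mul_inv_cancel₀ (by linarith), hθ]; ring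
    linarith
  refine ⟨⌈(M0 : ℝ) * Kf + M0 * Real.log M0 / Real.log θ + M0⌉₊, fun Y => ?_⟩
  have hK : (M0 : ℝ) * Kf + M0 * Real.log M0 / Real.log θ + M0 ≤
      ((⌈(M0 : ℝ) * Kf + M0 * Real.log M0 / Real.log θ + M0⌉₊ : ℕ) : ℝ) := Nat.le_ceil _
  have hY : (0 : ℝ) ≤ Y := Nat.cast_nonneg _
  have hX0 : 0 ≤ ((Kf : ℝ) * Real.log θ + Real.log M0 + (θ - 1) * β * (Y : ℝ) / M0) / Real.log θ := by
    have : 0 ≤ θ - 1 := by linarith
    positivity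
  have hfl := Nat.floor_le hX0
  have h4 : ((M0 * (⌊((Kf : ℝ) * Real.log θ + Real.log M0 + (θ - 1) * β * (Y : ℝ) / M0) /
      Real.log θ⌋₊ + 1) : ℕ) : ℝ) ≤ M0 * (((Kf : ℝ) * Real.log θ + Real.log M0 +
        (θ - 1) * β * (Y : ℝ) / M0) / Real.log θ + 1) := by
    push_cast
    exact mul_le_mul_of_nonneg_left (by linarith) hM0.le
  have h5 : (M0 : ℝ) * (((Kf : ℝ) * Real.log θ + Real.log M0 +
        (θ - 1) * β * (Y : ℝ) / M0) / Real.log θ + 1) =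
      (M0 : ℝ) * Kf + M0 * Real.log M0 / Real.log θ + M0 + (θ - 1) * β / Real.log θ * Y := by
    field_simp
    ring
  have h6 : (θ - 1) * β / Real.log θ ≤ 1 + η := by
    rw [div_le_iff₀ hlog]
    have h7 : (θ - 1) * β ≤ δ * (1 + δ) := by
      rw [hθ]
      have : (1 + δ - 1) * β = δ * β := by ring
      rw [this]
      exact mul_le_mul_of_nonneg_left hβ hδ0.le
    have h8 : δ * (1 + δ) ≤ (θ * Real.log θ) * (1 + δ) := mul_le_mul_of_nonneg_right h1 (by linarith)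
    have h9 : θ * (1 + δ) ≤ 1 + η := by
      rw [hθ]; nlinarith
    have h10 : (θ * Real.log θ) * (1 + δ) = (θ * (1 + δ)) * Real.log θ := by ring
    have h11 : (θ * (1 + δ)) * Real.log θ ≤ (1 + η) * Real.log θ :=
      mul_le_mul_of_nonneg_right h9 hlog.le
    linarith
  have h12 : (θ - 1) * β / Real.log θ * Y ≤ (1 + η) * Y := mul_le_mul_of_nonneg_right h6 hY
  linarith

private lemma game_inj_i (d j : ℕ) (hd : 0 < d) (r : ℤ) (t : ℤ) (i i' : ℕ) (h1 : 1 ≤ i) (h2 : i < d)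
    (h1' : 1 ≤ i') (h2' : i' < d) (h : t ≡ r + i * (d : ℤ) ^ j [ZMOD (d : ℤ) ^ (j + 1)])
    (h' : t ≡ r + i' * (d : ℤ) ^ j [ZMOD (d : ℤ) ^ (j + 1)]) : i = i' := by
  have h3 := (h.symm.trans h').dvd
  have h4 : (d : ℤ) ^ j * d ∣ (d : ℤ) ^ j * ((i' : ℤ) - i) := by
    have e : r + i' * (d : ℤ) ^ j - (r + i * (d : ℤ) ^ j) = (d : ℤ) ^ j * ((i' : ℤ) - i) := by ring
    rw [e, pow_succ] at h3
    exact h3
  have h5 : (d : ℤ) ∣ (i' : ℤ) - i :=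
    Int.dvd_of_mul_dvd_mul_left (pow_ne_zero _ (by exact_mod_cast hd.ne')) h4
  have h6 : ((i' : ℤ) - i) = 0 := by
    refine Int.eq_zero_of_abs_lt_dvd h5 ?_
    rw [abs_lt]
    constructor <;> omega
  omega

theorem p_game (hstrat : S_strat) : S_game := by
  intro C η hη
  obtain ⟨δ, hδ0, hδ1, hδ2⟩ : ∃ δ : ℝ, 0 < δ ∧ 4 * δ ≤ η ∧ δ ≤ 1 / 4 := by
    refine ⟨min η 1 / 4, by have := lt_min hη one_pos; linarith, ?_, ?_⟩
    · have := min_le_left η 1; linarith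
    · have := min_le_right η 1; linarith
  obtain ⟨J, hJ⟩ := pow_unbounded_of_one_lt (1 / δ + 1) (one_lt_two (α := ℝ))
  have hJ' : 1 / δ + 1 < (2 : ℝ) ^ (J + 1) := by
    refine hJ.trans_le ?_
    exact pow_le_pow_right₀ one_le_two (Nat.le_succ J)
  have hx : 0 < (2 : ℝ) ^ (J + 1) - 1 := by
    have : 0 < 1 / δ := by positivity
    linarith
  have hβ0 : 0 ≤ (2 : ℝ) ^ (J + 1) / ((2 : ℝ) ^ (J + 1) - 1) := by positivity
  have hβ : (2 : ℝ) ^ (J + 1) / ((2 : ℝ) ^ (J + 1) - 1) ≤ 1 + δ := by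
    rw [div_le_iff₀ hx]
    have h1 : 1 / δ < (2 : ℝ) ^ (J + 1) - 1 := by linarith
    have h2 : 1 < δ * ((2 : ℝ) ^ (J + 1) - 1) := by
      have := (div_lt_iff₀ hδ0).mp h1
      linarith
    linarith
  refine ⟨J, fun M0 hM0 hdvd => ?_⟩
  obtain ⟨K, hK⟩ := game_real M0 hM0 η δ (1 + δ) _ hη hδ0 hδ1 hδ2 rfl hβ0 hβ (C * (J * C ^ J))
  refine ⟨K, _, hK, fun n deg hdeg => ?_⟩
  obtain ⟨sc, tt, hna, hsc, htt, hcnt, hpot⟩ :=
    hstrat C J M0 (1 + δ) (by linarith) hM0 hdvd n deg hdeg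
  have hlog : 0 < Real.log (1 + δ) := Real.log_pos (by linarith)
  have hbound : ∀ ρ, ∀ t < M0, game_uses deg tt n ρ t <
      ⌊(((C * (J * C ^ J) : ℕ) : ℝ) * Real.log (1 + δ) + Real.log M0 + (1 + δ - 1) *
        ((2 : ℝ) ^ (J + 1) / ((2 : ℝ) ^ (J + 1) - 1)) *
        ((∑ s ∈ range n, (deg s - 1) : ℕ) : ℝ) / M0) / Real.log (1 + δ)⌋₊ + 1 := by
    intro ρ t ht
    refine Nat.lt_succ_of_le (Nat.le_floor ?_)
    rw [le_div_iff₀ hlog]
    exact hpot ρ t ht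
  refine ⟨sc, fun s ρ i => (tt s ρ i : ℤ) + M0 * (game_uses deg tt s ρ (tt s ρ i) : ℤ), ?_⟩
  constructor
  · intro s ρ ρ' h
    have h1 : ∀ s' ≤ s, tt s' ρ = tt s' ρ' := fun s' hs' => (hna s' ρ ρ' fun t ht => h t (ht.trans hs')).2
    funext i
    have h2 : ∀ t, game_uses deg tt s ρ t = game_uses deg tt s ρ' t := by
      intro t
      unfold game_uses
      refine sum_congr rfl fun s' hs' => ?_
      rw [h1 s' (mem_range.mp hs').le]
    show (tt s ρ i : ℤ) + M0 * (game_uses deg tt s ρ (tt s ρ i) : ℤ) =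
      (tt s ρ' i : ℤ) + M0 * (game_uses deg tt s ρ' (tt s ρ' i) : ℤ)
    rw [h2, h1 s le_rfl]
  · intro s hs ρ i h1 h2
    obtain ⟨h3, -⟩ := htt s hs ρ i h1 h2
    refine ⟨by positivity, ?_⟩
    have h4 := game_uses_succ deg tt ρ (tt s ρ i) s i h1 h2 rfl
    have h5 := game_uses_mono deg tt ρ (tt s ρ i) (show s + 1 ≤ n from hs)
    have h6 := hbound ρ (tt s ρ i) h3
    have h7 : game_uses deg tt s ρ (tt s ρ i) + 1 ≤ ⌊(((C * (J * C ^ J) : ℕ) : ℝ) * Real.log (1 + δ) +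
        Real.log M0 + (1 + δ - 1) * ((2 : ℝ) ^ (J + 1) / ((2 : ℝ) ^ (J + 1) - 1)) *
        ((∑ s ∈ range n, (deg s - 1) : ℕ) : ℝ) / M0) / Real.log (1 + δ)⌋₊ + 1 := by omega
    have h8 : tt s ρ i + M0 * game_uses deg tt s ρ (tt s ρ i) <
        M0 * (game_uses deg tt s ρ (tt s ρ i) + 1) := by
      rw [mul_add, mul_one]; omega
    exact_mod_cast h8.trans_le (Nat.mul_le_mul_left M0 h7)
  · intro s hs ρ i h1 h2
    obtain ⟨-, h3⟩ := htt s hs ρ i h1 h2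
    have h4 : deg s ^ (sc s ρ + 1) ∣ M0 :=
      (pow_dvd_pow _ (Nat.succ_le_succ (hsc s hs ρ))).trans (hdvd _ (hdeg s hs).1 (hdeg s hs).2)
    have h5 : ((deg s : ℤ) ^ (sc s ρ + 1)) ∣ (M0 : ℤ) := by exact_mod_cast h4
    have h6 : (M0 : ℤ) * (game_uses deg tt s ρ (tt s ρ i) : ℤ) ≡ 0 [ZMOD (deg s : ℤ) ^ (sc s ρ + 1)] :=
      Int.modEq_zero_iff_dvd.mpr (h5.mul_right _)
    have h7 := h3.add h6
    rw [add_zero] at h7
    exact h7
  · intro ρ s hs s' hs' i i' h1 h2 h1' h2' heq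
    have heq' : (tt s ρ i : ℤ) + M0 * (game_uses deg tt s ρ (tt s ρ i) : ℤ) =
      (tt s' ρ i' : ℤ) + M0 * (game_uses deg tt s' ρ (tt s' ρ i') : ℤ) := heq
    have heqN : tt s ρ i + M0 * game_uses deg tt s ρ (tt s ρ i) =
      tt s' ρ i' + M0 * game_uses deg tt s' ρ (tt s' ρ i') := by exact_mod_cast heq'
    obtain ⟨h3, h4⟩ := htt s hs ρ i h1 h2
    obtain ⟨h3', h4'⟩ := htt s' hs' ρ i' h1' h2'
    have ht : tt s ρ i = tt s' ρ i' := by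
      have h5 := congrArg (· % M0) heqN
      simp only [Nat.add_mul_mod_self_left] at h5
      rwa [Nat.mod_eq_of_lt h3, Nat.mod_eq_of_lt h3'] at h5
    have hu : game_uses deg tt s ρ (tt s ρ i) = game_uses deg tt s' ρ (tt s ρ i) := by
      rw [← ht] at heqN
      exact Nat.eq_of_mul_eq_mul_left hM0 (Nat.add_left_cancel heqN)
    have hss : s = s' := by
      rcases lt_trichotomy s s' with h | h | h
      · have h5 := game_uses_succ deg tt ρ (tt s ρ i) s i h1 h2 rfl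
        have h6 := game_uses_mono deg tt ρ (tt s ρ i) (show s + 1 ≤ s' from h)
        omega
      · exact h
      · have h5 := game_uses_succ deg tt ρ (tt s ρ i) s' i' h1' h2' ht.symm
        have h6 := game_uses_mono deg tt ρ (tt s ρ i) (show s' + 1 ≤ s from h)
        omega
    subst hss
    refine ⟨rfl, ?_⟩
    rw [← ht] at h4'
    exact game_inj_i (deg s) (sc s ρ) (by omega) (ρ s) (tt s ρ i) i i' h1 h2 h1' h2' h4 h4'
  · exact hsc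
  · exact hcnt

end Pool.Agent.Lib.MP_7c15de_co.TH
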