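import Pool.Agent.Lib.MP_7c15de_co.TH.Stm

/-!
# MP_7c15de_co, better hosts, piece [k1]
-/

set_option autoImplicit false

namespace Pool.Agent.Lib.MP_7c15de_co.TH

private lemma k1_pow (x : ℝ) (hx : 1 ≤ x) : ∃ A : ℕ, (2 : ℝ) ^ A ≤ x ∧ x < (2 : ℝ) ^ (A + 1) := by
  have h1 : 1 ≤ ⌊x⌋₊ := (Nat.one_le_floor_iff x).mpr hx
  refine ⟨Nat.log 2 ⌊x⌋₊, ?_, ?_⟩
  · have h2 := Nat.pow_log_le_self 2 (x := ⌊x⌋₊) (by omega)
    calc (2 : ℝ) ^ Nat.log 2 ⌊x⌋₊ = ((2 ^ Nat.log 2 ⌊x⌋₊ : ℕ) : ℝ) := by push_cast; rfl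
      _ ≤ (⌊x⌋₊ : ℝ) := by exact_mod_cast h2
      _ ≤ x := Nat.floor_le (by linarith)
  · have h2 := Nat.lt_pow_succ_log_self (b := 2) (by norm_num) ⌊x⌋₊
    calc x < (⌊x⌋₊ : ℝ) + 1 := Nat.lt_floor_add_one x
      _ ≤ ((2 ^ (Nat.log 2 ⌊x⌋₊ + 1) : ℕ) : ℝ) := by
        have : ⌊x⌋₊ + 1 ≤ 2 ^ (Nat.log 2 ⌊x⌋₊ + 1) := h2
        exact_mod_cast this
      _ = (2 : ℝ) ^ (Nat.log 2 ⌊x⌋₊ + 1) := by push_cast; rfl

theorem p_k1 : S_k1 := by
  intro C M0 hC hM0
  set L : ℕ := M0 * Nat.factorial (2 * C) with hL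
  have hLpos : 0 < L := Nat.mul_pos hM0 (Nat.factorial_pos _)
  have hLr : (0 : ℝ) < L := by exact_mod_cast hLpos
  have hCr : (0 : ℝ) < C := by exact_mod_cast hC
  refine ⟨1 / (2 * L), L * C, by positivity, ?_⟩
  intro n hn lam hlam
  have hnr : ((L : ℝ) * C) ≤ n := by exact_mod_cast hn
  have hLC : (0 : ℝ) < (L : ℝ) * C := by positivity
  have hnpos : (0 : ℝ) < n := lt_of_lt_of_le hLC hnr
  have hln : (n : ℝ) ≤ lam * n := by nlinarith
  have hlnpos : (0 : ℝ) < lam * n := lt_of_lt_of_le hnpos hln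
  obtain ⟨A, hA1, hA2⟩ := k1_pow (lam * n / (L * C))
    ((one_le_div hLC).mpr (hnr.trans hln))
  rw [le_div_iff₀ hLC] at hA1
  rw [div_lt_iff₀ hLC] at hA2
  have h2A : (0 : ℝ) < (2 : ℝ) ^ A * L := by positivity
  set t : ℕ := ⌈lam * n / ((2 : ℝ) ^ A * L)⌉₊ with ht
  have ht1 : lam * n ≤ (2 : ℝ) ^ A * L * t := by
    have := Nat.le_ceil (lam * n / ((2 : ℝ) ^ A * L))
    rw [div_le_iff₀ h2A] at this
    rw [ht]; linarith
  have ht2 : (2 : ℝ) ^ A * L * t < lam * n + (2 : ℝ) ^ A * L := by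
    have := Nat.ceil_lt_add_one (a := lam * n / ((2 : ℝ) ^ A * L)) (by positivity)
    rw [← ht] at this
    have h3 := mul_lt_mul_of_pos_left this h2A
    have h4 : (2 : ℝ) ^ A * L * (lam * n / ((2 : ℝ) ^ A * L) + 1) = lam * n + (2 : ℝ) ^ A * L := by
      field_simp
    linarith
  refine ⟨2 ^ A * L * t, ?_, ?_, ?_, ?_⟩
  · exact ((Dvd.intro _ rfl : M0 ∣ L).mul_left _).mul_right _
  · push_cast; exact ht1
  · push_cast
    have h5 : (2 : ℝ) ^ A * L ≤ lam * n / C := by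
      rw [le_div_iff₀ hCr]; linarith
    have h6 : lam * (1 + 1 / C) * n = lam * n + lam * n / C := by ring
    linarith
  · intro d hd hdn
    have hdC : 1 ≤ d / C := (Nat.one_le_div_iff (by omega)).mpr hd
    set b := Nat.log 2 (d / C) with hb
    have hb1 : 2 ^ b * C ≤ d := by
      have := Nat.pow_log_le_self 2 (x := d / C) (by omega)
      exact (Nat.le_div_iff_mul_le (by omega)).mp this
    have hb2 : d < 2 ^ (b + 1) * C := by
      have := Nat.lt_pow_succ_log_self (b := 2) (by norm_num) (d / C)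
      exact (Nat.div_lt_iff_lt_mul (by omega)).mp this
    have h2b : 0 < 2 ^ b := by positivity
    set s := (d + 2 ^ b - 1) / 2 ^ b with hs
    have hs1 : d ≤ 2 ^ b * s := by
      have := Nat.div_add_mod (d + 2 ^ b - 1) (2 ^ b)
      have h7 := Nat.mod_lt (d + 2 ^ b - 1) h2b
      rw [← hs] at this
      omega
    have hs2 : 2 ^ b * s ≤ d + 2 ^ b - 1 := by
      rw [hs]; exact Nat.mul_div_le _ _
    have hs3 : s ≤ 2 * C := by
      by_contra hcon
      have h8 : 2 * C + 1 ≤ s := by omega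
      have h9 : 2 ^ b * (2 * C + 1) ≤ 2 ^ b * s := Nat.mul_le_mul_left _ h8
      have h10 : 2 ^ b * (2 * C + 1) = 2 ^ (b + 1) * C + 2 ^ b := by ring
      omega
    have hs4 : 1 ≤ s := by
      by_contra hcon
      have h11 : s = 0 := Nat.lt_one_iff.mp (not_le.mp hcon)
      rw [h11, Nat.mul_zero] at hs1
      omega
    refine ⟨2 ^ b * s, ?_, hs1, ?_⟩
    · have hbA : b ≤ A := by
        by_contra hcon
        have h12 : A + 1 ≤ b := by omega
        have h13 : (2 : ℝ) ^ (A + 1) ≤ (2 : ℝ) ^ b := pow_le_pow_right₀ (by norm_num) h12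
        have h14 : (2 : ℝ) ^ b * C ≤ d := by exact_mod_cast hb1
        have h15 : (d : ℝ) * (2 * L) ≤ n := by
          rw [one_div, inv_mul_eq_div, le_div_iff₀ (by positivity)] at hdn
          exact hdn
        have h16 : (2 : ℝ) ^ (A + 1) * C ≤ d := by
          refine le_trans ?_ h14
          exact mul_le_mul_of_nonneg_right h13 hCr.le
        have h17 : (2 : ℝ) ^ (A + 1) * C * (2 * L) ≤ n := by
          refine le_trans ?_ h15
          exact mul_le_mul_of_nonneg_right h16 (by positivity)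
        have h18 : (2 : ℝ) ^ (A + 1) * (L * C) < (2 : ℝ) ^ (A + 1) * C * (2 * L) := by
          have : (0 : ℝ) < (2 : ℝ) ^ (A + 1) * (L * C) := by positivity
          nlinarith
        linarith
      have hsL : s ∣ L := (Nat.dvd_factorial (by omega) hs3).mul_left _
      exact (Nat.mul_dvd_mul (pow_dvd_pow 2 hbA) hsL).mul_right _
    · have h19 : C * (2 ^ b * s) ≤ C * (d + 2 ^ b - 1) := Nat.mul_le_mul_left _ hs2
      have h20 : C * (d + 2 ^ b - 1) ≤ C * (d + 2 ^ b) := Nat.mul_le_mul_left _ (by omega)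
      have h21 : C * (d + 2 ^ b) = C * d + 2 ^ b * C := by ring
      have h22 : (C + 1) * d = C * d + d := by ring
      omega

end Pool.Agent.Lib.MP_7c15de_co.TH
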