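import Pool.Agent.Lib.MP_7c15de_co.TH.Stm

set_option autoImplicit false

namespace Pool.Agent.Lib.MP_7c15de_co.TH

private lemma k2_small (A s d : ℕ) (hd : 2 ≤ d) (hdA : d ≤ 2 ^ A) :
    ∃ N, N ∣ 6 * 2 ^ A * s ∧ d ≤ N ∧ 2 * N ≤ 3 * d := by
  obtain ⟨b, hb⟩ : ∃ b, b = Nat.log 2 (d - 1) := ⟨_, rfl⟩
  have h1 : 2 ^ b ≤ d - 1 := by
    rw [hb]; exact Nat.pow_log_le_self 2 (by omega)
  have h2 : d - 1 < 2 ^ (b + 1) := by
    rw [hb]; exact Nat.lt_pow_succ_log_self (by norm_num) _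
  have hbA : b < A := by
    have : 2 ^ b < 2 ^ A := by omega
    exact (Nat.pow_lt_pow_iff_right (by norm_num)).1 this
  rcases b with _ | b'
  · refine ⟨2, ?_, ?_, ?_⟩
    · exact ⟨3 * 2 ^ A * s, by ring⟩
    · simp at h2; omega
    · omega
  · have e1 : 2 ^ (b' + 1) = 2 * 2 ^ b' := by ring
    have e2 : 2 ^ (b' + 1 + 1) = 4 * 2 ^ b' := by ring
    rw [e1] at h1
    rw [e2] at h2
    by_cases h3 : d ≤ 3 * 2 ^ b'
    · refine ⟨3 * 2 ^ b', ?_, h3, by omega⟩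
      have : 2 ^ b' ∣ 2 ^ A := pow_dvd_pow 2 (by omega)
      obtain ⟨c, hc⟩ := this
      exact ⟨2 * c * s, by rw [hc]; ring⟩
    · refine ⟨2 ^ (b' + 1 + 1), ?_, by omega, by omega⟩
      have : 2 ^ (b' + 1 + 1) ∣ 2 ^ A := pow_dvd_pow 2 (by omega)
      obtain ⟨c, hc⟩ := this
      exact ⟨6 * c * s, by rw [hc]; ring⟩

private lemma k2_large (A s d : ℕ) (hd : 2 ^ A < d) (hk : 2 * d ≤ 6 * 2 ^ A * s)
    (hs : 6 * s ≤ 3 * 2 ^ A) :
    ∃ N, N ∣ 6 * 2 ^ A * s ∧ d ≤ N ∧ 2 * N ≤ 3 * d := by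
  obtain ⟨k, hkd⟩ : ∃ k, k = 6 * 2 ^ A * s := ⟨_, rfl⟩
  rw [← hkd] at hk ⊢
  have hA : 0 < 2 ^ A := by positivity
  have hd0 : 0 < d := by omega
  have he2 : 2 ≤ k / d := by
    rw [Nat.le_div_iff_mul_le hd0]; exact hk
  obtain ⟨b, hb⟩ : ∃ b, b = Nat.log 2 (k / d) := ⟨_, rfl⟩
  have h1 : 2 ^ b ≤ k / d := by
    rw [hb]; exact Nat.pow_log_le_self 2 (by omega)
  have h2 : k / d < 2 ^ (b + 1) := by
    rw [hb]; exact Nat.lt_pow_succ_log_self (by norm_num) _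
  have h1' : 2 ^ b * d ≤ k := (Nat.le_div_iff_mul_le hd0).1 h1
  have h2' : k < 2 ^ (b + 1) * d := (Nat.div_lt_iff_lt_mul hd0).1 h2
  have hbA : b ≤ A + 1 := by
    have h3 : 2 ^ b * 2 ^ A < 2 ^ (A + 2) * 2 ^ A := by
      calc 2 ^ b * 2 ^ A ≤ 2 ^ b * d := Nat.mul_le_mul_left _ hd.le
        _ ≤ k := h1'
        _ = (6 * s) * 2 ^ A := by rw [hkd]; ring
        _ ≤ (3 * 2 ^ A) * 2 ^ A := Nat.mul_le_mul_right _ hs
        _ < 2 ^ (A + 2) * 2 ^ A := by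
            have : 2 ^ (A + 2) = 4 * 2 ^ A := by ring
            rw [this]
            exact Nat.mul_lt_mul_of_pos_right (by omega) hA
    have h4 : 2 ^ b < 2 ^ (A + 2) := lt_of_mul_lt_mul_right h3 (Nat.zero_le _)
    have := (Nat.pow_lt_pow_iff_right (by norm_num)).1 h4
    omega
  have hb1 : b ≠ 0 := by
    rintro rfl
    simp at h2
    omega
  -- a divisor c with c d ≤ k and 2 k ≤ 3 c d
  have key : ∃ c, c ∣ k ∧ c * d ≤ k ∧ 2 * k ≤ 3 * (c * d) := by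
    obtain ⟨b', rfl⟩ := Nat.exists_eq_succ_of_ne_zero hb1
    have e1 : 2 ^ (b'.succ) * d = 2 * (2 ^ b' * d) := by rw [Nat.succ_eq_add_one]; ring
    have e2 : 2 ^ (b'.succ + 1) * d = 4 * (2 ^ b' * d) := by rw [Nat.succ_eq_add_one]; ring
    rw [e1] at h1'
    rw [e2] at h2'
    by_cases h3 : 3 * (2 ^ b' * d) ≤ k
    · refine ⟨3 * 2 ^ b', ?_, ?_, ?_⟩
      · have : 2 ^ b' ∣ 2 ^ A := pow_dvd_pow 2 (by omega)
        obtain ⟨c, hc⟩ := this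
        exact ⟨2 * c * s, by rw [hkd, hc]; ring⟩
      · calc 3 * 2 ^ b' * d = 3 * (2 ^ b' * d) := by ring
          _ ≤ k := h3
      · have : 3 * (3 * 2 ^ b' * d) = 9 * (2 ^ b' * d) := by ring
        rw [this]; omega
    · refine ⟨2 ^ (b'.succ), ?_, ?_, ?_⟩
      · have : 2 ^ (b'.succ) ∣ 2 ^ (A + 1) := pow_dvd_pow 2 hbA
        obtain ⟨c, hc⟩ := this
        refine ⟨3 * c * s, ?_⟩
        have : k = 3 * 2 ^ (A + 1) * s := by rw [hkd]; ring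
        rw [this, hc]; ring
      · rw [e1]; exact h1'
      · rw [e1]; omega
  obtain ⟨c, ⟨N, hN⟩, hc1, hc2⟩ := key
  have hk0 : 0 < k := by omega
  have hc0 : 0 < c := by
    rcases Nat.eq_zero_or_pos c with h | h
    · subst h; simp at hN; omega
    · exact h
  refine ⟨N, ⟨c, by rw [hN]; ring⟩, ?_, ?_⟩
  · rw [hN] at hc1
    exact le_of_mul_le_mul_left hc1 hc0
  · rw [hN] at hc2
    have : c * (2 * N) ≤ c * (3 * d) := by
      calc c * (2 * N) = 2 * (c * N) := by ring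
        _ ≤ 3 * (c * d) := hc2
        _ = c * (3 * d) := by ring
    exact le_of_mul_le_mul_left this hc0

theorem p_k2 : S_k2 := by
  intro Q M0 hQ hM0
  refine ⟨48 * (M0 * Q) ^ 2, ?_⟩
  intro n hn lam hlam
  have hQr : (1 : ℝ) ≤ Q := by exact_mod_cast hQ
  have hMr : (1 : ℝ) ≤ M0 := by exact_mod_cast hM0
  have hQ0 : (0 : ℝ) < Q := by linarith
  have hM00 : (0 : ℝ) < M0 := by linarith
  have hnr : (48 : ℝ) * ((M0 : ℝ) * Q) ^ 2 ≤ n := by exact_mod_cast hn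
  obtain ⟨m, hm⟩ : ∃ m : ℝ, m = lam * n := ⟨_, rfl⟩
  have hn0 : (0 : ℝ) ≤ n := Nat.cast_nonneg n
  have hmn : (n : ℝ) ≤ m := by rw [hm]; nlinarith
  have hMQ : (1 : ℝ) ≤ (M0 : ℝ) * Q := by nlinarith
  have hMQ0 : (0 : ℝ) < (M0 : ℝ) * Q := by linarith
  have hx : (1 : ℝ) ≤ m / (6 * (M0 * Q)) := by
    rw [le_div_iff₀ (by positivity)]
    nlinarith
  obtain ⟨A, hA1, hA2⟩ := exists_nat_pow_near hx (by norm_num : (1 : ℝ) < 2)
  rw [le_div_iff₀ (by positivity)] at hA1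
  rw [div_lt_iff₀ (by positivity)] at hA2
  have hA0 : (0 : ℝ) < 2 ^ A := by positivity
  obtain ⟨w, hw⟩ : ∃ w : ℝ, w = 6 * 2 ^ A * M0 := ⟨_, rfl⟩
  have hw0 : 0 < w := by rw [hw]; positivity
  have hwQ : w * Q ≤ m := by rw [hw]; linarith
  have hw2 : m < w * (2 * Q) := by
    rw [hw]
    have : (2 : ℝ) ^ (A + 1) = 2 * 2 ^ A := by ring
    rw [this] at hA2
    linarith
  obtain ⟨t, ht⟩ : ∃ t : ℕ, t = ⌈m / w⌉₊ := ⟨_, rfl⟩
  have hm0 : 0 < m := by nlinarith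
  have ht1 : m / w ≤ t := by rw [ht]; exact Nat.le_ceil _
  have ht2 : (t : ℝ) < m / w + 1 := by
    rw [ht]; exact Nat.ceil_lt_add_one (by positivity)
  have ht3 : t ≤ 2 * Q := by
    rw [ht]
    apply Nat.ceil_le.2
    rw [div_le_iff₀ hw0]
    push_cast
    linarith
  have ht1' : m ≤ w * t := by
    rw [div_le_iff₀ hw0] at ht1; linarith
  have ht2' : w * t < m + w := by
    have h := mul_lt_mul_of_pos_left ht2 hw0
    have h' : w * (m / w + 1) = m + w := by field_simp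
    linarith
  have hAbig : 4 * (M0 * Q) ≤ 2 ^ A := by
    have h : (4 : ℝ) * (M0 * Q) < 2 ^ A := by
      have h1 : (48 : ℝ) * ((M0 : ℝ) * Q) ^ 2 < 2 ^ (A + 1) * (6 * (M0 * Q)) := by
        linarith
      have h2 : (2 : ℝ) ^ (A + 1) = 2 * 2 ^ A := by ring
      rw [h2] at h1
      by_contra hcon
      push Not at hcon
      nlinarith
    have h' : ((4 * (M0 * Q) : ℕ) : ℝ) < ((2 ^ A : ℕ) : ℝ) := by push_cast; exact h
    exact le_of_lt (by exact_mod_cast h')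
  refine ⟨6 * 2 ^ A * (M0 * t), ?_, ?_, ?_, ?_, ?_⟩
  · exact ⟨6 * 2 ^ A * t, by ring⟩
  · exact ⟨3 * 2 ^ A * (M0 * t), by ring⟩
  · rw [← hm]
    push_cast
    calc m ≤ w * t := ht1'
      _ = _ := by rw [hw]; ring
  · push_cast
    have h1 : w ≤ m / Q := by
      rw [le_div_iff₀ hQ0]; exact hwQ
    calc (6 : ℝ) * 2 ^ A * (M0 * t) = w * t := by rw [hw]; ring
      _ ≤ m + m / Q := by linarith
      _ = lam * (1 + 1 / Q) * n := by rw [hm]; field_simp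
  · intro d hd2 hdk
    by_cases hdA : d ≤ 2 ^ A
    · exact k2_small A (M0 * t) d hd2 hdA
    · push Not at hdA
      refine k2_large A (M0 * t) d hdA hdk ?_
      calc 6 * (M0 * t) ≤ 6 * (M0 * (2 * Q)) := by gcongr
        _ = 3 * (4 * (M0 * Q)) := by ring
        _ ≤ 3 * 2 ^ A := by gcongr

end Pool.Agent.Lib.MP_7c15de_co.TH
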