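import Pool.Agent.Lib.MP_7c15de_co.TH.Stm

/-!
# MP_7c15de_co, better hosts: the labelling of the class `Y`
-/

set_option autoImplicit false

namespace Pool.Agent.Lib.MP_7c15de_co.TH

open Finset Pool.Agent.Lib.MP_7c15de_co

theorem p_lab : S_lab := by
  classical
  intro V _ _ μ par ML MS ch N g F f C J M0 B deg sc lab xs idx hdisj hch huniq hNpos hgloc hginj
    hG hxs hxsurj hxinj hxmono hidx hidxinj
  obtain ⟨off, hoff1, hoff2⟩ := offsets ML N
  set S0 : ℕ := ∑ z ∈ ML, N z with hS0
  obtain ⟨u, hu⟩ := rec_exists μ (fun y w =>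
    if y ∈ F then f y
    else if h : ∃ x ∈ ML, y ∈ ch x then
      (off h.choose : ℤ) + (g h.choose w y - off h.choose) % (N h.choose : ℤ)
    else if h : ∃ s < MS.card, y ∈ ch (xs s) then
      (S0 : ℤ) + lab h.choose (fun t => w (par (xs t)) - S0) (idx y)
    else 0)
  have memL : ∀ x ∈ ML, x ∈ ML ∪ MS := fun x hx => mem_union_left _ hx
  have memR : ∀ x ∈ MS, x ∈ ML ∪ MS := fun x hx => mem_union_right _ hx
  set ρ : ℕ → ℤ := fun t => u (par (xs t)) - S0 with hρ
  have huF : ∀ y ∈ F, u y = f y := by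
    intro y hy
    rw [hu]
    simp only [if_pos hy]
  have huL : ∀ x ∈ ML, ∀ c ∈ ch x, u c = off x + (g x u c - off x) % (N x : ℤ) := by
    intro x hx c hc
    have hcF := (hch x (memL x hx) c hc).1
    have hex : ∃ x ∈ ML, c ∈ ch x := ⟨x, hx, hc⟩
    have hcx : hex.choose = x :=
      huniq _ (memL _ hex.choose_spec.1) x (memL x hx) c hex.choose_spec.2 hc
    rw [hu]
    simp only [if_neg hcF, dif_pos hex, hcx]
    rw [hgloc x hx c hc (fun z => if μ z < μ c then u z else 0) u]
    intro z hz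
    simp only [if_pos hz]
  have huS : ∀ s < MS.card, ∀ c ∈ ch (xs s), u c = S0 + lab s ρ (idx c) := by
    intro s hs c hc
    have hx := (hxs s hs).1
    have hcF := (hch _ (memR _ hx) c hc).1
    have hcL : ¬ ∃ x ∈ ML, c ∈ ch x := by
      rintro ⟨x, hxL, hcx⟩
      have he := huniq x (memL x hxL) _ (memR _ hx) c hcx hc
      rw [he] at hxL
      exact Finset.disjoint_left.1 hdisj hxL hx
    have hex : ∃ s < MS.card, c ∈ ch (xs s) := ⟨s, hs, hc⟩
    have hcx : hex.choose = s := by
      apply hxinj _ hex.choose_spec.1 s hs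
      exact huniq _ (memR _ (hxs _ hex.choose_spec.1).1) _ (memR _ hx) c hex.choose_spec.2 hc
    rw [hu]
    simp only [if_neg hcF, dif_neg hcL, dif_pos hex, hcx]
    congr 1
    rw [hG.nonant s _ ρ]
    intro t ht
    have h1 : μ (par (xs t)) ≤ μ (par (xs s)) := hxmono t s ht hs
    have h2 := (hch _ (memR _ hx) c hc).2
    simp only [hρ, if_pos (lt_of_le_of_lt h1 h2)]
  have hrL : ∀ x ∈ ML, ∀ c ∈ ch x, (off x : ℤ) ≤ u c ∧ u c < off x + N x := by
    intro x hx c hc
    have h0 := hNpos x hx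
    have h1 := Int.emod_nonneg (g x u c - off x) (by omega : (N x : ℤ) ≠ 0)
    have h2 := Int.emod_lt_of_pos (g x u c - off x) (by omega : (0 : ℤ) < N x)
    rw [huL x hx c hc]
    omega
  have hidx' : ∀ s < MS.card, ∀ c ∈ ch (xs s), 1 ≤ idx c ∧ idx c < deg s := by
    intro s hs c hc
    have h1 := hidx _ (hxs s hs).1 c hc
    have h2 := (hxs s hs).2
    omega
  have hrS : ∀ s < MS.card, ∀ c ∈ ch (xs s), (S0 : ℤ) ≤ u c ∧ u c < S0 + ((M0 * B : ℕ) : ℤ) := by
    intro s hs c hc
    have h1 := hidx' s hs c hc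
    have h2 := hG.bnd s hs ρ (idx c) h1.1 h1.2
    rw [huS s hs c hc]
    omega
  have hmodL : ∀ x ∈ ML, ∀ c ∈ ch x, u c ≡ g x u c [ZMOD N x] := by
    intro x hx c hc
    rw [huL x hx c hc]
    have h1 : (g x u c - off x) % (N x : ℤ) ≡ g x u c - off x [ZMOD N x] := Int.mod_modEq _ _
    have h2 := h1.add_left (off x : ℤ)
    have e1 : (off x : ℤ) + (g x u c - off x) = g x u c := by ring
    rwa [e1] at h2
  have hoffS : ∀ x ∈ ML, (off x : ℤ) + N x ≤ S0 := by
    intro x hx
    have := hoff1 x hx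
    omega
  refine ⟨u, ρ, huF, hmodL, ?_, ?_, ?_⟩
  · intro s hs c hc
    have h1 := hidx' s hs c hc
    have h2 := hG.cong s hs ρ (idx c) h1.1 h1.2
    rw [huS s hs c hc]
    have h3 := h2.add_left (S0 : ℤ)
    have e1 : (S0 : ℤ) + (ρ s + idx c * (deg s : ℤ) ^ sc s ρ) =
        u (par (xs s)) + idx c * (deg s : ℤ) ^ sc s ρ := by
      simp only [hρ]
      ring
    rwa [e1] at h3
  · intro x hx c hc
    rw [mem_union] at hx
    push_cast
    rcases hx with hx | hx
    · have h1 := hrL x hx c hc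
      have h2 := hoffS x hx
      have h3 : (0 : ℤ) ≤ (M0 : ℤ) * B := by positivity
      constructor <;> omega
    · obtain ⟨s, hs, rfl⟩ := hxsurj x hx
      have h1 := hrS s hs c hc
      push_cast at h1
      constructor <;> omega
  · intro x hx x' hx' c hc c' hc' hcc
    rw [mem_union] at hx hx'
    rcases hx with hx | hx <;> rcases hx' with hx' | hx'
    · have h1 := hrL x hx c hc
      have h1' := hrL x' hx' c' hc'
      by_cases he : x = x'
      · subst he
        have h2 : g x u c ≡ g x u c' [ZMOD N x] := by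
          have h3 := (hmodL x hx c hc).symm
          rw [hcc] at h3
          exact h3.trans (hmodL x hx c' hc')
        exact hginj x hx u c hc c' hc' h2
      · rcases hoff2 x hx x' hx' he with h | h <;> omega
    · obtain ⟨s, hs, rfl⟩ := hxsurj x' hx'
      have h1 := hrL x hx c hc
      have h2 := hoffS x hx
      have h3 := hrS s hs c' hc'
      omega
    · obtain ⟨s, hs, rfl⟩ := hxsurj x hx
      have h1 := hrL x' hx' c' hc'
      have h2 := hoffS x' hx'
      have h3 := hrS s hs c hc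
      omega
    · obtain ⟨s, hs, rfl⟩ := hxsurj x hx
      obtain ⟨s', hs', rfl⟩ := hxsurj x' hx'
      have h1 := hidx' s hs c hc
      have h2 := hidx' s' hs' c' hc'
      rw [huS s hs c hc, huS s' hs' c' hc'] at hcc
      have h3 : lab s ρ (idx c) = lab s' ρ (idx c') := by omega
      obtain ⟨h4, h5⟩ := hG.inj ρ s hs s' hs' (idx c) (idx c') h1.1 h1.2 h2.1 h2.2 h3
      subst h4
      exact hidxinj _ (hxs s hs).1 c hc c' hc' h5

end Pool.Agent.Lib.MP_7c15de_co.TH
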