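import Pool.Agent.Lib.MP_7c15de_co.TH.Stm

/-!
# MP_7c15de_co, [TH locF]: a leaf alone, and sets of leaves
-/

set_option autoImplicit false

namespace Pool.Agent.Lib.MP_7c15de_co.TH

open Finset Pool.Agent.Lib.MP_7c15de_co

theorem p_locF (hdg : S_dg) (hcov : S_cov) : S_locF := by
  intro V _ _ T k u
  have h1 : ∀ x : V, dg T x = 1 → Loc T k u {x} := by
    intro x hx
    refine ⟨?_, fun _ => 0, ?_, ?_⟩
    · rw [Finset.sum_singleton, hx]
      exact one_dvd _
    · intro y hy y' hy' _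
      rw [Finset.mem_singleton.1 hy, Finset.mem_singleton.1 hy']
    · intro y hy y' hy' z z' hz hz' _
      rw [Finset.mem_singleton] at hy hy'
      subst hy
      subst hy'
      obtain ⟨w, hw⟩ := (hdg V T).2.2.2.2.1 _ hx
      exact ⟨rfl, by rw [(hw z).1 hz, (hw z').1 hz']⟩
  refine ⟨h1, ?_⟩
  intro A hA
  obtain ⟨_, c2, _, c4, _⟩ := hcov V T k u
  have h := c4 V A (fun x => {x}) (fun x hx => c2 _ (h1 x (hA x hx))) (by
    intro x _ y _ z hz hz'
    rw [← Finset.mem_singleton.1 hz, ← Finset.mem_singleton.1 hz'])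
  rwa [Finset.biUnion_singleton_eq_self] at h

end Pool.Agent.Lib.MP_7c15de_co.TH
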