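import Pool.Agent.Lib.MP_7c15de_co.TH.Stm

/-!
# MP_7c15de_co, better hosts: [locH] the big block
-/

set_option autoImplicit false

namespace Pool.Agent.Lib.MP_7c15de_co.TH

open Finset Pool.Agent.Lib.MP_7c15de_co

private theorem locH_eq {k a b : ℤ} (h : a ≡ b [ZMOD k]) (ha : 0 ≤ a) (ha' : a < k) (hb : 0 ≤ b)
    (hb' : b < k) : a = b := by
  unfold Int.ModEq at h
  rwa [Int.emod_eq_of_lt ha ha', Int.emod_eq_of_lt hb hb'] at h

private theorem locH_small {k w d d' : ℤ} (h : d ≡ d' [ZMOD k]) (hd : |d| < w) (hd' : |d'| < w)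
    (hw : 2 * w ≤ k) : d = d' := by
  rw [abs_lt] at hd hd'
  have h1 : d' - d = 0 := by
    apply Int.eq_zero_of_abs_lt_dvd h.dvd
    rw [abs_lt]
    constructor <;> omega
  omega

/-- The choice of the coordinates of the fillers. -/
private theorem locH_choice (hZ : S_Z) {V : Type} [DecidableEq V] (k w : ℕ)
    (u : V → ℤ) (E PH Bd : Finset V) (pr : V → V) (a0 : V → ℤ) (CE F : Finset ℤ)
    (hk : 0 < k) (h2w : 2 * w ≤ k) (hE1 : E.card ≤ 1)
    (hCEb : ∀ δ ∈ CE, 0 ≤ δ ∧ δ < (w : ℤ)) (hcard : CE.card + PH.card + 1 = w)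
    (hbad : ∀ r ∈ PH, r ∉ Bd → ∀ δ : ℤ, 0 ≤ δ → δ < w → δ ∉ CE →
      ¬ δ ≡ u (pr r) [ZMOD k] ∧ ∀ x ∈ E, ¬ δ ≡ u (pr r) - a0 x [ZMOD k])
    (hF : ∀ δ ∈ F, 0 ≤ δ ∧ δ < (w : ℤ) ∧ δ ∉ CE) (hcnt : 2 * Bd.card + F.card ≤ PH.card) :
    ∃ (z : ℤ) (δ : V → ℤ), 0 ≤ z ∧ z < w ∧ z ∉ CE ∧ z ∉ F ∧
      (∀ r ∈ PH, 0 ≤ δ r ∧ δ r < w ∧ δ r ∉ CE ∧ δ r ≠ z ∧ ¬ δ r ≡ u (pr r) [ZMOD k] ∧
        ∀ x ∈ E, ¬ δ r ≡ u (pr r) - a0 x [ZMOD k]) ∧
      ∀ r ∈ PH, ∀ r' ∈ PH, r ≠ r' → δ r ≠ δ r' ∧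
        ¬ δ r' - δ r ≡ u (pr r') - u (pr r) [ZMOD k] := by
  classical
  have hwk : (w : ℤ) ≤ k := by
    have : w ≤ k := by omega
    exact_mod_cast this
  have h2w' : 2 * (w : ℤ) ≤ k := by exact_mod_cast h2w
  let e := PH.equivFin
  let r : Fin PH.card → V := fun i => ((e.symm i : PH) : V)
  have hr : ∀ i, r i ∈ PH := fun i => (e.symm i).2
  have hrinj : Function.Injective r := fun i j hij => e.symm.injective (Subtype.ext hij)
  let W : Finset ℤ := Finset.Ico (0 : ℤ) w \ CE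
  have hWmem : ∀ δ, δ ∈ W ↔ (0 ≤ δ ∧ δ < (w : ℤ)) ∧ δ ∉ CE := by
    intro δ
    simp only [W, Finset.mem_sdiff, Finset.mem_Ico]
  have hsub : CE ⊆ Finset.Ico (0 : ℤ) w := fun δ hδ => Finset.mem_Ico.2 (hCEb δ hδ)
  have hWc : W.card = PH.card + 1 := by
    have h1 : W.card = (Finset.Ico (0 : ℤ) w).card - CE.card := Finset.card_sdiff_of_subset hsub
    rw [h1, Int.card_Ico]
    simp
    omega
  let Z : Fin PH.card → Finset ℤ := fun i =>
    insert (u (pr (r i)) % (k : ℤ)) (E.image (fun x => (u (pr (r i)) - a0 x) % (k : ℤ)))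
  have hZmem : ∀ i, ∀ δ : ℤ, 0 ≤ δ → δ < w → δ ∉ Z i →
      ¬ δ ≡ u (pr (r i)) [ZMOD k] ∧ ∀ x ∈ E, ¬ δ ≡ u (pr (r i)) - a0 x [ZMOD k] := by
    intro i δ h0 h1 hn
    have h1' : δ < k := lt_of_lt_of_le h1 hwk
    constructor
    · intro hc
      apply hn
      apply Finset.mem_insert.2
      left
      rw [← Int.emod_eq_of_lt h0 h1']
      exact hc
    · intro x hx hc
      apply hn
      apply Finset.mem_insert.2
      right
      apply Finset.mem_image.2
      refine ⟨x, hx, ?_⟩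
      rw [← Int.emod_eq_of_lt h0 h1']
      exact hc.symm
  have hZc : ∀ i, (Z i).card ≤ 2 := by
    intro i
    have h1 : (Z i).card ≤ (E.image (fun x => (u (pr (r i)) - a0 x) % (k : ℤ))).card + 1 :=
      Finset.card_insert_le _ _
    have h2 : (E.image (fun x => (u (pr (r i)) - a0 x) % (k : ℤ))).card ≤ E.card :=
      Finset.card_image_le
    omega
  let Bd' : Finset (Fin PH.card) := Finset.univ.filter (fun i => r i ∈ Bd)
  have hBd' : Bd'.card ≤ Bd.card := by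
    apply Finset.card_le_card_of_injOn r
    · intro i hi
      exact (Finset.mem_filter.1 hi).2
    · exact hrinj.injOn
  have hdis : ∀ i, i ∉ Bd' → Disjoint (Z i) W := by
    intro i hi
    have hi' : r i ∉ Bd := fun hc => hi (Finset.mem_filter.2 ⟨Finset.mem_univ _, hc⟩)
    rw [Finset.disjoint_left]
    intro δ hδ hW
    obtain ⟨⟨h0, h1⟩, hn⟩ := (hWmem δ).1 hW
    obtain ⟨b1, b2⟩ := hbad (r i) (hr i) hi' δ h0 h1 hn
    rcases Finset.mem_insert.1 hδ with h | h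
    · exact b1 (by rw [h]; exact Int.mod_modEq _ _)
    · obtain ⟨x, hx, h⟩ := Finset.mem_image.1 h
      exact b2 x hx (by rw [← h]; exact Int.mod_modEq _ _)
  have hc : ∀ i j : Fin PH.card, ∃ c : ℤ, ∀ d : ℤ, |d| < w →
      d ≡ u (pr (r j)) - u (pr (r i)) [ZMOD k] → d = c := by
    intro i j
    by_cases h : ∃ c : ℤ, |c| < w ∧ c ≡ u (pr (r j)) - u (pr (r i)) [ZMOD k]
    · obtain ⟨c, hc, hc'⟩ := h
      exact ⟨c, fun d hd hd' => locH_small (hd'.trans hc'.symm) hd hc h2w'⟩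
    · exact ⟨0, fun d hd hd' => absurd ⟨d, hd, hd'⟩ h⟩
  choose c hc using hc
  obtain ⟨δ, hδ, hδ2, hδF⟩ := hZ PH.card W F Z Bd' c hWc
    (fun f hf => (hWmem f).2 ⟨⟨(hF f hf).1, (hF f hf).2.1⟩, (hF f hf).2.2⟩) hZc hdis (by omega)
  have hδne : ∀ i j, i ≠ j → δ i ≠ δ j := by
    intro i j hij
    rcases lt_or_gt_of_ne hij with h | h
    · exact (hδ2 i j h).1.symm
    · exact (hδ2 j i h).1
  have hdiff : ∀ i j, i ≠ j → ¬ δ j - δ i ≡ u (pr (r j)) - u (pr (r i)) [ZMOD k] := by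
    have key : ∀ i j, i < j → ¬ δ j - δ i ≡ u (pr (r j)) - u (pr (r i)) [ZMOD k] := by
      intro i j hij hcon
      apply (hδ2 i j hij).2
      apply hc i j _ _ hcon
      obtain ⟨⟨a1, a2⟩, _⟩ := (hWmem _).1 (hδ i).1
      obtain ⟨⟨b1, b2⟩, _⟩ := (hWmem _).1 (hδ j).1
      rw [abs_lt]
      constructor <;> omega
    intro i j hij hcon
    rcases lt_or_gt_of_ne hij with h | h
    · exact key i j h hcon
    · apply key j i h
      have := hcon.neg
      rwa [neg_sub, neg_sub] at this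
  obtain ⟨z, hzW, hzn⟩ : ∃ z ∈ W, z ∉ Finset.univ.image δ := by
    apply Finset.exists_mem_notMem_of_card_lt_card
    calc (Finset.univ.image δ).card ≤ (Finset.univ : Finset (Fin PH.card)).card :=
          Finset.card_image_le
      _ = PH.card := by rw [Finset.card_univ, Fintype.card_fin]
      _ < W.card := by omega
  have hzn' : ∀ i, δ i ≠ z := fun i hi => hzn (Finset.mem_image.2 ⟨i, Finset.mem_univ _, hi⟩)
  obtain ⟨⟨hz0, hz1⟩, hzC⟩ := (hWmem z).1 hzW
  let δ' : V → ℤ := fun x => if hx : x ∈ PH then δ (e ⟨x, hx⟩) else 0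
  have hδ' : ∀ x (hx : x ∈ PH), δ' x = δ (e ⟨x, hx⟩) := fun x hx => dif_pos hx
  have hre : ∀ x (hx : x ∈ PH), r (e ⟨x, hx⟩) = x := by
    intro x hx
    show ((e.symm (e ⟨x, hx⟩) : PH) : V) = x
    rw [Equiv.symm_apply_apply]
  refine ⟨z, δ', hz0, hz1, hzC, ?_, ?_, ?_⟩
  · intro hzF
    obtain ⟨i, hi⟩ := hδF z hzF
    exact hzn' i hi
  · intro x hx
    rw [hδ' x hx]
    obtain ⟨⟨a1, a2⟩, a3⟩ := (hWmem _).1 (hδ (e ⟨x, hx⟩)).1
    obtain ⟨b1, b2⟩ := hZmem _ _ a1 a2 (hδ (e ⟨x, hx⟩)).2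
    rw [hre] at b1 b2
    exact ⟨a1, a2, a3, hzn' _, b1, b2⟩
  · intro x hx x' hx' hne
    rw [hδ' x hx, hδ' x' hx']
    have hne' : e ⟨x, hx⟩ ≠ e ⟨x', hx'⟩ := by
      intro hcon
      apply hne
      have := e.injective hcon
      exact congrArg Subtype.val this
    refine ⟨hδne _ _ hne', ?_⟩
    have := hdiff _ _ hne'
    rwa [hre, hre] at this

theorem p_locH (hdg : S_dg) (hZ : S_Z) : S_locH := by
  intro V _ _ T k w u h lf E PH Bd pr a0 CE F hk h2w hE1 hhE hhP hEP hlf hnlf hu huinj hdw ha0 hCE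
    hEinj hCEc hCEb hPH hsum _ hbad hF hcnt
  obtain ⟨-, -, -, hdg4, -, -⟩ := hdg V T
  obtain ⟨z, δ, hz0, hz1, hzC, hzF, hδ, hδ2⟩ := locH_choice hZ k w u E PH Bd pr a0 CE F hk h2w hE1
    hCEb (by omega) hbad hF hcnt
  refine ⟨z, hz0, hz1, hzC, hzF, ?_⟩
  have hwk : (w : ℤ) ≤ k := by
    have : w ≤ k := by omega
    exact_mod_cast this
  have hsum' : ∑ x ∈ insert h (E ∪ PH), dg T x = k := by
    rw [Finset.sum_insert (by simp [hhE, hhP]), Finset.sum_union hEP]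
    have h1 : ∑ x ∈ PH, dg T x = PH.card := by
      rw [Finset.card_eq_sum_ones]
      apply Finset.sum_congr rfl
      intro r hr
      rw [hdg4 r {pr r} (by intro y; rw [Finset.mem_singleton]; exact hPH r hr y)]
      exact Finset.card_singleton _
    rw [h1]
    omega
  have hEeq : ∀ x ∈ E, ∀ x' ∈ E, x = x' := by
    rw [Finset.card_le_one] at hE1
    exact hE1
  have hEP' : ∀ x ∈ E, x ∉ PH := fun x hx hx' => (Finset.disjoint_left.1 hEP) hx hx'
  unfold Loc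
  rw [hsum']
  refine ⟨dvd_rfl, fun x => if x = h then 0 else if x ∈ E then a0 x else u (pr x) - δ x, ?_, ?_⟩
  · have aE : ∀ x ∈ E, (if x = h then (0 : ℤ) else if x ∈ E then a0 x else u (pr x) - δ x) =
        a0 x := by
      intro x hx
      rw [if_neg (by rintro rfl; exact hhE hx), if_pos hx]
    have aP : ∀ x ∈ PH, (if x = h then (0 : ℤ) else if x ∈ E then a0 x else u (pr x) - δ x) =
        u (pr x) - δ x := by
      intro x hx
      rw [if_neg (by rintro rfl; exact hhP hx), if_neg (fun hc => hEP' x hc hx)]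
    have c1 : ∀ x ∈ E, ¬ (0 : ℤ) ≡ a0 x [ZMOD k] := fun x hx hc => ha0 x hx hc.symm
    have c2 : ∀ r ∈ PH, ¬ (0 : ℤ) ≡ u (pr r) - δ r [ZMOD k] := by
      intro r hr hc
      apply (hδ r hr).2.2.2.2.1
      have := hc.add_right (δ r)
      rwa [zero_add, sub_add_cancel] at this
    have c3 : ∀ x ∈ E, ∀ r ∈ PH, ¬ a0 x ≡ u (pr r) - δ r [ZMOD k] := by
      intro x hx r hr hc
      apply (hδ r hr).2.2.2.2.2 x hx
      have := hc.add_right (δ r - a0 x)
      have e1 : a0 x + (δ r - a0 x) = δ r := by ring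
      have e2 : u (pr r) - δ r + (δ r - a0 x) = u (pr r) - a0 x := by ring
      rwa [e1, e2] at this
    intro x hx x' hx' hc
    simp only [Finset.mem_insert, Finset.mem_union] at hx hx'
    rcases hx with rfl | hx | hx <;> rcases hx' with rfl | hx' | hx'
    · rfl
    · simp only [aE x' hx'] at hc
      exact absurd hc (c1 x' hx')
    · simp only [aP x' hx'] at hc
      exact absurd hc (c2 x' hx')
    · simp only [aE x hx] at hc
      exact absurd hc.symm (c1 x hx)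
    · exact hEeq x hx x' hx'
    · simp only [aE x hx, aP x' hx'] at hc
      exact absurd hc (c3 x hx x' hx')
    · simp only [aP x hx] at hc
      exact absurd hc.symm (c2 x hx)
    · simp only [aP x hx, aE x' hx'] at hc
      exact absurd hc.symm (c3 x' hx' x hx)
    · simp only [aP x hx, aP x' hx'] at hc
      by_contra hne
      apply (hδ2 x hx x' hx' hne).2
      have := hc.add_right (δ x' + δ x - u (pr x))
      have e1 : u (pr x) - δ x + (δ x' + δ x - u (pr x)) = δ x' := by ring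
      have e2 : u (pr x') - δ x' + (δ x' + δ x - u (pr x)) = u (pr x') - u (pr x) + δ x := by ring
      rw [e1, e2] at this
      have := this.sub_right (δ x)
      rwa [add_sub_cancel_right] at this
  · have hco : ∀ x ∈ insert h (E ∪ PH), ∀ y, T.Adj x y → ∃ κ : ℤ, 0 ≤ κ ∧ κ < k ∧
        κ ≡ Function.update u lf z y -
          (if x = h then (0 : ℤ) else if x ∈ E then a0 x else u (pr x) - δ x) [ZMOD k] ∧
        ((x = h ∧ y = lf ∧ κ = z) ∨ (x = h ∧ y ≠ lf ∧ κ = u y ∧ (w : ℤ) ≤ κ) ∨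
          (x ∈ E ∧ κ ∈ CE ∧ y ≠ lf) ∨ (x ∈ PH ∧ κ = δ x ∧ y = pr x)) := by
      intro x hx y hxy
      simp only [Finset.mem_insert, Finset.mem_union] at hx
      rcases hx with rfl | hx | hx
      · by_cases hy : y = lf
        · refine ⟨z, hz0, lt_of_lt_of_le hz1 hwk, ?_, Or.inl ⟨rfl, hy, rfl⟩⟩
          rw [hy, Function.update_self, if_pos rfl, sub_zero]
        · obtain ⟨a1, a2⟩ := hu y hxy hy
          refine ⟨u y, by omega, a2, ?_, Or.inr (Or.inl ⟨rfl, hy, rfl, a1⟩)⟩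
          rw [Function.update_of_ne hy, if_pos rfl, sub_zero]
      · have hy : y ≠ lf := by
          rintro rfl
          exact hnlf x (Finset.mem_union_left _ hx) hxy
        obtain ⟨κ, hκ, hκ'⟩ := hCE x hx y hxy
        refine ⟨κ, (hCEb κ hκ).1, lt_of_lt_of_le (hCEb κ hκ).2 hwk, ?_,
          Or.inr (Or.inr (Or.inl ⟨hx, hκ, hy⟩))⟩
        rw [Function.update_of_ne hy, if_neg (by rintro rfl; exact hhE hx), if_pos hx]
        exact hκ'
      · have hy : y ≠ lf := by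
          rintro rfl
          exact hnlf x (Finset.mem_union_right _ hx) hxy
        have hy' : y = pr x := (hPH x hx y).1 hxy
        obtain ⟨a1, a2, a3, a4, a5, a6⟩ := hδ x hx
        refine ⟨δ x, a1, lt_of_lt_of_le a2 hwk, ?_, Or.inr (Or.inr (Or.inr ⟨hx, rfl, hy'⟩))⟩
        rw [Function.update_of_ne hy, if_neg (by rintro rfl; exact hhP hx),
          if_neg (fun hc => hEP' x hc hx), hy', sub_sub_cancel]
    intro x hx x' hx' y y' hxy hxy' hc
    obtain ⟨κ, k0, k1, kc, hκ⟩ := hco x hx y hxy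
    obtain ⟨κ', k0', k1', kc', hκ'⟩ := hco x' hx' y' hxy'
    have hκκ : κ = κ' := by
      apply locH_eq _ k0 k1 k0' k1'
      refine kc.trans (Int.ModEq.trans ?_ kc'.symm)
      have := hc.neg
      rwa [neg_sub, neg_sub] at this
    rcases hκ with ⟨b1, b2, b3⟩ | ⟨b1, b2, b3, b4⟩ | ⟨b1, b2, b3⟩ | ⟨b1, b2, b3⟩
    · rcases hκ' with ⟨c1, c2, c3⟩ | ⟨c1, c2, c3, c4⟩ | ⟨c1, c2, c3⟩ | ⟨c1, c2, c3⟩
      · exact ⟨b1.trans c1.symm, b2.trans c2.symm⟩
      · omega
      · exact absurd c2 (by rw [← hκκ, b3]; exact hzC)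
      · exact absurd (c2.symm.trans (hκκ.symm.trans b3)) (hδ x' c1).2.2.2.1
    · rcases hκ' with ⟨c1, c2, c3⟩ | ⟨c1, c2, c3, c4⟩ | ⟨c1, c2, c3⟩ | ⟨c1, c2, c3⟩
      · omega
      · subst b1
        subst c1
        exact ⟨rfl, huinj y y' hxy hxy' b2 c2 (by omega)⟩
      · have := (hCEb κ' c2).2
        omega
      · have := (hδ x' c1).2.1
        omega
    · rcases hκ' with ⟨c1, c2, c3⟩ | ⟨c1, c2, c3, c4⟩ | ⟨c1, c2, c3⟩ | ⟨c1, c2, c3⟩
      · exact absurd b2 (by rw [hκκ, c3]; exact hzC)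
      · have := (hCEb κ b2).2
        omega
      · have hxx : x = x' := hEeq x b1 x' c1
        subst hxx
        refine ⟨rfl, hEinj x b1 y y' hxy hxy' ?_⟩
        rw [Function.update_of_ne b3, Function.update_of_ne c3] at hc
        have h3 := (Int.ModEq.refl (n := (k : ℤ))
          ((fun x => if x = h then (0 : ℤ) else if x ∈ E then a0 x else u (pr x) - δ x) x)).sub hc
        rwa [sub_sub_cancel, sub_sub_cancel] at h3
      · exact absurd b2 (by rw [hκκ, c2]; exact (hδ x' c1).2.2.1)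
    · rcases hκ' with ⟨c1, c2, c3⟩ | ⟨c1, c2, c3, c4⟩ | ⟨c1, c2, c3⟩ | ⟨c1, c2, c3⟩
      · exact absurd (b2.symm.trans (hκκ.trans c3)) (hδ x b1).2.2.2.1
      · have := (hδ x b1).2.1
        omega
      · exact absurd c2 (by rw [← hκκ, b2]; exact (hδ x b1).2.2.1)
      · have hxx : x = x' := by
          by_contra hne
          exact (hδ2 x b1 x' c1 hne).1 (b2.symm.trans (hκκ.trans c2))
        refine ⟨hxx, ?_⟩
        rw [b3, c3, hxx]

end Pool.Agent.Lib.MP_7c15de_co.TH
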