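import Pool.Agent.Lib.MP_7c15de_co.TH.Stm

/-!
# MP_7c15de_co, better hosts: piece locL
-/

set_option autoImplicit false

namespace Pool.Agent.Lib.MP_7c15de_co.TH

open Finset Pool.Agent.Lib.MP_7c15de_co

private lemma small_eq (N : ℕ) (s t : ℕ) (hs : s < N) (ht : t < N) (w : ℤ)
    (h : w + s ≡ w + t [ZMOD (N : ℤ)]) : s = t := by
  have h1 : (s : ℤ) ≡ t [ZMOD (N : ℤ)] := Int.ModEq.add_left_cancel' w h
  have h2 : s ≡ t [MOD N] := (Int.natCast_modEq_iff).1 h1
  exact Nat.ModEq.eq_of_lt_of_lt h2 hs ht

theorem p_locL (hdg : S_dg) : S_locL := by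
  intro V _ _ T k x yp l ch P num pr hyp hadj hl hnum hnuminj hxP hPadj hPc hk
  obtain ⟨-, -, -, hdeg, -, -⟩ := hdg V T
  have hch : 0 < ch.card := Finset.card_pos.2 ⟨l, hl⟩
  have hB := fun (w : ℤ) (v : V → ℤ) => block (ch.card + 1 + P.card) (ch.card + 1) P.card (by omega) rfl
    (by omega) P rfl w v
  choose ρ a h1 h2 h3 h4 h5 h6 using hB
  have hcut : ∀ v v' : V → ℤ, (∀ r ∈ P, v r = v' r) →
      (fun r => if r ∈ P then v r else 0) = (fun r => if r ∈ P then v' r else 0) := by
    intro v v' h
    funext r
    by_cases hr : r ∈ P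
    · simp only [hr, if_true]
      exact h r hr
    · simp only [hr, if_false]
  refine ⟨fun w v => ρ w (fun r => if r ∈ P then v r else 0), ?_, ?_, ?_⟩
  · intro w v v' h
    show ρ w _ = ρ w _
    rw [hcut v v' h]
  · intro w v i hi
    exact h1 w _ i (by omega)
  · intro u hul huc
    have hsum : ∑ z ∈ insert x P, dg T z = ch.card + 1 + P.card := by
      rw [Finset.sum_insert hxP]
      have e1 : dg T x = ch.card + 1 := by
        rw [hdeg x (insert yp ch) (fun y => by rw [hadj y, Finset.mem_insert]),
          Finset.card_insert_of_notMem hyp]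
      have e2 : ∑ r ∈ P, dg T r = P.card := by
        rw [Finset.sum_congr rfl (g := fun _ => 1) (fun r hr => by
          rw [hdeg r {pr r} (fun y => by rw [hPadj r hr y, Finset.mem_singleton]),
            Finset.card_singleton])]
        simp
      rw [e1, e2]
    set N : ℕ := ch.card + 1 + P.card with hN
    set v0 : V → ℤ := fun r => if r ∈ P then u (pr r) else 0 with hv0
    have hv0' : ∀ r ∈ P, v0 r = u (pr r) := fun r hr => by
      rw [hv0]
      simp only [hr, if_true]
    have hul' : u l ≡ ρ (u yp) v0 [ZMOD (N : ℤ)] := hul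
    -- the neighbours of `x`
    have key : ∀ y, T.Adj x y → (y = l ∧ u y ≡ ρ (u yp) v0 [ZMOD (N : ℤ)]) ∨
        (∃ i : ℕ, i < ch.card ∧ u y ≡ u yp + i [ZMOD (N : ℤ)] ∧
          ((y = yp ∧ i = 0) ∨ (y ∈ ch ∧ y ≠ l ∧ i = num y ∧ 1 ≤ i))) := by
      intro y hy
      rcases (hadj y).1 hy with rfl | hc
      · right
        exact ⟨0, hch, by simp, Or.inl ⟨rfl, rfl⟩⟩
      · by_cases hyl : y = l
        · left
          exact ⟨hyl, by rw [hyl]; exact hul'⟩
        · right
          have hh := hnum y hc hyl
          exact ⟨num y, by omega, huc y hc hyl, Or.inr ⟨hc, hyl, rfl, hh.1⟩⟩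
    refine ⟨by rw [hsum]; exact hk, fun z => if z = x then 0 else a (u yp) v0 z, ?_, ?_⟩
    · rw [hsum]
      intro z hz z' hz' hcong
      simp only at hcong
      rw [Finset.mem_insert] at hz hz'
      by_cases hzx : z = x
      · by_cases hzx' : z' = x
        · rw [hzx, hzx']
        · exfalso
          rw [if_pos hzx, if_neg hzx'] at hcong
          exact h2 (u yp) v0 z' (hz'.resolve_left hzx') hcong.symm
      · by_cases hzx' : z' = x
        · exfalso
          rw [if_neg hzx, if_pos hzx'] at hcong
          exact h2 (u yp) v0 z (hz.resolve_left hzx) hcong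
        · rw [if_neg hzx, if_neg hzx'] at hcong
          exact h3 (u yp) v0 z (hz.resolve_left hzx) z' (hz'.resolve_left hzx') hcong
    · rw [hsum]
      -- a leaf against `x`
      have hmix : ∀ r ∈ P, ∀ y y' : V, T.Adj x y → T.Adj r y' →
          ¬ (a (u yp) v0 r - u y' ≡ - u y [ZMOD (N : ℤ)]) := by
        intro r hr y y' hy hy' hc
        have hy'' : y' = pr r := (hPadj r hr y').1 hy'
        rw [hy'', ← hv0' r hr] at hc
        rcases key y hy with ⟨_, h⟩ | ⟨i, hi, h, _⟩
        · exact h6 (u yp) v0 r hr (hc.trans h.neg)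
        · exact h5 (u yp) v0 r hr i (by omega) (hc.trans h.neg)
      intro z hz z' hz' y y' hy hy' hcong
      simp only at hcong
      rw [Finset.mem_insert] at hz hz'
      by_cases hzx : z = x
      · by_cases hzx' : z' = x
        · refine ⟨by rw [hzx, hzx'], ?_⟩
          rw [if_pos hzx, if_pos hzx'] at hcong
          rw [hzx] at hy
          rw [hzx'] at hy'
          have hu : u y ≡ u y' [ZMOD (N : ℤ)] := by
            have := hcong.neg
            simpa using this
          rcases key y hy with ⟨e1, g1⟩ | ⟨i, hi, g1, e1⟩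
          · rcases key y' hy' with ⟨e2, g2⟩ | ⟨j, hj, g2, e2⟩
            · rw [e1, e2]
            · exfalso
              exact h1 (u yp) v0 j (by omega) (g1.symm.trans (hu.trans g2))
          · rcases key y' hy' with ⟨e2, g2⟩ | ⟨j, hj, g2, e2⟩
            · exfalso
              exact h1 (u yp) v0 i (by omega) (g2.symm.trans (hu.symm.trans g1))
            · have hij : i = j := small_eq N i j (by omega) (by omega) (u yp)
                (g1.symm.trans (hu.trans g2))
              rcases e1 with ⟨a1, b1⟩ | ⟨a1, b1, c1, d1⟩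
              · rcases e2 with ⟨a2, b2⟩ | ⟨a2, b2, c2, d2⟩
                · rw [a1, a2]
                · omega
              · rcases e2 with ⟨a2, b2⟩ | ⟨a2, b2, c2, d2⟩
                · omega
                · exact hnuminj y a1 y' a2 b1 b2 (by omega)
        · exfalso
          rw [if_pos hzx, if_neg hzx'] at hcong
          rw [hzx] at hy
          refine hmix z' (hz'.resolve_left hzx') y y' hy hy' ?_
          have := hcong.symm
          simpa using this
      · by_cases hzx' : z' = x
        · exfalso
          rw [if_neg hzx, if_pos hzx'] at hcong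
          rw [hzx'] at hy'
          refine hmix z (hz.resolve_left hzx) y' y hy' hy ?_
          simpa using hcong
        · rw [if_neg hzx, if_neg hzx'] at hcong
          have hzP := hz.resolve_left hzx
          have hzP' := hz'.resolve_left hzx'
          have e1 : y = pr z := (hPadj z hzP y).1 hy
          have e2 : y' = pr z' := (hPadj z' hzP' y').1 hy'
          have e3 : z = z' := by
            refine h4 (u yp) v0 z hzP z' hzP' ?_
            rw [hv0' z hzP, hv0' z' hzP', ← e1, ← e2]
            exact hcong
          exact ⟨e3, by rw [e1, e2, e3]⟩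

end Pool.Agent.Lib.MP_7c15de_co.TH
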