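import Pool.Agent.Lib.MP_7c15de_co.TH.Stm

/-!
# MP_7c15de_co, [TH locS]: blocks of `q` vertices of the same degree `d`
-/

set_option autoImplicit false

namespace Pool.Agent.Lib.MP_7c15de_co.TH

open Finset Pool.Agent.Lib.MP_7c15de_co

private lemma locS_small {N a b : ℤ} (h : a ≡ b [ZMOD N]) (h1 : a - b < N) (h2 : b - a < N) :
    a = b := by
  have hd : N ∣ b - a := h.dvd
  have : b - a = 0 := by
    apply Int.eq_zero_of_abs_lt_dvd hd
    rw [abs_lt]
    constructor <;> linarith
  linarith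

/-- [locS] Blocks of `q` vertices of the same degree `d`, `N = d q`. -/
theorem p_locS (hdg : S_dg) (henum : S_enum) : S_locS := by
  classical
  intro V _ _ T k d q u G hd hq hG hk hdeg hc hd'
  have hN : ∑ x ∈ G, dg T x = d * q := by
    rw [Finset.sum_congr rfl hdeg]
    simp [hG, mul_comm]
  have hnb : ∀ x ∈ G, ∃ y, T.Adj x y := by
    intro x hx
    by_contra h
    push Not at h
    have h0 := hdeg x hx
    rw [(hdg V T).2.2.2.1 x ∅ (fun y => by simp [h y])] at h0
    simp at h0
    omega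
  have hq' : (0 : ℤ) < (q : ℤ) := by exact_mod_cast hq
  have hex : ∀ x, ∃ r : ℕ, r < q ∧ (x ∈ G → ∀ y, T.Adj x y → u y ≡ (r : ℤ) [ZMOD q]) := by
    intro x
    by_cases hx : x ∈ G
    · obtain ⟨y0, hy0⟩ := hnb x hx
      refine ⟨(u y0 % (q : ℤ)).toNat, ?_, ?_⟩
      · have h1 := Int.emod_lt_of_pos (u y0) hq'
        have h2 := Int.emod_nonneg (u y0) (ne_of_gt hq')
        omega
      · intro _ y hy
        have h2 := Int.emod_nonneg (u y0) (ne_of_gt hq')
        rw [Int.toNat_of_nonneg h2]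
        exact (hc x hx y y0 hy hy0).trans (Int.mod_modEq _ _).symm
    · exact ⟨0, hq, fun h => absurd h hx⟩
  choose rr hrr_lt hrr using hex
  have hne : Nonempty V := by
    have : 0 < G.card := by omega
    obtain ⟨x, _⟩ := Finset.card_pos.mp this
    exact ⟨x⟩
  obtain ⟨xs, _, hxs2, _, hxs4⟩ := henum V G rr
  choose! ix hix using hxs2
  have hmono : ∀ x ∈ G, ∀ x' ∈ G, ix x ≤ ix x' → rr x ≤ rr x' := by
    intro x hx x' hx' h
    have := hxs4 (ix x) (ix x') h (hix x' hx').1
    rwa [(hix x hx).2, (hix x' hx').2] at this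
  have hinj : ∀ x ∈ G, ∀ x' ∈ G, ix x = ix x' → x = x' := by
    intro x hx x' hx' h
    rw [← (hix x hx).2, ← (hix x' hx').2, h]
  have h2q : 2 * q ≤ d * q := Nat.mul_le_mul_right q hd
  refine ⟨by rw [hN]; exact hk, fun x => (rr x : ℤ) + ix x, ?_, ?_⟩
  · intro x hx x' hx' h
    rw [hN] at h
    have l1 := hrr_lt x
    have l2 := hrr_lt x'
    have l3 := (hix x hx).1
    have l4 := (hix x' hx').1
    have heq : (rr x : ℤ) + ix x = (rr x' : ℤ) + ix x' :=
      locS_small h (by push_cast; nlinarith) (by push_cast; nlinarith)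
    apply hinj x hx x' hx'
    rcases lt_trichotomy (ix x) (ix x') with hlt | he | hgt
    · have := hmono x hx x' hx' hlt.le
      omega
    · exact he
    · have := hmono x' hx' x hx hgt.le
      omega
  · intro x hx x' hx' y y' hy hy' h
    rw [hN] at h
    have hmq : (rr x : ℤ) + ix x - u y ≡ (rr x' : ℤ) + ix x' - u y' [ZMOD (q : ℤ)] := by
      apply Int.ModEq.of_mul_left (d : ℤ)
      exact_mod_cast h
    have e1 : (rr x : ℤ) + ix x - u y ≡ ix x [ZMOD (q : ℤ)] := by
      have := (Int.ModEq.refl ((rr x : ℤ) + ix x)).sub (hrr x hx y hy)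
      simpa using this
    have e2 : (rr x' : ℤ) + ix x' - u y' ≡ ix x' [ZMOD (q : ℤ)] := by
      have := (Int.ModEq.refl ((rr x' : ℤ) + ix x')).sub (hrr x' hx' y' hy')
      simpa using this
    have e3 : (ix x : ℤ) ≡ ix x' [ZMOD (q : ℤ)] := e1.symm.trans (hmq.trans e2)
    have l3 := (hix x hx).1
    have l4 := (hix x' hx').1
    have e4 := locS_small e3 (by omega) (by omega)
    have hxx : x = x' := hinj x hx x' hx' (by exact_mod_cast e4)
    subst hxx
    refine ⟨rfl, hd' x hx y y' hy hy' ?_⟩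
    have := (Int.ModEq.refl ((rr x : ℤ) + ix x)).sub h
    simpa using this

end Pool.Agent.Lib.MP_7c15de_co.TH
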