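import Pool.Agent.Lib.MP_7c15de_co.TH.Stm

set_option autoImplicit false

namespace Pool.Agent.Lib.MP_7c15de_co.TH

open Finset Pool.Agent.Lib.MP_7c15de_co

theorem p_locY (hdg : S_dg) : S_locY := by
  classical
  intro V _ _ T k N u x yo P hN hNk hxP hcard hleaf hinj hyo
  obtain ⟨-, -, -, h4, -, -⟩ := hdg V T
  have hN' : (0 : ℤ) < (N : ℤ) := by exact_mod_cast hN
  -- degrees
  have hdx : dg T x = (univ.filter (fun y => T.Adj x y)).card := h4 x _ (by simp)
  have hdr : ∀ r ∈ P, dg T r = 1 := by
    intro r hr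
    rw [h4 r {yo} (by intro y; rw [hleaf r hr y]; simp)]
    simp
  have hsum : ∑ z ∈ insert x P, dg T z = N := by
    rw [Finset.sum_insert hxP, Finset.sum_congr rfl hdr]
    simpa using hcard
  -- the residues
  set R : Finset ℤ := (univ.filter (fun y => T.Adj x y)).image (fun y => u y % (N : ℤ)) with hR
  have hRc : R.card = dg T x := by
    rw [hR, Finset.card_image_of_injOn, hdx]
    intro y hy y' hy' h
    have hy1 : T.Adj x y := by simpa using hy
    have hy2 : T.Adj x y' := by simpa using hy'
    exact hinj y y' hy1 hy2 h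
  have hRs : R ⊆ Finset.Ico (0 : ℤ) N := by
    intro z hz
    rw [hR, Finset.mem_image] at hz
    obtain ⟨y, _, rfl⟩ := hz
    rw [Finset.mem_Ico]
    exact ⟨Int.emod_nonneg _ hN'.ne', Int.emod_lt_of_pos _ hN'⟩
  have hWc : (Finset.Ico (0 : ℤ) N \ R).card = P.card := by
    rw [Finset.card_sdiff_of_subset hRs, Int.card_Ico, hRc]
    simp
    omega
  let e : P ≃ (Finset.Ico (0 : ℤ) N \ R : Finset ℤ) := Finset.equivOfCardEq hWc.symm
  let δ : V → ℤ := fun r => if h : r ∈ P then (e ⟨r, h⟩ : ℤ) else 0
  have hδ : ∀ r ∈ P, δ r ∈ Finset.Ico (0 : ℤ) N \ R := by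
    intro r hr
    have : δ r = (e ⟨r, hr⟩ : ℤ) := by simp [δ, hr]
    rw [this]
    exact (e ⟨r, hr⟩).2
  have hδinj : ∀ r ∈ P, ∀ r' ∈ P, δ r = δ r' → r = r' := by
    intro r hr r' hr' h
    have h1 : δ r = (e ⟨r, hr⟩ : ℤ) := by simp [δ, hr]
    have h2 : δ r' = (e ⟨r', hr'⟩ : ℤ) := by simp [δ, hr']
    rw [h1, h2] at h
    have := e.injective (Subtype.ext h)
    exact congrArg Subtype.val this
  have hδmod : ∀ r ∈ P, δ r % (N : ℤ) = δ r := by
    intro r hr
    have := hδ r hr
    rw [Finset.mem_sdiff, Finset.mem_Ico] at this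
    exact Int.emod_eq_of_lt this.1.1 this.1.2
  have hδR : ∀ r ∈ P, ∀ y, T.Adj x y → ¬ δ r ≡ u y [ZMOD N] := by
    intro r hr y hy h
    have h1 := hδ r hr
    rw [Finset.mem_sdiff] at h1
    apply h1.2
    rw [hR, Finset.mem_image]
    refine ⟨y, by simp [hy], ?_⟩
    rw [← hδmod r hr]
    exact h.symm
  have hδeq : ∀ r ∈ P, ∀ r' ∈ P, δ r ≡ δ r' [ZMOD N] → r = r' := by
    intro r hr r' hr' h
    apply hδinj r hr r' hr'
    rw [← hδmod r hr, ← hδmod r' hr']
    exact h
  refine ⟨?_, ?_⟩
  · rw [hsum]; exact hNk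
  rw [hsum]
  have hxne : ∀ r ∈ P, r ≠ x := fun r hr h => hxP (h ▸ hr)
  refine ⟨fun r => if r = x then 0 else u yo - δ r, ?_, ?_⟩
  · intro r hr r' hr' h
    rw [Finset.mem_insert] at hr hr'
    obtain ⟨y0, hy0, hy0'⟩ := hyo
    rcases hr with rfl | hr
    · rcases hr' with rfl | hr'
      · rfl
      · exfalso
        simp only [if_true, if_neg (hxne r' hr')] at h
        apply hδR r' hr' y0 hy0
        have h2 : u yo - δ r' ≡ 0 [ZMOD N] := h.symm
        have h3 : δ r' ≡ u yo [ZMOD N] := by
          have := (Int.ModEq.refl (δ r')).add h2.symm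
          simpa using this
        exact h3.trans hy0'.symm
    · rcases hr' with rfl | hr'
      · exfalso
        simp only [if_true, if_neg (hxne r hr)] at h
        apply hδR r hr y0 hy0
        have h3 : δ r ≡ u yo [ZMOD N] := by
          have := (Int.ModEq.refl (δ r)).add h.symm
          simpa using this
        exact h3.trans hy0'.symm
      · simp only [if_neg (hxne r hr), if_neg (hxne r' hr')] at h
        apply hδeq r hr r' hr'
        have := (Int.ModEq.refl (u yo)).sub h
        simpa using this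
  · intro r hr r' hr' y y' hy hy' h
    rw [Finset.mem_insert] at hr hr'
    rcases hr with rfl | hr
    · rcases hr' with rfl | hr'
      · refine ⟨rfl, hinj y y' hy hy' ?_⟩
        simp only [if_true] at h
        have := (Int.ModEq.refl (0 : ℤ)).sub h
        simpa using this
      · exfalso
        rw [hleaf r' hr'] at hy'
        subst hy'
        simp only [if_true, if_neg (hxne r' hr')] at h
        apply hδR r' hr' y hy
        have := (Int.ModEq.refl (0 : ℤ)).sub h
        simpa using this.symm
    · rw [hleaf r hr] at hy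
      subst hy
      rcases hr' with rfl | hr'
      · exfalso
        simp only [if_true, if_neg (hxne r hr)] at h
        apply hδR r hr y' hy'
        have := (Int.ModEq.refl (0 : ℤ)).sub h
        simpa using this
      · rw [hleaf r' hr'] at hy'
        subst hy'
        simp only [if_neg (hxne r hr), if_neg (hxne r' hr')] at h
        refine ⟨hδeq r hr r' hr' ?_, rfl⟩
        have := (Int.ModEq.refl (0 : ℤ)).sub h
        simpa using this

end Pool.Agent.Lib.MP_7c15de_co.TH
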