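import Pool.Agent.Lib.MP_7c15de_co.TH.Stm

set_option autoImplicit false

namespace Pool.Agent.Lib.MP_7c15de_co.TH

open Finset Pool.Agent.Lib.MP_7c15de_co

private theorem part_aux (V : Type) [DecidableEq V] (q : ℕ) (hq : 0 < q) (m : ℕ) :
    ∀ A : Finset V, A.card = q * m →
    ∃ PP : Finset (Finset V), (∀ p ∈ PP, p ⊆ A ∧ p.card = q) ∧ (∀ x ∈ A, ∃ p ∈ PP, x ∈ p) ∧
      ∀ p ∈ PP, ∀ p' ∈ PP, ∀ x, x ∈ p → x ∈ p' → p = p' := by
  induction m with
  | zero =>
    intro A hA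
    refine ⟨∅, by simp, ?_, by simp⟩
    intro x hx
    rw [Nat.mul_zero, Finset.card_eq_zero] at hA
    subst hA
    simp at hx
  | succ m ih =>
    intro A hA
    obtain ⟨B, hBA, hB⟩ := Finset.exists_subset_card_eq (s := A) (n := q)
      (by rw [hA]; exact Nat.le_mul_of_pos_right q (Nat.succ_pos m))
    obtain ⟨PP, h1, h2, h3⟩ := ih (A \ B) (by
      rw [Finset.card_sdiff_of_subset hBA, hA, hB, Nat.mul_succ]; omega)
    refine ⟨insert B PP, ?_, ?_, ?_⟩
    · intro p hp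
      rcases Finset.mem_insert.1 hp with rfl | hp
      · exact ⟨hBA, hB⟩
      · exact ⟨(h1 p hp).1.trans Finset.sdiff_subset, (h1 p hp).2⟩
    · intro x hx
      by_cases hxB : x ∈ B
      · exact ⟨B, Finset.mem_insert_self _ _, hxB⟩
      · obtain ⟨p, hp, hxp⟩ := h2 x (Finset.mem_sdiff.2 ⟨hx, hxB⟩)
        exact ⟨p, Finset.mem_insert_of_mem hp, hxp⟩
    · intro p hp p' hp' x hx hx'
      rcases Finset.mem_insert.1 hp with e | hp
      · rcases Finset.mem_insert.1 hp' with e' | hp'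
        · rw [e, e']
        · exact absurd (e ▸ hx) (Finset.mem_sdiff.1 ((h1 p' hp').1 hx')).2
      · rcases Finset.mem_insert.1 hp' with e' | hp'
        · exact absurd (e' ▸ hx') (Finset.mem_sdiff.1 ((h1 p hp).1 hx)).2
        · exact h3 p hp p' hp' x hx hx'

theorem p_part : S_part := by
  intro V _ A q hq hdvd
  obtain ⟨m, hm⟩ := hdvd
  exact part_aux V q hq m A hm

end Pool.Agent.Lib.MP_7c15de_co.TH
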