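import Pool.Agent.Lib.MP_7c15de_co.TH.Stm

/-!
# MP_7c15de_co, better hosts: the root
-/

set_option autoImplicit false

namespace Pool.Agent.Lib.MP_7c15de_co.TH

open Finset Pool.Agent.Lib.MP_7c15de_co

theorem p_root : S_root := by
  intro V _ _ T hT X hX h hh yo hyo
  have hne : h ≠ yo := by
    rintro rfl
    exact hyo hh
  obtain ⟨par0, _, hp0, _⟩ := parent_exists T hT yo
  obtain ⟨hadj0, hdist0⟩ := hp0 h hne
  obtain ⟨rt, hrt⟩ : ∃ rt, rt = par0 h := ⟨_, rfl⟩
  rw [← hrt] at hadj0 hdist0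
  have hrtX : rt ∉ X := (hX h rt hadj0).1 hh
  obtain ⟨par, hparrt, hpar, hadj⟩ := parent_exists T hT rt
  have hparh : par h = rt := by
    rcases hadj rt h hadj0.symm with h1 | h1
    · exact absurd rfl h1.1
    · exact h1.2
  have hd1 : T.dist rt h = 1 := SimpleGraph.dist_eq_one_iff_adj.2 hadj0.symm
  refine ⟨rt, par, hrtX, hadj0.symm, hparh, hparrt, hpar, hadj, fun hyr => ⟨?_, ?_, ?_⟩⟩
  · obtain ⟨hz1, hz2⟩ := hp0 rt (Ne.symm hyr)
    have hzh : h ≠ par0 rt := by
      intro h1
      rw [← h1] at hz2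
      omega
    have hsub : ({h, par0 rt} : Set V) ⊆ T.neighborSet rt := by
      intro x hx
      rcases hx with rfl | hx
      · exact hadj0.symm
      · rw [Set.mem_singleton_iff] at hx
        rw [hx]
        exact hz1
    have h2 := Set.ncard_le_ncard hsub (Set.toFinite _)
    rw [Set.ncard_pair hzh] at h2
    exact h2
  · intro h1
    obtain ⟨h2, h3⟩ := hpar yo hyr
    rw [h1] at h2 h3
    have h4 : T.dist yo h = 1 := SimpleGraph.dist_eq_one_iff_adj.2 h2
    rw [SimpleGraph.dist_comm (u := yo) (v := rt)] at hdist0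
    omega
  · intro h1 h2
    obtain ⟨a1, a2⟩ := hpar yo hyr
    have hpX : par yo ∈ X := by
      by_contra h3
      exact hyo ((hX yo (par yo) a1).2 h3)
    have hne1 : par yo ≠ rt := by
      intro h3
      rw [h3] at hpX
      exact hrtX hpX
    obtain ⟨b1, b2⟩ := hpar _ hne1
    obtain ⟨c1, c2⟩ := hpar _ h1
    rw [h2] at c1 c2
    have e1 : T.dist yo (par yo) = 1 := SimpleGraph.dist_eq_one_iff_adj.2 a1
    have e2 : T.dist (par yo) (par (par yo)) = 1 := SimpleGraph.dist_eq_one_iff_adj.2 b1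
    have e3 : T.dist (par (par yo)) h = 1 := SimpleGraph.dist_eq_one_iff_adj.2 c1
    have t1 := hT.1.dist_triangle (u := yo) (v := par yo) (w := h)
    have t2 := hT.1.dist_triangle (u := par yo) (v := par (par yo)) (w := h)
    rw [SimpleGraph.dist_comm (u := yo) (v := rt)] at hdist0
    omega

end Pool.Agent.Lib.MP_7c15de_co.TH
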