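import Pool.Agent.Lib.MP_7c15de_co.TH.Stm

/-!
# MP_7c15de_co, TH, piece run: strategies from one-step rules
-/

set_option autoImplicit false

namespace Pool.Agent.Lib.MP_7c15de_co.TH

private def run_st {Sta : Type} (s0 : Sta) (nxt : ℕ → ℤ → Sta → Sta) : ℕ → (ℕ → ℤ) → Sta
  | 0, _ => s0
  | s + 1, ρ => nxt s (ρ s) (run_st s0 nxt s ρ)

private lemma run_st_congr {Sta : Type} (s0 : Sta) (nxt : ℕ → ℤ → Sta → Sta) (s : ℕ)
    (ρ ρ' : ℕ → ℤ) (h : ∀ t < s, ρ t = ρ' t) : run_st s0 nxt s ρ = run_st s0 nxt s ρ' := by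
  induction s with
  | zero => rfl
  | succ s ih =>
    change nxt s (ρ s) (run_st s0 nxt s ρ) = nxt s (ρ' s) (run_st s0 nxt s ρ')
    rw [ih (fun t ht => h t (Nat.lt_succ_of_lt ht)), h s (Nat.lt_succ_self s)]

theorem p_run : S_run := by
  intro Sta Out s0 Step hStep
  choose nxt ou hno using hStep
  refine ⟨run_st s0 nxt, fun s ρ => ou s (ρ s) (run_st s0 nxt s ρ), fun _ => rfl, ?_, ?_, ?_⟩
  · intro s ρ
    exact hno s (ρ s) (run_st s0 nxt s ρ)
  · intro s ρ ρ' h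
    exact run_st_congr s0 nxt s ρ ρ' h
  · intro s ρ ρ' h
    change ou s (ρ s) (run_st s0 nxt s ρ) = ou s (ρ' s) (run_st s0 nxt s ρ')
    rw [run_st_congr s0 nxt s ρ ρ' (fun t ht => h t ht.le), h s le_rfl]

end Pool.Agent.Lib.MP_7c15de_co.TH
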