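import Pool.Agent.Lib.MP_7c15de_co.TH.Stm

set_option autoImplicit false

namespace Pool.Agent.Lib.MP_7c15de_co.TH

private def slotOff (N d : ℕ) (ρ t : ℤ) (i : ℕ) : ℤ :=
  if (t - ρ) % N ≤ d - 1 then 1 + i else if i = 0 then (t - ρ) % N else i

private theorem slotOff_mem (N d : ℕ) (ρ t : ℤ) (h2 : 2 ≤ d) (hd : d ≤ N) (i : ℕ) (hi : i < d - 1) :
    1 ≤ slotOff N d ρ t i ∧ slotOff N d ρ t i < N := by
  have hN : (0 : ℤ) < N := by omega
  have h0 := Int.emod_nonneg (t - ρ) hN.ne'
  have h1 := Int.emod_lt_of_pos (t - ρ) hN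
  unfold slotOff
  split_ifs <;> omega

private theorem slotOff_inj (N d : ℕ) (ρ t : ℤ) (h2 : 2 ≤ d) (hd : d ≤ N) (i j : ℕ) (hi : i < d - 1)
    (hj : j < d - 1) (h : slotOff N d ρ t i = slotOff N d ρ t j) : i = j := by
  have hN : (0 : ℤ) < N := by omega
  have h0 := Int.emod_nonneg (t - ρ) hN.ne'
  have h1 := Int.emod_lt_of_pos (t - ρ) hN
  unfold slotOff at h
  split_ifs at h <;> omega

theorem p_slot : S_slot := by
  refine ⟨fun N d ρ t i => ρ + slotOff N d ρ t i, ?_⟩
  intro N d ρ t h2 hd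
  refine ⟨?_, ?_, ?_⟩
  · intro i hi h
    have hm := slotOff_mem N d ρ t h2 hd i hi
    have h3 := h.symm.dvd
    rw [add_sub_cancel_left] at h3
    have := Int.le_of_dvd (by omega) h3
    omega
  · intro i hi j hj h
    have hmi := slotOff_mem N d ρ t h2 hd i hi
    have hmj := slotOff_mem N d ρ t h2 hd j hj
    have h3 := h.dvd
    rw [add_sub_add_left_eq_sub] at h3
    have h4 := Int.eq_zero_of_abs_lt_dvd h3 (by rw [abs_lt]; omega)
    exact slotOff_inj N d ρ t h2 hd i j hi hj (by omega)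
  · have hN : (0 : ℤ) < N := by omega
    have h0 := Int.emod_nonneg (t - ρ) hN.ne'
    have h1 := Int.emod_lt_of_pos (t - ρ) hN
    have hdiv := Int.emod_add_mul_ediv (t - ρ) N
    by_cases hD : (t - ρ) % N = 0
    · left
      exact (Int.modEq_iff_dvd.2 (by
        rw [← neg_sub, dvd_neg]; exact Int.dvd_of_emod_eq_zero hD))
    · right
      by_cases hD2 : (t - ρ) % N ≤ d - 1
      · refine ⟨((t - ρ) % N - 1).toNat, by omega, ?_⟩
        have e : slotOff N d ρ t ((t - ρ) % N - 1).toNat = (t - ρ) % N := by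
          unfold slotOff
          rw [if_pos hD2]
          omega
        simp only [e]
        rw [Int.modEq_iff_dvd]
        exact ⟨(t - ρ) / N, by linarith⟩
      · refine ⟨0, by omega, ?_⟩
        have e : slotOff N d ρ t 0 = (t - ρ) % N := by
          unfold slotOff
          rw [if_neg hD2, if_pos rfl]
        simp only [e]
        rw [Int.modEq_iff_dvd]
        exact ⟨(t - ρ) / N, by linarith⟩

end Pool.Agent.Lib.MP_7c15de_co.TH
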