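import Pool.Agent.Lib.MP_7c15de_co.TH.Stm

/-!
# MP_7c15de_co, better hosts: the strategy of the game
-/

set_option autoImplicit false

namespace Pool.Agent.Lib.MP_7c15de_co.TH

open Finset Pool.Agent.Lib.MP_7c15de_co

/-- distance of `e` to the next multiple of `q` -/
private def stratDl (q e : ℕ) : ℕ := (q - e % q) % q

private theorem stratDl_zero {q e : ℕ} (hq : 0 < q) : stratDl q e = 0 ↔ q ∣ e := by
  unfold stratDl
  have h1 := Nat.mod_lt e hq
  rw [Nat.dvd_iff_mod_eq_zero]
  constructor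
  · intro h
    by_contra hne
    rw [Nat.mod_eq_of_lt (by omega)] at h
    omega
  · intro h
    rw [h]
    simp

private theorem stratDl_le (q e : ℕ) (hq : 0 < q) : stratDl q e ≤ q - 1 := by
  unfold stratDl
  have := Nat.mod_lt (q - e % q) hq
  omega

private theorem stratDl_succ {q e : ℕ} (hq : 0 < q) (h : ¬ q ∣ e) :
    stratDl q (e + 1) + 1 = stratDl q e := by
  unfold stratDl
  have h1 := Nat.mod_lt e hq
  have h2 : e % q ≠ 0 := fun h2 => h (Nat.dvd_of_mod_eq_zero h2)
  rw [Nat.mod_eq_of_lt (show q - e % q < q by omega)]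
  have h3 : (e + 1) % q = if e % q + 1 = q then 0 else e % q + 1 := by
    rw [Nat.add_mod]
    have hq1 : 1 % q = 1 := Nat.mod_eq_of_lt (by omega)
    rw [hq1]
    split_ifs with h4
    · rw [h4, Nat.mod_self]
    · exact Nat.mod_eq_of_lt (by omega)
  rw [h3]
  split_ifs with h4
  · simp
    omega
  · rw [Nat.mod_eq_of_lt (by omega)]
    omega

/-- number of the steps from `s` on with size `d` -/
private def stratR (n : ℕ) (deg : ℕ → ℕ) (d s : ℕ) : ℕ := ((Ico s n).filter (fun t => deg t = d)).card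

private theorem stratR_end (n : ℕ) (deg : ℕ → ℕ) (d : ℕ) : stratR n deg d n = 0 := by
  simp [stratR]

private theorem stratR_succ {n : ℕ} {deg : ℕ → ℕ} {d s : ℕ} (hs : s < n) :
    stratR n deg d s = stratR n deg d (s + 1) + if deg s = d then 1 else 0 := by
  unfold stratR
  have h : Ico s n = insert s (Ico (s + 1) n) := by
    ext x
    simp only [mem_Ico, mem_insert]
    omega
  rw [h, filter_insert]
  split_ifs with h1
  · rw [card_insert_of_notMem (by simp)]
  · rfl

/-- the bound `K_d` -/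
private def stratK (J d : ℕ) : ℕ := ∑ j ∈ range (J + 1), (d ^ j - 1)

private theorem stratK_le {C J d : ℕ} (hd : d < C) : stratK J d ≤ J * C ^ J := by
  unfold stratK
  rw [sum_range_succ']
  simp only [pow_zero, Nat.sub_self, add_zero]
  calc ∑ k ∈ range J, (d ^ (k + 1) - 1) ≤ ∑ _k ∈ range J, C ^ J := by
        apply sum_le_sum
        intro k hk
        rw [mem_range] at hk
        calc d ^ (k + 1) - 1 ≤ d ^ (k + 1) := Nat.sub_le _ _
          _ ≤ C ^ (k + 1) := Nat.pow_le_pow_left hd.le _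
          _ ≤ C ^ J := Nat.pow_le_pow_right (by omega) hk
    _ = J * C ^ J := by simp

/-- number of the fix steps -/
private theorem strat_fix {C J n : ℕ} {deg : ℕ → ℕ} (hdeg : ∀ s < n, 2 ≤ deg s ∧ deg s < C) :
    ((range n).filter (fun s => stratR n deg (deg s) s ≤ stratK J (deg s))).card ≤
      C * (J * C ^ J) := by
  have h1 : ((range n).filter (fun s => stratR n deg (deg s) s ≤ stratK J (deg s))).card =
      ∑ d ∈ range C, (((range n).filter (fun s => stratR n deg (deg s) s ≤ stratK J (deg s))).filter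
        (fun s => deg s = d)).card := by
    apply card_eq_sum_card_fiberwise
    intro s hs
    have hs' := (mem_filter.1 hs).1
    rw [mem_range] at hs'
    exact mem_coe.2 (mem_range.2 (hdeg s hs').2)
  rw [h1]
  calc _ ≤ ∑ _d ∈ range C, J * C ^ J := ?_
    _ = C * (J * C ^ J) := by simp
  apply sum_le_sum
  intro d hd
  rw [mem_range] at hd
  refine le_trans ?_ (stratK_le (J := J) hd)
  set A := ((range n).filter (fun s => stratR n deg (deg s) s ≤ stratK J (deg s))).filter
    (fun s => deg s = d) with hA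
  rcases A.eq_empty_or_nonempty with h | h
  · rw [h]
    simp
  · obtain ⟨m, hm, hmin⟩ := A.exists_minimal h
    have hmin' : ∀ s ∈ A, m ≤ s := by
      intro s hs
      rcases le_total m s with h | h
      · exact h
      · exact hmin hs h
    rw [hA, mem_filter, mem_filter] at hm
    obtain ⟨⟨-, hm1⟩, hm2⟩ := hm
    rw [hm2] at hm1
    refine le_trans ?_ hm1
    apply card_le_card
    intro s hs
    have h2 := hmin' s hs
    rw [hA, mem_filter, mem_filter, mem_range] at hs
    rw [mem_filter, mem_Ico]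
    exact ⟨⟨h2, hs.1.1⟩, hs.2⟩

/-- the one step rule -/
private def StratStep (J M0 : ℕ) (θ : ℝ) (n : ℕ) (deg : ℕ → ℕ) (s : ℕ) (r : ℤ)
    (a b : (ℕ → ℕ) × (ℕ → ℕ → ℕ)) (o : ℕ × (ℕ → ℕ)) : Prop :=
  s < n →
    (o.1 ≤ J ∧
    (∀ i : ℕ, 1 ≤ i → i < deg s → o.2 i < M0 ∧
      (o.2 i : ℤ) ≡ r + i * (deg s : ℤ) ^ o.1 [ZMOD (deg s : ℤ) ^ (o.1 + 1)]) ∧
    (∀ d' j', b.2 d' j' = a.2 d' j' + if deg s = d' ∧ o.1 = j' then 1 else 0) ∧
    (stratK J (deg s) < stratR n deg (deg s) s →
      (∀ τ, b.1 τ = a.1 τ + ((Ico 1 (deg s)).filter (fun i => o.2 i = τ)).card) ∧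
      ((deg s : ℝ) ^ (J + 1) - 1) * M0 * ∑ i ∈ Ico 1 (deg s), θ ^ (a.1 (o.2 i)) ≤
        ((deg s : ℝ) - 1) * (deg s : ℝ) ^ (J + 1) * ∑ τ ∈ range M0, θ ^ (a.1 τ)) ∧
    (stratR n deg (deg s) s ≤ stratK J (deg s) → b.1 = a.1 ∧
      ((∃ j' ≤ J, ¬ (deg s) ^ j' ∣ a.2 (deg s) j') → ¬ (deg s) ^ o.1 ∣ a.2 (deg s) o.1) ∧
      ((∀ j' ≤ J, (deg s) ^ j' ∣ a.2 (deg s) j') → o.1 = 0)))

private theorem stratStep_exists (hpot : S_pot) {C J M0 : ℕ} {θ : ℝ} (hθ : 1 < θ) (hM0 : 0 < M0)
    (hdvd : ∀ d, 2 ≤ d → d < C → d ^ (J + 1) ∣ M0) {n : ℕ} {deg : ℕ → ℕ}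
    (hdeg : ∀ s < n, 2 ≤ deg s ∧ deg s < C) (s : ℕ) (r : ℤ) (a : (ℕ → ℕ) × (ℕ → ℕ → ℕ)) :
    ∃ b o, StratStep J M0 θ n deg s r a b o := by
  classical
  by_cases hs : s < n
  swap
  · exact ⟨a, (0, fun _ => 0), fun h => absurd h hs⟩
  obtain ⟨h2, hC⟩ := hdeg s hs
  have hD := hdvd _ h2 hC
  by_cases hfree : stratK J (deg s) < stratR n deg (deg s) s
  · obtain ⟨j, hj, t, ht, hineq⟩ := hpot (deg s) J M0 (fun τ => θ ^ (a.1 τ)) r h2 hM0 hD
      (fun τ => by positivity)
    refine ⟨(fun τ => a.1 τ + ((Ico 1 (deg s)).filter (fun i => t i = τ)).card,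
      fun d' j' => a.2 d' j' + if deg s = d' ∧ j = j' then 1 else 0), (j, t), fun _ => ?_⟩
    refine ⟨hj, ht, fun _ _ => rfl, fun _ => ⟨fun _ => rfl, hineq⟩, fun h => ?_⟩
    omega
  · have hj : ∃ j ≤ J, ((∃ j' ≤ J, ¬ (deg s) ^ j' ∣ a.2 (deg s) j') →
        ¬ (deg s) ^ j ∣ a.2 (deg s) j) ∧
        ((∀ j' ≤ J, (deg s) ^ j' ∣ a.2 (deg s) j') → j = 0) := by
      by_cases hex : ∃ j' ≤ J, ¬ (deg s) ^ j' ∣ a.2 (deg s) j'
      · obtain ⟨j', hj', hn⟩ := hex
        exact ⟨j', hj', fun _ => hn, fun h => absurd (h j' hj') hn⟩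
      · exact ⟨0, Nat.zero_le _, fun h => absurd h hex, fun _ => rfl⟩
    obtain ⟨j, hj, hj1, hj2⟩ := hj
    refine ⟨(a.1, fun d' j' => a.2 d' j' + if deg s = d' ∧ j = j' then 1 else 0),
      (j, fun i => ((r + i * (deg s : ℤ) ^ j) % (deg s : ℤ) ^ (j + 1)).toNat), fun _ => ?_⟩
    refine ⟨hj, ?_, fun _ _ => rfl, fun h => absurd h hfree, fun _ => ⟨rfl, hj1, hj2⟩⟩
    intro i _ _
    have hp : (0 : ℤ) < (deg s : ℤ) ^ (j + 1) := by positivity
    have e0 := Int.emod_nonneg (r + i * (deg s : ℤ) ^ j) hp.ne'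
    have e1 := Int.emod_lt_of_pos (r + i * (deg s : ℤ) ^ j) hp
    constructor
    · have e2 : (deg s) ^ (j + 1) ≤ M0 := by
        refine le_trans (Nat.pow_le_pow_right (by omega) (by omega)) (Nat.le_of_dvd hM0 hD)
      have e3 : (((deg s) ^ (j + 1) : ℕ) : ℤ) = (deg s : ℤ) ^ (j + 1) := by push_cast; rfl
      simp only
      omega
    · simp only
      rw [Int.toNat_of_nonneg e0]
      exact Int.mod_modEq _ _

/-- the classes used in one step are different -/
private theorem strat_inj {d j : ℕ} {r : ℤ} {t : ℕ → ℕ} (hd : 2 ≤ d)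
    (ht : ∀ i : ℕ, 1 ≤ i → i < d → (t i : ℤ) ≡ r + i * (d : ℤ) ^ j [ZMOD (d : ℤ) ^ (j + 1)])
    (τ : ℕ) : ((Ico 1 d).filter (fun i => t i = τ)).card ≤ 1 := by
  rw [card_le_one]
  intro i hi i' hi'
  rw [mem_filter, mem_Ico] at hi hi'
  have h1 := ht i hi.1.1 hi.1.2
  have h2 := ht i' hi'.1.1 hi'.1.2
  rw [hi.2] at h1
  rw [hi'.2] at h2
  have h3 := Int.ModEq.add_left_cancel' _ (h1.symm.trans h2)
  have h4 := h3.symm.dvd
  have e : (i : ℤ) * (d : ℤ) ^ j - i' * (d : ℤ) ^ j = (d : ℤ) ^ j * ((i : ℤ) - i') := by ring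
  rw [e, pow_succ] at h4
  have hp : (d : ℤ) ^ j ≠ 0 := by positivity
  have h5 := (mul_dvd_mul_iff_left hp).1 h4
  have h6 : (i : ℤ) - i' = 0 := by
    apply Int.eq_zero_of_abs_lt_dvd h5
    rw [abs_lt]
    constructor <;> omega
  omega

/-- one step of the potential -/
private theorem strat_phi {J M0 : ℕ} {θ : ℝ} (hθ : 1 < θ) (hM0 : 0 < M0) {d : ℕ} (hd : 2 ≤ d)
    (c c' t : ℕ → ℕ) (htM : ∀ i : ℕ, 1 ≤ i → i < d → t i < M0)
    (hinj : ∀ τ, ((Ico 1 d).filter (fun i => t i = τ)).card ≤ 1)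
    (hc' : ∀ τ, c' τ = c τ + ((Ico 1 d).filter (fun i => t i = τ)).card)
    (hineq : ((d : ℝ) ^ (J + 1) - 1) * M0 * ∑ i ∈ Ico 1 d, θ ^ (c (t i)) ≤
        ((d : ℝ) - 1) * (d : ℝ) ^ (J + 1) * ∑ τ ∈ range M0, θ ^ (c τ)) :
    ∑ τ ∈ range M0, θ ^ (c' τ) ≤ (∑ τ ∈ range M0, θ ^ (c τ)) *
      Real.exp ((θ - 1) * ((2 : ℝ) ^ (J + 1) / ((2 : ℝ) ^ (J + 1) - 1)) * ((d - 1 : ℕ) : ℝ) / M0) := by
  classical
  set Φ := ∑ τ ∈ range M0, θ ^ (c τ) with hΦ
  have hΦ0 : 0 ≤ Φ := sum_nonneg fun τ _ => by positivity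
  have hMr : (0 : ℝ) < M0 := by exact_mod_cast hM0
  have hdr : (2 : ℝ) ≤ d := by exact_mod_cast hd
  -- the new potential
  have h1 : ∑ τ ∈ range M0, θ ^ (c' τ) = Φ + (θ - 1) * ∑ i ∈ Ico 1 d, θ ^ (c (t i)) := by
    have e1 : ∀ τ ∈ range M0, θ ^ (c' τ) = θ ^ (c τ) +
        (θ - 1) * ∑ i ∈ Ico 1 d, (if t i = τ then θ ^ (c (t i)) else 0) := by
      intro τ _
      have e2 : ∑ i ∈ Ico 1 d, (if t i = τ then θ ^ (c (t i)) else 0) =
          ((Ico 1 d).filter (fun i => t i = τ)).card * θ ^ (c τ) := by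
        rw [← sum_filter]
        rw [sum_congr rfl (g := fun _ => θ ^ (c τ))
          (fun i hi => by rw [(mem_filter.1 hi).2])]
        rw [sum_const, nsmul_eq_mul]
      rw [e2, hc' τ, pow_add]
      have h01 := hinj τ
      interval_cases hcard : ((Ico 1 d).filter (fun i => t i = τ)).card
      · simp
      · simp only [pow_one, Nat.cast_one, one_mul]
        ring
    rw [sum_congr rfl e1, sum_add_distrib, ← mul_sum, sum_comm]
    congr 2
    apply sum_congr rfl
    intro i hi
    rw [mem_Ico] at hi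
    rw [sum_ite_eq, if_pos (mem_range.2 (htM i hi.1 hi.2))]
  set x := (θ - 1) * ((2 : ℝ) ^ (J + 1) / ((2 : ℝ) ^ (J + 1) - 1)) * ((d - 1 : ℕ) : ℝ) / M0 with hx
  have hd1 : ((d - 1 : ℕ) : ℝ) = d - 1 := by
    rw [Nat.cast_sub (by omega)]
    simp
  have h2p : (1 : ℝ) < (2 : ℝ) ^ (J + 1) := one_lt_pow₀ (by norm_num) (by omega)
  have hdp : (1 : ℝ) < (d : ℝ) ^ (J + 1) := one_lt_pow₀ (by linarith) (by omega)
  have hle : (2 : ℝ) ^ (J + 1) ≤ (d : ℝ) ^ (J + 1) := pow_le_pow_left₀ (by norm_num) hdr _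
  -- the bound of the sum
  have h3 : ∑ i ∈ Ico 1 d, θ ^ (c (t i)) ≤
      ((2 : ℝ) ^ (J + 1) / ((2 : ℝ) ^ (J + 1) - 1)) * ((d : ℝ) - 1) / M0 * Φ := by
    have h4 : ∑ i ∈ Ico 1 d, θ ^ (c (t i)) ≤
        ((d : ℝ) - 1) * (d : ℝ) ^ (J + 1) * Φ / (((d : ℝ) ^ (J + 1) - 1) * M0) := by
      rw [le_div_iff₀ (mul_pos (by linarith) hMr), mul_comm]
      exact hineq
    refine h4.trans ?_
    have h5 : (d : ℝ) ^ (J + 1) / ((d : ℝ) ^ (J + 1) - 1) ≤
        (2 : ℝ) ^ (J + 1) / ((2 : ℝ) ^ (J + 1) - 1) := by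
      rw [div_le_div_iff₀ (by linarith) (by linarith)]
      nlinarith
    have e3 : ((d : ℝ) - 1) * (d : ℝ) ^ (J + 1) * Φ / (((d : ℝ) ^ (J + 1) - 1) * M0) =
        ((d : ℝ) ^ (J + 1) / ((d : ℝ) ^ (J + 1) - 1)) * (((d : ℝ) - 1) / M0 * Φ) := by
      have : (d : ℝ) ^ (J + 1) - 1 ≠ 0 := by linarith
      field_simp
    have e4 : ((2 : ℝ) ^ (J + 1) / ((2 : ℝ) ^ (J + 1) - 1)) * ((d : ℝ) - 1) / M0 * Φ =
        ((2 : ℝ) ^ (J + 1) / ((2 : ℝ) ^ (J + 1) - 1)) * (((d : ℝ) - 1) / M0 * Φ) := by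
      ring
    rw [e3, e4]
    apply mul_le_mul_of_nonneg_right h5
    apply mul_nonneg (div_nonneg (by linarith) hMr.le) hΦ0
  rw [h1]
  have h6 : (θ - 1) * ∑ i ∈ Ico 1 d, θ ^ (c (t i)) ≤ x * Φ := by
    have := mul_le_mul_of_nonneg_left h3 (by linarith : (0 : ℝ) ≤ θ - 1)
    refine this.trans (le_of_eq ?_)
    rw [hx, hd1]
    ring
  calc Φ + (θ - 1) * ∑ i ∈ Ico 1 d, θ ^ (c (t i)) ≤ Φ + x * Φ := by linarith
    _ = Φ * (x + 1) := by ring
    _ ≤ Φ * Real.exp x := mul_le_mul_of_nonneg_left (Real.add_one_le_exp x) hΦ0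

theorem p_strat (hpot : S_pot) (hrun : S_run) : S_strat := by
  classical
  intro C J M0 θ hθ hM0 hdvd n deg hdeg
  obtain ⟨st, out, hst0, hstep, hstn, houtn⟩ := hrun ((ℕ → ℕ) × (ℕ → ℕ → ℕ)) (ℕ × (ℕ → ℕ))
    (fun _ => 0, fun _ _ => 0) (StratStep J M0 θ n deg)
    (stratStep_exists hpot hθ hM0 hdvd hdeg)
  refine ⟨fun s ρ => (out s ρ).1, fun s ρ => (out s ρ).2, ?_, ?_, ?_, ?_, ?_⟩
  · intro s ρ ρ' h
    have := houtn s ρ ρ' h
    simp only [this, and_self]
  · intro s hs ρ
    exact (hstep s ρ hs).1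
  · intro s hs ρ i hi hid
    exact (hstep s ρ hs).2.1 i hi hid
  · -- divisibility
    intro ρ d hd2 hdC
    -- the counters
    have hcount : ∀ s ≤ n, ∀ j, (st s ρ).2 d j =
        ((range s).filter (fun s => deg s = d ∧ (out s ρ).1 = j)).card := by
      intro s
      induction s with
      | zero =>
        intro _ j
        rw [hst0]
        simp
      | succ s ih =>
        intro hs j
        rw [(hstep s ρ (by omega)).2.2.1 d j, ih (by omega) j, range_add_one, filter_insert]
        split_ifs with h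
        · rw [card_insert_of_notMem (by simp)]
        · rfl
    have hpos : ∀ j : ℕ, 0 < d ^ j := fun j => Nat.pow_pos (by omega)
    have hΔ : ∀ s ≤ n, ∑ j ∈ range (J + 1), stratDl (d ^ j) ((st s ρ).2 d j) ≤
        stratR n deg d s := by
      intro s
      induction s with
      | zero =>
        intro _
        rw [hst0]
        have : ∑ j ∈ range (J + 1), stratDl (d ^ j) 0 = 0 := by
          apply sum_eq_zero
          intro j _
          exact (stratDl_zero (hpos j)).2 (dvd_zero _)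
        simp only [this]
        exact Nat.zero_le _
      | succ s ih =>
        intro hs
        have hs' : s < n := by omega
        have ih' := ih (by omega)
        rw [stratR_succ hs'] at ih'
        obtain ⟨g1, g2, g3, g4, g5⟩ := hstep s ρ hs'
        by_cases hds : deg s = d
        · rw [if_pos hds] at ih'
          by_cases hfree : stratK J (deg s) < stratR n deg (deg s) s
          · -- free step
            have h1 : ∑ j ∈ range (J + 1), stratDl (d ^ j) ((st (s + 1) ρ).2 d j) ≤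
                stratK J d := by
              unfold stratK
              apply sum_le_sum
              intro j _
              exact stratDl_le _ _ (hpos j)
            rw [hds, stratR_succ hs', if_pos hds] at hfree
            omega
          · -- fix step
            obtain ⟨-, f2, f3⟩ := g5 (by omega)
            by_cases hex : ∃ j' ≤ J, ¬ (deg s) ^ j' ∣ (st s ρ).2 (deg s) j'
            · have hnd := f2 hex
              rw [hds] at hnd
              have hmem : (out s ρ).1 ∈ range (J + 1) := mem_range.2 (by omega)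
              have e1 : ∑ j ∈ range (J + 1), stratDl (d ^ j) ((st (s + 1) ρ).2 d j) + 1 =
                  ∑ j ∈ range (J + 1), stratDl (d ^ j) ((st s ρ).2 d j) := by
                rw [← add_sum_erase _ _ hmem, ← add_sum_erase (range (J + 1))
                  (fun j => stratDl (d ^ j) ((st s ρ).2 d j)) hmem]
                have e2 : ∑ j ∈ (range (J + 1)).erase (out s ρ).1,
                    stratDl (d ^ j) ((st (s + 1) ρ).2 d j) =
                    ∑ j ∈ (range (J + 1)).erase (out s ρ).1,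
                    stratDl (d ^ j) ((st s ρ).2 d j) := by
                  apply sum_congr rfl
                  intro j hj
                  rw [g3 d j, if_neg, add_zero]
                  rintro ⟨-, h⟩
                  exact (mem_erase.1 hj).1 h.symm
                rw [e2, g3 d _, if_pos ⟨hds, rfl⟩]
                have e3 := stratDl_succ (hpos (out s ρ).1) hnd
                omega
              omega
            · push Not at hex
              have hj0 := f3 hex
              have e1 : ∑ j ∈ range (J + 1), stratDl (d ^ j) ((st (s + 1) ρ).2 d j) = 0 := by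
                apply sum_eq_zero
                intro j hj
                rw [stratDl_zero (hpos j), g3 d j]
                by_cases hj' : j = 0
                · rw [hj', pow_zero]
                  exact one_dvd _
                · rw [if_neg (by rintro ⟨-, h⟩; omega), add_zero]
                  have := hex j (by rw [mem_range] at hj; omega)
                  rwa [hds] at this
              rw [e1]
              exact Nat.zero_le _
        · rw [if_neg hds] at ih'
          have e1 : ∑ j ∈ range (J + 1), stratDl (d ^ j) ((st (s + 1) ρ).2 d j) =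
              ∑ j ∈ range (J + 1), stratDl (d ^ j) ((st s ρ).2 d j) := by
            apply sum_congr rfl
            intro j _
            rw [g3 d j, if_neg (fun h => hds h.1), add_zero]
          rw [e1]
          exact ih'
    intro j hj
    have h1 := hΔ n le_rfl
    rw [stratR_end] at h1
    have h2 : stratDl (d ^ j) ((st n ρ).2 d j) = 0 := by
      have := sum_eq_zero_iff.1 (Nat.le_zero.1 h1) j (mem_range.2 (by omega))
      exact this
    rw [stratDl_zero (hpos j), hcount n le_rfl j] at h2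
    exact h2
  · -- the potential
    intro ρ τ hτ
    have hcnt : ∀ s < n, ∀ τ, ((Ico 1 (deg s)).filter (fun i => (out s ρ).2 i = τ)).card ≤ 1 := by
      intro s hs τ
      have g := hstep s ρ hs
      exact strat_inj (hdeg s hs).1 (fun i hi hid => (g.2.1 i hi hid).2) τ
    have hlogθ : 0 < Real.log θ := Real.log_pos hθ
    -- the uses
    have huse : ∀ s ≤ n, ∑ s' ∈ range s, ((Ico 1 (deg s')).filter
        (fun i => (out s' ρ).2 i = τ)).card ≤ (st s ρ).1 τ +
        ((range s).filter (fun s => stratR n deg (deg s) s ≤ stratK J (deg s))).card := by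
      intro s
      induction s with
      | zero =>
        intro _
        simp
      | succ s ih =>
        intro hs
        have hs' : s < n := by omega
        have ih' := ih (by omega)
        obtain ⟨g1, g2, g3, g4, g5⟩ := hstep s ρ hs'
        rw [sum_range_succ, range_add_one, filter_insert]
        by_cases hfree : stratK J (deg s) < stratR n deg (deg s) s
        · rw [if_neg (by omega), (g4 hfree).1 τ]
          omega
        · rw [if_pos (by omega), card_insert_of_notMem (by simp), (g5 (by omega)).1]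
          have := hcnt s hs' τ
          omega
    -- the potential
    set β : ℝ := (2 : ℝ) ^ (J + 1) / ((2 : ℝ) ^ (J + 1) - 1) with hβ
    have h2p : (1 : ℝ) < (2 : ℝ) ^ (J + 1) := one_lt_pow₀ (by norm_num) (by omega)
    have hβ0 : 0 ≤ β := div_nonneg (by linarith) (by linarith)
    have hMr : (0 : ℝ) < M0 := by exact_mod_cast hM0
    have hΦ : ∀ s ≤ n, ∑ τ ∈ range M0, θ ^ ((st s ρ).1 τ) ≤
        M0 * Real.exp ((θ - 1) * β * (∑ s' ∈ range s, (deg s' - 1) : ℕ) / M0) := by
      intro s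
      induction s with
      | zero =>
        intro _
        rw [hst0]
        simp
      | succ s ih =>
        intro hs
        have hs' : s < n := by omega
        have ih' := ih (by omega)
        obtain ⟨g1, g2, g3, g4, g5⟩ := hstep s ρ hs'
        have hexp : (θ - 1) * β * ((∑ s' ∈ range (s + 1), (deg s' - 1) : ℕ) : ℝ) / M0 =
            (θ - 1) * β * ((∑ s' ∈ range s, (deg s' - 1) : ℕ) : ℝ) / M0 +
            (θ - 1) * β * ((deg s - 1 : ℕ) : ℝ) / M0 := by
          rw [sum_range_succ]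
          push_cast
          ring
        rw [hexp, Real.exp_add, ← mul_assoc]
        have hone : ∑ τ ∈ range M0, θ ^ ((st (s + 1) ρ).1 τ) ≤
            (∑ τ ∈ range M0, θ ^ ((st s ρ).1 τ)) *
              Real.exp ((θ - 1) * β * ((deg s - 1 : ℕ) : ℝ) / M0) := by
          by_cases hfree : stratK J (deg s) < stratR n deg (deg s) s
          · obtain ⟨f1, f2⟩ := g4 hfree
            exact strat_phi hθ hM0 (hdeg s hs').1 _ _ _ (fun i hi hid => (g2 i hi hid).1)
              (hcnt s hs') f1 f2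
          · rw [(g5 (by omega)).1]
            have h1 : 1 ≤ Real.exp ((θ - 1) * β * ((deg s - 1 : ℕ) : ℝ) / M0) := by
              apply Real.one_le_exp
              apply div_nonneg _ hMr.le
              apply mul_nonneg (mul_nonneg (by linarith) hβ0) (Nat.cast_nonneg _)
            have h2 : 0 ≤ ∑ τ ∈ range M0, θ ^ ((st s ρ).1 τ) :=
              sum_nonneg fun τ _ => by positivity
            nlinarith
        exact hone.trans (mul_le_mul_of_nonneg_right ih' (Real.exp_pos _).le)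
    have hc : ((st n ρ).1 τ : ℝ) * Real.log θ ≤ Real.log M0 +
        (θ - 1) * β * (∑ s ∈ range n, (deg s - 1) : ℕ) / M0 := by
      have h1 : θ ^ ((st n ρ).1 τ) ≤ ∑ τ ∈ range M0, θ ^ ((st n ρ).1 τ) :=
        single_le_sum (f := fun τ => θ ^ ((st n ρ).1 τ)) (fun τ _ => by positivity)
          (mem_range.2 hτ)
      have h2 := h1.trans (hΦ n le_rfl)
      have h3 := Real.log_le_log (by positivity) h2
      rw [Real.log_pow, Real.log_mul hMr.ne' (Real.exp_pos _).ne', Real.log_exp] at h3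
      exact h3
    have hu := huse n le_rfl
    have hf := strat_fix (J := J) hdeg
    have h4 : ((∑ s ∈ range n, ((Ico 1 (deg s)).filter
        (fun i => (out s ρ).2 i = τ)).card : ℕ) : ℝ) ≤ (st n ρ).1 τ + (C * (J * C ^ J) : ℕ) := by
      exact_mod_cast hu.trans (by omega)
    have h5 := mul_le_mul_of_nonneg_right h4 hlogθ.le
    rw [add_mul] at h5
    linarith

end Pool.Agent.Lib.MP_7c15de_co.TH
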