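import Pool.Agent.Lib.MP_7c15de_co.TH.P_dg
import Pool.Agent.Lib.MP_7c15de_co.TH.P_crit
import Pool.Agent.Lib.MP_7c15de_co.TH.P_cov
import Pool.Agent.Lib.MP_7c15de_co.TH.P_locF
import Pool.Agent.Lib.MP_7c15de_co.TH.P_part
import Pool.Agent.Lib.MP_7c15de_co.TH.P_enum
import Pool.Agent.Lib.MP_7c15de_co.TH.P_locS
import Pool.Agent.Lib.MP_7c15de_co.TH.P_locL
import Pool.Agent.Lib.MP_7c15de_co.TH.P_locY
import Pool.Agent.Lib.MP_7c15de_co.TH.P_slot
import Pool.Agent.Lib.MP_7c15de_co.TH.P_pot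
import Pool.Agent.Lib.MP_7c15de_co.TH.P_run
import Pool.Agent.Lib.MP_7c15de_co.TH.P_strat
import Pool.Agent.Lib.MP_7c15de_co.TH.P_game
import Pool.Agent.Lib.MP_7c15de_co.TH.P_lab
import Pool.Agent.Lib.MP_7c15de_co.TH.P_covS
import Pool.Agent.Lib.MP_7c15de_co.TH.P_A
import Pool.Agent.Lib.MP_7c15de_co.TH.P_k1
import Pool.Agent.Lib.MP_7c15de_co.TH.P_k2
import Pool.Agent.Lib.MP_7c15de_co.TH.P_R1
import Pool.Agent.Lib.MP_7c15de_co.TH.P_coef
import Pool.Agent.Lib.MP_7c15de_co.TH.P_Z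
import Pool.Agent.Lib.MP_7c15de_co.TH.P_locH
import Pool.Agent.Lib.MP_7c15de_co.TH.P_alloc
import Pool.Agent.Lib.MP_7c15de_co.TH.P_fill
import Pool.Agent.Lib.MP_7c15de_co.TH.P_root
import Pool.Agent.Lib.MP_7c15de_co.TH.P_DB1
import Pool.Agent.Lib.MP_7c15de_co.TH.P_DB
import Pool.Agent.Lib.MP_7c15de_co.TH.P_R2

set_option autoImplicit false

namespace Pool.Agent.Lib.MP_7c15de_co.TH

theorem final_lab : S_lab := p_lab
theorem final_covS : S_covS := p_covS p_dg p_cov p_part (p_locS p_dg p_enum)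
theorem final_game : S_game := p_game (p_strat p_pot p_run)
theorem final_locF : S_locF := p_locF p_dg p_cov
theorem final_crit : S_crit := p_crit p_dg
theorem final_A : S_A :=
  p_A p_dg final_crit p_cov final_locF p_enum (p_locL p_dg) final_game p_lab final_covS
theorem final_R1 : S_R1 := p_R1 p_dg final_A p_k1
theorem final_locH : S_locH := p_locH p_dg (p_Z p_coef)
theorem final_fill : S_fill := p_fill p_dg p_alloc
theorem final_DB1 : S_DB1 := p_DB1 p_dg p_cov p_enum (p_locY p_dg) p_slot p_lab final_covS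
theorem final_DB : S_DB :=
  p_DB p_dg final_crit p_cov final_locF final_game final_locH final_fill p_root final_DB1
theorem final_R2 : S_R2 := p_R2 p_dg final_A final_DB p_k2

end Pool.Agent.Lib.MP_7c15de_co.TH
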