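import Pool.Agent.Lib.MP_7c15de_co.Main

/-!
# MP_7c15de_co, better hosts: definitions

Two results are proved in this folder:

* (R1, `SmallDegree`) for every `ε > 0` there is `γ > 0` such that for all large `n` there is a
  `k ≤ (1+ε) n` such that every balanced tree `T_{n,n}` which has a colour class all of whose
  vertices have degree at most `γ n` decomposes `K_{2n-1,k}`;
* (R2, `ThreeHalves`) for every `ε > 0` and all large `n`, some `k ≤ (3/2+ε) n` lies in `S(n)`.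

Everything is a labelling: the vertices of one class `Y = Xᶜ` get labels `u y`, different mod `k`; the
other class `X` is partitioned into parts, a part `p` with `N = ∑_{x ∈ p} deg x` must satisfy `Loc`.
-/

set_option autoImplicit false

namespace Pool.Agent.Lib.MP_7c15de_co.TH

open Finset Pool.Agent.Lib.MP_7c15de_co

/-- The degree of `x`. (Only finite `V` occurs.) -/
noncomputable def dg {V : Type} (T : SimpleGraph V) (x : V) : ℕ := (T.neighborSet x).ncard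

/-- The part `p` (a set of vertices of `X`) can be developed modulo `N = ∑_{x ∈ p} dg x`: `N ∣ k` and
there are shifts `a x`, different mod `N`, such that the positions `a x - u y` of the edges `x y` with
`x ∈ p` are pairwise different mod `N`. -/
def Loc {V : Type} (T : SimpleGraph V) (k : ℕ) (u : V → ℤ) (p : Finset V) : Prop :=
  (∑ x ∈ p, dg T x) ∣ k ∧ ∃ a : V → ℤ,
    (∀ x ∈ p, ∀ x' ∈ p, a x ≡ a x' [ZMOD ((∑ z ∈ p, dg T z : ℕ) : ℤ)] → x = x') ∧
    ∀ x ∈ p, ∀ x' ∈ p, ∀ y y' : V, T.Adj x y → T.Adj x' y' →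
      a x - u y ≡ a x' - u y' [ZMOD ((∑ z ∈ p, dg T z : ℕ) : ℤ)] → x = x' ∧ y = y'

/-- `A` is a disjoint union of parts that can be developed. -/
def Cov {V : Type} (T : SimpleGraph V) (k : ℕ) (u : V → ℤ) (A : Finset V) : Prop :=
  ∃ PP : Finset (Finset V), (∀ p ∈ PP, p ⊆ A ∧ Loc T k u p) ∧ (∀ x ∈ A, ∃ p ∈ PP, x ∈ p) ∧
    ∀ p ∈ PP, ∀ p' ∈ PP, ∀ x, x ∈ p → x ∈ p' → p = p'

/-- A non-anticipating labelling strategy for a sequence of requests `s = 0, …, n-1` of sizes `deg s`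
with `2 ≤ deg s < C`. At time `s` the value `ρ s : ℤ` is revealed, and the strategy must give
`deg s - 1` labels `lab s ρ i`, `1 ≤ i < deg s`, in `[0, M0 * B)`, never used before, with
`lab s ρ i ≡ ρ s + i d^j mod d^(j+1)`, where `d = deg s` and `j = sc s ρ ≤ J` is a scale chosen by the
strategy; at the end the number of requests of size `d` with scale `j` must be divisible by `d^j`. -/
structure Game (C J M0 n : ℕ) (deg : ℕ → ℕ) (B : ℕ) (sc : ℕ → (ℕ → ℤ) → ℕ)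
    (lab : ℕ → (ℕ → ℤ) → ℕ → ℤ) : Prop where
  nonant : ∀ (s : ℕ) (ρ ρ' : ℕ → ℤ), (∀ t ≤ s, ρ t = ρ' t) → lab s ρ = lab s ρ'
  bnd : ∀ s < n, ∀ (ρ : ℕ → ℤ) (i : ℕ), 1 ≤ i → i < deg s →
    0 ≤ lab s ρ i ∧ lab s ρ i < ((M0 * B : ℕ) : ℤ)
  cong : ∀ s < n, ∀ (ρ : ℕ → ℤ) (i : ℕ), 1 ≤ i → i < deg s →
    lab s ρ i ≡ ρ s + i * (deg s : ℤ) ^ sc s ρ [ZMOD (deg s : ℤ) ^ (sc s ρ + 1)]
  inj : ∀ (ρ : ℕ → ℤ), ∀ s < n, ∀ s' < n, ∀ i i' : ℕ, 1 ≤ i → i < deg s → 1 ≤ i' → i' < deg s' →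
    lab s ρ i = lab s' ρ i' → s = s' ∧ i = i'
  sc_le : ∀ s < n, ∀ ρ : ℕ → ℤ, sc s ρ ≤ J
  count : ∀ (ρ : ℕ → ℤ) (d : ℕ), 2 ≤ d → d < C → ∀ j ≤ J,
    d ^ j ∣ ((Finset.range n).filter (fun s => deg s = d ∧ sc s ρ = j)).card

end Pool.Agent.Lib.MP_7c15de_co.TH
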