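import Pool.Agent.Lib.MP_7c15de_co.TH.Stm

/-!
# MP_7c15de_co, better hosts, piece [Z]
-/

set_option autoImplicit false

namespace Pool.Agent.Lib.MP_7c15de_co.TH

open Finset MvPolynomial Pool.Agent.Lib.MP_7c15de_co

private lemma Z_top {σ : Type} (i j : σ) (e : ℤ) :
    TopEq 1 (X j - X i - C e : MvPolynomial σ ℤ) (X j - X i) := by
  classical
  have h1 : (X j - X i : MvPolynomial σ ℤ).totalDegree ≤ 1 := by
    refine (totalDegree_sub _ _).trans ?_
    simp
  have h2 : (X j - X i - C e : MvPolynomial σ ℤ).totalDegree ≤ 1 := by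
    refine (totalDegree_sub _ _).trans ?_
    simp only [totalDegree_C, zero_le, sup_of_le_left]
    exact h1
  refine ⟨h2, h1, ?_⟩
  intro t ht
  rw [coeff_sub, coeff_C]
  have : ¬ (0 = t) := by
    rintro rfl
    simp at ht
  simp [this]

private lemma Z_top0 {σ : Type} (i j : σ) :
    TopEq 1 (X j - X i : MvPolynomial σ ℤ) (X j - X i) := by
  have h1 : (X j - X i : MvPolynomial σ ℤ).totalDegree ≤ 1 := by
    refine (totalDegree_sub _ _).trans ?_
    simp
  exact ⟨h1, h1, fun _ _ => rfl⟩

private lemma Z_cnt (p : ℕ) : (∑ i : Fin p, ∑ _j ∈ Ioi i, 1) = ∑ i ∈ range p, i := by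
  simp only [Finset.sum_const, smul_eq_mul, mul_one, Fin.card_Ioi]
  rw [Fin.sum_univ_eq_sum_range (fun i => p - 1 - i) p, Finset.sum_range_reflect (fun i => i) p]

private lemma Z_sq (p : ℕ) : (∑ i ∈ range (p + 1), i) + ∑ i ∈ range p, i = p * p := by
  rw [Finset.sum_range_succ]
  have := Finset.sum_range_id_mul_two p
  cases p with
  | zero => simp
  | succ n =>
    simp only [Nat.add_sub_cancel] at this
    have h2 : (n + 1) * (n + 1) = (n + 1) * n + (n + 1) := by ring
    omega

theorem p_Z (hcoef : S_coef) : S_Z := by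
  classical
  intro p W F Z Bd c hW hF hZ hZd hB
  -- the set `Bs`
  obtain ⟨Bs, hBs1, -, hBs2⟩ := Finset.exists_subsuperset_card_eq (Finset.subset_univ Bd)
    (n := (p - F.card) / 2) (by omega) (by rw [Finset.card_univ, Fintype.card_fin]; omega)
  obtain ⟨e, he⟩ : ∃ e, 2 * Bs.card + e = p := ⟨p - 2 * Bs.card, by omega⟩
  have heF : F.card ≤ e := by omega
  set t : Fin (p + 1) →₀ ℕ := Finsupp.equivFunOnFinite.symm (texp p e Bs) with ht
  set f : MvPolynomial (Fin (p + 1)) ℤ :=
    (∏ i : Fin (p + 1), ∏ j ∈ Ioi i, (X j - X i)) *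
      (∏ i : Fin p, ∏ j ∈ Ioi i, (X j.succ - X i.succ - C (c i j))) with hf
  have hT : TopEq ((∑ i : Fin (p + 1), ∑ _j ∈ Ioi i, 1) + ∑ i : Fin p, ∑ _j ∈ Ioi i, 1) f
      (vdm (p + 1) * MvPolynomial.rename (Fin.succ : Fin p → Fin (p + 1)) (vdm p)) := by
    rw [hf]
    refine TopEq.mul ?_ ?_
    · unfold vdm
      refine TopEq.prod _ _ _ _ fun i _ => TopEq.prod _ _ _ _ fun j _ => Z_top0 _ _
    · have : MvPolynomial.rename (Fin.succ : Fin p → Fin (p + 1)) (vdm p) =
          ∏ i : Fin p, ∏ j ∈ Ioi i, (X j.succ - X i.succ) := by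
        simp only [vdm, map_prod, map_sub, rename_X]
      rw [this]
      refine TopEq.prod _ _ _ _ fun i _ => TopEq.prod _ _ _ _ fun j _ => Z_top _ _ _
  rw [Z_cnt, Z_cnt, Z_sq] at hT
  have hdeg : t.degree = p * p := by
    rw [Finsupp.degree_eq_sum, Fin.sum_univ_succ]
    simp only [ht, Finsupp.equivFunOnFinite_symm_apply_apply, texp, Fin.cases_zero, Fin.cases_succ]
    rw [Finset.sum_ite, Finset.sum_const, Finset.sum_const, smul_eq_mul, smul_eq_mul]
    have h1 : (univ.filter (fun j : Fin p => j ∈ Bs)).card = Bs.card := by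
      rw [Finset.filter_mem_eq_inter, Finset.univ_inter]
    have h2 : (univ.filter (fun j : Fin p => j ∉ Bs)).card = p - Bs.card := by
      rw [Finset.filter_not, Finset.filter_mem_eq_inter, Finset.univ_inter,
        ← Finset.compl_eq_univ_sdiff, Finset.card_compl, Fintype.card_fin]
    rw [h1, h2]
    rcases Nat.eq_zero_or_pos Bs.card with h0 | h0
    · rw [h0]
      have : e = p := by omega
      rw [this]
      simp
    · obtain ⟨b', hb'⟩ : ∃ b', Bs.card = b' + 1 := ⟨Bs.card - 1, by omega⟩
      rw [hb'] at he ⊢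
      have hp : p = 2 * b' + 2 + e := by omega
      subst hp
      have e1 : 2 * b' + 2 + e - e = 2 * b' + 2 := by omega
      have e2 : 2 * b' + 2 + e - 2 = 2 * b' + e := by omega
      have e3 : 2 * b' + 2 + e - (b' + 1) = b' + 1 + e := by omega
      rw [e1, e2, e3]
      ring
  have hcf : coeff t f ≠ 0 := by
    rw [hT.top _ hdeg]
    exact hcoef p e Bs he
  have htd : f.totalDegree = t.degree := by
    apply le_antisymm
    · rw [hdeg]
      exact hT.degP
    · rw [Finsupp.degree_apply]
      exact le_totalDegree (mem_support_iff.mpr hcf)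
  set S : Fin (p + 1) → Finset ℤ := Fin.cases (W \ F) (fun i => W \ Z i) with hS
  have hS0 : S 0 = W \ F := rfl
  have hSs : ∀ i : Fin p, S i.succ = W \ Z i := fun i => rfl
  obtain ⟨x, hx, hne⟩ := combinatorial_nullstellensatz_exists_eval_nonzero f t hcf
    htd S (fun i => by
      refine Fin.cases ?_ (fun i => ?_) i
      · simp only [ht, Finsupp.equivFunOnFinite_symm_apply_apply, texp, Fin.cases_zero, hS0]
        rw [Finset.card_sdiff_of_subset hF, hW]
        have := Finset.card_le_card hF
        omega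
      · simp only [ht, Finsupp.equivFunOnFinite_symm_apply_apply, texp, Fin.cases_succ, hSs]
        by_cases hi : i ∈ Bs
        · rw [if_pos hi]
          have h1 : 0 < Bs.card := Finset.card_pos.mpr ⟨i, hi⟩
          have h2 := Finset.le_card_sdiff (Z i) W
          have h3 := hZ i
          omega
        · rw [if_neg hi]
          have h1 : i ∉ Bd := fun h => hi (hBs1 h)
          rw [Finset.sdiff_eq_self_of_disjoint (hZd i h1).symm, hW]
          omega)
  rw [hf] at hne
  simp only [map_prod, map_mul, map_sub, eval_X, eval_C] at hne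
  rw [mul_ne_zero_iff, Finset.prod_ne_zero_iff, Finset.prod_ne_zero_iff] at hne
  obtain ⟨hn1, hn2⟩ := hne
  have hinj : Function.Injective x := by
    have hlt : ∀ i j : Fin (p + 1), i < j → x i ≠ x j := by
      intro i j hij hcon
      have h1 := hn1 i (Finset.mem_univ i)
      rw [Finset.prod_ne_zero_iff] at h1
      apply h1 j (Finset.mem_Ioi.mpr hij)
      rw [hcon, sub_self]
    intro i j hij
    rcases lt_trichotomy i j with h | h | h
    · exact absurd hij (hlt i j h)
    · exact h
    · exact absurd hij.symm (hlt j i h)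
  have hxs : ∀ i : Fin p, x i.succ ∈ W ∧ x i.succ ∉ Z i := by
    intro i
    have := hx i.succ
    rw [hSs, Finset.mem_sdiff] at this
    exact this
  have hx0 : x 0 ∈ W ∧ x 0 ∉ F := by
    have := hx 0
    rw [hS0, Finset.mem_sdiff] at this
    exact this
  refine ⟨fun i => x i.succ, hxs, ?_, ?_⟩
  · intro i j hij
    refine ⟨fun h => ?_, fun h => ?_⟩
    · have := hinj h
      rw [Fin.succ_inj] at this
      exact absurd this hij.ne'
    · have h1 := hn2 i (Finset.mem_univ i)
      rw [Finset.prod_ne_zero_iff] at h1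
      apply h1 j (Finset.mem_Ioi.mpr hij)
      rw [h, sub_self]
  · intro y hy
    have himg : Finset.image x univ = W := by
      apply Finset.eq_of_subset_of_card_le
      · intro z hz
        rw [Finset.mem_image] at hz
        obtain ⟨i, -, rfl⟩ := hz
        refine Fin.cases hx0.1 (fun i => (hxs i).1) i
      · rw [Finset.card_image_of_injective _ hinj, Finset.card_univ, Fintype.card_fin, hW]
    have hyW := hF hy
    rw [← himg, Finset.mem_image] at hyW
    obtain ⟨i, -, hi⟩ := hyW
    revert hi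
    refine Fin.cases (fun hi => ?_) (fun i hi => ?_) i
    · exact absurd (hi ▸ hy) hx0.2
    · exact ⟨i, hi⟩

end Pool.Agent.Lib.MP_7c15de_co.TH
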