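import Pool.Agent.Lib.MP_7c15de_co.TH.Stm

/-!
# MP_7c15de_co, better hosts: piece [pot]
-/

set_option autoImplicit false

namespace Pool.Agent.Lib.MP_7c15de_co.TH

open Finset Pool.Agent.Lib.MP_7c15de_co

private theorem pot_geom (x : ℝ) (hx : x ≠ 0) (J : ℕ) :
    (x - 1) * x ^ (J + 1) * ∑ j ∈ range (J + 1), 1 / x ^ (j + 1) = x ^ (J + 1) - 1 := by
  induction J with
  | zero => simp; field_simp
  | succ J ih =>
    rw [sum_range_succ, mul_add]
    have h1 : (x - 1) * x ^ (J + 1 + 1) * ∑ j ∈ range (J + 1), 1 / x ^ (j + 1) =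
        x * ((x - 1) * x ^ (J + 1) * ∑ j ∈ range (J + 1), 1 / x ^ (j + 1)) := by ring
    have h2 : (x - 1) * x ^ (J + 1 + 1) * (1 / x ^ (J + 1 + 1)) = x - 1 := by
      field_simp
    rw [h1, ih, h2]
    ring

private theorem pot_key (d : ℤ) (hd : 2 ≤ d) (ρ s : ℤ) (j j' i i' : ℕ) (hi : 1 ≤ i)
    (hid : (i : ℤ) < d) (hjj : j < j')
    (h : s ≡ ρ + i * d ^ j [ZMOD d ^ (j + 1)]) (h' : s ≡ ρ + i' * d ^ j' [ZMOD d ^ (j' + 1)]) :
    False := by
  have h1 : d ^ (j + 1) ∣ ρ + i * d ^ j - s := h.dvd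
  have h2 : d ^ (j' + 1) ∣ ρ + i' * d ^ j' - s := h'.dvd
  have h3 : d ^ (j + 1) ∣ d ^ j' := pow_dvd_pow d (by omega)
  have h4 : d ^ (j + 1) ∣ ρ + i' * d ^ j' - s := (h3.trans (pow_dvd_pow d (by omega))).trans h2
  have h5 : d ^ (j + 1) ∣ (i : ℤ) * d ^ j := by
    have : (i : ℤ) * d ^ j = (ρ + i * d ^ j - s) - (ρ + i' * d ^ j' - s) + i' * d ^ j' := by ring
    rw [this]
    exact dvd_add (dvd_sub h1 h4) (h3.mul_left _)
  rw [pow_succ, mul_comm] at h5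
  have h6 : d ∣ (i : ℤ) := by
    have hne : d ^ j ≠ 0 := pow_ne_zero _ (by omega)
    exact Int.dvd_of_mul_dvd_mul_right hne h5
  have h7 := Int.le_of_dvd (by exact_mod_cast hi) h6
  omega

theorem p_pot : S_pot := by
  intro d J M0 f ρ hd hM hD hf
  have hdp : ∀ n : ℕ, 0 < d ^ n := fun n => pow_pos (by omega) n
  -- residues
  obtain ⟨v, hv⟩ : ∃ v : ℕ → ℕ → ℕ, ∀ j i, ((v j i : ℕ) : ℤ) ≡ ρ + i * (d : ℤ) ^ j
      [ZMOD (d : ℤ) ^ (j + 1)] := by
    refine ⟨fun j i => ((ρ + i * (d : ℤ) ^ j) % (d : ℤ) ^ (j + 1)).toNat, fun j i => ?_⟩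
    have hne : (d : ℤ) ^ (j + 1) ≠ 0 := pow_ne_zero _ (by omega)
    rw [Int.toNat_of_nonneg (Int.emod_nonneg _ hne)]
    exact Int.mod_modEq _ _
  let R : ℕ → ℕ → Finset ℕ := fun j i => (range M0).filter fun t => t ≡ v j i [MOD d ^ (j + 1)]
  have hdvd : ∀ j ≤ J, d ^ (j + 1) ∣ M0 := fun j hj => (pow_dvd_pow d (by omega)).trans hD
  have hcard : ∀ j ≤ J, ∀ i, (R j i).card = M0 / d ^ (j + 1) := by
    intro j hj i
    have h1 := Nat.count_modEq_card (b := M0) (r := d ^ (j + 1)) (hdp _) (v j i)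
    rw [Nat.count_eq_card_filter_range, Nat.mod_eq_zero_of_dvd (hdvd j hj)] at h1
    simpa using h1
  have hmem : ∀ j i t, t ∈ R j i → t < M0 ∧ (t : ℤ) ≡ ρ + i * (d : ℤ) ^ j
      [ZMOD (d : ℤ) ^ (j + 1)] := by
    intro j i t ht
    rw [mem_filter, mem_range] at ht
    refine ⟨ht.1, ?_⟩
    have h1 : (t : ℤ) ≡ (v j i : ℕ) [ZMOD ((d ^ (j + 1) : ℕ) : ℤ)] :=
      (Int.natCast_modEq_iff).2 ht.2
    push_cast at h1
    exact h1.trans (hv j i)
  have hmin : ∀ j i, ∃ t, j ≤ J → (t ∈ R j i ∧ ∀ s ∈ R j i, f t ≤ f s) := by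
    intro j i
    by_cases hj : j ≤ J
    · have hne : (R j i).Nonempty := by
        rw [← card_pos, hcard j hj]
        exact Nat.div_pos (Nat.le_of_dvd hM (hdvd j hj)) (hdp _)
      obtain ⟨t, ht, h⟩ := exists_min_image (R j i) f hne
      exact ⟨t, fun _ => ⟨ht, h⟩⟩
    · exact ⟨0, fun h => absurd h hj⟩
  choose t ht using hmin
  have hx : (2 : ℝ) ≤ (d : ℝ) := by exact_mod_cast hd
  have hx0 : (d : ℝ) ≠ 0 := by linarith
  have hxp : ∀ n : ℕ, (0 : ℝ) < (d : ℝ) ^ n := fun n => pow_pos (by linarith) n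
  have hone : ∀ j ≤ J, ∀ i, (M0 : ℝ) / (d : ℝ) ^ (j + 1) * f (t j i) ≤ ∑ s ∈ R j i, f s := by
    intro j hj i
    have h1 := card_nsmul_le_sum (R j i) f (f (t j i)) (ht j i hj).2
    rw [hcard j hj, nsmul_eq_mul, Nat.cast_div (hdvd j hj) (by
      push_cast; exact (hxp _).ne')] at h1
    push_cast at h1
    exact h1
  -- disjointness
  have hdisj : ∀ a ∈ range (J + 1) ×ˢ Ico 1 d, ∀ b ∈ range (J + 1) ×ˢ Ico 1 d, a ≠ b →
      Disjoint (R a.1 a.2) (R b.1 b.2) := by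
    rintro ⟨j, i⟩ ha ⟨j', i'⟩ hb hab
    rw [mem_product, mem_range, mem_Ico] at ha hb
    rw [disjoint_left]
    intro s hs hs'
    obtain ⟨-, h1⟩ := hmem _ _ _ hs
    obtain ⟨-, h2⟩ := hmem _ _ _ hs'
    simp only at ha hb h1 h2
    have hd' : (2 : ℤ) ≤ (d : ℤ) := by exact_mod_cast hd
    rcases lt_trichotomy j j' with h | h | h
    · exact pot_key d hd' ρ s j j' i i' ha.2.1 (by exact_mod_cast ha.2.2) h h1 h2
    · subst h
      apply hab
      have h3 : (d : ℤ) ^ (j + 1) ∣ (ρ + i * (d : ℤ) ^ j - s) - (ρ + i' * (d : ℤ) ^ j - s) :=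
        dvd_sub h1.dvd h2.dvd
      have h4 : (ρ + i * (d : ℤ) ^ j - s) - (ρ + i' * (d : ℤ) ^ j - s) =
          ((i : ℤ) - i') * (d : ℤ) ^ j := by ring
      rw [h4, pow_succ, mul_comm] at h3
      have h5 : (d : ℤ) ∣ (i : ℤ) - i' :=
        Int.dvd_of_mul_dvd_mul_right (pow_ne_zero _ (by omega)) h3
      have h6 : (i : ℤ) - i' = 0 := by
        apply Int.eq_zero_of_abs_lt_dvd h5
        have e1 : (1 : ℤ) ≤ i := by exact_mod_cast ha.2.1
        have e2 : (i : ℤ) < d := by exact_mod_cast ha.2.2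
        have e3 : (1 : ℤ) ≤ i' := by exact_mod_cast hb.2.1
        have e4 : (i' : ℤ) < d := by exact_mod_cast hb.2.2
        rw [abs_lt]
        constructor <;> linarith
      have h7 : i = i' := by
        have : (i : ℤ) = i' := by linarith
        exact_mod_cast this
      rw [h7]
    · exact pot_key d hd' ρ s j' j i' i hb.2.1 (by exact_mod_cast hb.2.2) h h2 h1
  have hsum : ∑ j ∈ range (J + 1), ∑ i ∈ Ico 1 d, ∑ s ∈ R j i, f s ≤ ∑ s ∈ range M0, f s := by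
    rw [← sum_product', ← sum_biUnion (s := range (J + 1) ×ˢ Ico 1 d)
      (t := fun a => R a.1 a.2) (fun a ha b hb hab => hdisj a ha b hb hab)]
    apply sum_le_sum_of_subset_of_nonneg
    · intro s hs
      rw [mem_biUnion] at hs
      obtain ⟨a, -, ha⟩ := hs
      exact (mem_filter.1 ha).1
    · intro s _ _
      exact hf s
  by_contra hcon
  push Not at hcon
  set F := ∑ s ∈ range M0, f s with hF
  have hlt : ∀ j ∈ range (J + 1), ((d : ℝ) - 1) * (d : ℝ) ^ (J + 1) * F * (1 / (d : ℝ) ^ (j + 1)) <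
      ((d : ℝ) ^ (J + 1) - 1) * (((M0 : ℝ) / (d : ℝ) ^ (j + 1)) * ∑ i ∈ Ico 1 d, f (t j i)) := by
    intro j hj
    rw [mem_range] at hj
    have h1 := hcon j (by omega) (t j) (fun i _ _ => hmem _ _ _ (ht j i (by omega)).1)
    have h2 := mul_lt_mul_of_pos_right h1 (one_div_pos.2 (hxp (j + 1)))
    refine h2.trans_eq ?_
    ring
  have h3 := sum_lt_sum_of_nonempty (s := range (J + 1)) ⟨0, by simp⟩ hlt
  rw [← mul_sum, ← mul_sum] at h3
  have h4 := pot_geom (d : ℝ) hx0 J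
  have h5 : ((d : ℝ) - 1) * (d : ℝ) ^ (J + 1) * F * ∑ j ∈ range (J + 1), 1 / (d : ℝ) ^ (j + 1) =
      ((d : ℝ) ^ (J + 1) - 1) * F := by
    rw [← h4]; ring
  rw [h5] at h3
  have h6 : ∑ j ∈ range (J + 1), (M0 : ℝ) / (d : ℝ) ^ (j + 1) * ∑ i ∈ Ico 1 d, f (t j i) ≤ F := by
    refine le_trans (sum_le_sum fun j hj => ?_) hsum
    rw [mul_sum]
    exact sum_le_sum fun i _ => hone j (by rw [mem_range] at hj; omega) i
  have h7 : (0 : ℝ) ≤ (d : ℝ) ^ (J + 1) - 1 := by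
    have : (1 : ℝ) ≤ (d : ℝ) ^ (J + 1) := one_le_pow₀ (by linarith)
    linarith
  have h8 := mul_le_mul_of_nonneg_left h6 h7
  linarith

end Pool.Agent.Lib.MP_7c15de_co.TH
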