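import Pool.Agent.Lib.MP_7c15de_co.TH.Defs

/-!
# MP_7c15de_co, better hosts: statements of the pieces (complete proofs in the docstrings)

Conventions. `V` is finite, `T` a tree on `V`, `X` one colour class (a `Finset`), `Y = Xᶜ` the other one.
`a ≡ b [ZMOD N]` is congruence of integers. If `s` is a set of integers of length `≤ N` (an interval), two
of its elements congruent mod `N` are equal; we use this without comment
(`Int.ModEq`, `Int.emod_emod_of_dvd`, `Int.eq_zero_of_abs_lt_dvd` or the `hsmall` lemma in `Block.lean`).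
The old library (`Criterion.lean`, `CN.lean`, `Block.lean`, `Plan.lean`, `Tree.lean`, `Main.lean`) may be
used everywhere, in particular `criterion`, `block`, `rec_exists`, `offsets`, `parent_exists`, `plan_exists`.
-/

set_option autoImplicit false

namespace Pool.Agent.Lib.MP_7c15de_co.TH

open Finset Pool.Agent.Lib.MP_7c15de_co

/-! ## 1. Parts -/

/-- [dg] Basic facts on degrees.
PROOF. (1) `Set.ncard` of the neighbour set = `T.degree x` (`Set.ncard_eq_toFinset_card'`,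
`SimpleGraph.card_neighborSet_eq_degree`, ...). (2) `hT.1.preconnected.degree_pos_of_nontrivial` (see
`Tree.lean`). (3) is `sum_deg_class` (Criterion.lean). (4) `T.neighborSet x = ↑s`. (5) a set with `ncard = 1`
is a singleton. (6) a leaf of `T` has exactly one neighbour, so if `x` is adjacent to `y` and `dg T x = 1`
then `T.Adj x z ↔ z = y`. -/
def S_dg : Prop :=
  ∀ (V : Type) [Fintype V] [DecidableEq V] (T : SimpleGraph V),
    (∀ (_ : DecidableRel T.Adj) (x : V), dg T x = T.degree x) ∧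
    (T.IsTree → 2 ≤ Fintype.card V → ∀ x, 1 ≤ dg T x) ∧
    (T.IsTree → ∀ X : Finset V, (∀ a b, T.Adj a b → (a ∈ X ↔ b ∉ X)) →
      ∑ x ∈ X, dg T x + 1 = Fintype.card V) ∧
    (∀ (x : V) (s : Finset V), (∀ y, T.Adj x y ↔ y ∈ s) → dg T x = s.card) ∧
    (∀ x : V, dg T x = 1 → ∃ y, ∀ z, T.Adj x z ↔ z = y) ∧
    (∀ x y : V, dg T x = 1 → T.Adj x y → ∀ z, T.Adj x z ↔ z = y)

/-- [crit] If the labels of `Y` are different mod `k` and `X` is a disjoint union of parts that can be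
developed, then `T` decomposes `K_{m,k}`, `m` = number of edges of `T`.
PROOF. Let `PP` be the partition from `Cov T k u X`. For `x ∈ X` choose `part x ∈ PP` with `x ∈ part x`; every
`p ∈ PP` is nonempty (the sum over the empty set is `0`, which does not divide `k > 0`); choose for each `p ∈ PP`
an element `e p ∈ p` and put `head x := e (part x)`; then `head x = head x' ↔ part x = part x'` for `x, x' ∈ X`
(parts sharing an element are equal). `blk z := ∑_{t ∈ part z} dg T t`, `a x :=` the shift of `x` in `part x`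
(choose). Apply `criterion` (Criterion.lean). `blk (head x) = ∑_{t ∈ part x} dg T t` divides `k`; `hX`, `hL` are
the two properties in `Loc`; `hcard`: `head` maps `X` onto `{e p : p ∈ PP}` (here `p ⊆ X` is used), `e` is
injective on `PP`, so `∑_{z ∈ X.image head} blk z = ∑_{p ∈ PP} ∑_{t ∈ p} dg T t = ∑_{t ∈ X} dg T t = m`
(`Finset.sum_biUnion`; `S_dg` (3)). Uses S_dg. -/
def S_crit : Prop :=
  ∀ (V : Type) [Fintype V] [DecidableEq V] (T : SimpleGraph V), T.IsTree →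
    ∀ X : Finset V, (∀ a b, T.Adj a b → (a ∈ X ↔ b ∉ X)) →
    ∀ m k : ℕ, Fintype.card V = m + 1 → 0 < k → ∀ u : V → ℤ,
      (∀ y ∉ X, ∀ y' ∉ X, u y ≡ u y' [ZMOD k] → y = y') → Cov T k u X →
      Decomposes T (completeBipartiteGraph (Fin m) (Fin k))

/-- [cov] Properties of `Cov`.
PROOF. (1) `PP = ∅`. (2) `PP = {p}`. (3) union of the two partitions. (4) induction on `I` with (1), (3), or
directly the union of the partitions (choose). In (3), (4): if `p` and `p'` share an element and come from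
different sets `A i`, then the sets `A i`, `A i'` share an element. (5) `Loc` only uses the values of `u` at the
neighbours of the part. -/
def S_cov : Prop :=
  ∀ (V : Type) [Fintype V] [DecidableEq V] (T : SimpleGraph V) (k : ℕ) (u : V → ℤ),
    Cov T k u ∅ ∧
    (∀ p : Finset V, Loc T k u p → Cov T k u p) ∧
    (∀ A B : Finset V, Cov T k u A → Cov T k u B → Disjoint A B → Cov T k u (A ∪ B)) ∧
    (∀ (ι : Type) [DecidableEq ι] (I : Finset ι) (A : ι → Finset V), (∀ i ∈ I, Cov T k u (A i)) →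
      (∀ i ∈ I, ∀ j ∈ I, ∀ x, x ∈ A i → x ∈ A j → i = j) → Cov T k u (I.biUnion A)) ∧
    (∀ (u' : V → ℤ) (A : Finset V), (∀ x ∈ A, ∀ y, T.Adj x y → u' y = u y) →
      Cov T k u A → Cov T k u' A)

/-- [locF] A leaf alone, and sets of leaves.
PROOF. `N = dg T x = 1` and everything is congruent mod `1`; the neighbour is unique (`S_dg` (5)). For a set of
leaves use the partition into singletons (`S_cov` (2), (4) with `A x = {x}`). Uses S_dg, S_cov. -/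
def S_locF : Prop :=
  ∀ (V : Type) [Fintype V] [DecidableEq V] (T : SimpleGraph V) (k : ℕ) (u : V → ℤ),
    (∀ x : V, dg T x = 1 → Loc T k u {x}) ∧
    (∀ A : Finset V, (∀ x ∈ A, dg T x = 1) → Cov T k u A)

/-- [part] A finite set whose size is divisible by `q > 0` can be partitioned into sets of size `q`.
PROOF. Induction on `A.card / q` (take a subset of size `q`, `Finset.exists_subset_card_eq`), or
`Finpartition.equitabilise`. -/
def S_part : Prop :=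
  ∀ (V : Type) [DecidableEq V] (A : Finset V) (q : ℕ), 0 < q → q ∣ A.card →
    ∃ PP : Finset (Finset V), (∀ p ∈ PP, p ⊆ A ∧ p.card = q) ∧ (∀ x ∈ A, ∃ p ∈ PP, x ∈ p) ∧
      ∀ p ∈ PP, ∀ p' ∈ PP, ∀ x, x ∈ p → x ∈ p' → p = p'

/-- [enum] A finite set can be enumerated in the order of a function `g`.
PROOF. Sort: e.g. induction on the size of `A`, removing an element `x` with maximal `g x`
(`Finset.exists_max_image`) and putting `xs (A.card - 1) := x`. Or `Tuple.sort`. -/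
def S_enum : Prop :=
  ∀ (V : Type) [DecidableEq V] [Nonempty V] (A : Finset V) (g : V → ℕ),
    ∃ xs : ℕ → V, (∀ i < A.card, xs i ∈ A) ∧ (∀ x ∈ A, ∃ i < A.card, xs i = x) ∧
      (∀ i < A.card, ∀ j < A.card, xs i = xs j → i = j) ∧
      ∀ i j : ℕ, i ≤ j → j < A.card → g (xs i) ≤ g (xs j)

/-- [locS] Blocks of `q` vertices of the same degree `d`, `N = d q`.
PROOF. `N := ∑_{x ∈ G} dg T x = q d` divides `k`. For `x ∈ G` let `rr x ∈ [0, q)` be the common residue mod `q` of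
the labels of its neighbours (`x` has `d ≥ 2 > 0` neighbours). Enumerate `G` as `x_0, …, x_{q-1}` with
`rr x_0 ≤ rr x_1 ≤ …` (`S_enum` with `g = rr`), let `ix x` be the index of `x`, `a x := rr x + ix x`.
(i) `a` is strictly increasing in the index and lies in `[0, 2q - 2]`, so (as `2q - 2 < q d`) the `a x` are
different mod `N`. (ii) If `a x - u y ≡ a x' - u y'` mod `N = q d` then mod `q`: `a x - rr x ≡ a x' - rr x'`,
that is `ix x ≡ ix x'` mod `q`, so `ix x = ix x'`, `x = x'`; and then `u y ≡ u y'` mod `q d`, so `y = y'` by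
hypothesis. Uses S_dg, S_enum. -/
def S_locS : Prop :=
  ∀ (V : Type) [Fintype V] [DecidableEq V] (T : SimpleGraph V) (k d q : ℕ) (u : V → ℤ) (G : Finset V),
    2 ≤ d → 0 < q → G.card = q → d * q ∣ k → (∀ x ∈ G, dg T x = d) →
    (∀ x ∈ G, ∀ y y', T.Adj x y → T.Adj x y' → u y ≡ u y' [ZMOD q]) →
    (∀ x ∈ G, ∀ y y', T.Adj x y → T.Adj x y' → u y ≡ u y' [ZMOD ((d * q : ℕ) : ℤ)] → y = y') →
    Loc T k u G

/-- [locL] A main `x` with parent `yp`, children `ch` (the last one is `l`), and padding leaves `P`, for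
Theorem A. `N = deg x + |P|`.
PROOF. Let `d = ch.card + 1`, `p = P.card`, `N = d + p`, `p + 2 ≤ d`. For `w`, `v` apply `block` (Block.lean) with
`u0 = w` and the function `r ↦ if r ∈ P then v r else 0`; choose `ρ w v` and the shifts `a` as functions of
`(w, r ↦ if r ∈ P then v r else 0)`, so the first claim (dependence on `v` only through `P`) is automatic. The
second claim is the first item of `block` (`i + 1 < d`). For the third claim put `a x := 0` and `a r` from `block`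
for `r ∈ P`, with `w = u yp`, `v r = u (pr r)`; `∑_{z ∈ insert x P} dg T z = d + p = N` (`S_dg`).
The positions of `x` are `-u yp`, `-u c ≡ -(u yp + num c)`, `-ρ`: different mod `N` because the residues
`u yp + i` (`0 ≤ i ≤ d-2`) are different and `ρ` is not among them; the positions of the leaves are
`a r - v r`, different from each other and from the others by the last items of `block`; the shifts are
different by items 2, 3. (Compare the last part of `Plan.decomposes` in Plan.lean, the same argument.)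
Uses S_dg. -/
def S_locL : Prop :=
  ∀ (V : Type) [Fintype V] [DecidableEq V] (T : SimpleGraph V) (k : ℕ) (x yp l : V) (ch P : Finset V)
    (num : V → ℕ) (pr : V → V),
    yp ∉ ch → (∀ y, T.Adj x y ↔ y = yp ∨ y ∈ ch) → l ∈ ch →
    (∀ c ∈ ch, c ≠ l → 1 ≤ num c ∧ num c + 1 ≤ ch.card) →
    (∀ c ∈ ch, ∀ c' ∈ ch, c ≠ l → c' ≠ l → num c = num c' → c = c') →
    x ∉ P → (∀ r ∈ P, ∀ y, T.Adj r y ↔ y = pr r) → P.card + 1 ≤ ch.card →
    (ch.card + 1 + P.card) ∣ k →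
    ∃ ρ : ℤ → (V → ℤ) → ℤ,
      (∀ (w : ℤ) (v v' : V → ℤ), (∀ r ∈ P, v r = v' r) → ρ w v = ρ w v') ∧
      (∀ (w : ℤ) (v : V → ℤ) (i : ℕ), i < ch.card →
        ¬ ρ w v ≡ w + i [ZMOD ((ch.card + 1 + P.card : ℕ) : ℤ)]) ∧
      ∀ u : V → ℤ, u l ≡ ρ (u yp) (fun r => u (pr r)) [ZMOD ((ch.card + 1 + P.card : ℕ) : ℤ)] →
        (∀ c ∈ ch, c ≠ l → u c ≡ u yp + num c [ZMOD ((ch.card + 1 + P.card : ℕ) : ℤ)]) →
        Loc T k u (insert x P)

/-- [locY] A vertex `x` padded with leaves attached to one vertex `yo`, whose label is congruent mod `N` to the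
label of a neighbour of `x`.
PROOF. `N = dg T x + P.card = ∑_{z ∈ insert x P} dg T z`. Let `R` be the set of residues mod `N` (in `[0,N)`) of
the labels of the neighbours of `x`, `|R| = dg T x`; the complement `W` of `R` in `[0,N)` has `|P|` elements, let
`δ : P → W` be a bijection. Put `a x = 0`, `a r = u yo - δ r`. Positions: `x`: `-u y`; `r`: `-δ r`; all different
mod `N`. Shifts: `a r` different because the `δ r` are; `a r ≢ 0` because `δ r ≢ u yo`: `u yo` is congruent to the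
label of a neighbour of `x`, which is in `R`. Uses S_dg. -/
def S_locY : Prop :=
  ∀ (V : Type) [Fintype V] [DecidableEq V] (T : SimpleGraph V) (k N : ℕ) (u : V → ℤ) (x yo : V)
    (P : Finset V),
    0 < N → N ∣ k → x ∉ P → dg T x + P.card = N → (∀ r ∈ P, ∀ y, T.Adj r y ↔ y = yo) →
    (∀ y y', T.Adj x y → T.Adj x y' → u y ≡ u y' [ZMOD N] → y = y') →
    (∃ y, T.Adj x y ∧ u y ≡ u yo [ZMOD N]) →
    Loc T k u (insert x P)

/-- [slot] `d - 1` residues mod `N` different from `ρ`, which together with `ρ` contain `t`.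
PROOF. Let `D := (t - ρ) % N ∈ [0, N)`. If `D = 0` or `D ≤ d - 1` put `sl N d ρ t i := ρ + 1 + i` (`i < d - 1`;
contains `ρ + D` if `1 ≤ D ≤ d - 1`). Otherwise (`D ≥ d`) put `sl N d ρ t 0 := ρ + D` and
`sl N d ρ t i := ρ + i` for `1 ≤ i < d - 1`. All these are `ρ + j` with different `j ∈ [1, N-1]`. -/
def S_slot : Prop :=
  ∃ sl : ℕ → ℕ → ℤ → ℤ → ℕ → ℤ, ∀ (N d : ℕ) (ρ t : ℤ), 2 ≤ d → d ≤ N →
    (∀ i < d - 1, ¬ sl N d ρ t i ≡ ρ [ZMOD N]) ∧
    (∀ i < d - 1, ∀ j < d - 1, sl N d ρ t i ≡ sl N d ρ t j [ZMOD N] → i = j) ∧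
    (t ≡ ρ [ZMOD N] ∨ ∃ i < d - 1, sl N d ρ t i ≡ t [ZMOD N])

/-! ## 2. The game (labels of the children of the vertices of small degree) -/

/-- [pot] One step of the game.
PROOF. For `j ≤ J`, `1 ≤ i < d` let `R j i = {t < M0 : t ≡ ρ + i d^j mod d^(j+1)}`; it has `M0 / d^(j+1)` elements
(`d^(j+1) ∣ M0`; e.g. `Nat.count_modEq_card`, `Int.Ico_filter_modEq_card`, or the bijection `s ↦ r + s d^(j+1)`,
`s < M0 / d^(j+1)`, `r` the residue). Let `t j i ∈ R j i` minimise `f` on `R j i` (`Finset.exists_min_image`), so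
`(M0 / d^(j+1)) f (t j i) ≤ ∑_{R j i} f`. The sets `R j i` are pairwise disjoint: for `t ∈ R j i`, `t - ρ` is
divisible by `d^j` but not by `d^(j+1)`, so `j` and then `i` are determined. Let
`g j := ∑_{1 ≤ i < d} f (t j i)`. Then `∑_{j ≤ J} (M0 / d^(j+1)) g j ≤ F := ∑_{t < M0} f t`. If
`(d^(J+1) - 1) M0 g j > (d-1) d^(J+1) F` for all `j ≤ J`, multiply by `1/d^(j+1)` and sum over `j ≤ J`:
`∑_{j ≤ J} d^(-(j+1)) = (d^(J+1) - 1) / ((d-1) d^(J+1))` (geometric sum), so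
`(d^(J+1) - 1) F ≥ (d^(J+1) - 1) ∑ M0 d^(-(j+1)) g j > (d-1) d^(J+1) F ∑_j d^(-(j+1)) = (d^(J+1) - 1) F`,
a contradiction. -/
def S_pot : Prop :=
  ∀ (d J M0 : ℕ) (f : ℕ → ℝ) (ρ : ℤ), 2 ≤ d → 0 < M0 → d ^ (J + 1) ∣ M0 → (∀ t, 0 ≤ f t) →
    ∃ j ≤ J, ∃ t : ℕ → ℕ,
      (∀ i : ℕ, 1 ≤ i → i < d → t i < M0 ∧ (t i : ℤ) ≡ ρ + i * (d : ℤ) ^ j [ZMOD (d : ℤ) ^ (j + 1)]) ∧
      ((d : ℝ) ^ (J + 1) - 1) * M0 * ∑ i ∈ Ico 1 d, f (t i) ≤
        ((d : ℝ) - 1) * (d : ℝ) ^ (J + 1) * ∑ s ∈ range M0, f s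

/-- [run] Strategies from one-step rules.
PROOF. Choose `nxt s r a : Sta` and `ou s r a : Out` with `Step s r a (nxt s r a) (ou s r a)`; define
`st 0 ρ = s0`, `st (s+1) ρ = nxt s (ρ s) (st s ρ)`, `out s ρ = ou s (ρ s) (st s ρ)`. -/
def S_run : Prop :=
  ∀ (Sta Out : Type) (s0 : Sta) (Step : ℕ → ℤ → Sta → Sta → Out → Prop),
    (∀ s r a, ∃ b o, Step s r a b o) →
    ∃ (st : ℕ → (ℕ → ℤ) → Sta) (out : ℕ → (ℕ → ℤ) → Out),
      (∀ ρ, st 0 ρ = s0) ∧ (∀ s ρ, Step s (ρ s) (st s ρ) (st (s + 1) ρ) (out s ρ)) ∧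
      (∀ s (ρ ρ' : ℕ → ℤ), (∀ t < s, ρ t = ρ' t) → st s ρ = st s ρ') ∧
      (∀ s (ρ ρ' : ℕ → ℤ), (∀ t ≤ s, ρ t = ρ' t) → out s ρ = out s ρ')

/-- [strat] The strategy: classes `tt s ρ i < M0` and scales `sc s ρ`.
The number of uses of the class `t` is `∑_{s < n} #{1 ≤ i < deg s : tt s ρ i = t}`.
PROOF. For `2 ≤ d < C` let `K_d = ∑_{j=1}^{J} (d^j - 1) ≤ J C^J`. Call the step `s < n` with `deg s = d` a *fix*
step if `#{s' : s ≤ s' < n, deg s' = d} ≤ K_d`, otherwise *free*; there are at most `C · (J C^J)` fix steps.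
State = `(c, e)` with `c : ℕ → ℕ` (uses of the classes in the free steps) and `e : ℕ → ℕ → ℕ` (`e d j` = number of
steps of size `d` with scale `j` so far); output = `(j, t)`. The rule (for `s < n`; for `s ≥ n` anything), `d = deg s`:
* the output satisfies `j ≤ J` and `t i < M0`, `t i ≡ ρ s + i d^j mod d^(j+1)` for `1 ≤ i < d`;
* `e' d j = e d j + 1`, the other entries of `e` do not change;
* free step: `j`, `t` are given by `S_pot` with `f τ = θ^(c τ)`; `c' τ = c τ + 1` if `τ = t i` for some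
  `1 ≤ i < d` (the `t i` are different: `t i ≡ t i'` gives `d ∣ i - i'`), `c' τ = c τ` otherwise;
* fix step: if some `j' ≤ J` has `¬ d^(j') ∣ e d j'` then `j` is such a `j'`, otherwise `j = 0`; the `t i` are any
  (e.g. the residues in `[0, d^(j+1)) ⊆ [0, M0)`); `c' = c`.
`S_run` gives `st`, `out`. Divisibility: put `Δ s = ∑_{j ≤ J} ((-e_s d j) mod d^j)` (natural number,
`(d^j - e % d^j) % d^j`) and `R s = #{s' : s ≤ s' < n, deg s' = d}`. Claim `Δ s ≤ R s` for `s ≤ n`. True for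
`s = 0` (`Δ 0 = 0`). If `deg s ≠ d` nothing changes. If `deg s = d` and the step is free then
`Δ (s+1) ≤ K_d ≤ R s - 1 = R (s+1)` (`Δ ≤ ∑_{j ≤ J} (d^j - 1) = K_d` always). If it is a fix step then
`Δ (s+1) = Δ s - 1` (if `Δ s > 0`: `j` with `d^j ∤ e d j` is chosen, its summand drops by one) or `0` (if
`Δ s = 0`: `j = 0`, `d^0 = 1`), so `Δ (s+1) ≤ R s - 1` as `R s ≥ 1`. At the end `Δ n = 0`, that is
`d^j ∣ e_n d j` for all `j ≤ J`, and `e_n d j` is the number in the statement.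
Potential: `Φ s = ∑_{τ < M0} θ^(c_s τ)`, `Φ 0 = M0`. In a free step `Φ' = Φ + (θ - 1) ∑_{1 ≤ i < d} θ^(c (t i))
≤ Φ (1 + (θ-1) (d-1) β / M0) ≤ Φ exp ((θ-1) (d-1) β / M0)`, where `β = 2^(J+1) / (2^(J+1) - 1) ≥
d^(J+1) / (d^(J+1) - 1)`. So `θ^(c_n τ) ≤ Φ n ≤ M0 exp ((θ-1) β ∑_{s<n} (deg s - 1) / M0)`; take logarithms. The
number of uses of `τ` is at most `c_n τ` plus the number of fix steps (each step uses `τ` at most once).
Uses S_pot, S_run. -/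
def S_strat : Prop :=
  ∀ (C J M0 : ℕ) (θ : ℝ), 1 < θ → 0 < M0 → (∀ d, 2 ≤ d → d < C → d ^ (J + 1) ∣ M0) →
    ∀ (n : ℕ) (deg : ℕ → ℕ), (∀ s < n, 2 ≤ deg s ∧ deg s < C) →
    ∃ (sc : ℕ → (ℕ → ℤ) → ℕ) (tt : ℕ → (ℕ → ℤ) → ℕ → ℕ),
      (∀ s (ρ ρ' : ℕ → ℤ), (∀ t ≤ s, ρ t = ρ' t) → sc s ρ = sc s ρ' ∧ tt s ρ = tt s ρ') ∧
      (∀ s < n, ∀ ρ, sc s ρ ≤ J) ∧
      (∀ s < n, ∀ ρ, ∀ i : ℕ, 1 ≤ i → i < deg s → tt s ρ i < M0 ∧
        (tt s ρ i : ℤ) ≡ ρ s + i * (deg s : ℤ) ^ sc s ρ [ZMOD (deg s : ℤ) ^ (sc s ρ + 1)]) ∧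
      (∀ ρ d, 2 ≤ d → d < C → ∀ j ≤ J,
        d ^ j ∣ ((range n).filter (fun s => deg s = d ∧ sc s ρ = j)).card) ∧
      (∀ ρ, ∀ t < M0,
        ((∑ s ∈ range n, ((Ico 1 (deg s)).filter (fun i => tt s ρ i = t)).card : ℕ) : ℝ) * Real.log θ ≤
          (C * (J * C ^ J) : ℕ) * Real.log θ + Real.log M0 +
          (θ - 1) * ((2 : ℝ) ^ (J + 1) / ((2 : ℝ) ^ (J + 1) - 1)) * (∑ s ∈ range n, (deg s - 1) : ℕ) / M0)

/-- [game] The game is won with `(1+η) Y + K` labels, `Y = ∑ (deg s - 1)`.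
PROOF. We may assume `η ≤ 1` (replace `η` by `min η 1`). Let `δ = η / 4`, `θ = 1 + δ`, and choose `J` with
`β := 2^(J+1) / (2^(J+1) - 1) ≤ 1 + η/4`. Then `(θ-1) / log θ ≤ 1 + δ` (as `log θ ≥ 1 - 1/θ = δ/(1+δ)`,
`Real.one_sub_inv_le_log_of_pos`) and `(1+δ) β ≤ (1 + η/4)² ≤ 1 + η`. Given `M0`, put
`Bf Y := ⌊(Kf log θ + log M0 + (θ-1) β Y / M0) / log θ⌋₊ + 1`, `Kf = C (J C^J)`, so
`M0 Bf Y ≤ M0 Kf + M0 log M0 / log θ + (1+η) Y + M0`, and `K` := the ceiling of the constant part. Take `sc`, `tt`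
from `S_strat`. Let `uses s ρ t := ∑_{s' < s} #{1 ≤ i < deg s' : tt s' ρ i = t}` and
`lab s ρ i := tt s ρ i + M0 · uses s ρ (tt s ρ i)`. `nonant`: clear. `bnd`: with `t = tt s ρ i`,
`uses s ρ t + 1 ≤ uses (s+1) ρ t ≤ uses n ρ t ≤ ⌊…⌋₊ < Bf Y`, and `t < M0`. `cong`: `d^(j+1) ∣ M0`
(`j ≤ J`, `d^(J+1) ∣ M0`). `inj`: equal labels have the same class `t` (residue mod `M0`) and the same `uses`; if
`s < s'` then `uses s' ρ t ≥ uses (s+1) ρ t ≥ uses s ρ t + 1`, contradiction; so `s = s'`, and `i = i'` because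
`i d^j ≡ i' d^j mod d^(j+1)` gives `d ∣ i - i'`. `count`: from `S_strat`. Uses S_strat. -/
def S_game : Prop :=
  ∀ (C : ℕ) (η : ℝ), 0 < η → ∃ J : ℕ, ∀ M0 : ℕ, 0 < M0 → (∀ d, 2 ≤ d → d < C → d ^ (J + 1) ∣ M0) →
    ∃ (K : ℕ) (Bf : ℕ → ℕ), (∀ Y : ℕ, ((M0 * Bf Y : ℕ) : ℝ) ≤ (1 + η) * Y + K) ∧
      ∀ (n : ℕ) (deg : ℕ → ℕ), (∀ s < n, 2 ≤ deg s ∧ deg s < C) →
        ∃ (sc : ℕ → (ℕ → ℤ) → ℕ) (lab : ℕ → (ℕ → ℤ) → ℕ → ℤ),
          Game C J M0 n deg (Bf (∑ s ∈ range n, (deg s - 1))) sc lab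

/-! ## 3. The labelling -/

/-- [lab] The labelling of `Y`: prescribed labels `f` on `F`; the children of the large mains `x ∈ ML` get labels
in an own interval of length `N x` with prescribed residues `g x u c` mod `N x`; the children of the small mains
`x ∈ MS` get labels from the game, in the order `xs 0, xs 1, …` of `MS`. All residues may depend on labels that
are earlier in the order given by `μ`.
PROOF. `offsets` (Plan.lean) gives `off : V → ℕ` for `ML`, `N`: disjoint intervals `[off x, off x + N x)` in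
`[0, S0)`, `S0 = ∑_{z ∈ ML} N z`. `rec_exists` (Plan.lean) with `body y w :=`
* `f y` if `y ∈ F`;
* `off x + (g x w y - off x) % N x` if `y ∈ ch x` for some `x ∈ ML` (choose; `x` is unique);
* `S0 + lab s (fun t => w (par (xs t)) - S0) (idx y)` if `y ∈ ch (xs s)` for some `s < MS.card` (choose, unique);
* `0` otherwise.
gives `u` with `u y = body y (fun z => if μ z < μ y then u z else 0)`. Put `ρ t := u (par (xs t)) - S0`. For
`x ∈ ML`, `c ∈ ch x`: the truncated function agrees with `u` on `{z : μ z < μ c}`, so by the hypothesis on `g`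
`u c = off x + (g x u c - off x) % N x ≡ g x u c`. For `c ∈ ch (xs s)`: for `t ≤ s`, `μ (par (xs t)) ≤
μ (par (xs s)) < μ c`, so the argument of `lab s` agrees with `ρ` up to `s` and by `nonant`
`u c = S0 + lab s ρ (idx c)`, `cong` gives `u c ≡ S0 + ρ s + idx c d^j = u (par (xs s)) + idx c d^j`. Ranges and
injectivity: intervals of different `x ∈ ML` are disjoint, children of the same `x ∈ ML` have different residues
`g x u c`; `ML`-labels are `< S0`, `MS`-labels are in `[S0, S0 + M0 B)` and different by `Game.inj` and the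
injectivity of `idx` on `ch x`. (Compare `Plan.decomposes`.) -/
def S_lab : Prop :=
  ∀ (V : Type) [Fintype V] [DecidableEq V] (μ : V → ℕ) (par : V → V) (ML MS : Finset V)
    (ch : V → Finset V) (N : V → ℕ) (g : V → (V → ℤ) → V → ℤ) (F : Finset V) (f : V → ℤ)
    (C J M0 B : ℕ) (deg : ℕ → ℕ) (sc : ℕ → (ℕ → ℤ) → ℕ) (lab : ℕ → (ℕ → ℤ) → ℕ → ℤ)
    (xs : ℕ → V) (idx : V → ℕ),
    Disjoint ML MS →
    (∀ x ∈ ML ∪ MS, ∀ c ∈ ch x, c ∉ F ∧ μ (par x) < μ c) →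
    (∀ x ∈ ML ∪ MS, ∀ x' ∈ ML ∪ MS, ∀ c, c ∈ ch x → c ∈ ch x' → x = x') →
    (∀ x ∈ ML, 0 < N x) →
    (∀ x ∈ ML, ∀ c ∈ ch x, ∀ w w' : V → ℤ, (∀ z, μ z < μ c → w z = w' z) → g x w c = g x w' c) →
    (∀ x ∈ ML, ∀ w : V → ℤ, ∀ c ∈ ch x, ∀ c' ∈ ch x, g x w c ≡ g x w c' [ZMOD N x] → c = c') →
    Game C J M0 MS.card deg B sc lab →
    (∀ s < MS.card, xs s ∈ MS ∧ deg s = (ch (xs s)).card + 1) →
    (∀ x ∈ MS, ∃ s < MS.card, xs s = x) →
    (∀ s < MS.card, ∀ s' < MS.card, xs s = xs s' → s = s') →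
    (∀ s t : ℕ, s ≤ t → t < MS.card → μ (par (xs s)) ≤ μ (par (xs t))) →
    (∀ x ∈ MS, ∀ c ∈ ch x, 1 ≤ idx c ∧ idx c ≤ (ch x).card) →
    (∀ x ∈ MS, ∀ c ∈ ch x, ∀ c' ∈ ch x, idx c = idx c' → c = c') →
    ∃ (u : V → ℤ) (ρ : ℕ → ℤ),
      (∀ y ∈ F, u y = f y) ∧
      (∀ x ∈ ML, ∀ c ∈ ch x, u c ≡ g x u c [ZMOD N x]) ∧
      (∀ s < MS.card, ∀ c ∈ ch (xs s), u c ≡ u (par (xs s)) + idx c * (deg s : ℤ) ^ sc s ρ
        [ZMOD (deg s : ℤ) ^ (sc s ρ + 1)]) ∧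
      (∀ x ∈ ML ∪ MS, ∀ c ∈ ch x, 0 ≤ u c ∧ u c < ((∑ z ∈ ML, N z + M0 * B : ℕ) : ℤ)) ∧
      (∀ x ∈ ML ∪ MS, ∀ x' ∈ ML ∪ MS, ∀ c ∈ ch x, ∀ c' ∈ ch x', u c = u c' → c = c')

/-- [covS] The small mains can be partitioned into parts that can be developed.
PROOF. Let `n = MS.card`. For `d ∈ [2, C)`, `j ≤ J` let `A d j = {xs s : s < n, deg s = d, sc0 s = j}`; `MS` is
the disjoint union of the `A d j` (`xs` is a bijection from `[0,n)` to `MS`), and `|A d j|` is divisible by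
`q = d^j` by hypothesis. By `S_part` it is partitioned into sets `G` of size `q`. `Loc T k u G` by `S_locS`:
`d q = d^(j+1)` divides `d^(J+1) ∣ M0 ∣ k`; for `x = xs s ∈ G`: `dg T x = (ch x).card + 1 = d` (`S_dg` (4) with
`s = insert (par x) (ch x)`), the neighbours `par x`, `c ∈ ch x` have labels `u (par x)`,
`≡ u (par x) + idx c d^j mod d^(j+1)` with `1 ≤ idx c ≤ d - 1` different for different `c`: all congruent mod `d^j`
and different mod `d^(j+1)`. Conclude with `S_cov` (2), (4) (index set: pairs `(d, j)`, and inside the sets of the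
partition), or give the partition directly. Uses S_dg, S_cov, S_part, S_locS. -/
def S_covS : Prop :=
  ∀ (V : Type) [Fintype V] [DecidableEq V] (T : SimpleGraph V) (k C J M0 : ℕ) (u : V → ℤ)
    (MS : Finset V) (xs : ℕ → V) (deg sc0 : ℕ → ℕ) (par : V → V) (ch : V → Finset V) (idx : V → ℕ),
    M0 ∣ k → (∀ d, 2 ≤ d → d < C → d ^ (J + 1) ∣ M0) →
    (∀ s < MS.card, xs s ∈ MS) → (∀ x ∈ MS, ∃ s < MS.card, xs s = x) →
    (∀ s < MS.card, ∀ s' < MS.card, xs s = xs s' → s = s') →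
    (∀ x ∈ MS, par x ∉ ch x ∧ ∀ y, T.Adj x y ↔ y = par x ∨ y ∈ ch x) →
    (∀ s < MS.card, deg s = (ch (xs s)).card + 1 ∧ 2 ≤ deg s ∧ deg s < C) →
    (∀ x ∈ MS, ∀ c ∈ ch x, 1 ≤ idx c ∧ idx c ≤ (ch x).card) →
    (∀ x ∈ MS, ∀ c ∈ ch x, ∀ c' ∈ ch x, idx c = idx c' → c = c') →
    (∀ s < MS.card, sc0 s ≤ J) →
    (∀ s < MS.card, ∀ c ∈ ch (xs s), u c ≡ u (par (xs s)) + idx c * (deg s : ℤ) ^ sc0 s
      [ZMOD (deg s : ℤ) ^ (sc0 s + 1)]) →
    (∀ d, 2 ≤ d → d < C → ∀ j ≤ J,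
      d ^ j ∣ ((range MS.card).filter (fun s => deg s = d ∧ sc0 s = j)).card) →
    Cov T k u MS

/-! ## 4. Theorem A -/

/-- [A] **Theorem A.** If the larger class `X` of `T` has no vertex of too large degree then `T` decomposes
`K_{m,k}` already for `k` about `∑_{x ∈ X} (dg x - 1)`.
PROOF. `J` from `S_game`, then `K`, `Bf`. Put `N' x := if C ≤ dg T x then N x else dg T x`. `plan_exists`
(Tree.lean) with `N'` gives a plan `Q : Plan T X N'` with `2 ≤ deg x` for the mains (`T.degree = dg T`, `S_dg`;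
for `2 ≤ dg x < C`: `dg x + 2 ≤ 2 dg x`). A vertex `x ∈ X` outside `Q.M` is a leaf (`leaf_adj`, `leaf_ex`). For
`x ∈ Q.M`: `T.Adj x y ↔ y = par x ∨ y ∈ ch x`, `par x ∉ ch x` (`μ_par`), so `dg T x = (ch x).card + 1`.
`ML = Q.M.filter (C ≤ dg T ·)`, `MS = Q.M.filter (dg T · < C)`; `P x = ∅` for `x ∈ MS` by `P_card`. For `x ∈ ML`
take `ρ_x` from `S_locL` (`yp = par x`, `l = last x`, `ch = Q.ch x`, `P = Q.P x`, `num`, `pr = Q.par`; for
`r ∈ P x`: `T.Adj r y ↔ y = par r` by `P_spec`, `leaf_adj`) and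
`g x w c := if c = last x then ρ_x (w (par x)) (fun r => w (par r)) else w (par x) + num c`. It depends only on
earlier labels: `μ_par`, `μ_P` and the first property of `ρ_x`; the residues of different children are different:
`num c ∈ [1, (ch x).card - 1]`, second property of `ρ_x`. Enumerate `MS` by `S_enum` with `g = μ ∘ par`,
`deg s := dg T (xs s)`; `∑_{s < MS.card} (deg s - 1) = ∑_{x ∈ MS} (dg T x - 1) =: Y0`. Game with `B = Bf Y0`. `idx` on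
each `ch x`: a numbering `1, …, |ch x|` (the sets `ch x` are disjoint, as `par c = x`; e.g. `rank_spec` in
Tree.lean with an injection `V → ℕ`). `F = {y0}`, `f = k - 1`. `S_lab` gives `u`, `ρ`. Labels of `Y`: every
`y ∉ X`, `y ≠ y0` is in `ch (par y)` with `par y ∈ Q.M` (`cover`), so its label is in `[0, k-1)` by the capacity
hypothesis (`∑_{ML} N + M0 B + 1 ≤ k`), and `u y0 = k - 1`: different mod `k`. `Cov T k u X`: `X` is the disjoint
union of `insert x (Q.P x)` (`x ∈ ML`; `Loc` by the third property of `ρ_x`; disjoint by `P_disj`, `P_spec`), `MS`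
(`S_covS` with `sc0 s = sc s ρ`, `Game.sc_le`, `Game.count`), and the other leaves (`S_locF`). `S_crit`.
(`k > 0` by the capacity.) Uses S_dg, S_crit, S_cov, S_locF, S_enum, S_locL, S_game, S_lab, S_covS. -/
def S_A : Prop :=
  ∀ (C : ℕ) (η : ℝ), 0 < η → ∃ J : ℕ, ∀ M0 : ℕ, 0 < M0 → (∀ d, 2 ≤ d → d < C → d ^ (J + 1) ∣ M0) →
    ∃ K : ℕ, ∀ (V : Type) [Fintype V] [DecidableEq V] (T : SimpleGraph V), T.IsTree →
      ∀ X : Finset V, (∀ a b, T.Adj a b → (a ∈ X ↔ b ∉ X)) → Xᶜ.card ≤ X.card →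
      2 ≤ Fintype.card V → ∀ m k : ℕ, Fintype.card V = m + 1 → M0 ∣ k → ∀ N : V → ℕ,
      (∀ x ∈ X, C ≤ dg T x → 2 ≤ dg T x → N x ∣ k ∧ dg T x ≤ N x ∧ N x + 2 ≤ 2 * dg T x) →
      (1 : ℝ) + ∑ x ∈ X.filter (fun x => C ≤ dg T x ∧ 2 ≤ dg T x), (N x : ℝ) +
        (1 + η) * ∑ x ∈ X.filter (fun x => 2 ≤ dg T x ∧ dg T x < C), ((dg T x : ℝ) - 1) + K ≤ k →
      Decomposes T (completeBipartiteGraph (Fin m) (Fin k))

/-! ## 5. Choice of `k` -/

/-- [k1] A `k` with many divisors (for R1).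
PROOF. Let `L = M0 · (2 C)!`: a multiple of `M0` and of every `s ∈ [1, 2C]`. `γ = 1/(2L)`, `n0 = L C`. Let
`n ≥ n0`, `1 ≤ lam`, and let `A` be the largest natural number with `2^A L C ≤ lam n` (exists, as
`L C ≤ n ≤ lam n`; `lam n < 2^(A+1) L C`), `t = ⌈lam n / (2^A L)⌉ ∈ [C, 2C]`, `k = 2^A L t`. Then
`lam n ≤ k < lam n + 2^A L ≤ lam n (1 + 1/C)`. Let `C ≤ d ≤ γ n`; let `b` be the largest with `2^b C ≤ d`
(`d < 2^(b+1) C`) and `s = ⌈d / 2^b⌉ ∈ [C, 2C]`, `N = 2^b s`: `d ≤ N < d + 2^b`, so `C N ≤ C d + C 2^b ≤ (C+1) d`.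
`2^b C ≤ d ≤ n/(2L)` and `2^(A+1) L C > lam n ≥ n` give `2^b C ≤ n / (2L) < 2^A C`, so `b ≤ A` and
`N = 2^b s ∣ 2^A L ∣ k`. -/
def S_k1 : Prop :=
  ∀ C M0 : ℕ, 1 ≤ C → 0 < M0 → ∃ (γ : ℝ) (n0 : ℕ), 0 < γ ∧ ∀ n : ℕ, n0 ≤ n → ∀ lam : ℝ, 1 ≤ lam →
    ∃ k : ℕ, M0 ∣ k ∧ lam * n ≤ k ∧ (k : ℝ) ≤ lam * (1 + 1 / C) * n ∧
      ∀ d : ℕ, C ≤ d → (d : ℝ) ≤ γ * n → ∃ N, N ∣ k ∧ d ≤ N ∧ C * N ≤ (C + 1) * d

/-- [k2] A `k` such that every `d ∈ [2, k/2]` has a divisor `N` of `k` with `d ≤ N ≤ 3d/2` (for R2).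
PROOF. `k = 6 · 2^A · M0 · t`, with `t ∈ [Q, 2Q]`: let `A` be the largest with `6 · 2^A M0 Q ≤ lam n` (exists if
`n ≥ 6 M0 Q`), `t = ⌈lam n / (6 · 2^A M0)⌉ ∈ [Q, 2Q]`, so `lam n ≤ k ≤ lam n + 6 · 2^A M0 ≤ lam n (1 + 1/Q)`.
`n0` is so large that `2^A ≥ 4 M0 Q` (for `n ≥ n0`, `2^(A+1) · 6 M0 Q > lam n ≥ n`). Divisors of `k`: `2^a` and
`3 · 2^a` for `a ≤ A`; and `k / 2^a`, `k / (3 · 2^a)` for `a ≤ A`. Let `2 ≤ d`, `2 d ≤ k`.
Case `d ≤ 2^A`: let `2^b < d ≤ 2^(b+1)`, `b + 1 ≤ A` (or `d = 2^(b+1)` exactly). If `d ≤ 3 · 2^(b-1)` (`b ≥ 1`) take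
`N = 3 · 2^(b-1) < 3d/2`, otherwise `N = 2^(b+1)`, `2 N = 2^(b+2) < 3 d` as `d > 3 · 2^(b-1)` gives
`3 d > 9 · 2^(b-1) > 2^(b+2)`. (`b = 0`: `d = 2 = N`.)
Case `d > 2^A`: let `e = k / d` be considered as a real number, `e ≥ 2`, and `e < k / 2^A = 6 M0 t ≤ 12 M0 Q ≤
3 · 2^A`. Take the largest `c ≤ e` in `{2^a, 3 · 2^(a-1) : 1 ≤ a ≤ A}` ∪ `{3 · 2^A}`-range (that is: `2^b ≤ e <
2^(b+1)`, `b ≥ 1`, `c = 3 · 2^(b-1)` if `3 · 2^(b-1) ≤ e`, `c = 2^b` otherwise): then `c ∣ 3 · 2^A ∣ k` and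
`c ≤ e < 3c/2` (`2^b ≤ e < 3 · 2^(b-1)` or `3 · 2^(b-1) ≤ e < 4 · 2^(b-1)`). `N = k / c`: `N ≥ k / e = d` and
`N = k / c < (3/2) k / e = (3/2) d`. In natural numbers: `c d ≤ k` and `2 k ≤ 3 c d`, `N c = k`. -/
def S_k2 : Prop :=
  ∀ Q M0 : ℕ, 1 ≤ Q → 0 < M0 → ∃ n0 : ℕ, ∀ n : ℕ, n0 ≤ n → ∀ lam : ℝ, 1 ≤ lam →
    ∃ k : ℕ, M0 ∣ k ∧ Even k ∧ lam * n ≤ k ∧ (k : ℝ) ≤ lam * (1 + 1 / Q) * n ∧
      ∀ d : ℕ, 2 ≤ d → 2 * d ≤ k → ∃ N, N ∣ k ∧ d ≤ N ∧ 2 * N ≤ 3 * d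

/-- [R1] **Small degrees in one class.**
PROOF. Let `ε ≤ 1` without loss of generality (`min ε 1`). Choose `C ≥ 3` with `(C+1)/(C-1) ≤ 1 + ε/4` and
`(1 + ε/2)(1 + 1/C) ≤ 1 + ε`, `η = ε/4`. `J` from `S_A`, `M0 = (C !)^(J+1)`, `K` from `S_A`, `γ`, `n0` from `S_k1`
(and `n0 ≥ 2`, `n0 ≥ 4 (K+1)/ε`), `lam = 1 + ε/2`, `k` from `S_k1`. Let `T`, `c` be given,
`X = {v | c v = true}` (`Finset.univ.filter`), `|X| = |Xᶜ| = n`, `|V| = 2n`, `m = 2n-1`. For `x ∈ X` with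
`C ≤ dg x` choose `N x ∣ k`, `dg x ≤ N x`, `C N x ≤ (C+1) dg x`; then `N x + 2 ≤ 2 dg x` (as `C ≥ 3`, `dg x ≥ 3`:
`(1 - 1/C) dg x ≥ 2`). Capacity: for `dg x ≥ C`: `N x ≤ (1 + 1/C) dg x ≤ (1+1/C) (C/(C-1)) (dg x - 1) =
((C+1)/(C-1)) (dg x - 1)`; so the left side is at most `1 + K + (1 + ε/4) ∑_{x ∈ X} (dg x - 1) =
1 + K + (1+ε/4) (n-1)` (`∑_{x ∈ X} dg x = 2n-1`, `dg x ≥ 1`, `S_dg`) `≤ (1 + ε/2) n ≤ k`. Apply `S_A`.
(`T.neighborSet v).ncard = dg T v`.) Uses S_dg, S_A, S_k1. -/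
def S_R1 : Prop :=
  ∀ ε : ℝ, 0 < ε → ∃ γ : ℝ, 0 < γ ∧ ∃ n0 : ℕ, ∀ n : ℕ, n0 ≤ n → ∃ k : ℕ, 0 < k ∧
    (k : ℝ) ≤ (1 + ε) * n ∧
    ∀ (V : Type) [Fintype V] (T : SimpleGraph V) (c : V → Bool), T.IsTree →
      (∀ u v, T.Adj u v → c u ≠ c v) →
      Fintype.card {v // c v = true} = n → Fintype.card {v // c v = false} = n →
      (∀ v, c v = true → ((T.neighborSet v).ncard : ℝ) ≤ γ * n) →
      Decomposes T (completeBipartiteGraph (Fin (2 * n - 1)) (Fin k))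

/-! ## 6. Trees with a vertex of very large degree in both classes -/

/-- The exponent of `S_coef`: variable `0` has exponent `p - e`, variable `i + 1` has exponent `p - 2` if
`i ∈ Bs` and `p` otherwise. -/
def texp (p e : ℕ) (Bs : Finset (Fin p)) (i : Fin (p + 1)) : ℕ :=
  Fin.cases (motive := fun _ => ℕ) (p - e) (fun j => if j ∈ Bs then p - 2 else p) i

/-- [coef] A coefficient of a product of two Vandermonde polynomials.
Let `2 |Bs| + e = p`. The coefficient of `x_0^(p-e) ∏_{i ∉ Bs} x_{i+1}^p ∏_{i ∈ Bs} x_{i+1}^(p-2)` in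
`∏_{0 ≤ i < j ≤ p} (x_j - x_i) · ∏_{1 ≤ i < j ≤ p} (x_j - x_i)` is not zero.
PROOF. Let `b = |Bs|`, `a = p - b = b + e`. First product `= ∑_σ sgn σ ∏_{i=0}^{p} x_i^{σ i}` over the permutations `σ` of
`{0..p}`, second `= ∑_τ sgn τ ∏_{i=1}^{p} x_i^{τ i}` over the bijections `τ : {1..p} → {0..p-1}` (`vdm_eq`, `rename`).
We need `σ 0 = p - e = 2b` and `σ i + τ i = t i ∈ {p, p-2}`. Put `A1 = {s : s < 2b, s odd} ∪ {s : 2b < s ≤ p}`,
`A2 = {s < 2b : s even}` (sizes `b + e = a` and `b`) and `φ s = p - s` for `s ∈ A1`, `φ s = p - 2 - s` for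
`s ∈ A2`. CLAIM: `σ i ∈ A1 ↔ t i = p` and `σ i ∈ A2 ↔ t i = p-2`, hence `τ i = φ (σ i)`. Indeed let
`ψ s = τ (σ⁻¹ s)` for `s ∈ {0..p} ∖ {2b}`, a bijection onto `{0..p-1}` with `ψ s ∈ {p - s, p - 2 - s}`.
(1) By induction on `l < b`: `ψ (2l) = p - 2 - 2l` and `ψ (2l+1) = p - 2l - 1`. `l = 0`: `ψ 0 = p` is impossible
(values `< p`), so `ψ 0 = p-2`; the value `p - 1` can only be taken at `s = 1` (`p - s = p-1`; `p-2-s = p-1` is
impossible). Step: `ψ (2l) = p - 2l` is impossible since this value is `ψ (2l-2)`; the value `p - 2l - 1` is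
taken at `s = 2l+1` or at `s = 2l - 1` (as `p - 2 - s`), but `ψ (2l-1) = p - 2l + 1`, so at `s = 2l+1`.
(2) By induction on `m < e`: `ψ (p - m) = m`: `ψ (p-m) ∈ {m, m - 2}` and `m - 2` is `ψ (p - m + 2)` or negative.
So the pairs `(σ, τ)` with the right exponents correspond to the bijections `σ` with `σ 0 = 2b`,
`σ {i : t i = p} = A1`, `σ {i : t i = p - 2} = A2`: there is at least one (sizes), and for two of them
`σ' = σ ∘ π`, `τ' = τ ∘ π` with a permutation `π` of `{1..p}` (fixing `0`), so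
`sgn σ' sgn τ' = sgn σ sgn τ (sgn π)²` is the same for all of them. The coefficient is `± a! b!`.
(See `coeff_vdm_sq` in CN.lean for the technique. An alternative to the explicit claim (1), (2): only the
constant sign is needed, i.e. that `ψ` is the same for all pairs.) -/
def S_coef : Prop :=
  ∀ (p e : ℕ) (Bs : Finset (Fin p)), 2 * Bs.card + e = p →
    MvPolynomial.coeff (Finsupp.equivFunOnFinite.symm (texp p e Bs))
      (vdm (p + 1) * MvPolynomial.rename (Fin.succ : Fin p → Fin (p + 1)) (vdm p)) ≠ 0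

/-- [Z] The choice lemma for the big block.
PROOF. Choose `Bs ⊇ Bd` and `e ∈ {F.card, F.card + 1}` with `2 |Bs| + e = p` (possible: if `p - |F|` is even take
`e = |F|`, `|Bs| = (p - |F|)/2 ≥ |Bd|`; if it is odd then `e = |F| + 1`, `|Bs| = (p - |F| - 1)/2 ≥ |Bd|`, since
`2|Bd| ≤ p - |F|` and the right side is odd; `|Bs| ≤ p`). Apply the Combinatorial Nullstellensatz
(`combinatorial_nullstellensatz_exists_eval_nonzero`, see `cn_exists` in CN.lean) in the variables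
`x_0, …, x_p` to `∏_{0 ≤ i < j ≤ p} (x_j - x_i) · ∏_{1 ≤ i < j ≤ p} (x_j - x_i - c)` with the constants
`c = c (i-1) (j-1)`, the exponent `texp p e Bs` and the grids `W ∖ F` for `x_0`, `W ∖ Z (i-1)` for `x_i`. Its top
part is that of `S_coef` (`TopEq`), total degree `p(p+1)/2 + p(p-1)/2 = p²`, and
`(p - e) + (p - |Bs|) p + |Bs| (p-2) = p² + p - e - 2|Bs| = p²`. Grid sizes: `|W ∖ F| = p + 1 - |F| > p - e`;
`|W ∖ Z i| = p + 1 > p` if `i ∉ Bs` (then `i ∉ Bd`), `≥ p - 1 > p - 2` if `i ∈ Bs` (if `p ≥ 2`; `Bs ≠ ∅` gives `p ≥ 2`).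
So there is a point where all factors are nonzero: `x_0 ∈ W ∖ F` and `δ i := x_{i+1}` are `p + 1` different
elements of `W`, so all of `W`: every `f ∈ F` is some `δ i` (it is not `x_0`). Uses S_coef. -/
def S_Z : Prop :=
  ∀ (p : ℕ) (W F : Finset ℤ) (Z : Fin p → Finset ℤ) (Bd : Finset (Fin p)) (c : Fin p → Fin p → ℤ),
    W.card = p + 1 → F ⊆ W → (∀ i, (Z i).card ≤ 2) → (∀ i, i ∉ Bd → Disjoint (Z i) W) →
    2 * Bd.card + F.card ≤ p →
    ∃ δ : Fin p → ℤ, (∀ i, δ i ∈ W ∧ δ i ∉ Z i) ∧ (∀ i j, i < j → δ j ≠ δ i ∧ δ j - δ i ≠ c i j) ∧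
      ∀ f ∈ F, ∃ i, δ i = f

/-- [locH] The big block, `N = k`: the vertex `h` of large degree, the vertices of `E` (at most one), and the
padding leaves `PH`; `pr r` is the neighbour of the leaf `r`. The label `z` of `lf` is found here.
We use coordinates: the coordinate of the edge `x y` is `u y - a x` mod `k` (minus its position). `h` has `a h = 0`
and occupies the coordinates `[w, k)` and that of `lf`; `E` occupies `CE ⊆ [0, w)`. Coordinates `W = [0,w) ∖ CE`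
remain, `|W| = w - |CE| = k + 1 - dg h - ∑_E dg = |PH| + 1`.
PROOF. Let `p = |PH|`, number `PH = {r_0, …, r_{p-1}}`. For a filler `r` with `v = u (pr r)` placed at the coordinate
`δ r ∈ W` we take `a r = v - δ r`. `Z r :=` the set of the `δ ∈ [0, w)` with `δ ≡ v` or `δ ≡ v - a0 x`, `x ∈ E`
(mod `k`): at most `1 + |E| ≤ 2` elements (`w ≤ k`). If `r ∉ Bd`, `Z r` is disjoint from `W` by hypothesis. For
`i < j` let `c i j` be the integer in `(-k/2, k/2]` congruent to `v_j - v_i`: as `|δ_j - δ_i| < w ≤ k/2`,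
`δ_j - δ_i ≢ v_j - v_i` mod `k` as soon as `δ_j - δ_i ≠ c i j`. `S_Z` gives `δ`. Let `z` be the element of `W` which
is not a `δ r` (`|W| = p + 1`, the `δ r` are different); `z ∉ F`. Put `a h = 0`, `a x = a0 x` for `x ∈ E`,
`a r = u (pr r) - δ r` for `r ∈ PH`, `u' = update u lf z` (`u'` agrees with `u` at the neighbours of `E ∪ PH`, and at
the neighbours of `h` other than `lf`). `∑ dg = dg h + ∑_E dg + |PH| = k`.
Shifts: `a0 x ≢ 0`; `a r ≢ 0` and `a r ≢ a0 x` since `δ r ∉ Z r`; `a r_i ≢ a r_j` since `δ_j - δ_i ≢ v_j - v_i`;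
`|E| ≤ 1`. Coordinates: the neighbours `y ≠ lf` of `h` have `dg h - 1 = k - w` different labels in `[w, k)`, `lf` has
`z ∈ W`; `E` has `CE`: for the unique `x ∈ E`, the coordinates of its edges are different mod `k` and congruent to
elements of `CE`; `r` has `δ r ∈ W ∖ {z}`, different. (`CE`, `W`, `[w,k)` are disjoint subsets of `[0,k)`.)
Uses S_dg, S_Z. -/
def S_locH : Prop :=
  ∀ (V : Type) [Fintype V] [DecidableEq V] (T : SimpleGraph V) (k w : ℕ) (u : V → ℤ) (h lf : V)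
    (E PH Bd : Finset V) (pr : V → V) (a0 : V → ℤ) (CE F : Finset ℤ),
    0 < k → 2 * w ≤ k → E.card ≤ 1 → h ∉ E → h ∉ PH → Disjoint E PH →
    T.Adj h lf → (∀ x ∈ E ∪ PH, ¬ T.Adj x lf) →
    (∀ y, T.Adj h y → y ≠ lf → (w : ℤ) ≤ u y ∧ u y < k) →
    (∀ y y', T.Adj h y → T.Adj h y' → y ≠ lf → y' ≠ lf → u y = u y' → y = y') →
    dg T h + w = k + 1 →
    (∀ x ∈ E, ¬ a0 x ≡ 0 [ZMOD k]) →
    (∀ x ∈ E, ∀ y, T.Adj x y → ∃ δ ∈ CE, δ ≡ u y - a0 x [ZMOD k]) →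
    (∀ x ∈ E, ∀ y y', T.Adj x y → T.Adj x y' → u y ≡ u y' [ZMOD k] → y = y') →
    CE.card = ∑ x ∈ E, dg T x → (∀ δ ∈ CE, 0 ≤ δ ∧ δ < w) →
    (∀ r ∈ PH, ∀ y, T.Adj r y ↔ y = pr r) →
    dg T h + ∑ x ∈ E, dg T x + PH.card = k →
    Bd ⊆ PH →
    (∀ r ∈ PH, r ∉ Bd → ∀ δ : ℤ, 0 ≤ δ → δ < w → δ ∉ CE →
      ¬ δ ≡ u (pr r) [ZMOD k] ∧ ∀ x ∈ E, ¬ δ ≡ u (pr r) - a0 x [ZMOD k]) →
    (∀ δ ∈ F, 0 ≤ δ ∧ δ < w ∧ δ ∉ CE) → 2 * Bd.card + F.card ≤ PH.card →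
    ∃ z : ℤ, 0 ≤ z ∧ z < w ∧ z ∉ CE ∧ z ∉ F ∧
      Loc T k (Function.update u lf z) (insert h (E ∪ PH))

/-- [alloc] Disjoint subsets of prescribed sizes.
PROOF. Induction on `A` (insert): take a subset of the remaining part of `L`. Put `P x = ∅` for `x ∉ A`. -/
def S_alloc : Prop :=
  ∀ (V : Type) [DecidableEq V] (L A : Finset V) (s : V → ℕ), ∑ x ∈ A, s x ≤ L.card →
    ∃ P : V → Finset V, (∀ x ∈ A, (P x).card = s x) ∧ (∀ x, x ∉ A → P x = ∅) ∧ (∀ x, P x ⊆ L) ∧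
      ∀ x x' r, r ∈ P x → r ∈ P x' → x = x'

/-- [fill] The padding leaves in the double hub case.
PROOF. Let `D = dg h`, `lam = dg yo`, `LX` = set of the leaves in `X`, `LXo ⊆ LX` those adjacent to `yo`,
`s0 = ∑_{x ∈ E} dg x` (`0` or `dg x0 ≥ 2`), `s1 = ∑_{x ∈ E} (dg x - 2)`. `|V| = 2n`, `∑_{x ∈ X} dg x = 2n - 1`, and the
same for `Xᶜ`; `dg ≥ 1` (`n ≥ 1`; `S_dg`). So `∑_{x ∈ X} (dg x - 1) = n - 1`, and with the number `n - |LX|` of
nonleaves, `∑_{x ∈ X, dg x ≥ 2} (dg x - 2) = n - 1 - (n - |LX|) = |LX| - 1`. (Also `2n ≥ 2`.)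
(a) `|LXo| ≥ lam - (n - |LX|)`: the neighbours of `yo` are in `X`, at most `n - |LX|` are nonleaves.
(b) `A = {x ∈ X : dg x ≥ 2, x ≠ h, x ∉ E}`, `S = ∑_{x ∈ A} (N x - dg x) ≤ ∑_{x ∈ A} (dg x - 2) =
|LX| - 1 - (D - 2) - s1`. (`h ∉ A`, `D ≥ 2` since `2D > k ≥ 3n/2`: if `D ≤ 1` then `k ≤ 1`, `k = 0`, `n = 0`; but
`h ∈ X` gives `n ≥ 1`.)
(c) `R := |LXo| - S ≥ lam + D - n - 1 + s1 ≥ 0`, since `2 lam ≥ k + 2`, `2 D ≥ k + 2` (`k` even) and `k ≥ 3n/2`.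
`S_alloc` gives disjoint `P x ⊆ LXo`, `x ∈ A`, `|P x| = N x - dg x`; `R` elements of `LXo` remain, and
`|LX| - S ≥ D - 1 + s1` leaves remain in all.
(d) `p := k - D - s0` is `≥ 0`: `s0 - 1 ≤ n - D` if `E ≠ ∅` (`∑_{x ∈ X} (dg x - 1) = n - 1` contains the terms of `h`
and `x0`), so `D + s0 ≤ n + 1 ≤ k` (`k ≥ 3n/2`, `n ≥ 2`; `n = 1` is impossible as `D ≤ n`: `k < 2`, `k = 0`).
`p ≤ |LX| - S`: `k - D - s0 ≤ D - 1 + s1` as `k ≤ 2D - 2`.
(e) If `R ≥ p`: `PH` = `p` of the remaining elements of `LXo`, `Bd = ∅`; `n ≤ p + D = k - s0`: if `E = ∅` this is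
`n ≤ k`; otherwise `s0 ≤ n - D + 1`, `n + s0 ≤ 2n + 1 - D ≤ 2n + 1 - (3n/4 + 1) ≤ 3n/2 ≤ k` (`D ≥ k/2 + 1 ≥ 3n/4 + 1`).
If `R < p`: `PH` = all `R` remaining elements of `LXo` and `p - R` leaves of `LX ∖ LXo`
(`|LX ∖ LXo| = |LX| - |LXo| = (|LX| - S) - R ≥ p - R`), which form `Bd`. `2 (p - R) + n ≤ p + D` iff
`p + n - D ≤ 2R`: `k - 2D - s0 + n ≤ 2 lam + 2D - 2n - 2 + 2 s1` iff
`k + 3n + 2 ≤ 2 lam + 4D + 2 s1 + s0`, true as `2 lam + 4 D ≥ 3k + 6` and `2k ≥ 3n`.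
(f) `lf`: a leaf adjacent to `h`. The neighbours of `h` are `D` vertices of `Xᶜ`, and `Xᶜ` has
`|LY| = 1 + ∑_{y ∉ X, dg y ≥ 2} (dg y - 2) ≥ 1 + (lam - 2)` leaves, so at most `n - lam + 1` nonleaves;
`D - (n - lam + 1) ≥ (k + 2) - n - 1 ≥ 1`. Uses S_dg, S_alloc. -/
def S_fill : Prop :=
  ∀ (V : Type) [Fintype V] [DecidableEq V] (T : SimpleGraph V), T.IsTree →
    ∀ X : Finset V, (∀ a b, T.Adj a b → (a ∈ X ↔ b ∉ X)) →
    ∀ (n k : ℕ) (h yo : V) (E : Finset V) (N : V → ℕ), X.card = n → Xᶜ.card = n → Even k →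
      3 * n ≤ 2 * k → h ∈ X → yo ∉ X → k < 2 * dg T h → k < 2 * dg T yo →
      E ⊆ X → E.card ≤ 1 → h ∉ E → (∀ x ∈ E, 2 ≤ dg T x) →
      (∀ x ∈ X, 2 ≤ dg T x → x ≠ h → x ∉ E → dg T x ≤ N x ∧ N x + 2 ≤ 2 * dg T x) →
      ∃ (P : V → Finset V) (PH Bd : Finset V) (lf : V),
        (∀ x ∈ X, 2 ≤ dg T x → x ≠ h → x ∉ E →
          dg T x + (P x).card = N x ∧ ∀ r ∈ P x, r ∈ X ∧ dg T r = 1 ∧ T.Adj r yo) ∧
        (∀ x x' r, r ∈ P x → r ∈ P x' → x = x') ∧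
        (∀ r ∈ PH, r ∈ X ∧ dg T r = 1 ∧ ∀ x, r ∉ P x) ∧
        dg T h + ∑ x ∈ E, dg T x + PH.card = k ∧ Bd ⊆ PH ∧ (∀ r ∈ PH, r ∉ Bd → T.Adj r yo) ∧
        2 * Bd.card + n ≤ PH.card + dg T h ∧ T.Adj h lf ∧ dg T lf = 1

/-- [root] The root: the neighbour `rt` of `h` on the path from `h` to `yo`.
PROOF. `h ≠ yo`, `T` connected: let `rt` be a neighbour of `h` with `dist yo h = dist yo rt + 1` (as in
`parent_exists`, Tree.lean: apply `parent_exists` with root `yo` and `rt := par h`). Now `parent_exists` with root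
`rt`. `par h = rt`: `T.Adj rt h` gives (third property) `rt ≠ rt ∧ …` or `par h = rt`. `dist rt h = 1`. Suppose
`yo ≠ rt`. If `par yo = h` then `dist rt yo = dist rt h + 1 = 2`, but `T.Adj yo h`, so `dist yo h = 1`,
contradiction to `dist yo h = dist yo rt + 1 = 3`. If `par yo ≠ rt` (true, since `par yo ∈ X`, `rt ∉ X`),
`par (par yo) ≠ rt` and `par (par (par yo)) = h` then `dist rt yo = dist rt h + 3 = 4` and `dist yo h ≤ 3`,
contradiction to `dist yo h = dist yo rt + 1 = 5`. `2 ≤ dg rt` (if `rt ≠ yo`): there is a neighbour `z` of `rt` with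
`dist yo rt = dist yo z + 1` (root `yo` again); `z ≠ h` because `dist yo h = dist yo rt + 1`; so `rt` has the two
neighbours `h`, `z`. -/
def S_root : Prop :=
  ∀ (V : Type) [Fintype V] [DecidableEq V] (T : SimpleGraph V), T.IsTree →
    ∀ X : Finset V, (∀ a b, T.Adj a b → (a ∈ X ↔ b ∉ X)) → ∀ h ∈ X, ∀ yo ∉ X,
    ∃ (rt : V) (par : V → V), rt ∉ X ∧ T.Adj rt h ∧ par h = rt ∧ par rt = rt ∧
      (∀ v, v ≠ rt → T.Adj v (par v) ∧ T.dist rt v = T.dist rt (par v) + 1) ∧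
      (∀ a b, T.Adj a b → (a ≠ rt ∧ par a = b) ∨ (b ≠ rt ∧ par b = a)) ∧
      (yo ≠ rt → 2 ≤ dg T rt ∧ par yo ≠ h ∧ (par (par yo) ≠ rt → par (par (par yo)) ≠ h))

/-- [DB1] The labelling in the double hub case. `Hs` (later `{h} ∪ E`) is the set of the special vertices of `X`;
the labels of the root `rt` and of the children of `Hs` are prescribed (`f`); `yo` is one of them.
PROOF. `MLs = {x ∈ X : x ∉ Hs, C ≤ dg x}` (`C ≥ 2`), `MSs = {x ∈ X : x ∉ Hs, 2 ≤ dg x < C}`, `μ = dist rt`,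
`ch x = {y : y ≠ rt, par y = x}` for `x ∈ X`, so for `x ∈ X` (`x ≠ rt`): `T.Adj x y ↔ y = par x ∨ y ∈ ch x`,
`par x ∉ ch x`, `dg x = |ch x| + 1`, and for `c ∈ ch x`: `dist rt c = dist rt x + 1 = dist rt (par x) + 2`.
`F = {y ∉ X : y = rt ∨ par y ∈ Hs}`. Enumerate `MSs` by `S_enum` with `g = μ ∘ par`, `deg s = dg (xs s)`; then
`∑_{s < |MSs|} (deg s - 1) = ∑_{x ∈ MSs} (dg x - 1)`, the game is given by the hypothesis. `idx` numbers each `ch x`
by `1, …, |ch x|` (`rank_spec`, Tree.lean). For `x ∈ MLs`, `c ∈ ch x`: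
`g x w c := sl (N x) (dg x) (w (par x)) (f yo) (idx c - 1)` (`S_slot`); it depends only on `w (par x)`, and different
children get different residues. `S_lab` gives `u`, `ρ`. `u yo = f yo` as `yo ∈ F`.
For `x ∈ MLs`: the neighbours of `x` have labels different mod `N x` (children: different residues
`sl …`, none `≡ u (par x)`), and `u yo` is congruent to one of them (third property of `S_slot`; every `i < dg x - 1` is
`idx c - 1` for a child `c`, by counting: `idx` is injective on `ch x` with values in `[1, |ch x|]`). So `Loc`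
of `insert x (P x)` by `S_locY`; `MSs` by `S_covS`. These sets are disjoint (the elements of `P x` are leaves, the
mains are not; the `P x` are disjoint). `S_cov`. Uses S_dg, S_cov, S_enum, S_locY, S_slot, S_lab, S_covS. -/
def S_DB1 : Prop :=
  ∀ (V : Type) [Fintype V] [DecidableEq V] (T : SimpleGraph V), T.IsTree →
    ∀ X : Finset V, (∀ a b, T.Adj a b → (a ∈ X ↔ b ∉ X)) →
    ∀ (rt : V) (par : V → V), rt ∉ X → par rt = rt →
    (∀ v, v ≠ rt → T.Adj v (par v) ∧ T.dist rt v = T.dist rt (par v) + 1) →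
    (∀ a b, T.Adj a b → (a ≠ rt ∧ par a = b) ∨ (b ≠ rt ∧ par b = a)) →
    ∀ (Hs : Finset V) (yo : V), Hs ⊆ X → yo ∉ X → (yo = rt ∨ par yo ∈ Hs) →
    ∀ (f : V → ℤ) (C J M0 B k : ℕ) (N : V → ℕ) (P : V → Finset V), 2 ≤ C → M0 ∣ k →
    (∀ d, 2 ≤ d → d < C → d ^ (J + 1) ∣ M0) →
    (∀ x ∈ X, x ∉ Hs → C ≤ dg T x → N x ∣ k ∧ dg T x + (P x).card = N x ∧
      ∀ r ∈ P x, r ∈ X ∧ dg T r = 1 ∧ T.Adj r yo) →
    (∀ x x' r, r ∈ P x → r ∈ P x' → x = x') →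
    (∀ deg : ℕ → ℕ,
      (∀ s < (X.filter (fun x => x ∉ Hs ∧ 2 ≤ dg T x ∧ dg T x < C)).card, 2 ≤ deg s ∧ deg s < C) →
      ∑ s ∈ range (X.filter (fun x => x ∉ Hs ∧ 2 ≤ dg T x ∧ dg T x < C)).card, (deg s - 1) =
        ∑ x ∈ X.filter (fun x => x ∉ Hs ∧ 2 ≤ dg T x ∧ dg T x < C), (dg T x - 1) →
      ∃ sc lab, Game C J M0 (X.filter (fun x => x ∉ Hs ∧ 2 ≤ dg T x ∧ dg T x < C)).card deg B sc lab) →
    ∃ u : V → ℤ,
      (∀ y ∉ X, (y = rt ∨ par y ∈ Hs) → u y = f y) ∧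
      (∀ y ∉ X, y ≠ rt → par y ∉ Hs → 0 ≤ u y ∧
        u y < ((∑ x ∈ X.filter (fun x => x ∉ Hs ∧ C ≤ dg T x), N x + M0 * B : ℕ) : ℤ)) ∧
      (∀ y ∉ X, ∀ y' ∉ X, y ≠ rt → par y ∉ Hs → y' ≠ rt → par y' ∉ Hs → u y = u y' → y = y') ∧
      Cov T k u (X.filter (fun x => x ∉ Hs ∧ 2 ≤ dg T x) ∪
        (X.filter (fun x => x ∉ Hs ∧ C ≤ dg T x)).biUnion P)

/-- [DB] **Theorem B** (double hub case): `T` has a vertex of degree `> k/2` in both classes.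
PROOF. `J`, then `K`, `Bf` from `S_game` with `η = 1/2`. `rt`, `par` from `S_root`. `E = ∅` if `yo = rt` and
`E = {x0}`, `x0 = par yo`, otherwise (`x0 ∈ X`, `x0 ≠ h`, `dg x0 ≥ 2` since `x0` is adjacent to `yo` and to `par x0`,
which are different by distances). `Hs = insert h E`. `N' x = if C ≤ dg x then N x else dg x`;
`2 N x ≤ 3 dg x`, `dg x ≥ 4` give `N x + 2 ≤ 2 dg x`. `S_fill` with `N'` gives `P`, `PH`, `Bd`, `lf`. With
`MS = {x ∈ X : x ∉ Hs, 2 ≤ dg x < C}`, `ML = {x ∈ X : x ∉ Hs, C ≤ dg x}`, `B = Bf (∑_{MS} (dg x - 1))`,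
`Q0 = ∑_{ML} N x + M0 B`, `q = Q0 + ∑_{x ∈ E} (dg x - 1)`, `w = k + 1 - dg h`. Then `2q ≤ w` by the capacity hypothesis
(`dg x0 - 1 ≤ N x0` or `≤ (3/2)(dg x0 - 1)`; `M0 B ≤ (3/2) ∑_{MS} (dg x - 1) + K`), and `2 w ≤ k` (`k` even,
`2 dg h ≥ k + 2`), `dg h ≤ k` (`dg h ≤ n`).
Prescribed labels `f`: `f rt = k - 1`; the children of `h` (the `y ≠ rt` with `par y = h`, that is the neighbours of
`h` except `rt`) other than `lf`, `dg h - 2 = k - 1 - w` vertices, get the different labels in `[w, k-1)`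
(`lf ≠ rt`: `dg lf = 1`, and `2 ≤ dg rt` by `S_root` or, if `rt = yo`, by `k < 2 dg yo`; so `par lf = h`);
the `dg x0 - 1` children of `x0` get the different labels in `[Q0, q)`, with `f yo = q - 1`.
`S_DB1` gives `u` (with `Hs = insert h E`; the hypothesis on the game is `S_game`).
Big block: `a0 x0 = u (par x0) - (q - 1)`. If `par x0 = rt`: `a0 x0 = k - q`; the coordinates `u c - a0 x0` of the
children `c` are `≡ u c + q ∈ [q, 2q)`. Otherwise `par (par x0) ∈ X` is `≠ h` (`S_root`), `≠ x0`, so `par x0` is not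
rt and not a child of `Hs`, `u (par x0) ∈ [0, Q0)`, `a0 x0 ∈ [-(q-1), Q0 - q] ⊆ (-k, 0)` and the coordinates are
`u c - u (par x0) + q - 1 ∈ [q, 2q)` since `u c ≥ Q0 > u (par x0)` and `u c ≤ q - 1`. The coordinate of `par x0` is
`q - 1`. So `CE := {q - 1} ∪ {those of the children} ⊆ [0, 2q) ⊆ [0, w)`, `|CE| = dg x0` (`CE = ∅` if `E = ∅`).
`F := ({u y : y ∉ X, ¬ T.Adj h y} ∩ [0, w)) ∖ CE` has at most `n - dg h` elements, so `2|Bd| + |F| ≤ |PH|` by `S_fill`.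
Fillers `r ∈ PH ∖ Bd` are attached to `yo`: if `E ≠ ∅`, `u yo = q - 1 ∈ CE` and `u yo - a0 x0` is the coordinate of the
edge `x0 yo`, which is in `CE`; if `E = ∅`, `u yo = u rt = k - 1 ∉ [0, w)` mod `k` (`w ≤ k - 1`). `pr r` := the
neighbour of `r` (`S_dg`). `S_locH` gives `z`; `u' := update u lf z`.
Labels: `u'` is injective mod `k` on `Y`, values in `[0, k)`: ordinary vertices (`y ≠ rt`, `par y ∉ Hs`) in
`[0, Q0)`, children of `x0` in `[Q0, q)`, children `≠ lf` of `h` in `[w, k-1)`, `rt`: `k-1`, `lf`: `z ∈ [0, w)`, not in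
`F ∪ CE`, so different from all labels of the vertices `y` not adjacent to `h` (their label in `[0,w)` is in `F` or
`CE`). `Cov T k u' X`: `X` is the disjoint union of `insert h (E ∪ PH)` (`Loc`), the set in `S_DB1` (`Cov` for `u`,
hence for `u'` by `S_cov` (5): `lf` is adjacent only to `h`), and the remaining vertices, which are leaves
(`S_locF`). `S_crit` with `m = 2n - 1`. Uses S_dg, S_crit, S_cov, S_locF, S_game, S_locH, S_fill, S_root, S_DB1. -/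
def S_DB : Prop :=
  ∀ C : ℕ, 4 ≤ C → ∃ J : ℕ, ∀ M0 : ℕ, 0 < M0 → (∀ d, 2 ≤ d → d < C → d ^ (J + 1) ∣ M0) →
    ∃ K : ℕ, ∀ (V : Type) [Fintype V] [DecidableEq V] (T : SimpleGraph V), T.IsTree →
      ∀ X : Finset V, (∀ a b, T.Adj a b → (a ∈ X ↔ b ∉ X)) →
      ∀ (n k : ℕ) (h yo : V) (N : V → ℕ), X.card = n → Xᶜ.card = n → M0 ∣ k → Even k →
      3 * n ≤ 2 * k → n + 1 ≤ k → h ∈ X → yo ∉ X → k < 2 * dg T h → k < 2 * dg T yo →
      (∀ x ∈ X, x ≠ h → C ≤ dg T x → N x ∣ k ∧ dg T x ≤ N x ∧ 2 * N x ≤ 3 * dg T x) →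
      2 * ((∑ x ∈ X.filter (fun x => x ≠ h ∧ C ≤ dg T x), (N x : ℝ)) +
        3 / 2 * (∑ x ∈ X.filter (fun x => x ≠ h ∧ 2 ≤ dg T x ∧ dg T x < C), ((dg T x : ℝ) - 1)) + K) ≤
        (k : ℝ) - dg T h + 1 →
      Decomposes T (completeBipartiteGraph (Fin (2 * n - 1)) (Fin k))

/-- [R2] **The bound `k(n) ≤ (3/2 + ε) n`.**
PROOF. Without loss of generality `ε ≤ 1`. Choose `C ≥ 4` with `C/(C-1) ≤ 1 + ε/8` and `Q` with
`(3/2 + ε/2)(1 + 1/Q) ≤ 3/2 + ε`. `J1` from `S_A` (`C`, `η = 1/2`), `J2` from `S_DB` (`C`), `J = max J1 J2`,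
`M0 = (C !)^(J+1)`, `K1`, `K2`, `K = max`. `n0` from `S_k2` and `n0 ≥ 4`, `n0 ≥ 8 (K+1)/ε`; `lam = 3/2 + ε/2`; `k` from
`S_k2`; `k ≥ (3/2) n ≥ n + 1`. Let `T` be a balanced tree with colouring `c`, `X = {c v = true}`. For `d ≥ C` with
`2 d ≤ k` choose `N ∣ k`, `d ≤ N`, `2N ≤ 3d` (so `N + 2 ≤ 2d`). `∑_{x ∈ X} (dg x - 1) = n - 1`, same for `Xᶜ`.
Case 1: `2 dg x ≤ k` for all `x` in one of the classes, call it `X`. `S_A`: the left side is
`≤ 1 + K + (3/2)(C/(C-1)) (n-1) ≤ 1 + K + (3/2 + 3ε/16)(n-1) ≤ lam n ≤ k`, using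
`N x ≤ (3/2) dg x ≤ (3/2)(C/(C-1))(dg x - 1)`.
Case 2: `h ∈ X`, `yo ∉ X` with `k < 2 dg h`, `k < 2 dg yo`. For `x ∈ X`, `x ≠ h`: `(dg x - 1) + (dg h - 1) ≤ n - 1`, so
`2 dg x ≤ 2n + 2 - 2 dg h ≤ 2n + 1 - k ≤ k`. `D = dg h ≤ n`. `∑_{x ∈ X, x ≠ h} (dg x - 1) = n - D`. `S_DB`: the left side is
`≤ 3 (1 + ε/8)(n - D) + 2K ≤ k - D + 1`, since `3n + (3ε/8) n + 2K ≤ (3 + ε) n ≤ 2k ≤ k + 2D`.
`S n` is the set of the `k > 0` such that all balanced trees decompose `K_{2n-1,k}`; `k ≤ lam (1 + 1/Q) n ≤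
(3/2 + ε) n`. Uses S_dg, S_A, S_DB, S_k2. -/
def S_R2 : Prop :=
  ∀ ε : ℝ, 0 < ε → ∃ n0 : ℕ, ∀ n : ℕ, n0 ≤ n → ∃ k ∈ S n, (k : ℝ) ≤ (3 / 2 + ε) * n

end Pool.Agent.Lib.MP_7c15de_co.TH
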